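import Pool.Agent.Lib.MP_7c15de_co.TH.Stm

/-!
# MP_7c15de_co, `k(n) = (1 + o(1)) n`: definitions
-/

set_option autoImplicit false

namespace Pool.Agent.Lib.MP_7c15de_co.AS

open Finset Pool.Agent.Lib.MP_7c15de_co Pool.Agent.Lib.MP_7c15de_co.TH

/-- The children of the vertex `x ∈ X` (all of them are in `Y = Xᶜ`). -/
def kids {V : Type} [Fintype V] [DecidableEq V] (X : Finset V) (y0 : V) (par : V → V) (x : V) :
    Finset V :=
  univ.filter (fun y => y ∉ X ∧ y ≠ y0 ∧ par y = x)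

/-- A rooted structure of the tree `T` with root `y0 ∉ X`: `par v` is the parent of `v ≠ y0`
(`par y0` is not used), `μ` is a function that increases from a vertex `y ∉ X` to its grandchildren. -/
structure Rt {V : Type} (T : SimpleGraph V) (X : Finset V) (y0 : V) (par : V → V) (μ : V → ℕ) :
    Prop where
  y0X : y0 ∉ X
  parX : ∀ x ∈ X, par x ∉ X
  parY : ∀ y ∉ X, y ≠ y0 → par y ∈ X
  adj : ∀ x ∈ X, ∀ y, T.Adj x y ↔ y = par x ∨ (y ∉ X ∧ y ≠ y0 ∧ par y = x)
  lt : ∀ y ∉ X, y ≠ y0 → μ (par (par y)) < μ y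

/-- The numerical parameters. A vertex of the class `X` (with the host size `k`) is *heavy* if `k < C * dg x`,
*medium* if `C1 ≤ dg x` and `C * dg x ≤ k`, *small* if `2 ≤ dg x < C1`, and a *leaf* if `dg x = 1`. -/
structure Prm (ε δ : ℝ) (C C1 J M0 K : ℕ) (Bf : ℕ → ℕ) : Prop where
  ε0 : 0 < ε
  ε1 : ε ≤ 1
  εC : 100 ≤ ε * C
  δ0 : 0 < δ
  δε : δ ≤ ε / 50
  C1C : 1000 * C ^ 2 ≤ C1
  M0C : C1 ≤ M0
  q : ∀ d N : ℕ, C1 ≤ d → (C - 1) * N ≤ C * d → (N : ℝ) ≤ (1 + δ) * ((d : ℝ) - 1)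
  dv : ∀ d, 2 ≤ d → d < C1 → d ^ (J + 1) ∣ M0
  B : ∀ Y : ℕ, ((M0 * Bf Y : ℕ) : ℝ) ≤ (1 + δ) * Y + K
  G : ∀ (n : ℕ) (deg : ℕ → ℕ), (∀ s < n, 2 ≤ deg s ∧ deg s < C1) →
    ∃ (sc : ℕ → (ℕ → ℤ) → ℕ) (lab : ℕ → (ℕ → ℤ) → ℕ → ℤ),
      Game C1 J M0 n deg (Bf (∑ s ∈ range n, (deg s - 1))) sc lab

/-- The properties of the host size `k`. -/
structure Host (ε : ℝ) (C C1 M0 n k : ℕ) : Prop where
  lo : (1 + ε) * n ≤ k
  hi : (k : ℝ) ≤ (1 + 3 * ε) * n
  dM : M0 ∣ k
  dS : ∀ s, 1 ≤ s → s ≤ C → s ∣ k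
  dN : ∀ d, C1 ≤ d → C * d ≤ k → ∃ N, N ∣ k ∧ d ≤ N ∧ (C - 1) * N ≤ C * d

/-- The leaves in `X`. -/
noncomputable def lf {V : Type} (T : SimpleGraph V) (X : Finset V) : Finset V :=
  X.filter (fun r => dg T r = 1)

/-- The special vertices in construction (J): the heavy vertices of `Y` and the parents of `H`. -/
def spJ {V : Type} [DecidableEq V] (HY H : Finset V) (par : V → V) : Finset V := HY ∪ H.image par

/-- The children of `H`, not special, without a leaf in `U`. -/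
def ntJ {V : Type} [Fintype V] [DecidableEq V] (X : Finset V) (ys : V) (par : V → V)
    (HY H U : Finset V) : Finset V :=
  Xᶜ.filter (fun c => c ≠ ys ∧ par c ∈ H ∧ c ∉ spJ HY H par ∧ ∀ r ∈ U, par r ≠ c)

/-- The children of `H`, not special, with a leaf in `U`. -/
def ltJ {V : Type} [Fintype V] [DecidableEq V] (X : Finset V) (ys : V) (par : V → V)
    (HY H U : Finset V) : Finset V :=
  Xᶜ.filter (fun c => c ≠ ys ∧ par c ∈ H ∧ c ∉ spJ HY H par ∧ ∃ r ∈ U, par r = c)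

/-- The leaves of `U` that are attached to a vertex which is not special and not a child of `H`. -/
def bJ {V : Type} [DecidableEq V] (par : V → V) (HY H U : Finset V) : Finset V :=
  U.filter (fun r => par r ∉ spJ HY H par ∧ par (par r) ∉ H)

/-- The grandparents of the leaves in `bJ`. -/
def xbJ {V : Type} [DecidableEq V] (X : Finset V) (par : V → V) (HY H U : Finset V) : Finset V :=
  X.filter (fun x => x ∉ H ∧ ∃ r ∈ U, par r ∉ spJ HY H par ∧ par (par r) = x)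

/-- Constants in construction (J): the number of exceptional coordinates, a bound for the length of the zone, and
the number of the children without leaves at the top. -/
def cL (C M0 : ℕ) : ℕ := 4 * C + 5 + (M0 + C + 1) * (2 * C + 2)

/-- See `cL`. -/
def cLm (C M0 : ℕ) : ℕ := cL C M0 + (3 * C + 4) * (C + 1)

/-- See `cL`. -/
def cσ (C M0 : ℕ) : ℕ := cLm C M0 + C + 2

end Pool.Agent.Lib.MP_7c15de_co.AS
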