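import Pool.Agent.Lib.MP_7c15de_co.AS.Stm
import Pool.Agent.Lib.MP_7c15de_co.TH.P_dg

/-!
# MP_7c15de_co, [AS F1]: the fillers of one heavy vertex
-/

set_option autoImplicit false

namespace Pool.Agent.Lib.MP_7c15de_co.AS

open Finset Pool.Agent.Lib.MP_7c15de_co Pool.Agent.Lib.MP_7c15de_co.TH

/-- Congruent integers at distance less than `N` are equal. -/
private lemma f1_eq_of_modEq {N : ℕ} {a b : ℤ} (h : a ≡ b [ZMOD N]) (h1 : a - b < N)
    (h2 : b - a < N) : a = b := by
  have hd : (N : ℤ) ∣ b - a := Int.ModEq.dvd h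
  have : b - a = 0 := by
    refine Int.eq_zero_of_abs_lt_dvd hd ?_
    rw [abs_lt]
    constructor
    · linarith
    · exact h2
  linarith

/-- The number of the free coordinates. -/
private lemma f1_card {V : Type} [Fintype V] (T : SimpleGraph V) (N : ℕ)
    (u : V → ℤ) (x : V) (w0 : ℤ) (hN : 0 < N) (hd2 : 2 ≤ dg T x) (hdN : dg T x ≤ N)
    (hinj : ∀ y y', T.Adj x y → T.Adj x y' → u y ≡ u y' [ZMOD N] → y = y')
    (hfree : ∀ δ : ℤ, (∀ y, T.Adj x y → ¬ u y ≡ δ [ZMOD N]) →
      ∃ j : ℕ, j ≤ N - dg T x ∧ δ ≡ w0 + j [ZMOD N]) :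
    ∃ W : Finset ℤ, W.card = N - dg T x ∧
      ∀ δ ∈ W, (w0 ≤ δ ∧ δ ≤ w0 + (N - dg T x : ℕ)) ∧ ∀ y, T.Adj x y → ¬ u y ≡ δ [ZMOD N] := by
  classical
  have : NeZero N := ⟨hN.ne'⟩
  let W : Finset ℤ := ((Finset.range (N - dg T x + 1)).image (fun j : ℕ => w0 + (j : ℤ))).filter
    (fun δ => ∀ y, T.Adj x y → ¬ u y ≡ δ [ZMOD N])
  have hW : ∀ δ : ℤ, δ ∈ W ↔ (∃ j : ℕ, j ≤ N - dg T x ∧ w0 + (j : ℤ) = δ) ∧
      ∀ y, T.Adj x y → ¬ u y ≡ δ [ZMOD N] := by
    intro δ
    simp only [W, Finset.mem_filter, Finset.mem_image, Finset.mem_range, Nat.lt_succ_iff]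
  refine ⟨W, ?_, ?_⟩
  · let nb : Finset V := univ.filter (fun y => T.Adj x y)
    have hnb : nb.card = dg T x := ((p_dg V T).2.2.2.1 x nb (fun y => by simp [nb])).symm
    let used : Finset (ZMod N) := nb.image (fun y => ((u y : ℤ) : ZMod N))
    have hused : used.card = dg T x := by
      rw [← hnb]
      refine Finset.card_image_of_injOn ?_
      intro y hy y' hy' h
      have hy1 : T.Adj x y := by simpa [nb] using hy
      have hy2 : T.Adj x y' := by simpa [nb] using hy'
      exact hinj y y' hy1 hy2 ((ZMod.intCast_eq_intCast_iff _ _ _).1 h)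
    have hfr : (usedᶜ).card = N - dg T x := by
      rw [Finset.card_compl, hused, ZMod.card]
    have himg : W.image (fun δ : ℤ => (δ : ZMod N)) = usedᶜ := by
      ext z
      rw [Finset.mem_image, Finset.mem_compl]
      constructor
      · rintro ⟨δ, hδ, rfl⟩ hz
        obtain ⟨y, hy, hyz⟩ := Finset.mem_image.1 hz
        have hy1 : T.Adj x y := by simpa [nb] using hy
        exact ((hW δ).1 hδ).2 y hy1 ((ZMod.intCast_eq_intCast_iff _ _ _).1 hyz)
      · intro hz
        obtain ⟨δ, rfl⟩ := ZMod.intCast_surjective z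
        have hδ : ∀ y, T.Adj x y → ¬ u y ≡ δ [ZMOD N] := by
          intro y hy hmod
          apply hz
          exact Finset.mem_image.2 ⟨y, by simpa [nb] using hy,
            (ZMod.intCast_eq_intCast_iff _ _ _).2 hmod⟩
        obtain ⟨j, hj, hjm⟩ := hfree δ hδ
        refine ⟨w0 + j, (hW _).2 ⟨⟨j, hj, rfl⟩, ?_⟩, ?_⟩
        · intro y hy hmod
          exact hδ y hy (hmod.trans hjm.symm)
        · exact (ZMod.intCast_eq_intCast_iff _ _ _).2 hjm.symm
    rw [← hfr, ← himg, Finset.card_image_of_injOn]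
    intro δ hδ δ' hδ' h
    obtain ⟨⟨j, hj, hj1⟩, -⟩ := (hW δ).1 hδ
    obtain ⟨⟨j', hj', hj1'⟩, -⟩ := (hW δ').1 hδ'
    refine f1_eq_of_modEq ((ZMod.intCast_eq_intCast_iff _ _ _).1 h) ?_ ?_
    · rw [← hj1, ← hj1']
      omega
    · rw [← hj1, ← hj1']
      omega
  · intro δ hδ
    obtain ⟨⟨j, hj, hj1⟩, h2⟩ := (hW δ).1 hδ
    refine ⟨⟨?_, ?_⟩, h2⟩
    · rw [← hj1]; omega
    · rw [← hj1]; omega

theorem p_F1 (hseq : S_seq) (harc : S_arc) : S_F1 := by
  intro V _ _ T k N β u x S pr w0 hN hNk hd2 hdN hxS hpr hinj hfree hcount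
  classical
  obtain ⟨W, hWc, hW⟩ := f1_card T N u x w0 hN hd2 hdN hinj (fun δ hδ => (hfree δ hδ).1)
  obtain ⟨e, he⟩ := harc V N (dg T x - 2) S (fun r => u (pr r)) hN (by omega)
  set S' : Finset V := S.filter (fun r => (u (pr r) - e) % N < ((dg T x - 2 : ℕ) : ℤ)) with hS'
  have hS'c : N - dg T x + β ≤ S'.card := by
    have h1 : N * (N - dg T x + β) ≤ N * S'.card := le_trans hcount he
    exact Nat.le_of_mul_le_mul_left h1 hN
  have hv : ∀ r, e + (u (pr r) - e) % N ≡ u (pr r) [ZMOD N] := by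
    intro r
    have h1 : (u (pr r) - e) % N ≡ u (pr r) - e [ZMOD N] := Int.mod_modEq _ _
    have h2 := h1.add_left e
    rwa [add_sub_cancel] at h2
  have hN' : (0 : ℤ) < N := by exact_mod_cast hN
  obtain ⟨P, δ, hPS, hPc, hδW, hδinj, hsh, hsh0⟩ := hseq V N (N - dg T x) β S'
    (fun r => e + (u (pr r) - e) % N) e w0 W hWc (fun δ hδ => (hW δ hδ).1)
    (by
      intro r hr
      have h1 := (Finset.mem_filter.1 hr).2
      have h2 : 0 ≤ (u (pr r) - e) % N := Int.emod_nonneg _ hN'.ne'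
      beta_reduce
      constructor
      · omega
      · omega)
    hS'c
    (by
      intro δ hδ
      refine le_trans (Finset.card_le_card ?_) (hfree δ (hW δ hδ).2).2
      intro r hr
      rw [Finset.mem_filter] at hr ⊢
      exact ⟨(Finset.mem_filter.1 hr.1).1, (hv r).symm.trans hr.2⟩)
  beta_reduce at hsh hsh0
  have hPS2 : P ⊆ S := fun r hr => (Finset.mem_filter.1 (hPS hr)).1
  have hxP : x ∉ P := fun h => hxS (hPS2 h)
  have hdg1 : ∀ r ∈ P, dg T r = 1 := by
    intro r hr
    have := (p_dg V T).2.2.2.1 r {pr r} (fun y => by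
      rw [Finset.mem_singleton]; exact hpr r (hPS2 hr) y)
    rw [this, Finset.card_singleton]
  have hsum : ∑ z ∈ insert x P, dg T z = N := by
    rw [Finset.sum_insert hxP, Finset.sum_congr rfl hdg1, Finset.sum_const, hPc, smul_eq_mul,
      mul_one]
    omega
  refine ⟨P, hPS2, hPc, ?_⟩
  unfold Loc
  rw [hsum]
  refine ⟨hNk, fun z => if z = x then 0 else u (pr z) - δ z, ?_, ?_⟩
  · intro z hz z' hz' h
    beta_reduce at h
    by_cases hzx : z = x <;> by_cases hzx' : z' = x
    · rw [hzx, hzx']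
    · exfalso
      rw [if_pos hzx, if_neg hzx'] at h
      have hz'P : z' ∈ P := (Finset.mem_insert.1 hz').resolve_left hzx'
      apply hsh0 z' hz'P
      exact ((hv z').sub_right (δ z')).trans h.symm
    · exfalso
      rw [if_neg hzx, if_pos hzx'] at h
      have hzP : z ∈ P := (Finset.mem_insert.1 hz).resolve_left hzx
      apply hsh0 z hzP
      exact ((hv z).sub_right (δ z)).trans h
    · rw [if_neg hzx, if_neg hzx'] at h
      have hzP : z ∈ P := (Finset.mem_insert.1 hz).resolve_left hzx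
      have hz'P : z' ∈ P := (Finset.mem_insert.1 hz').resolve_left hzx'
      exact hsh z hzP z' hz'P (((hv z).sub_right (δ z)).trans
        (h.trans ((hv z').sub_right (δ z')).symm))
  · intro z hz z' hz' y y' hy hy' h
    beta_reduce at h
    by_cases hzx : z = x <;> by_cases hzx' : z' = x
    · rw [if_pos hzx, if_pos hzx'] at h
      subst hzx
      subst hzx'
      refine ⟨rfl, hinj y y' hy hy' ?_⟩
      have h1 := h.neg
      rwa [neg_sub, neg_sub, sub_zero, sub_zero] at h1
    · exfalso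
      rw [if_pos hzx, if_neg hzx'] at h
      subst hzx
      have hz'P : z' ∈ P := (Finset.mem_insert.1 hz').resolve_left hzx'
      have hyy : y' = pr z' := (hpr z' (hPS2 hz'P) y').1 hy'
      subst hyy
      apply (hW (δ z') (hδW z' hz'P)).2 y hy
      have h1 := h.neg
      rwa [neg_sub, sub_zero, neg_sub, sub_sub_cancel] at h1
    · exfalso
      rw [if_neg hzx, if_pos hzx'] at h
      subst hzx'
      have hzP : z ∈ P := (Finset.mem_insert.1 hz).resolve_left hzx
      have hyy : y = pr z := (hpr z (hPS2 hzP) y).1 hy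
      subst hyy
      apply (hW (δ z) (hδW z hzP)).2 y' hy'
      have h1 := h.neg
      rw [neg_sub, sub_sub_cancel, neg_sub, sub_zero] at h1
      exact h1.symm
    · rw [if_neg hzx, if_neg hzx'] at h
      have hzP : z ∈ P := (Finset.mem_insert.1 hz).resolve_left hzx
      have hz'P : z' ∈ P := (Finset.mem_insert.1 hz').resolve_left hzx'
      have hyy : y = pr z := (hpr z (hPS2 hzP) y).1 hy
      have hyy' : y' = pr z' := (hpr z' (hPS2 hz'P) y').1 hy'
      subst hyy
      subst hyy'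
      have h1 := h.neg
      rw [neg_sub, sub_sub_cancel, neg_sub, sub_sub_cancel] at h1
      have hb := (hW (δ z) (hδW z hzP)).1
      have hb' := (hW (δ z') (hδW z' hz'P)).1
      have heq : δ z = δ z' := f1_eq_of_modEq h1 (by omega) (by omega)
      have hzz := hδinj z hzP z' hz'P heq
      exact ⟨hzz, by rw [hzz]⟩

end Pool.Agent.Lib.MP_7c15de_co.AS
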