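import Pool.Agent.Lib.MP_7c15de_co.AS.Stm

/-!
# MP_7c15de_co, [AS Fall]: the fillers of all heavy vertices
-/

set_option autoImplicit false

namespace Pool.Agent.Lib.MP_7c15de_co.AS

open Finset Pool.Agent.Lib.MP_7c15de_co Pool.Agent.Lib.MP_7c15de_co.TH

private lemma fall_num (s d p h β : ℕ) (hp : 2 * p ≤ d) (hd : 8 * (h + 1) + 6 * β ≤ d)
    (hs : d ≤ s + 2 * h) : (d + p) * (p + β) ≤ s * (d - 2) := by
  obtain ⟨e, rfl⟩ : ∃ e, d = e + 2 := ⟨d - 2, by omega⟩
  have h1 : e + 2 - 2 = e := by omega
  rw [h1]
  obtain ⟨s', hs'⟩ : ∃ s', s' + 2 * h = e + 2 := ⟨e + 2 - 2 * h, by omega⟩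
  have hss : s' ≤ s := by omega
  refine le_trans ?_ (Nat.mul_le_mul_right e hss)
  zify at hp hd hs hs' ⊢
  have hs2 : (s' : ℤ) = e + 2 - 2 * h := by linarith
  rw [hs2]
  have e0 : (0 : ℤ) ≤ e := by positivity
  have p0 : (0 : ℤ) ≤ p := by positivity
  have h0 : (0 : ℤ) ≤ h := by positivity
  have b0 : (0 : ℤ) ≤ β := by positivity
  have k1 : 2 * ((e : ℤ) + 2 + p) ≤ 3 * (e + 2) := by linarith
  have k2 : 2 * ((p : ℤ) + β) ≤ (e + 2) + 2 * β := by linarith
  have k3 : (2 * ((e : ℤ) + 2 + p)) * (2 * (p + β)) ≤ (3 * (e + 2)) * ((e + 2) + 2 * β) :=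
    mul_le_mul k1 k2 (by positivity) (by positivity)
  have k4 : (8 * ((h : ℤ) + 1) + 6 * β) * (e + 2) ≤ (e + 2) * (e + 2) :=
    mul_le_mul_of_nonneg_right hd (by positivity)
  nlinarith [k3, k4]

theorem p_Fall (hF1 : S_F1) : S_Fall := by
  intro V _ _ T k β u H L pr N w0 hHL hL hH hinj hfree hsum
  have key : ∀ H' : Finset V, H' ⊆ H → ∃ P : V → Finset V,
      (∀ x ∈ H', P x ⊆ L ∧ (P x).card = N x - dg T x ∧ Loc T k u (insert x (P x))) ∧
      ∀ x ∈ H', ∀ x' ∈ H', ∀ r, r ∈ P x → r ∈ P x' → x = x' := by
    intro H'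
    induction H' using Finset.induction_on with
    | empty =>
      intro _
      exact ⟨fun _ => ∅, by simp, by simp⟩
    | insert x H' hx ih =>
      intro hsub
      have hxH : x ∈ H := hsub (mem_insert_self _ _)
      have hH'H : H' ⊆ H := fun z hz => hsub (mem_insert_of_mem hz)
      obtain ⟨P, hP1, hP2⟩ := ih hH'H
      obtain ⟨hN0, hNk, hdN, h2, h8⟩ := hH x hxH
      set S : Finset V := L \ H'.biUnion P with hS
      have hSL : S ⊆ L := sdiff_subset
      have hbi : (H'.biUnion P).card ≤ ∑ z ∈ H', dg T z := by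
        refine le_trans card_biUnion_le (sum_le_sum ?_)
        intro z hz
        rw [(hP1 z hz).2.1]
        have := (hH z (hH'H hz)).2.2.2.1
        omega
      have hScard : L.card ≤ S.card + (H'.biUnion P).card := by
        have := Finset.le_card_sdiff (H'.biUnion P) L
        rw [hS]
        omega
      have hsum2 : dg T x + ∑ z ∈ H', dg T z ≤ ∑ z ∈ H, dg T z := by
        rw [← sum_insert hx]
        exact sum_le_sum_of_subset hsub
      have hs : dg T x ≤ S.card + 2 * H.card := by omega
      have hNe : N x = dg T x + (N x - dg T x) := by omega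
      have hnum : N x * (N x - dg T x + β) ≤ S.card * (dg T x - 2) := by
        have := fall_num S.card (dg T x) (N x - dg T x) H.card β h2 h8 hs
        calc N x * (N x - dg T x + β)
            = (dg T x + (N x - dg T x)) * (N x - dg T x + β) := by rw [← hNe]
          _ ≤ _ := this
      have hxS : x ∉ S := fun h => (Finset.disjoint_left.mp hHL hxH) (hSL h)
      obtain ⟨Q, hQS, hQc, hQL⟩ := hF1 V T k (N x) β u x S pr (w0 x) hN0 hNk (by omega) hdN hxS
        (fun r hr y => hL r (hSL hr) y) (hinj x hxH)
        (fun δ hδ => ⟨(hfree x hxH δ hδ).1,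
          le_trans (card_le_card (filter_subset_filter _ hSL)) (hfree x hxH δ hδ).2⟩) hnum
      have hne : ∀ z ∈ H', z ≠ x := fun z hz h => hx (h ▸ hz)
      refine ⟨Function.update P x Q, ?_, ?_⟩
      · intro z hz
        rcases mem_insert.mp hz with rfl | hz
        · rw [Function.update_self]
          exact ⟨hQS.trans hSL, hQc, hQL⟩
        · rw [Function.update_of_ne (hne z hz)]
          exact hP1 z hz
      · have hdisj : ∀ z ∈ H', ∀ r, r ∈ P z → r ∉ Q := by
          intro z hz r hr hq
          have := hQS hq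
          rw [hS, mem_sdiff] at this
          exact this.2 (mem_biUnion.mpr ⟨z, hz, hr⟩)
        intro z hz z' hz' r hr hr'
        by_cases e1 : z = x
        · by_cases e2 : z' = x
          · rw [e1, e2]
          · have m2 : z' ∈ H' := by
              rcases mem_insert.mp hz' with h | h
              · exact absurd h e2
              · exact h
            rw [e1, Function.update_self] at hr
            rw [Function.update_of_ne e2] at hr'
            exact absurd hr (hdisj z' m2 r hr')
        · have m1 : z ∈ H' := by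
            rcases mem_insert.mp hz with h | h
            · exact absurd h e1
            · exact h
          rw [Function.update_of_ne e1] at hr
          by_cases e2 : z' = x
          · rw [e2, Function.update_self] at hr'
            exact absurd hr' (hdisj z m1 r hr)
          · have m2 : z' ∈ H' := by
              rcases mem_insert.mp hz' with h | h
              · exact absurd h e2
              · exact h
            rw [Function.update_of_ne e2] at hr'
            exact hP2 z m1 z' m2 r hr hr'
  obtain ⟨P, hP1, hP2⟩ := key H (Subset.refl _)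
  exact ⟨P, fun x hx => ⟨(hP1 x hx).1, (hP1 x hx).2.2⟩, hP2⟩

end Pool.Agent.Lib.MP_7c15de_co.AS
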