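import Pool.Agent.Lib.MP_7c15de_co.AS.Stm
import Pool.Agent.Lib.MP_7c15de_co.TH.Final

set_option autoImplicit false

namespace Pool.Agent.Lib.MP_7c15de_co.AS

open Finset Pool.Agent.Lib.MP_7c15de_co Pool.Agent.Lib.MP_7c15de_co.TH

private theorem J_zmod {k : ℕ} {a b : ℤ} (ha : 0 ≤ a) (ha' : a < k) (hb : 0 ≤ b) (hb' : b < k)
    (h : a ≡ b [ZMOD k]) : a = b := by
  have h1 : a % k = b % k := h
  rwa [Int.emod_eq_of_lt ha ha', Int.emod_eq_of_lt hb hb'] at h1

theorem p_J (hrt : S_rt) (hcnt : S_cnt) (hplan2 : S_plan2) (hlab2 : S_lab2) (hcX : S_cX)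
    (hJset : S_Jset) (hJcount : S_Jcount) (hJpick : S_Jpick) (hJlay : S_Jlay) (hJgrp : S_Jgrp)
    (hJloc : S_Jloc) : S_J := by
  intro ε δ C C1 J M0 K Bf hP
  obtain ⟨n1, hn1⟩ := hJset ε δ C C1 J M0 K Bf hP
  obtain ⟨n2, hn2⟩ := hJcount ε δ C C1 J M0 K Bf hP
  obtain ⟨n3, hn3⟩ := hJpick ε δ C C1 J M0 K Bf hP
  obtain ⟨n4, hn4⟩ := hJgrp ε δ C C1 J M0 K Bf hP
  obtain ⟨n5, hn5⟩ := exists_nat_ge (6 * C * (cL C M0 : ℝ) / ε)
  refine ⟨n1 + n2 + n3 + n4 + n5 + 1, ?_⟩
  intro n hn k hHost V _ _ T _ hT X hX hXc hXcc g1 g2 hMM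
  have hε := hP.ε0
  have hC100 : 100 ≤ C := by
    have h1 := hP.εC
    have h2 := hP.ε1
    have h3 : (0 : ℝ) ≤ C := Nat.cast_nonneg C
    have h4 : (100 : ℝ) ≤ C := by nlinarith
    exact_mod_cast h4
  have hC1 : 1000 * C ^ 2 ≤ C1 := hP.C1C
  have hC1' : 1000 * (C * C) ≤ C1 := by
    rw [← pow_two]
    exact hC1
  have hM0C := hP.M0C
  have hδ := hP.δ0
  have hn1' : n1 ≤ n := by omega
  have hn2' : n2 ≤ n := by omega
  have hn3' : n3 ≤ n := by omega
  have hn4' : n4 ≤ n := by omega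
  have hn0 : 1 ≤ n := by omega
  have hnR : (n5 : ℝ) ≤ n := by
    have : n5 ≤ n := by omega
    exact_mod_cast this
  have hεn : 6 * C * (cL C M0 : ℝ) ≤ ε * n := by
    have h1 := hn5.trans hnR
    rw [div_le_iff₀ hε] at h1
    linarith
  have hkn : (n : ℝ) + 6 * C * (cL C M0 : ℝ) ≤ k := by
    have := hHost.lo
    nlinarith
  have hknN : n + 6 * C * cL C M0 ≤ k := by
    exact_mod_cast hkn
  have hkpos : 0 < k := by omega
  obtain ⟨H, ys, r0, hHX, hHsub, hH2, hHc, hHYc, hkHY, hkH, hysHY, hr0X, hr0d, hr0a, hkE, hHalt⟩ :=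
    hn1 n hn1' k hHost V T hT X hX hXc hXcc g1 g2
  obtain ⟨hc1, hc2, hc3, hc4, _⟩ := hcnt V T hT X hX n hXc hXcc hn0
  have hysX : ys ∉ X := by
    have := (mem_filter.mp hysHY).1
    rwa [mem_compl] at this
  have hHYX : (Xᶜ.filter (fun x => k < C * dg T x)) ⊆ Xᶜ := filter_subset _ _
  generalize hHYdef : (Xᶜ.filter (fun x => k < C * dg T x)) = HY at *
  generalize hHXdef : (X.filter (fun x => k < C * dg T x)) = HX at *
  -- the medium vertices
  let Mst : Finset V := X.filter (fun x => x ∉ H ∧ C1 ≤ dg T x)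
  have mem_Mst : ∀ x, x ∈ Mst ↔ x ∈ X ∧ x ∉ H ∧ C1 ≤ dg T x := by
    intro x
    simp only [Mst, mem_filter]
  have hnH : ∀ x ∈ X, x ∉ H → C * dg T x ≤ k := by
    intro x hx hxH
    by_contra hcon
    push Not at hcon
    apply hxH
    apply hHX
    rw [← hHXdef, mem_filter]
    exact ⟨hx, hcon⟩
  have hNm : ∀ x, ∃ N, x ∈ Mst → N ∣ k ∧ dg T x ≤ N ∧ (C - 1) * N ≤ C * dg T x := by
    intro x
    by_cases hx : x ∈ Mst
    · have hx' := (mem_Mst x).mp hx
      obtain ⟨N, hN⟩ := hHost.dN (dg T x) hx'.2.2 (hnH x hx'.1 hx'.2.1)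
      exact ⟨N, fun _ => hN⟩
    · exact ⟨0, fun h => absurd h hx⟩
  choose Nm hNm using hNm
  let q : V → ℕ := fun x => Nm x - dg T x
  have hq1 : ∀ x ∈ Mst, dg T x + q x = Nm x ∧ (C - 1) * q x ≤ dg T x := by
    intro x hx
    obtain ⟨h1, h2, h3⟩ := hNm x hx
    have e1 : dg T x + q x = Nm x := by
      simp only [q]
      omega
    refine ⟨e1, ?_⟩
    rw [← e1, Nat.mul_add] at h3
    have e2 : C * dg T x = (C - 1) * dg T x + dg T x := by
      obtain ⟨c, rfl⟩ : ∃ c, C = c + 1 := ⟨C - 1, by omega⟩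
      rw [Nat.add_sub_cancel]
      ring
    omega
  have hq99 : ∀ x ∈ Mst, 99 * q x ≤ dg T x := by
    intro x hx
    refine le_trans ?_ (hq1 x hx).2
    exact Nat.mul_le_mul_right _ (by omega)
  have hCC : 100 * C ≤ C * C := Nat.mul_le_mul_right C hC100
  have hMd : ∀ x ∈ Mst, 1000 * (C * C) ≤ dg T x := fun x hx =>
    hC1'.trans ((mem_Mst x).mp hx).2.2
  have hspc : ∀ par : V → V, (spJ HY H par).card ≤ 2 * C + 1 := by
    intro par
    refine (card_union_le _ _).trans ?_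
    have h1 : (H.image par).card ≤ H.card := card_image_le
    omega
  have hMst_sub : Mst ⊆ X := filter_subset _ _
  obtain ⟨par, μ, last, P, hRt, hP1, hP2, hP3, hP4, hP5⟩ :=
    hplan2 V T hT X hX (by omega) r0 ys hr0X hr0d hr0a Mst
      ((lf T X).filter (fun r => T.Adj r ys)) (fun par => spJ HY H par) q hMst_sub
      (by
        intro par x hx
        have h1 := hspc par
        have h2 := hq99 x hx
        have h3 := hMd x hx
        show 4 * q x + (spJ HY H par).card + 3 ≤ dg T x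
        omega)
  obtain ⟨hr1, hr2, hr3, hr4, hr5, hr6, hr7⟩ := hrt V T X ys par μ hX hRt
  generalize hPddef : Mst.biUnion P = Pd at hP5
  have mem_Pd : ∀ r, r ∈ Pd ↔ ∃ x ∈ Mst, r ∈ P x := by
    intro r
    rw [← hPddef, mem_biUnion]
  have mem_lf : ∀ r, r ∈ lf T X ↔ r ∈ X ∧ dg T r = 1 := by
    intro r
    simp only [lf, mem_filter]
  have hPdlf : Pd ⊆ lf T X := by
    intro r hr
    obtain ⟨x, hx, hrx⟩ := (mem_Pd r).mp hr
    obtain ⟨h1, h2, _⟩ := hP3 x hx r hrx
    exact (mem_lf r).mpr ⟨h1, h2⟩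
  have hPdc0 : Pd.card ≤ ∑ x ∈ Mst, q x := by
    rw [← hPddef]
    refine card_biUnion_le.trans (le_of_eq ?_)
    exact sum_congr rfl (fun x hx => (hP1 x hx).2.2)
  have hMstO : Mst ⊆ X.filter (fun x => x ∉ H ∧ 2 ≤ dg T x) := by
    intro x hx
    have h1 := (mem_Mst x).mp hx
    have h2 := hMd x hx
    rw [mem_filter]
    refine ⟨h1.1, h1.2.1, ?_⟩
    nlinarith
  have hPdcard : Pd.card ≤ ∑ x ∈ X.filter (fun x => x ∉ H ∧ 2 ≤ dg T x), (dg T x - 2) := by
    refine hPdc0.trans ?_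
    refine le_trans ?_ (sum_le_sum_of_subset hMstO)
    apply sum_le_sum
    intro x hx
    have h2 := hq99 x hx
    have h3 := hMd x hx
    omega
  have hPdC : C * Pd.card ≤ 4 * n := by
    have e1 : C * Pd.card ≤ ∑ x ∈ Mst, C * q x := by
      rw [← mul_sum]
      exact Nat.mul_le_mul_left C hPdc0
    have e2 : ∑ x ∈ Mst, C * q x ≤ ∑ x ∈ Mst, 4 * (dg T x - 1) := by
      apply sum_le_sum
      intro x hx
      have h1 := (hq1 x hx).2
      have h2 := hMd x hx
      have h3 : C * q x ≤ 2 * ((C - 1) * q x) := by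
        rw [← mul_assoc]
        exact Nat.mul_le_mul_right _ (by omega)
      omega
    have e3 : ∑ x ∈ Mst, 4 * (dg T x - 1) ≤
        ∑ x ∈ X.filter (fun x => x ∉ H ∧ 2 ≤ dg T x), 4 * (dg T x - 1) :=
      sum_le_sum_of_subset hMstO
    have e5 : ∑ x ∈ X.filter (fun x => x ∉ H ∧ 2 ≤ dg T x), 4 * (dg T x - 1) =
        4 * ∑ x ∈ X.filter (fun x => x ∉ H ∧ 2 ≤ dg T x), (dg T x - 1) := (mul_sum _ _ _).symm
    have e4 := hc4 H hHsub
    omega
  -- the reserve
  generalize hRvdef : (lf T X).filter (fun r => T.Adj r ys) = Rv at hP5 hkE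
  have hRv : 3 * cL C M0 ≤ 2 * Rv.card := by
    by_contra hcon
    push Not at hcon
    have h1 : n + 6 * C * cL C M0 ≤ n + 4 * C * Rv.card := hknN.trans hkE
    have h2 : C * (3 * cL C M0) ≤ C * (2 * Rv.card) := by
      have : 6 * C * cL C M0 ≤ 4 * C * Rv.card := by omega
      nlinarith
    have h3 := Nat.le_of_mul_le_mul_left h2 (by omega)
    omega
  have hRvPd : cL C M0 ≤ (Rv \ Pd).card := by
    have h1 := card_sdiff_add_card_inter Rv Pd
    rw [inter_comm] at h1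
    omega
  obtain ⟨E, hEsub, hEcard⟩ := exists_subset_card_eq hRvPd
  have hERv : ∀ r ∈ E, r ∈ Rv ∧ r ∉ Pd := fun r hr => mem_sdiff.mp (hEsub hr)
  have hElf : E ⊆ lf T X := by
    intro r hr
    have := (hERv r hr).1
    rw [← hRvdef] at this
    exact (mem_filter.mp this).1
  have hEpar : ∀ r ∈ E, par r = ys := by
    intro r hr
    have h1 := (hERv r hr).1
    rw [← hRvdef, mem_filter] at h1
    have h2 := (mem_lf r).mp h1.1
    exact ((hr6 r h2.1 h2.2 ys).mp h1.2).symm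
  have hPdE : Disjoint Pd E := by
    rw [disjoint_left]
    intro r hr hrE
    exact (hERv r hrE).2 hr
  obtain ⟨U, hUlf, hUPd, hUE, hUcard, hUreal⟩ :=
    hn2 n hn2' k hHost V T hT X hX hXc hXcc ys par μ hRt HX HY H Pd E hHYX hysHY hHYc hHX hHsub hH2
      hHc hkH hkHY hMM hPdlf hElf hPdE hEcard hEpar hPdcard hPdC
  generalize hltdef : ltJ X ys par HY H U = lt at *
  have hxbsub : xbJ X par HY H U ⊆ X.filter (fun x => x ∉ H ∧ 2 ≤ dg T x) := by
    intro x hx
    simp only [xbJ, mem_filter] at hx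
    obtain ⟨hxX, hxH, r, hrU, hrsp, hrx⟩ := hx
    rw [mem_filter]
    refine ⟨hxX, hxH, ?_⟩
    rw [← hrx]
    apply hr5
    · exact hRt.parX r ((mem_lf r).mp (hUlf hrU)).1
    · intro h
      apply hrsp
      rw [h]
      exact mem_union_left _ hysHY
  have hxbnn : (0 : ℝ) ≤ ∑ x ∈ xbJ X par HY H U, ((dg T x : ℝ) - 1) := by
    apply sum_nonneg
    intro x hx
    have h1 := (mem_filter.mp (hxbsub hx)).2.2
    have h2 : (2 : ℝ) ≤ dg T x := by exact_mod_cast h1
    linarith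
  have hUnat : 2 * lt.card + k ≤ 2 * U.card + n := by
    have h1 : (0 : ℝ) ≤ (bJ par HY H U).card := Nat.cast_nonneg _
    have h2 : (0 : ℝ) ≤ (1 + δ) * ∑ x ∈ xbJ X par HY H U, ((dg T x : ℝ) - 1) :=
      mul_nonneg (by linarith) hxbnn
    have h3 : (2 : ℝ) * lt.card + k ≤ 2 * U.card + n := by linarith
    exact_mod_cast h3
  have hHne : 1 ≤ H.card := by
    rcases hHalt with h | h
    · omega
    · exact card_pos.mpr h.1
  have hkD : k ≤ 2 * ∑ x ∈ H, dg T x := by omega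
  rw [← hltdef] at hUnat
  obtain ⟨xt, x2, c2, Top, cov, sh, hxt, hTop1, hTop2, hTop3, hcov1, hcov2, hsh1, hsh2, hsh3, hx2, hnt⟩ :=
    hn3 n hn3' k hHost V T X hX ys par μ hRt HY H U hHYc hHsub hH2 hHc hkD hHalt hUcard hUnat
  obtain ⟨Z0, Lz, f, gs, hLz1, hLz2, hLz3, hZ1, hZ2, hlay⟩ :=
    hJlay V T X hX ys par μ hRt C M0 HY H U Top xt x2 c2 cov sh (by omega) hHYX hysHY hHYc hHsub hH2
      hHc hUlf hxt hTop1 hTop2 hTop3 hcov1 hcov2 hsh1 hsh2 hsh3 hx2 hnt
  obtain ⟨grp, bs, len, hgXB, hgrp, hbs0, hbs1, hbs2, hbs3, hbs4, hbs5⟩ :=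
    hn4 n hn4' k hHost V T X H (xbJ X par HY H U) (bJ par HY H U).card (ltJ X ys par HY H U).card
      U.card Z0 Lz hHc (fun x _ => hc1 x) (hc4 H hHsub) hxbsub hnH hkD hUcard hLz1 hZ2
      (by rw [hltdef]; exact hUreal)
  generalize hSpdef : spJ HY H par = Sp at *
  have hSpc : Sp.card ≤ 2 * C + 1 := by
    rw [← hSpdef]
    exact hspc par
  obtain ⟨u, hu1, hu2, hu3, hu4, hu5, hu6⟩ :=
    hlab2 ε δ C C1 J M0 K Bf hP V T X ys par μ hX hRt k H Sp gs Nm P last grp bs len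
      (fun y _ => f y) hkpos hHost.dM (by nlinarith) (fun _ _ _ _ _ _ => rfl)
      (by
        intro x hx hxH hxC
        have hxM : x ∈ Mst := (mem_Mst x).mpr ⟨hx, hxH, hxC⟩
        obtain ⟨h1, h2, h3⟩ := hNm x hxM
        obtain ⟨h4, h5, h6⟩ := hP1 x hxM
        refine ⟨h1, h3, ?_, h4, ?_, ?_⟩
        · rw [h6]
          exact (hq1 x hxM).1
        · exact h5
        · exact hP3 x hxM) hgrp
  obtain ⟨hA, hB, hC, hD, hE, hF, hG, hys1, hys2⟩ := hlay u hu1 hu2
  have hysSp : ys ∈ Sp := by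
    rw [← hSpdef]
    exact mem_union_left _ hysHY
  -- the labels of the other vertices
  have hoth : ∀ y ∉ X, ¬ (y = ys ∨ par y ∈ H ∨ y ∈ Sp) →
      bs (grp (par y)) ≤ u y ∧ u y < bs (grp (par y)) + len (grp (par y)) := by
    intro y hy hno
    push Not at hno
    exact hu3 y hy hno.1 hno.2.1 hno.2.2
  have hreg : ∀ i : Fin 3, bs 0 ≤ bs i ∧ bs i + len i ≤ k := by
    intro i
    fin_cases i
    · refine ⟨le_refl _, ?_⟩
      show bs 0 + (len 0 : ℤ) ≤ k
      omega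
    · refine ⟨?_, ?_⟩
      · show bs 0 ≤ bs 1
        omega
      · show bs 1 + (len 1 : ℤ) ≤ k
        omega
    · refine ⟨?_, ?_⟩
      · show bs 0 ≤ bs 2
        omega
      · show bs 2 + (len 2 : ℤ) ≤ k
        omega
  have hregd : ∀ i j : Fin 3, i ≠ j → bs i + len i ≤ bs j ∨ bs j + len j ≤ bs i := by
    intro i j hij
    fin_cases i <;> fin_cases j <;> first
      | exact absurd rfl hij
      | (left; show bs 0 + (len 0 : ℤ) ≤ bs 1; omega)
      | (left; show bs 0 + (len 0 : ℤ) ≤ bs 2; omega)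
      | (right; show bs 0 + (len 0 : ℤ) ≤ bs 1; omega)
      | (left; show bs 1 + (len 1 : ℤ) ≤ bs 2; omega)
      | (right; show bs 0 + (len 0 : ℤ) ≤ bs 2; omega)
      | (right; show bs 1 + (len 1 : ℤ) ≤ bs 2; omega)
  have hbs0' : ((∑ x ∈ H, dg T x + cL C M0 + H.card : ℕ) : ℤ) ≤ k := by
    have := (hreg 0).2
    omega
  have hrange : ∀ y ∉ X, 0 ≤ u y ∧ u y < k := by
    intro y hy
    by_cases h : y = ys ∨ par y ∈ H ∨ y ∈ Sp
    · obtain ⟨h1, h2⟩ := hE y hy h
      omega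
    · obtain ⟨h1, h2⟩ := hoth y hy h
      obtain ⟨h3, h4⟩ := hreg (grp (par y))
      omega
  have hinj : ∀ y ∉ X, ∀ y' ∉ X, u y = u y' → y = y' := by
    intro y hy y' hy' huy
    by_cases h : y = ys ∨ par y ∈ H ∨ y ∈ Sp
    · by_cases h' : y' = ys ∨ par y' ∈ H ∨ y' ∈ Sp
      · exact hF y hy y' hy' h h' huy
      · exfalso
        obtain ⟨h1, h2⟩ := hE y hy h
        obtain ⟨h3, h4⟩ := hoth y' hy' h'
        obtain ⟨h5, h6⟩ := hreg (grp (par y'))
        omega
    · by_cases h' : y' = ys ∨ par y' ∈ H ∨ y' ∈ Sp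
      · exfalso
        obtain ⟨h1, h2⟩ := hE y' hy' h'
        obtain ⟨h3, h4⟩ := hoth y hy h
        obtain ⟨h5, h6⟩ := hreg (grp (par y))
        omega
      · by_cases hg : grp (par y) = grp (par y')
        · push Not at h h'
          exact hu4 y hy h.1 h.2.1 h.2.2 y' hy' h'.1 h'.2.1 h'.2.2 hg huy
        · exfalso
          obtain ⟨h3, h4⟩ := hoth y hy h
          obtain ⟨h5, h6⟩ := hoth y' hy' h'
          rcases hregd _ _ hg with h7 | h7 <;> omega
  -- the hub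
  have mem_bJ : ∀ r, r ∈ bJ par HY H U ↔ r ∈ U ∧ par r ∉ Sp ∧ par (par r) ∉ H := by
    intro r
    simp only [bJ, mem_filter, hSpdef]
  have hbJU : bJ par HY H U ⊆ U := filter_subset _ _
  generalize hbdef : bJ par HY H U = b at *
  have hUdec : b.card + (U \ b).card = U.card := by
    have := card_sdiff_add_card_inter U b
    rw [inter_eq_right.mpr hbJU] at this
    omega
  have hlf1 : ∀ r ∈ lf T X, r ∈ X ∧ dg T r = 1 ∧ ∀ y, T.Adj r y ↔ y = par r := by
    intro r hr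
    have h1 := (mem_lf r).mp hr
    exact ⟨h1.1, h1.2, hr6 r h1.1 h1.2⟩
  have hHlf : ∀ r ∈ lf T X, r ∉ H := by
    intro r hr hrH
    have h1 := (mem_lf r).mp hr
    have h2 := hH2 r hrH
    omega
  have hblf : ∀ r ∈ b, r ∈ lf T X := fun r hr => hUlf (hbJU hr)
  have hlocJ : Loc T k u (H ∪ E ∪ b ∪ (U \ b)) := by
    apply hJloc V T k Z0 Lz (∑ x ∈ H, dg T x + cL C M0) u H E b (U \ b) ys par sh (bs 1 + len 1)
    · rw [disjoint_left]
      intro x hx hxE
      exact hHlf x (hElf hxE) hx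
    · rw [disjoint_left]
      intro x hx hxE
      exact hHlf x (hblf x hxE) hx
    · rw [disjoint_left]
      intro x hx hxE
      exact hHlf x (hUlf (mem_sdiff.mp hxE).1) hx
    · rw [disjoint_left]
      intro x hx hxE
      exact (disjoint_left.mp hUE) (hbJU hxE) hx
    · rw [disjoint_left]
      intro x hx hxE
      exact (disjoint_left.mp hUE) (mem_sdiff.mp hxE).1 hx
    · exact disjoint_sdiff
    · intro r hr
      rw [mem_union, mem_union] at hr
      rcases hr with (hr | hr) | hr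
      · exact (hlf1 r (hElf hr)).2.2
      · exact (hlf1 r (hblf r hr)).2.2
      · exact (hlf1 r (hUlf (mem_sdiff.mp hr).1)).2.2
    · exact hEpar
    · exact hsh1
    · exact hsh2
    · omega
    · exact hA
    · exact hB
    · exact hC
    · exact hD
    · exact hys1
    · exact hys2
    · omega
    · omega
    · have : cσ C M0 = cLm C M0 + C + 2 := rfl
      omega
    · rw [hEcard]
    · omega
    · intro r hr
      obtain ⟨h1, h2, h3⟩ := (mem_bJ r).mp hr
      have h4 := hlf1 r (hUlf h1)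
      have h5 : par r ∉ X := hRt.parX r h4.1
      have h6 : par r ≠ ys := fun h => h2 (h ▸ hysSp)
      have h7 := hu3 (par r) h5 h6 h3 h2
      have h8 : par (par r) ∈ xbJ X par HY H U := by
        simp only [xbJ, mem_filter]
        refine ⟨hRt.parY _ h5 h6, h3, r, h1, ?_, rfl⟩
        rw [hSpdef]
        exact h2
      rw [hgXB _ h8] at h7
      push_cast at hbs4 ⊢
      omega
    · intro r hr
      obtain ⟨h1, h2⟩ := mem_sdiff.mp hr
      apply hG r h1
      by_contra hcon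
      push Not at hcon
      exact h2 ((mem_bJ r).mpr ⟨h1, hcon.1, hcon.2⟩)
    · push_cast at hbs4 ⊢
      omega
    · omega
  have hCovHP : Cov T k u (H ∪ E ∪ b ∪ (U \ b)) := (p_cov V T k u).2.1 _ hlocJ
  have mem_HP : ∀ x, x ∈ H ∪ E ∪ b ∪ (U \ b) ↔ x ∈ H ∨ x ∈ E ∨ x ∈ U := by
    intro x
    simp only [mem_union, mem_sdiff]
    constructor
    · rintro (((h | h) | h) | h)
      · exact Or.inl h
      · exact Or.inr (Or.inl h)
      · exact Or.inr (Or.inr (hbJU h))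
      · exact Or.inr (Or.inr h.1)
    · rintro (h | h | h)
      · exact Or.inl (Or.inl (Or.inl h))
      · exact Or.inl (Or.inl (Or.inr h))
      · by_cases hb : x ∈ b
        · exact Or.inl (Or.inr hb)
        · exact Or.inr ⟨h, hb⟩
  have hCov : Cov T k u X := by
    apply hcX V T k C1 u X H (H ∪ E ∪ b ∪ (U \ b)) P grp (fun x _ => hc1 x) (by nlinarith)
    · intro x hx
      exact (mem_HP x).mpr (Or.inl hx)
    · intro x hx
      rcases (mem_HP x).mp hx with h | h | h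
      · exact hHsub h
      · exact ((mem_lf x).mp (hElf h)).1
      · exact ((mem_lf x).mp (hUlf h)).1
    · intro x hx hxH
      rcases (mem_HP x).mp hx with h | h | h
      · exact absurd h hxH
      · exact ((mem_lf x).mp (hElf h)).2
      · exact ((mem_lf x).mp (hUlf h)).2
    · exact hCovHP
    · intro x hx hxH hxC
      have hxM : x ∈ Mst := (mem_Mst x).mpr ⟨hx, hxH, hxC⟩
      refine ⟨hu5 x hx hxH hxC, ?_⟩
      intro r hr
      obtain ⟨h1, h2, _⟩ := hP3 x hxM r hr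
      refine ⟨h1, h2, ?_⟩
      intro hHP
      have hrPd : r ∈ Pd := (mem_Pd r).mpr ⟨x, hxM, hr⟩
      rcases (mem_HP r).mp hHP with h | h | h
      · have := hH2 r h
        omega
      · exact (disjoint_left.mp hPdE) hrPd h
      · exact (disjoint_left.mp hUPd) h hrPd
    · exact hP4
    · exact hu6
  have hcardV : Fintype.card V = (2 * n - 1) + 1 := by
    have := card_compl_add_card X
    omega
  apply final_crit V T hT X hX (2 * n - 1) k hcardV hkpos u _ hCov
  intro y hy y' hy' h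
  apply hinj y hy y' hy'
  exact J_zmod (hrange y hy).1 (hrange y hy).2 (hrange y' hy').1 (hrange y' hy').2 h

end Pool.Agent.Lib.MP_7c15de_co.AS
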