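import Pool.Agent.Lib.MP_7c15de_co.AS.Stm
import Pool.Agent.Lib.MP_7c15de_co.TH.Final

/-!
# MP_7c15de_co, piece `Jflex`: the leaves at a set of vertices of `Y`
-/

set_option autoImplicit false

namespace Pool.Agent.Lib.MP_7c15de_co.AS

open Finset Pool.Agent.Lib.MP_7c15de_co Pool.Agent.Lib.MP_7c15de_co.TH

theorem p_Jflex : S_Jflex := by
  intro V _ _ T _ hT X hbip S hS hSX
  obtain ⟨y', hy'⟩ := hS
  obtain ⟨par, hparr, hpar, hadj⟩ := parent_exists T hT y'
  have hdg : ∀ x, dg T x = T.degree x := (TH.p_dg V T).1 inferInstance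
  obtain ⟨A, hA⟩ : ∃ A : Finset V, A = X.filter (fun x => par x ∈ S) := ⟨_, rfl⟩
  have h1 : ∀ y ∈ S, dg T y ≤
      (A.filter (fun x => par x = y)).card + (if y = y' then 0 else 1) := by
    intro y hy
    rw [hdg, ← SimpleGraph.card_neighborFinset_eq_degree]
    have hsub : T.neighborFinset y ⊆
        (A.filter (fun x => par x = y)) ∪ (if y = y' then ∅ else {par y}) := by
      intro x hx
      rw [SimpleGraph.mem_neighborFinset] at hx
      have hxX : x ∈ X := by
        by_contra hxn
        exact hSX y hy ((hbip y x hx).2 hxn)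
      rw [Finset.mem_union]
      rcases hadj y x hx with ⟨h2, h3⟩ | ⟨h2, h3⟩
      · right
        rw [if_neg h2, Finset.mem_singleton]
        exact h3.symm
      · left
        rw [Finset.mem_filter, hA, Finset.mem_filter]
        exact ⟨⟨hxX, by rw [h3]; exact hy⟩, h3⟩
    refine (Finset.card_le_card hsub).trans ((Finset.card_union_le _ _).trans ?_)
    split_ifs <;> simp
  have h2 : ∑ y ∈ S, dg T y ≤ A.card + (S.card - 1) := by
    refine (Finset.sum_le_sum h1).trans ?_
    rw [Finset.sum_add_distrib]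
    have h3 : A.card = ∑ y ∈ S, (A.filter (fun x => par x = y)).card := by
      apply Finset.card_eq_sum_card_fiberwise
      intro x hx
      rw [Finset.mem_coe, hA, Finset.mem_filter] at hx
      exact hx.2
    have h4 : ∑ y ∈ S, (if y = y' then 0 else 1) = S.card - 1 := by
      rw [← Finset.card_erase_of_mem hy', Finset.card_eq_sum_ones, ← Finset.add_sum_erase S _ hy',
        if_pos rfl, zero_add]
      refine Finset.sum_congr rfl fun y hy => ?_
      rw [if_neg (Finset.ne_of_mem_erase hy)]
    rw [h3, h4]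
  have hSpos : 1 ≤ S.card := Finset.card_pos.2 ⟨y', hy'⟩
  have h5 : A.card ≤ (X.filter (fun x => 2 ≤ dg T x ∧ ∃ y ∈ S, T.Adj x y)).card +
      ((lf T X).filter (fun r => ∃ y ∈ S, T.Adj r y)).card := by
    refine (Finset.card_le_card ?_).trans (Finset.card_union_le _ _)
    intro x hx
    rw [hA, Finset.mem_filter] at hx
    have hxy : x ≠ y' := by
      rintro rfl
      exact hSX x hy' hx.1
    have hax : T.Adj x (par x) := (hpar x hxy).1
    have hd : 1 ≤ dg T x := by
      rw [hdg, ← SimpleGraph.card_neighborFinset_eq_degree]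
      exact Finset.card_pos.2 ⟨par x, by rw [SimpleGraph.mem_neighborFinset]; exact hax⟩
    rw [Finset.mem_union]
    by_cases hd2 : 2 ≤ dg T x
    · left
      rw [Finset.mem_filter]
      exact ⟨hx.1, hd2, par x, hx.2, hax⟩
    · right
      unfold lf
      rw [Finset.mem_filter, Finset.mem_filter]
      exact ⟨⟨hx.1, by omega⟩, par x, hx.2, hax⟩
  have h6 : (X.filter (fun x => 2 ≤ dg T x ∧ ∃ y ∈ S, T.Adj x y)).card +
      (X.filter (fun x => 2 ≤ dg T x ∧ ∀ y ∈ S, ¬ T.Adj x y)).card ≤
      (X.filter (fun x => 2 ≤ dg T x)).card := by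
    rw [← Finset.card_union_of_disjoint]
    · refine Finset.card_le_card ?_
      intro x hx
      rw [Finset.mem_union, Finset.mem_filter, Finset.mem_filter] at hx
      rw [Finset.mem_filter]
      rcases hx with hx | hx
      · exact ⟨hx.1, hx.2.1⟩
      · exact ⟨hx.1, hx.2.1⟩
    · rw [Finset.disjoint_left]
      intro x hx hx'
      rw [Finset.mem_filter] at hx hx'
      obtain ⟨-, -, y, hy, hxy⟩ := hx
      exact hx'.2.2 y hy hxy
  omega

end Pool.Agent.Lib.MP_7c15de_co.AS
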