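import Pool.Agent.Lib.MP_7c15de_co.AS.Stm

/-!
# MP_7c15de_co, [AS Jgrp]: the regions of the labels in construction (J)
-/

set_option autoImplicit false

namespace Pool.Agent.Lib.MP_7c15de_co.AS

open Finset Pool.Agent.Lib.MP_7c15de_co Pool.Agent.Lib.MP_7c15de_co.TH

private theorem jgrp_cast {V : Type} (O : Finset V) (d : V → ℕ) (h : ∀ x ∈ O, 1 ≤ d x) :
    ∑ x ∈ O, ((d x : ℝ) - 1) = ((∑ x ∈ O, (d x - 1) : ℕ) : ℝ) := by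
  rw [Nat.cast_sum]
  refine sum_congr rfl fun x hx => ?_
  rw [Nat.cast_sub (h x hx)]
  simp

/-- two groups -/
private theorem jgrp_two (hseg : S_seg) {V : Type} [DecidableEq V] (A : Finset V) (wt : V → ℝ)
    (b L0 L2 : ℝ) (hb : 0 ≤ b) (hwt : ∀ x ∈ A, 0 < wt x ∧ wt x ≤ b)
    (hs : ∑ x ∈ A, wt x ≤ (L0 - b) + (L2 - b)) :
    ∃ grp : V → Fin 3, (∀ x ∈ A, grp x ≠ 1) ∧
      ((∀ x ∈ A, grp x ≠ 0) ∨ ∑ x ∈ A.filter (fun x => grp x = 0), wt x ≤ L0) ∧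
      ((∀ x ∈ A, grp x ≠ 2) ∨ ∑ x ∈ A.filter (fun x => grp x = 2), wt x ≤ L2) := by
  obtain ⟨grp, hgrp⟩ := hseg V A wt b ![L0, -1, L2] hb hwt (by
    rw [Fin.sum_univ_three]
    have m0 := le_max_left (L0 - b) 0
    have m2 := le_max_left (L2 - b) 0
    have m1 := le_max_right ((-1 : ℝ) - b) 0
    show _ ≤ max (L0 - b) 0 + max (-1 - b) 0 + max (L2 - b) 0
    linarith)
  refine ⟨grp, ?_, hgrp 0, hgrp 2⟩
  rcases hgrp 1 with h | h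
  · exact h
  · exfalso
    have h0 : 0 ≤ ∑ x ∈ A.filter (fun x => grp x = 1), wt x :=
      sum_nonneg fun x hx => (hwt x (mem_filter.1 hx).1).1.le
    have h' : ∑ x ∈ A.filter (fun x => grp x = 1), wt x ≤ -1 := h
    linarith

/-- the groups, abstract version -/
private theorem jgrp_abs (hseg : S_seg) {V : Type} [DecidableEq V] (X H XB : Finset V) (d : V → ℕ)
    (δ bm W : ℝ) (K l0 l1 l2 : ℕ) (hδ : 0 < δ) (hδ1 : δ ≤ 1) (hbm : 0 ≤ bm)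
    (hXB : XB ⊆ X.filter (fun x => x ∉ H ∧ 2 ≤ d x))
    (hd : ∀ x ∈ X, x ∉ H → (2 : ℝ) * d x ≤ bm)
    (hW : ∑ x ∈ X.filter (fun x => x ∉ H ∧ 2 ≤ d x), ((d x : ℝ) - 1) = W)
    (h1 : (1 + δ) * ∑ x ∈ XB, ((d x : ℝ) - 1) + K ≤ l1)
    (h02 : (1 + δ) * W ≤ (1 + δ) * ∑ x ∈ XB, ((d x : ℝ) - 1) + (((l0 : ℝ) - K) - bm) +
      (((l2 : ℝ) - K) - bm)) :
    ∃ grp : V → Fin 3, (∀ x ∈ XB, grp x = 1) ∧
      ((∀ x ∈ X, x ∉ H → 2 ≤ d x → grp x ≠ 0) ∨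
        (1 + δ) * ∑ x ∈ X.filter (fun x => x ∉ H ∧ 2 ≤ d x ∧ grp x = 0), ((d x : ℝ) - 1) + K ≤ l0) ∧
      ((1 + δ) * ∑ x ∈ X.filter (fun x => x ∉ H ∧ 2 ≤ d x ∧ grp x = 1), ((d x : ℝ) - 1) + K ≤ l1) ∧
      ((∀ x ∈ X, x ∉ H → 2 ≤ d x → grp x ≠ 2) ∨
        (1 + δ) * ∑ x ∈ X.filter (fun x => x ∉ H ∧ 2 ≤ d x ∧ grp x = 2), ((d x : ℝ) - 1) + K ≤ l2) := by
  obtain ⟨grp, g1, g0, g2⟩ := jgrp_two hseg ((X.filter (fun x => x ∉ H ∧ 2 ≤ d x)) \ XB)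
    (fun x => (1 + δ) * ((d x : ℝ) - 1)) bm ((l0 : ℝ) - K) ((l2 : ℝ) - K) hbm
    (by
      intro x hx
      have hx1 := mem_filter.1 (mem_sdiff.1 hx).1
      have h2 : (2 : ℝ) ≤ d x := by exact_mod_cast hx1.2.2
      have h3 := hd x hx1.1 hx1.2.1
      refine ⟨mul_pos (by linarith) (by linarith), ?_⟩
      have h4 : (1 + δ) * ((d x : ℝ) - 1) ≤ 2 * ((d x : ℝ) - 1) :=
        mul_le_mul_of_nonneg_right (by linarith) (by linarith)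
      show (1 + δ) * ((d x : ℝ) - 1) ≤ bm
      linarith)
    (by
      rw [← mul_sum]
      have h0 := sum_sdiff (f := fun x => ((d x : ℝ) - 1)) hXB
      rw [hW] at h0
      have h4 : (1 + δ) * W = (1 + δ) * ∑ x ∈ (X.filter (fun x => x ∉ H ∧ 2 ≤ d x)) \ XB, ((d x : ℝ) - 1)
          + (1 + δ) * ∑ x ∈ XB, ((d x : ℝ) - 1) := by
        rw [← h0]; ring
      linarith)
  have hne : ∀ i : Fin 3, i ≠ 1 → ∀ x, (if x ∈ XB then (1 : Fin 3) else grp x) = i ↔ x ∉ XB ∧ grp x = i := by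
    intro i hi x
    by_cases hx : x ∈ XB
    · rw [if_pos hx]
      constructor
      · intro h; exact absurd h.symm hi
      · rintro ⟨h, _⟩; exact absurd hx h
    · rw [if_neg hx]
      exact ⟨fun h => ⟨hx, h⟩, fun h => h.2⟩
  have hgen : ∀ i : Fin 3, i ≠ 1 → ∀ l : ℕ,
      ((∀ x ∈ (X.filter (fun x => x ∉ H ∧ 2 ≤ d x)) \ XB, grp x ≠ i) ∨
        ∑ x ∈ ((X.filter (fun x => x ∉ H ∧ 2 ≤ d x)) \ XB).filter (fun x => grp x = i),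
          (1 + δ) * ((d x : ℝ) - 1) ≤ (l : ℝ) - K) →
      ((∀ x ∈ X, x ∉ H → 2 ≤ d x → (if x ∈ XB then (1 : Fin 3) else grp x) ≠ i) ∨
        (1 + δ) * ∑ x ∈ X.filter (fun x => x ∉ H ∧ 2 ≤ d x ∧
          (if x ∈ XB then (1 : Fin 3) else grp x) = i), ((d x : ℝ) - 1) + K ≤ l) := by
    intro i hi l h
    rcases h with h | h
    · left
      intro x hx hxH hx2 he
      rw [hne i hi x] at he
      exact h x (mem_sdiff.2 ⟨mem_filter.2 ⟨hx, hxH, hx2⟩, he.1⟩) he.2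
    · right
      have hset : X.filter (fun x => x ∉ H ∧ 2 ≤ d x ∧ (if x ∈ XB then (1 : Fin 3) else grp x) = i) =
          ((X.filter (fun x => x ∉ H ∧ 2 ≤ d x)) \ XB).filter (fun x => grp x = i) := by
        ext x
        rw [mem_filter, mem_filter, mem_sdiff, mem_filter, hne i hi x]
        tauto
      rw [hset]
      rw [← mul_sum] at h
      linarith
  refine ⟨fun x => if x ∈ XB then 1 else grp x, fun x hx => if_pos hx, hgen 0 (by decide) l0 g0, ?_,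
    hgen 2 (by decide) l2 g2⟩
  have hset1 : X.filter (fun x => x ∉ H ∧ 2 ≤ d x ∧ (if x ∈ XB then (1 : Fin 3) else grp x) = 1) = XB := by
    ext x
    rw [mem_filter]
    constructor
    · rintro ⟨h1, h2, h3, h4⟩
      by_contra hx
      rw [if_neg hx] at h4
      exact g1 x (mem_sdiff.2 ⟨mem_filter.2 ⟨h1, h2, h3⟩, hx⟩) h4
    · intro hx
      have h1 := mem_filter.1 (hXB hx)
      exact ⟨h1.1, h1.2.1, h1.2.2, by rw [if_pos hx]⟩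
  rw [hset1]
  exact h1

/-- the numerical part -/
private theorem jgrp_num (ε δ n k WO WB bm D m b z p Z0 Lz K cLm' cσ' cL' C c1 c2 : ℝ)
    (hε : 0 < ε) (hδ : 0 < δ) (hδε : δ ≤ ε / 50) (hn0 : 0 ≤ n)
    (hQn : 10 * (3 * cLm' + cσ' + cL' + 3 * K + 2 * (C + 1) + 20) ≤ ε * n)
    (hklo : (1 + ε) * n ≤ k) (hbmn : bm ≤ 8 / 100 * (ε * n))
    (hbal : z + b + (1 + δ) * WB + (k - n) / 2 ≤ p)
    (hWO' : WO + (D - m) + 1 = n) (hWOn : WO ≤ n)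
    (hc1u : c1 < (1 + δ) * WB + 1) (hc2u : c2 < bm + 1) (hmC : m ≤ C + 1) (hLzr : Lz ≤ cLm')
    (hpr : p + D + cL' = k) (hk2r : k ≤ 2 * D) (hZr : D + cL' ≤ Z0 + Lz + cσ' + z)
    (hz0 : 0 ≤ z) (hK0 : 0 ≤ K) (hcσ0 : 0 ≤ cσ') (hcL0 : 0 ≤ cL') (hLm : 0 ≤ cLm') (hLz0 : 0 ≤ Lz)
    (hC0 : 0 ≤ C) :
    (D + cL' + m + (b + Lz + K + c2 + m + 5) + (c1 + K + 1) + p + Lz ≤ k + Z0) ∧
    (D + cL' + m + (b + Lz + K + c2 + m + 5) + (c1 + K + 1) ≤ k) ∧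
    ((1 + δ) * WO + 3 * K + 2 * bm + (D + cL') + m + 2 ≤ k) := by
  have hklo' : n + ε * n ≤ k := by
    have : (1 + ε) * n = n + ε * n := by ring
    linarith
  have hεn0 : 0 ≤ ε * n := by positivity
  have hδn : δ * n ≤ ε * n / 50 := by
    have := mul_le_mul_of_nonneg_right hδε hn0
    linarith
  refine ⟨by linarith, by linarith, ?_⟩
  have h1 : δ * WO ≤ δ * n := mul_le_mul_of_nonneg_left hWOn hδ.le
  have h2 : (1 + δ) * WO = WO + δ * WO := by ring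
  rw [h2]
  linarith

theorem p_Jgrp (hseg : S_seg) : S_Jgrp := by
  intro ε δ C C1 J M0 K Bf hP
  refine ⟨⌈10 * (3 * (cLm C M0 : ℝ) + cσ C M0 + cL C M0 + 3 * K + 2 * (C + 1) + 20) / ε⌉₊, ?_⟩
  intro n hn k hH V _ _ T X H XB b z p Z0 Lz hHc hHd hsum hXB hsm hk2 hp hLz hZ hbal
  have hε := hP.ε0
  have hε1 := hP.ε1
  have hδ := hP.δ0
  have hδε := hP.δε
  have hC : (0 : ℝ) < C := by
    by_contra h
    push Not at h
    have h1 := hP.εC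
    have h2 : ε * (C : ℝ) ≤ 0 := mul_nonpos_of_nonneg_of_nonpos hε.le h
    linarith
  have hQn : 10 * (3 * (cLm C M0 : ℝ) + cσ C M0 + cL C M0 + 3 * K + 2 * (C + 1) + 20) ≤ ε * n := by
    have h1 := Nat.ceil_le.1 hn
    rw [div_le_iff₀ hε] at h1
    linarith
  have hn0 : (0 : ℝ) ≤ n := Nat.cast_nonneg n
  have hk4 : (k : ℝ) ≤ 4 * n := by
    have h1 : ε * (n : ℝ) ≤ 1 * n := mul_le_mul_of_nonneg_right hε1 hn0
    have h2 := hH.hi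
    have h3 : (1 + 3 * ε) * (n : ℝ) = n + 3 * (ε * n) := by ring
    linarith
  have hk0 : (0 : ℝ) ≤ k := Nat.cast_nonneg k
  obtain ⟨bm, hbm⟩ : ∃ bm : ℝ, bm = 2 * (k : ℝ) / C := ⟨_, rfl⟩
  have hbm0 : 0 ≤ bm := by rw [hbm]; positivity
  have hbmn : bm ≤ 8 / 100 * (ε * n) := by
    rw [hbm, div_le_iff₀ hC]
    have h2 : (100 : ℝ) * n ≤ ε * C * n := mul_le_mul_of_nonneg_right hP.εC hn0
    have h3 : 8 / 100 * (ε * (n : ℝ)) * C = 8 / 100 * (ε * C * n) := by ring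
    linarith
  have hD1 : ((∑ x ∈ H, (dg T x - 1) : ℕ) : ℝ) = ((∑ x ∈ H, dg T x : ℕ) : ℝ) - H.card := by
    rw [← jgrp_cast H _ hHd, sum_sub_distrib]
    push_cast
    simp
  have hO1 : ∀ x ∈ X.filter (fun x => x ∉ H ∧ 2 ≤ dg T x), 1 ≤ dg T x := by
    intro x hx
    have := (mem_filter.1 hx).2.2
    omega
  obtain ⟨WO, hWO⟩ : ∃ WO : ℝ, WO = ∑ x ∈ X.filter (fun x => x ∉ H ∧ 2 ≤ dg T x), ((dg T x : ℝ) - 1) :=
    ⟨_, rfl⟩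
  obtain ⟨WB, hWB⟩ : ∃ WB : ℝ, WB = ∑ x ∈ XB, ((dg T x : ℝ) - 1) := ⟨_, rfl⟩
  have hWO' : WO + (((∑ x ∈ H, dg T x : ℕ) : ℝ) - H.card) + 1 = n := by
    rw [hWO, jgrp_cast _ _ hO1, ← hD1, ← hsum]
    push_cast
    ring
  have hWB0 : 0 ≤ WB := by
    rw [hWB]
    refine sum_nonneg fun x hx => ?_
    have h1 : (1 : ℝ) ≤ dg T x := by exact_mod_cast hO1 x (hXB hx)
    linarith
  have hWOn : WO ≤ n := by
    have h1 : (0 : ℝ) ≤ ((∑ x ∈ H, (dg T x - 1) : ℕ) : ℝ) := Nat.cast_nonneg _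
    rw [hD1] at h1
    linarith
  obtain ⟨D, hD⟩ : ∃ D : ℕ, D = ∑ x ∈ H, dg T x := ⟨_, rfl⟩
  obtain ⟨c1, hc1⟩ : ∃ c1 : ℕ, c1 = ⌈(1 + δ) * WB⌉₊ := ⟨_, rfl⟩
  obtain ⟨c2, hc2⟩ : ∃ c2 : ℕ, c2 = ⌈bm⌉₊ := ⟨_, rfl⟩
  have hc1l : (1 + δ) * WB ≤ c1 := by rw [hc1]; exact Nat.le_ceil _
  have hc1u : (c1 : ℝ) < (1 + δ) * WB + 1 := by
    rw [hc1]
    exact Nat.ceil_lt_add_one (mul_nonneg (by linarith) hWB0)
  have hc2l : bm ≤ c2 := by rw [hc2]; exact Nat.le_ceil _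
  have hc2u : (c2 : ℝ) < bm + 1 := by rw [hc2]; exact Nat.ceil_lt_add_one hbm0
  rw [← hD] at hk2 hp hZ hWO' ⊢
  rw [← hWB] at hbal
  obtain ⟨hF, hB, hG⟩ := jgrp_num ε δ n k WO WB bm D H.card b z p Z0 Lz K (cLm C M0) (cσ C M0) (cL C M0) C
    c1 c2 hε hδ hδε hn0 hQn hH.lo hbmn hbal hWO' hWOn hc1u hc2u (by exact_mod_cast hHc)
    (by exact_mod_cast hLz) (by exact_mod_cast hp) (by exact_mod_cast hk2) (by exact_mod_cast hZ)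
    (Nat.cast_nonneg _) (Nat.cast_nonneg _) (Nat.cast_nonneg _) (Nat.cast_nonneg _) (Nat.cast_nonneg _)
    (Nat.cast_nonneg _) hC.le
  obtain ⟨l0, hl0⟩ : ∃ l0 : ℕ, l0 = b + Lz + K + c2 + H.card + 5 := ⟨_, rfl⟩
  obtain ⟨l1, hl1⟩ : ∃ l1 : ℕ, l1 = c1 + K + 1 := ⟨_, rfl⟩
  have hl0r : (l0 : ℝ) = b + Lz + K + c2 + H.card + 5 := by rw [hl0]; push_cast; ring
  have hl1r : (l1 : ℝ) = c1 + K + 1 := by rw [hl1]; push_cast; ring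
  have hF' : D + cL C M0 + H.card + l0 + l1 + p + Lz ≤ k + Z0 := by
    rw [← hl0r, ← hl1r] at hF
    exact_mod_cast hF
  have hB' : D + cL C M0 + H.card + l0 + l1 ≤ k := by
    rw [← hl0r, ← hl1r] at hB
    exact_mod_cast hB
  obtain ⟨l2, hl2⟩ := Nat.exists_eq_add_of_le hB'
  have hl2r : (k : ℝ) = D + cL C M0 + H.card + l0 + l1 + l2 := by exact_mod_cast hl2
  obtain ⟨grp, g1, g2, g3, g4⟩ := jgrp_abs hseg X H XB (dg T) δ bm WO K l0 l1 l2 hδ (by linarith) hbm0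
    hXB (by
      intro x hx hxH
      have h3 : (C : ℝ) * dg T x ≤ k := by exact_mod_cast hsm x hx hxH
      rw [hbm, le_div_iff₀ hC]
      have h4 : 2 * (dg T x : ℝ) * C = 2 * (C * dg T x) := by ring
      linarith) hWO.symm (by rw [← hWB]; linarith) (by
      rw [← hWB]
      have hb0 : (0 : ℝ) ≤ b := Nat.cast_nonneg _
      have hLz0 : (0 : ℝ) ≤ Lz := Nat.cast_nonneg _
      linarith)
  refine ⟨grp, fun i => if i = 0 then ((D + cL C M0 + H.card : ℕ) : ℤ) else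
      if i = 1 then ((D + cL C M0 + H.card + l0 : ℕ) : ℤ) else ((D + cL C M0 + H.card + l0 + l1 : ℕ) : ℤ),
    fun i => if i = 0 then l0 else if i = 1 then l1 else l2, g1, ?_, ?_, ?_, ?_, ?_, ?_, ?_⟩
  · intro i
    fin_cases i
    · exact g2
    · exact Or.inr g3
    · exact g4
  · show ((D + cL C M0 + H.card : ℕ) : ℤ) ≤ ((D + cL C M0 + H.card : ℕ) : ℤ)
    exact le_refl _
  · show ((D + cL C M0 + H.card : ℕ) : ℤ) + (l0 : ℤ) ≤ ((D + cL C M0 + H.card + l0 : ℕ) : ℤ)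
    omega
  · show ((D + cL C M0 + H.card + l0 : ℕ) : ℤ) + (l1 : ℤ) ≤ ((D + cL C M0 + H.card + l0 + l1 : ℕ) : ℤ)
    omega
  · show ((D + cL C M0 + H.card + l0 + l1 : ℕ) : ℤ) + (l2 : ℤ) ≤ (k : ℤ)
    omega
  · show ((D + cL C M0 + b + Lz : ℕ) : ℤ) < ((D + cL C M0 + H.card + l0 : ℕ) : ℤ)
    omega
  · show ((D + cL C M0 + H.card + l0 : ℕ) : ℤ) + (l1 : ℤ) - (Z0 : ℤ) + (p : ℤ) + (Lz : ℤ) ≤ (k : ℤ)
    omega

end Pool.Agent.Lib.MP_7c15de_co.AS
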