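import Pool.Agent.Lib.MP_7c15de_co.AS.Stm
import Pool.Agent.Lib.MP_7c15de_co.TH.P_dg
import Pool.Agent.Lib.MP_7c15de_co.TH.P_enum

/-!
# MP_7c15de_co, piece Jlay: the labels near the hub
-/

set_option autoImplicit false

namespace Pool.Agent.Lib.MP_7c15de_co.AS

open Finset Pool.Agent.Lib.MP_7c15de_co Pool.Agent.Lib.MP_7c15de_co.TH

private theorem jlay_rank {V : Type} [DecidableEq V] (A : Finset V) (g : V → ℕ) :
    ∃ rk : V → ℕ, (∀ y ∈ A, rk y < A.card) ∧ (∀ y ∈ A, ∀ y' ∈ A, rk y = rk y' → y = y') ∧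
      (∀ i < A.card, ∃ y ∈ A, rk y = i) ∧ ∀ y ∈ A, ∀ y' ∈ A, rk y ≤ rk y' → g y ≤ g y' := by
  classical
  rcases A.eq_empty_or_nonempty with h | ⟨a, ha⟩
  · subst h
    exact ⟨fun _ => 0, by simp, by simp, by simp, by simp⟩
  · haveI : Nonempty V := ⟨a⟩
    obtain ⟨xs, h1, h2, h3, h4⟩ := p_enum V A g
    choose! rk hr using h2
    refine ⟨rk, fun y hy => (hr y hy).1, fun y hy y' hy' e => ?_, fun i hi => ⟨xs i, h1 i hi, ?_⟩,
      fun y hy y' hy' e => ?_⟩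
    · rw [← (hr y hy).2, e, (hr y' hy').2]
    · exact h3 _ (hr _ (h1 i hi)).1 i hi (hr _ (h1 i hi)).2
    · have := h4 (rk y) (rk y') e (hr y' hy').1
      rwa [(hr y hy).2, (hr y' hy').2] at this

/-- the slots of the special vertices -/
private theorem jlay_slot {V : Type} [DecidableEq V] (A : Finset V) (W n : ℕ) (hA : A.card ≤ n) :
    ∃ sl : V → ℕ, (∀ y ∈ A, sl y + W ≤ W * n) ∧
      ∀ y ∈ A, ∀ y' ∈ A, y ≠ y' → sl y + W ≤ sl y' ∨ sl y' + W ≤ sl y := by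
  obtain ⟨rk, h1, h2, -, -⟩ := jlay_rank A fun _ => 0
  refine ⟨fun y => W * rk y, fun y hy => ?_, fun y hy y' hy' hne => ?_⟩
  · have h := h1 y hy
    calc W * rk y + W = W * (rk y + 1) := by ring
      _ ≤ W * n := Nat.mul_le_mul_left W (by omega)
  · rcases lt_trichotomy (rk y) (rk y') with h | h | h
    · left
      calc W * rk y + W = W * (rk y + 1) := by ring
        _ ≤ W * rk y' := Nat.mul_le_mul_left W h
    · exact absurd (h2 y hy y' hy' h) hne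
    · right
      calc W * rk y' + W = W * (rk y' + 1) := by ring
        _ ≤ W * rk y := Nat.mul_le_mul_left W h

theorem p_Jlay : S_Jlay := by
  classical
  intro V _ _ T _ X hX ys par μ hR C M0 HY H U Top xt x2 c2 cov sh hM0 hHY hys hHYc hHX hH2 hHc hU
    hxt hTop hTopc hTopp hcov hcovi hsh hshi hshxt hc2 hnt
  obtain ⟨Sp, hSp⟩ : ∃ s, s = spJ HY H par := ⟨_, rfl⟩
  have mSp : ∀ y, y ∈ Sp ↔ y ∈ HY ∨ ∃ x ∈ H, par x = y := by
    intro y
    rw [hSp, spJ, mem_union, mem_image]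
  have hysX : ys ∉ X := hR.y0X
  have hysSp : ys ∈ Sp := (mSp ys).2 (Or.inl hys)
  have hparSp : ∀ x ∈ H, par x ∈ Sp := fun x hx => (mSp _).2 (Or.inr ⟨x, hx, rfl⟩)
  have hSpX : ∀ y ∈ Sp, y ∉ X := by
    intro y hy
    rcases (mSp y).1 hy with h | ⟨x, hx, rfl⟩
    · exact mem_compl.1 (hHY h)
    · exact hR.parX x (hHX hx)
  have hSpc : Sp.card ≤ 2 * C + 1 := by
    rw [hSp, spJ]
    have h1 := card_union_le HY (H.image par)
    have h2 : (H.image par).card ≤ H.card := card_image_le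
    omega
  -- ntJ and ltJ
  obtain ⟨NT, hNT⟩ : ∃ s, s = ntJ X ys par HY H U := ⟨_, rfl⟩
  obtain ⟨LT, hLT⟩ : ∃ s, s = ltJ X ys par HY H U := ⟨_, rfl⟩
  rw [← hNT] at hTop hnt hcov
  rw [← hLT]
  have mNT : ∀ c, c ∈ NT ↔ c ∉ X ∧ c ≠ ys ∧ par c ∈ H ∧ c ∉ Sp ∧ ∀ r ∈ U, par r ≠ c := by
    intro c
    rw [hNT, ntJ, mem_filter, mem_compl, ← hSp]
  have mLT : ∀ c, c ∈ LT ↔ c ∉ X ∧ c ≠ ys ∧ par c ∈ H ∧ c ∉ Sp ∧ ∃ r ∈ U, par r = c := by
    intro c
    rw [hLT, ltJ, mem_filter, mem_compl, ← hSp]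
  -- the sets
  obtain ⟨Cv, hCv⟩ : ∃ s, s = (H.filter (fun x => x ≠ xt ∧ ¬ T.Adj ys x)).image cov := ⟨_, rfl⟩
  have mCv : ∀ y, y ∈ Cv ↔ ∃ x ∈ H, x ≠ xt ∧ ¬ T.Adj ys x ∧ cov x = y := by
    intro y
    rw [hCv, mem_image]
    constructor
    · rintro ⟨x, hx, rfl⟩
      rw [mem_filter] at hx
      exact ⟨x, hx.1, hx.2.1, hx.2.2, rfl⟩
    · rintro ⟨x, h1, h2, h3, rfl⟩
      exact ⟨x, mem_filter.2 ⟨h1, h2, h3⟩, rfl⟩
  have hCvc : Cv.card ≤ H.card := by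
    rw [hCv]
    exact card_image_le.trans (card_filter_le _ _)
  have hCvNT : ∀ y ∈ Cv, y ∈ NT ∧ y ∉ Top ∧ par y = xt := by
    intro y hy
    obtain ⟨x, h1, h2, h3, rfl⟩ := (mCv y).1 hy
    exact hcov x h1 h2
  obtain ⟨O1, hO1⟩ : ∃ s, s = NT.filter (fun c => c ∉ Top ∧ c ∉ Cv ∧ (T.Adj ys xt ∨ c ≠ c2)) :=
    ⟨_, rfl⟩
  obtain ⟨O2, hO2⟩ : ∃ s, s = LT.filter (fun c => T.Adj ys xt ∨ c ≠ c2) := ⟨_, rfl⟩
  have mO1 : ∀ c, c ∈ O1 ↔ c ∈ NT ∧ c ∉ Top ∧ c ∉ Cv ∧ (T.Adj ys xt ∨ c ≠ c2) := by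
    intro c
    rw [hO1, mem_filter]
  have mO2 : ∀ c, c ∈ O2 ↔ c ∈ LT ∧ (T.Adj ys xt ∨ c ≠ c2) := by
    intro c
    rw [hO2, mem_filter]
  obtain ⟨ZL, hZL⟩ : ∃ s, s = univ.filter (fun y => y ∈ Sp ∨ y ∈ Cv ∨ (¬ T.Adj ys xt ∧ y = c2)) :=
    ⟨_, rfl⟩
  have mZL : ∀ y, y ∈ ZL ↔ y ∈ Sp ∨ y ∈ Cv ∨ (¬ T.Adj ys xt ∧ y = c2) := by
    intro y
    rw [hZL, mem_filter]
    exact ⟨fun h => h.2, fun h => ⟨mem_univ _, h⟩⟩
  have hZLc : ZL.card ≤ 3 * C + 4 := by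
    have h1 : ZL ⊆ Sp ∪ (Cv ∪ {c2}) := by
      intro y hy
      rcases (mZL y).1 hy with h | h | ⟨-, h⟩
      · exact mem_union_left _ h
      · exact mem_union_right _ (mem_union_left _ h)
      · exact mem_union_right _ (mem_union_right _ (mem_singleton.2 h))
    have h2 := card_le_card h1
    have h3 := card_union_le Sp (Cv ∪ {c2})
    have h4 := card_union_le Cv {c2}
    rw [card_singleton] at h4
    omega
  -- facts on c2
  have hc2' : ¬ T.Adj ys xt → x2 ∈ H ∧ x2 ≠ xt ∧ sh x2 = 0 ∧ c2 ∉ X ∧ c2 ≠ ys ∧ par c2 = x2 := by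
    intro h
    obtain ⟨h1, h2, h3, h4⟩ := hc2 h
    rw [kids, mem_filter] at h4
    exact ⟨h1, h2, h3, h4.2⟩
  -- edges at H
  have hEd : ∀ x ∈ H, ∀ y, T.Adj x y → y ∉ X ∧ (y ∈ Sp ∨ (y ≠ ys ∧ par y = x)) := by
    intro x hx y hxy
    rcases (hR.adj x (hHX hx) y).1 hxy with h | h
    · rw [h]
      exact ⟨hR.parX x (hHX hx), Or.inl (hparSp x hx)⟩
    · exact ⟨h.1, Or.inr ⟨h.2.1, h.2.2⟩⟩
  have hEd' : ∀ y, y ∉ X → y ≠ ys → par y ∈ H → T.Adj (par y) y := by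
    intro y h1 h2 h3
    exact (hR.adj (par y) (hHX h3) y).2 (Or.inr ⟨h1, h2, rfl⟩)
  -- the classification of the children
  have hcl : ∀ y, y ∉ X → y ≠ ys → par y ∈ H → y ∈ ZL ∨ y ∈ O1 ∨ y ∈ O2 ∨ y ∈ Top := by
    intro y h1 h2 h3
    by_cases h4 : y ∈ Sp
    · exact Or.inl ((mZL y).2 (Or.inl h4))
    by_cases h5 : y ∈ Cv
    · exact Or.inl ((mZL y).2 (Or.inr (Or.inl h5)))
    by_cases h6 : ¬ T.Adj ys xt ∧ y = c2
    · exact Or.inl ((mZL y).2 (Or.inr (Or.inr h6)))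
    have h7 : T.Adj ys xt ∨ y ≠ c2 := by
      by_contra h8
      push Not at h8
      exact h6 h8
    by_cases h8 : y ∈ Top
    · exact Or.inr (Or.inr (Or.inr h8))
    by_cases h9 : ∃ r ∈ U, par r = y
    · exact Or.inr (Or.inr (Or.inl ((mO2 y).2 ⟨(mLT y).2 ⟨h1, h2, h3, h4, h9⟩, h7⟩)))
    · refine Or.inr (Or.inl ((mO1 y).2 ⟨(mNT y).2 ⟨h1, h2, h3, h4, ?_⟩, h8, h5, h7⟩))
      intro r hr e
      exact h9 ⟨r, hr, e⟩
  -- basic facts on O1, O2, Top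
  have fO : ∀ y, y ∈ O1 ∨ y ∈ O2 ∨ y ∈ Top → y ∉ X ∧ y ≠ ys ∧ par y ∈ H ∧ y ∉ Sp ∧ y ∉ ZL := by
    intro y hy
    have key : (y ∈ NT ∨ y ∈ LT) ∧ y ∉ Cv ∧ (T.Adj ys xt ∨ y ≠ c2) := by
      rcases hy with h | h | h
      · obtain ⟨a, b, c, d⟩ := (mO1 y).1 h
        exact ⟨Or.inl a, c, d⟩
      · obtain ⟨a, b⟩ := (mO2 y).1 h
        refine ⟨Or.inr a, fun hc => ?_, b⟩
        obtain ⟨r, hr, e⟩ := ((mLT y).1 a).2.2.2.2
        exact ((mNT y).1 (hCvNT y hc).1).2.2.2.2 r hr e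
      · refine ⟨Or.inl (hTop h), fun hc => (hCvNT y hc).2.1 h, ?_⟩
        by_contra h8
        push Not at h8
        obtain ⟨a, b, c, d, e, f⟩ := hc2' h8.1
        have := hTopp y h
        rw [h8.2, f] at this
        exact b this
    have k2 : y ∉ X ∧ y ≠ ys ∧ par y ∈ H ∧ y ∉ Sp := by
      rcases key.1 with h | h
      · obtain ⟨a, b, c, d, e⟩ := (mNT y).1 h
        exact ⟨a, b, c, d⟩
      · obtain ⟨a, b, c, d, e⟩ := (mLT y).1 h
        exact ⟨a, b, c, d⟩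
    refine ⟨k2.1, k2.2.1, k2.2.2.1, k2.2.2.2, fun hz => ?_⟩
    rcases (mZL y).1 hz with h | h | h
    · exact k2.2.2.2 h
    · exact key.2.1 h
    · rcases key.2.2 with h' | h'
      · exact h.1 h'
      · exact h' h.2
  have dO12 : Disjoint O1 O2 := by
    rw [Finset.disjoint_left]
    intro y h1 h2
    obtain ⟨r, hr, e⟩ := ((mLT y).1 ((mO2 y).1 h2).1).2.2.2.2
    exact ((mNT y).1 ((mO1 y).1 h1).1).2.2.2.2 r hr e
  have dO1T : Disjoint O1 Top := by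
    rw [Finset.disjoint_left]
    intro y h1 h2
    exact ((mO1 y).1 h1).2.1 h2
  have dO2T : Disjoint O2 Top := by
    rw [Finset.disjoint_left]
    intro y h1 h2
    obtain ⟨r, hr, e⟩ := ((mLT y).1 ((mO2 y).1 h1).1).2.2.2.2
    exact ((mNT y).1 (hTop h2)).2.2.2.2 r hr e
  -- counting
  obtain ⟨e, he⟩ : ∃ e, e = ∑ x ∈ H, (ZL.filter (fun y => T.Adj x y)).card := ⟨_, rfl⟩
  have heb : e ≤ (3 * C + 4) * (C + 1) := by
    rw [he]
    calc ∑ x ∈ H, (ZL.filter (fun y => T.Adj x y)).card ≤ ∑ x ∈ H, (3 * C + 4) :=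
          sum_le_sum fun x _ => (card_filter_le _ _).trans hZLc
      _ = H.card * (3 * C + 4) := by rw [sum_const, smul_eq_mul]
      _ ≤ (C + 1) * (3 * C + 4) := Nat.mul_le_mul_right _ hHc
      _ = (3 * C + 4) * (C + 1) := by ring
  have hD : ∑ x ∈ H, dg T x = e + O1.card + O2.card + Top.card := by
    have h1 : (O1 ∪ O2 ∪ Top).card = O1.card + O2.card + Top.card := by
      rw [card_union_of_disjoint (disjoint_union_left.2 ⟨dO1T, dO2T⟩), card_union_of_disjoint dO12]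
    have mO : ∀ y, y ∈ O1 ∪ O2 ∪ Top ↔ y ∈ O1 ∨ y ∈ O2 ∨ y ∈ Top := by
      intro y
      rw [mem_union, mem_union, or_assoc]
    have h2 : (O1 ∪ O2 ∪ Top).card = ∑ x ∈ H, ((O1 ∪ O2 ∪ Top).filter (fun y => par y = x)).card :=
      card_eq_sum_card_fiberwise fun y hy => (fO y ((mO y).1 (mem_coe.1 hy))).2.2.1
    have h3 : ∑ x ∈ H, dg T x = ∑ x ∈ H, ((ZL.filter (fun y => T.Adj x y)).card +
        ((O1 ∪ O2 ∪ Top).filter (fun y => par y = x)).card) := by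
      refine sum_congr rfl fun x hx => ?_
      rw [← card_union_of_disjoint]
      · refine (p_dg V T).2.2.2.1 x _ fun y => ?_
        rw [mem_union, mem_filter, mem_filter, mO]
        constructor
        · intro hxy
          obtain ⟨a, b⟩ := hEd x hx y hxy
          rcases b with b | ⟨b, c⟩
          · exact Or.inl ⟨(mZL y).2 (Or.inl b), hxy⟩
          · rcases hcl y a b (by rw [c]; exact hx) with h | h
            · exact Or.inl ⟨h, hxy⟩
            · exact Or.inr ⟨h, c⟩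
        · rintro (h | ⟨h, h'⟩)
          · exact h.2
          · obtain ⟨a, b, c, d, -⟩ := fO y h
            rw [← h']
            exact hEd' y a b c
      · rw [Finset.disjoint_left]
        intro y h4 h5
        rw [mem_filter] at h4 h5
        exact (fO y ((mO y).1 h5.1)).2.2.2.2 h4.1
    rw [h3, sum_add_distrib, ← h2, ← he, h1]
    ring
  have hNTc : NT.card ≤ O1.card + cσ C M0 + H.card + 1 := by
    have h1 : NT ⊆ O1 ∪ (Top ∪ (Cv ∪ {c2})) := by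
      intro y hy
      by_cases h8 : y ∈ Top
      · exact mem_union_right _ (mem_union_left _ h8)
      by_cases h5 : y ∈ Cv
      · exact mem_union_right _ (mem_union_right _ (mem_union_left _ h5))
      by_cases h6 : y = c2
      · exact mem_union_right _ (mem_union_right _ (mem_union_right _ (mem_singleton.2 h6)))
      exact mem_union_left _ ((mO1 y).2 ⟨hy, h8, h5, Or.inr h6⟩)
    have h2 := card_le_card h1
    have h3 := card_union_le O1 (Top ∪ (Cv ∪ {c2}))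
    have h4 := card_union_le Top (Cv ∪ {c2})
    have h5 := card_union_le Cv {c2}
    rw [card_singleton] at h5
    omega
  have hO2c : O2.card ≤ LT.card := by
    rw [hO2]
    exact card_filter_le _ _
  -- ranks
  obtain ⟨rk1, a1, a2, a3, a4⟩ := jlay_rank O1 fun y => sh (par y)
  obtain ⟨rk2, b1, b2, b3, b4⟩ := jlay_rank O2 fun y => sh (par y)
  obtain ⟨rk3, d1, d2, d3, -⟩ := jlay_rank Top fun _ => 0
  obtain ⟨sl, s1, s2⟩ := jlay_slot Sp (M0 + C + 1) (2 * C + 1) hSpc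
  -- numbers
  obtain ⟨Q, hQ⟩ : ∃ Q, Q = (M0 + C + 1) * (2 * C + 1) := ⟨_, rfl⟩
  have hcL : cL C M0 = 4 * C + 5 + Q + (M0 + C + 1) := by
    rw [cL, hQ]
    ring
  have hcLm : cLm C M0 = cL C M0 + (3 * C + 4) * (C + 1) := rfl
  have hcσ : cσ C M0 = cLm C M0 + C + 2 := rfl
  rw [← hQ] at s1
  obtain ⟨m, hm⟩ : ∃ m, m = H.card := ⟨_, rfl⟩
  rw [← hm] at hHc hsh hshxt hNTc
  obtain ⟨cs, hcs⟩ : ∃ cs, cs = cσ C M0 := ⟨_, rfl⟩
  obtain ⟨cl, hcl'⟩ : ∃ cl, cl = cL C M0 := ⟨_, rfl⟩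
  obtain ⟨clm, hclm⟩ : ∃ clm, clm = cLm C M0 := ⟨_, rfl⟩
  obtain ⟨R3, hR3⟩ : ∃ R3, R3 = (3 * C + 4) * (C + 1) := ⟨_, rfl⟩
  rw [← hcs] at hTopc hnt hNTc hcσ ⊢
  rw [← hclm] at hcLm hcσ hnt ⊢
  rw [← hcl'] at hcL hcLm ⊢
  rw [← hR3] at hcLm heb
  rw [hTopc] at hD
  obtain ⟨Z0, hZ0⟩ : ∃ Z0, Z0 = O1.card := ⟨_, rfl⟩
  obtain ⟨n2, hn2⟩ : ∃ n2, n2 = O2.card := ⟨_, rfl⟩
  rw [← hZ0] at hD hNTc a1 a3
  rw [← hn2] at hD hO2c b1 b3
  rw [hTopc] at d1 d3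
  obtain ⟨D, hD'⟩ : ∃ D, D = ∑ x ∈ H, dg T x := ⟨_, rfl⟩
  rw [← hD'] at hD ⊢
  obtain ⟨Lz, hLz⟩ : ∃ Lz, Lz = cl + e := ⟨_, rfl⟩
  -- the labels
  obtain ⟨v, hv⟩ : ∃ v : ℤ, v = Z0 + 2 * C + 2 := ⟨_, rfl⟩
  let gs : V → ℤ := fun y => Z0 + 4 * C + 5 + sl y
  let f : V → ℤ := fun y =>
    if y = ys then v
    else if ¬ T.Adj ys xt ∧ y = c2 then v - (m - 1)
    else if h : ∃ x ∈ H, x ≠ xt ∧ ¬ T.Adj ys x ∧ cov x = y then v + (m - 1) - sh h.choose
    else if y ∈ Sp then gs y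
    else if y ∈ O1 then rk1 y + sh (par y)
    else if y ∈ O2 then Z0 + Lz + rk2 y + sh (par y)
    else Z0 + Lz + n2 + rk3 y + (m - 1)
  have f0 : f ys = v := if_pos rfl
  have f1 : ¬ T.Adj ys xt → f c2 = v - (m - 1) := by
    intro h
    obtain ⟨-, -, -, -, h5, -⟩ := hc2' h
    show (if c2 = ys then v else _) = _
    rw [if_neg h5, if_pos ⟨h, rfl⟩]
  have f2 : ∀ x ∈ H, x ≠ xt → ¬ T.Adj ys x → f (cov x) = v + (m - 1) - sh x := by
    intro x hx hxt' hxa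
    obtain ⟨g1, g2, g3⟩ := hcov x hx hxt'
    have g4 : cov x ≠ ys := ((mNT _).1 g1).2.1
    have g5 : ¬ (¬ T.Adj ys xt ∧ cov x = c2) := by
      rintro ⟨h, h'⟩
      obtain ⟨-, h2, -, -, -, h5⟩ := hc2' h
      rw [h', h5] at g3
      exact h2 g3
    have g6 : ∃ x' ∈ H, x' ≠ xt ∧ ¬ T.Adj ys x' ∧ cov x' = cov x := ⟨x, hx, hxt', hxa, rfl⟩
    have g7 : g6.choose = x := by
      obtain ⟨k1, k2, k3, k4⟩ := g6.choose_spec
      exact hcovi _ k1 x hx k2 hxt' k4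
    show (if cov x = ys then v else _) = _
    rw [if_neg g4, if_neg g5, dif_pos g6, g7]
  have gne : ∀ y, y ∉ Cv → ¬ ∃ x ∈ H, x ≠ xt ∧ ¬ T.Adj ys x ∧ cov x = y := fun y hy h =>
    hy ((mCv y).2 h)
  have f3 : ∀ y ∈ Sp, y ≠ ys → ¬ (¬ T.Adj ys xt ∧ y = c2) → f y = gs y := by
    intro y hy hy1 hy2
    have g1 : y ∉ Cv := fun h => ((mNT y).1 (hCvNT y h).1).2.2.2.1 hy
    show (if y = ys then v else _) = _
    rw [if_neg hy1, if_neg hy2, dif_neg (gne y g1), if_pos hy]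
  have gc : ∀ y, y ∉ ZL → ¬ (¬ T.Adj ys xt ∧ y = c2) ∧ y ∉ Cv := by
    intro y hy
    exact ⟨fun h => hy ((mZL y).2 (Or.inr (Or.inr h))), fun h => hy ((mZL y).2 (Or.inr (Or.inl h)))⟩
  have f4 : ∀ y ∈ O1, f y = rk1 y + sh (par y) := by
    intro y hy
    obtain ⟨k1, k2, k3, k4, k5⟩ := fO y (Or.inl hy)
    obtain ⟨k6, k7⟩ := gc y k5
    show (if y = ys then v else _) = _
    rw [if_neg k2, if_neg k6, dif_neg (gne y k7), if_neg k4, if_pos hy]
  have f5 : ∀ y ∈ O2, f y = Z0 + Lz + rk2 y + sh (par y) := by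
    intro y hy
    obtain ⟨k1, k2, k3, k4, k5⟩ := fO y (Or.inr (Or.inl hy))
    obtain ⟨k6, k7⟩ := gc y k5
    show (if y = ys then v else _) = _
    rw [if_neg k2, if_neg k6, dif_neg (gne y k7), if_neg k4,
      if_neg (fun h => Finset.disjoint_left.1 dO12 h hy), if_pos hy]
  have f6 : ∀ y ∈ Top, f y = Z0 + Lz + n2 + rk3 y + (m - 1) := by
    intro y hy
    obtain ⟨k1, k2, k3, k4, k5⟩ := fO y (Or.inr (Or.inr hy))
    obtain ⟨k6, k7⟩ := gc y k5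
    show (if y = ys then v else _) = _
    rw [if_neg k2, if_neg k6, dif_neg (gne y k7), if_neg k4,
      if_neg (fun h => Finset.disjoint_left.1 dO1T h hy),
      if_neg (fun h => Finset.disjoint_left.1 dO2T h hy)]
  refine ⟨Z0, Lz, f, gs, by omega, by omega, by omega, by omega, by omega, ?_⟩
  intro u hu1 hu2
  -- the labels in `u`
  have t0 : u ys = v := by rw [hu1 ys hysX (Or.inl rfl), f0]
  have t1 : ¬ T.Adj ys xt → u c2 = v - (m - 1) := by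
    intro h
    obtain ⟨h1, h2, h3, h4, h5, h6⟩ := hc2' h
    rw [hu1 c2 h4 (Or.inr (by rw [h6]; exact h1)), f1 h]
  have t2 : ∀ x ∈ H, x ≠ xt → ¬ T.Adj ys x → u (cov x) = v + (m - 1) - sh x := by
    intro x hx hxt' hxa
    obtain ⟨g1, g2, g3⟩ := hcov x hx hxt'
    rw [hu1 _ ((mNT _).1 g1).1 (Or.inr ((mNT _).1 g1).2.2.1), f2 x hx hxt' hxa]
  have t3 : ∀ y ∈ Sp, y ≠ ys → ¬ (¬ T.Adj ys xt ∧ y = c2) → gs y ≤ u y ∧ u y < gs y + M0 := by
    intro y hy hy1 hy2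
    by_cases h : par y ∈ H
    · rw [hu1 y (hSpX y hy) (Or.inr h), f3 y hy hy1 hy2]
      constructor <;> omega
    · exact hu2 y (hSpX y hy) hy1 h (by rw [← hSp]; exact hy)
  have t4 : ∀ y ∈ O1, u y = rk1 y + sh (par y) := fun y hy => by
    obtain ⟨k1, k2, k3, k4, k5⟩ := fO y (Or.inl hy)
    rw [hu1 y k1 (Or.inr k3), f4 y hy]
  have t5 : ∀ y ∈ O2, u y = Z0 + Lz + rk2 y + sh (par y) := fun y hy => by
    obtain ⟨k1, k2, k3, k4, k5⟩ := fO y (Or.inr (Or.inl hy))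
    rw [hu1 y k1 (Or.inr k3), f5 y hy]
  have t6 : ∀ y ∈ Top, u y = Z0 + Lz + n2 + rk3 y + (m - 1) := fun y hy => by
    obtain ⟨k1, k2, k3, k4, k5⟩ := fO y (Or.inr (Or.inr hy))
    rw [hu1 y k1 (Or.inr k3), f6 y hy]
  have hgs : ∀ y, gs y = Z0 + 4 * C + 5 + sl y := fun _ => rfl
  clear_value gs f
  have hshxt' := hsh xt hxt
  -- the classification of the edges at `H`
  have cls : ∀ x ∈ H, ∀ y, T.Adj x y →
      (y = ys ∧ T.Adj ys x ∧ u y - sh x = v - sh x) ∨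
      (¬ T.Adj ys xt ∧ y = c2 ∧ x = x2 ∧ u y - sh x = v - sh xt) ∨
      (¬ T.Adj ys xt ∧ y = c2 ∧ 1 ≤ sh x ∧ u y - sh x = v - (m - 1) - sh x) ∨
      (∃ x0 ∈ H, x0 ≠ xt ∧ ¬ T.Adj ys x0 ∧ y = cov x0 ∧ x = xt ∧ u y - sh x = v - sh x0) ∨
      (y ∈ Sp ∧ gs y ≤ u y - sh x + sh x ∧ u y - sh x + sh x < gs y + M0 ∧ sl y + (M0 + C + 1) ≤ Q) ∨
      (y ∈ O1 ∧ x = par y ∧ u y - sh x = rk1 y ∧ rk1 y < Z0) ∨
      (y ∈ O2 ∧ x = par y ∧ u y - sh x = Z0 + Lz + rk2 y ∧ rk2 y < n2) ∨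
      (y ∈ Top ∧ x = par y ∧ u y - sh x = Z0 + Lz + n2 + rk3 y ∧ rk3 y < cs) := by
    intro x hx y hxy
    by_cases c1 : y = ys
    · left
      refine ⟨c1, by rw [← c1]; exact hxy.symm, by rw [c1, t0]⟩
    by_cases c3 : ¬ T.Adj ys xt ∧ y = c2
    · obtain ⟨h1, h2, h3, h4, h5, h6⟩ := hc2' c3.1
      by_cases c4 : x = x2
      · right; left
        refine ⟨c3.1, c3.2, c4, ?_⟩
        rw [c3.2, t1 c3.1, c4]
        omega
      · right; right; left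
        have h7 : sh x ≠ 0 := fun h => c4 (hshi x hx x2 h1 (by rw [h, h3]))
        refine ⟨c3.1, c3.2, by omega, ?_⟩
        rw [c3.2, t1 c3.1]
    by_cases c4 : y ∈ Cv
    · obtain ⟨x0, h1, h2, h3, h4⟩ := (mCv y).1 c4
      right; right; right; left
      obtain ⟨g1, g2, g3⟩ := hcov x0 h1 h2
      obtain ⟨g4, g5, g6, g7, -⟩ := (mNT _).1 g1
      have g8 : par y = x := by
        rcases (hEd x hx y hxy).2 with h | h
        · rw [← h4] at h
          exact absurd h g7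
        · exact h.2
      have g9 : x = xt := by
        rw [← g8, ← h4, g3]
      refine ⟨x0, h1, h2, h3, h4.symm, g9, ?_⟩
      rw [← h4, t2 x0 h1 h2 h3, g9]
      omega
    by_cases c5 : y ∈ Sp
    · right; right; right; right; left
      obtain ⟨h1, h2⟩ := t3 y c5 c1 c3
      exact ⟨c5, by omega, by omega, s1 y c5⟩
    obtain ⟨h1, h2⟩ := hEd x hx y hxy
    rcases h2 with h2 | ⟨h2, h3⟩
    · exact absurd h2 c5
    have h4 : y ∉ ZL := fun h => by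
      rcases (mZL y).1 h with h | h | h
      · exact c5 h
      · exact c4 h
      · exact c3 h
    rcases hcl y h1 h2 (by rw [h3]; exact hx) with h | h | h | h
    · exact absurd h h4
    · right; right; right; right; right; left
      refine ⟨h, h3.symm, ?_, a1 y h⟩
      rw [t4 y h, h3]
      omega
    · right; right; right; right; right; right; left
      refine ⟨h, h3.symm, ?_, b1 y h⟩
      rw [t5 y h, h3]
      omega
    · right; right; right; right; right; right; right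
      refine ⟨h, h3.symm, ?_, d1 y h⟩
      rw [t6 y h, ← h3, hTopp y h]
      omega
  have shx : ∀ x0 ∈ H, x0 ≠ xt → sh x0 + 2 ≤ m := by
    intro x0 h1 h2
    have h3 := hsh x0 h1
    have h4 : sh x0 ≠ sh xt := fun h => h2 (hshi x0 h1 xt hxt h)
    omega
  have m2 : ¬ T.Adj ys xt → 2 ≤ m := by
    intro h
    obtain ⟨h1, h2, h3, -, -, -⟩ := hc2' h
    have := shx x2 h1 h2
    omega
  -- the classification of the labels
  have lcls : ∀ y ∉ X, (y = ys ∨ par y ∈ H ∨ y ∈ Sp) →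
      (y = ys ∧ u y = v) ∨
      (¬ T.Adj ys xt ∧ y = c2 ∧ u y = v - (m - 1) ∧ 2 ≤ m) ∨
      (∃ x0 ∈ H, y = cov x0 ∧ x0 ≠ xt ∧ u y = v + (m - 1) - sh x0 ∧ sh x0 + 2 ≤ m) ∨
      (y ∈ Sp ∧ gs y ≤ u y ∧ u y < gs y + M0 ∧ sl y + (M0 + C + 1) ≤ Q) ∨
      (y ∈ O1 ∧ u y = rk1 y + sh (par y) ∧ rk1 y < Z0 ∧ sh (par y) < m) ∨
      (y ∈ O2 ∧ u y = Z0 + Lz + rk2 y + sh (par y) ∧ rk2 y < n2 ∧ sh (par y) < m) ∨
      (y ∈ Top ∧ u y = Z0 + Lz + n2 + rk3 y + (m - 1) ∧ rk3 y < cs) := by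
    intro y hyX hy
    by_cases c1 : y = ys
    · left
      exact ⟨c1, by rw [c1, t0]⟩
    by_cases c3 : ¬ T.Adj ys xt ∧ y = c2
    · right; left
      exact ⟨c3.1, c3.2, by rw [c3.2, t1 c3.1], m2 c3.1⟩
    by_cases c4 : y ∈ Cv
    · obtain ⟨x0, h1, h2, h3, h4⟩ := (mCv y).1 c4
      right; right; left
      exact ⟨x0, h1, h4.symm, h2, by rw [← h4, t2 x0 h1 h2 h3], shx x0 h1 h2⟩
    by_cases c5 : y ∈ Sp
    · right; right; right; left
      obtain ⟨h1, h2⟩ := t3 y c5 c1 c3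
      exact ⟨c5, h1, h2, s1 y c5⟩
    have h4 : y ∉ ZL := fun h => by
      rcases (mZL y).1 h with h | h | h
      · exact c5 h
      · exact c4 h
      · exact c3 h
    have hyH : par y ∈ H := by
      rcases hy with h | h | h
      · exact absurd h c1
      · exact h
      · exact absurd h c5
    rcases hcl y hyX c1 hyH with h | h | h | h
    · exact absurd h h4
    · right; right; right; right; left
      exact ⟨h, t4 y h, a1 y h, hsh _ hyH⟩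
    · right; right; right; right; right; left
      exact ⟨h, t5 y h, b1 y h, hsh _ hyH⟩
    · right; right; right; right; right; right
      exact ⟨h, t6 y h, d1 y h⟩
  rw [← hSp, ← hm]
  refine ⟨?_, ?_, ?_, ?_, ?_, ?_, ?_, ?_⟩
  · -- [A]
    intro x hx y hxy
    have hsx := hsh x hx
    rcases cls x hx y hxy with ⟨-, -, h⟩ | ⟨-, -, -, h⟩ | ⟨-, -, -, h⟩ | ⟨x0, h0, -, -, -, -, h⟩ |
      ⟨-, h, h', h''⟩ | ⟨-, -, h, h'⟩ | ⟨-, -, h, h'⟩ | ⟨-, -, h, h'⟩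
    · rw [h]
      constructor <;> omega
    · rw [h]
      constructor <;> omega
    · rw [h]
      constructor <;> omega
    · have := hsh x0 h0
      rw [h]
      constructor <;> omega
    · rw [hgs] at h h'
      constructor <;> omega
    · rw [h]
      constructor <;> omega
    · rw [h]
      constructor <;> omega
    · rw [h]
      constructor <;> omega
  · -- [B]
    intro x hx x' hx' y y' hxy hxy' he
    have hsx := hsh x hx
    have hsx' := hsh x' hx'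
    have G := hgs y
    have G' := hgs y'
    rcases cls x hx y hxy with ⟨h1, h2, h⟩ | ⟨h1, h2, h3, h⟩ | ⟨h1, h2, h3, h⟩ |
      ⟨x0, h0, h1, h2, h3, h4, h⟩ | ⟨h1, h2, h, h3⟩ | ⟨h1, h2, h, h3⟩ | ⟨h1, h2, h, h3⟩ |
      ⟨h1, h2, h, h3⟩
    · rcases cls x' hx' y' hxy' with ⟨k1, k2, k⟩ | ⟨k1, k2, k3, k⟩ | ⟨k1, k2, k3, k⟩ |
        ⟨x0', k0, k1, k2, k3, k4, k⟩ | ⟨k1, k2, k, k3⟩ | ⟨k1, k2, k, k3⟩ | ⟨k1, k2, k, k3⟩ |
        ⟨k1, k2, k, k3⟩
      · exact ⟨hshi x hx x' hx' (by omega), by rw [h1, k1]⟩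
      · exact absurd (by rw [← hshi x hx xt hxt (by omega)]; exact h2) k1
      · exfalso; omega
      · exact absurd (by rw [← hshi x hx x0' k0 (by omega)]; exact h2) k2
      · exfalso; omega
      · exfalso; omega
      · exfalso; omega
      · exfalso; omega
    · rcases cls x' hx' y' hxy' with ⟨k1, k2, k⟩ | ⟨k1, k2, k3, k⟩ | ⟨k1, k2, k3, k⟩ |
        ⟨x0', k0, k1, k2, k3, k4, k⟩ | ⟨k1, k2, k, k3⟩ | ⟨k1, k2, k, k3⟩ | ⟨k1, k2, k, k3⟩ |
        ⟨k1, k2, k, k3⟩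
      · exact absurd (by rw [← hshi x' hx' xt hxt (by omega)]; exact k2) h1
      · exact ⟨by rw [h3, k3], by rw [h2, k2]⟩
      · exfalso; omega
      · exact absurd (hshi x0' k0 xt hxt (by omega)) k1
      · exfalso; omega
      · exfalso; omega
      · exfalso; omega
      · exfalso; omega
    · rcases cls x' hx' y' hxy' with ⟨k1, k2, k⟩ | ⟨k1, k2, k3, k⟩ | ⟨k1, k2, k3, k⟩ |
        ⟨x0', k0, k1, k2, k3, k4, k⟩ | ⟨k1, k2, k, k3⟩ | ⟨k1, k2, k, k3⟩ | ⟨k1, k2, k, k3⟩ |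
        ⟨k1, k2, k, k3⟩
      · exfalso; omega
      · exfalso; omega
      · exact ⟨hshi x hx x' hx' (by omega), by rw [h2, k2]⟩
      · exfalso
        have := hsh x0' k0
        omega
      · exfalso; omega
      · exfalso; omega
      · exfalso; omega
      · exfalso; omega
    · have hs0 := hsh x0 h0
      rcases cls x' hx' y' hxy' with ⟨k1, k2, k⟩ | ⟨k1, k2, k3, k⟩ | ⟨k1, k2, k3, k⟩ |
        ⟨x0', k0, k1, k2, k3, k4, k⟩ | ⟨k1, k2, k, k3⟩ | ⟨k1, k2, k, k3⟩ | ⟨k1, k2, k, k3⟩ |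
        ⟨k1, k2, k, k3⟩
      · exact absurd (by rw [← hshi x' hx' x0 h0 (by omega)]; exact k2) h2
      · exact absurd (hshi x0 h0 xt hxt (by omega)) h1
      · exfalso; omega
      · have e0 := hshi x0 h0 x0' k0 (by omega)
        exact ⟨by rw [h4, k4], by rw [h3, k3, e0]⟩
      · exfalso; omega
      · exfalso; omega
      · exfalso; omega
      · exfalso; omega
    · rcases cls x' hx' y' hxy' with ⟨k1, k2, k⟩ | ⟨k1, k2, k3, k⟩ | ⟨k1, k2, k3, k⟩ |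
        ⟨x0', k0, k1, k2, k3, k4, k⟩ | ⟨k1, k2, k, k3⟩ | ⟨k1, k2, k, k3⟩ | ⟨k1, k2, k, k3⟩ |
        ⟨k1, k2, k, k3⟩
      · exfalso; omega
      · exfalso; omega
      · exfalso; omega
      · exfalso
        have := hsh x0' k0
        omega
      · have ey : y = y' := by
          by_contra hne
          rcases s2 y h1 y' k1 hne with hs | hs
          · omega
          · omega
        refine ⟨hshi x hx x' hx' ?_, ey⟩
        rw [ey] at he
        omega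
      · exfalso; omega
      · exfalso; omega
      · exfalso; omega
    · rcases cls x' hx' y' hxy' with ⟨k1, k2, k⟩ | ⟨k1, k2, k3, k⟩ | ⟨k1, k2, k3, k⟩ |
        ⟨x0', k0, k1, k2, k3, k4, k⟩ | ⟨k1, k2, k, k3⟩ | ⟨k1, k2, k, k3⟩ | ⟨k1, k2, k, k3⟩ |
        ⟨k1, k2, k, k3⟩
      · exfalso; omega
      · exfalso; omega
      · exfalso; omega
      · exfalso
        have := hsh x0' k0
        omega
      · exfalso; omega
      · have ey := a2 y h1 y' k1 (by omega)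
        exact ⟨by rw [h2, k2, ey], ey⟩
      · exfalso; omega
      · exfalso; omega
    · rcases cls x' hx' y' hxy' with ⟨k1, k2, k⟩ | ⟨k1, k2, k3, k⟩ | ⟨k1, k2, k3, k⟩ |
        ⟨x0', k0, k1, k2, k3, k4, k⟩ | ⟨k1, k2, k, k3⟩ | ⟨k1, k2, k, k3⟩ | ⟨k1, k2, k, k3⟩ |
        ⟨k1, k2, k, k3⟩
      · exfalso; omega
      · exfalso; omega
      · exfalso; omega
      · exfalso
        have := hsh x0' k0
        omega
      · exfalso; omega
      · exfalso; omega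
      · have ey := b2 y h1 y' k1 (by omega)
        exact ⟨by rw [h2, k2, ey], ey⟩
      · exfalso; omega
    · rcases cls x' hx' y' hxy' with ⟨k1, k2, k⟩ | ⟨k1, k2, k3, k⟩ | ⟨k1, k2, k3, k⟩ |
        ⟨x0', k0, k1, k2, k3, k4, k⟩ | ⟨k1, k2, k, k3⟩ | ⟨k1, k2, k, k3⟩ | ⟨k1, k2, k, k3⟩ |
        ⟨k1, k2, k, k3⟩
      · exfalso; omega
      · exfalso; omega
      · exfalso; omega
      · exfalso
        have := hsh x0' k0
        omega
      · exfalso; omega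
      · exfalso; omega
      · exfalso; omega
      · have ey := d2 y h1 y' k1 (by omega)
        exact ⟨by rw [h2, k2, ey], ey⟩
  · -- [C]
    intro δ h1 h2 h3
    by_contra hcon
    rcases lt_or_ge δ Z0 with c1 | c1
    · obtain ⟨y, hy, hr⟩ := a3 δ.toNat (by omega)
      obtain ⟨k1, k2, k3, k4, k5⟩ := fO y (Or.inl hy)
      refine h3 (par y) k3 y (hEd' y k1 k2 k3) ?_
      rw [t4 y hy]
      omega
    · have c2' : (Z0 : ℤ) + Lz ≤ δ := by
        by_contra h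
        exact hcon ⟨c1, by omega⟩
      rcases lt_or_ge δ (Z0 + Lz + n2) with c3 | c3
      · obtain ⟨y, hy, hr⟩ := b3 (δ - Z0 - Lz).toNat (by omega)
        obtain ⟨k1, k2, k3, k4, k5⟩ := fO y (Or.inr (Or.inl hy))
        refine h3 (par y) k3 y (hEd' y k1 k2 k3) ?_
        rw [t5 y hy]
        omega
      · obtain ⟨y, hy, hr⟩ := d3 (δ - Z0 - Lz - n2).toNat (by omega)
        obtain ⟨k1, k2, k3, k4, k5⟩ := fO y (Or.inr (Or.inr hy))
        refine h3 (par y) k3 y (hEd' y k1 k2 k3) ?_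
        rw [t6 y hy, hTopp y hy]
        omega
  · -- [D]
    intro x hx
    by_cases c1 : T.Adj ys x
    · exact ⟨x, hx, ys, c1.symm, rfl⟩
    by_cases c2' : x = xt
    · rw [c2'] at c1
      obtain ⟨h1, h2, h3, h4, h5, h6⟩ := hc2' c1
      refine ⟨x2, h1, c2, ?_, ?_⟩
      · have := hEd' c2 h4 h5 (by rw [h6]; exact h1)
        rwa [h6] at this
      · rw [t1 c1, t0, c2', h3]
        omega
    · obtain ⟨g1, g2, g3⟩ := hcov x hx c2'
      obtain ⟨g4, g5, g6, g7, -⟩ := (mNT _).1 g1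
      refine ⟨xt, hxt, cov x, ?_, ?_⟩
      · have := hEd' (cov x) g4 g5 g6
        rwa [g3] at this
      · rw [t2 x hx c2' c1, t0]
        omega
  · -- [E]
    intro y hyX hy
    rcases lcls y hyX hy with ⟨-, h⟩ | ⟨-, -, h, h'⟩ | ⟨x0, h0, -, -, h, h'⟩ | ⟨-, h, h', h''⟩ |
      ⟨-, h, h', h''⟩ | ⟨-, h, h', h''⟩ | ⟨-, h, h'⟩
    · constructor <;> omega
    · constructor <;> omega
    · constructor <;> omega
    · rw [hgs] at h h'
      constructor <;> omega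
    · constructor <;> omega
    · constructor <;> omega
    · constructor <;> omega
  · -- [F]
    intro y hyX y' hyX' hy hy' he
    have G := hgs y
    have G' := hgs y'
    rcases lcls y hyX hy with ⟨h1, h⟩ | ⟨h1, h2, h, h3⟩ | ⟨x0, h0, h1, h2, h, h3⟩ |
      ⟨h1, h2, h, h3⟩ | ⟨h1, h, h2, h3⟩ | ⟨h1, h, h2, h3⟩ | ⟨h1, h, h2⟩
    · rcases lcls y' hyX' hy' with ⟨k1, k⟩ | ⟨k1, k2, k, k3⟩ | ⟨x0', k0, k1, k2, k, k3⟩ |
        ⟨k1, k2, k, k3⟩ | ⟨k1, k, k2, k3⟩ | ⟨k1, k, k2, k3⟩ | ⟨k1, k, k2⟩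
      · rw [h1, k1]
      all_goals (exfalso; omega)
    · rcases lcls y' hyX' hy' with ⟨k1, k⟩ | ⟨k1, k2, k, k3⟩ | ⟨x0', k0, k1, k2, k, k3⟩ |
        ⟨k1, k2, k, k3⟩ | ⟨k1, k, k2, k3⟩ | ⟨k1, k, k2, k3⟩ | ⟨k1, k, k2⟩
      · exfalso; omega
      · rw [h2, k2]
      all_goals (exfalso; omega)
    · rcases lcls y' hyX' hy' with ⟨k1, k⟩ | ⟨k1, k2, k, k3⟩ | ⟨x0', k0, k1, k2, k, k3⟩ |
        ⟨k1, k2, k, k3⟩ | ⟨k1, k, k2, k3⟩ | ⟨k1, k, k2, k3⟩ | ⟨k1, k, k2⟩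
      · exfalso; omega
      · exfalso; omega
      · rw [h1, k1, hshi x0 h0 x0' k0 (by omega)]
      all_goals (exfalso; omega)
    · rcases lcls y' hyX' hy' with ⟨k1, k⟩ | ⟨k1, k2, k, k3⟩ | ⟨x0', k0, k1, k2, k, k3⟩ |
        ⟨k1, k2, k, k3⟩ | ⟨k1, k, k2, k3⟩ | ⟨k1, k, k2, k3⟩ | ⟨k1, k, k2⟩
      · exfalso; omega
      · exfalso; omega
      · exfalso; omega
      · by_contra hne
        rcases s2 y h1 y' k1 hne with hs | hs
        · omega
        · omega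
      all_goals (exfalso; omega)
    · rcases lcls y' hyX' hy' with ⟨k1, k⟩ | ⟨k1, k2, k, k3⟩ | ⟨x0', k0, k1, k2, k, k3⟩ |
        ⟨k1, k2, k, k3⟩ | ⟨k1, k, k2, k3⟩ | ⟨k1, k, k2, k3⟩ | ⟨k1, k, k2⟩
      · exfalso; omega
      · exfalso; omega
      · exfalso; omega
      · exfalso; omega
      · rcases lt_trichotomy (rk1 y) (rk1 y') with hl | hl | hl
        · exfalso
          have := a4 y h1 y' k1 hl.le
          omega
        · exact a2 y h1 y' k1 hl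
        · exfalso
          have := a4 y' k1 y h1 hl.le
          omega
      all_goals (exfalso; omega)
    · rcases lcls y' hyX' hy' with ⟨k1, k⟩ | ⟨k1, k2, k, k3⟩ | ⟨x0', k0, k1, k2, k, k3⟩ |
        ⟨k1, k2, k, k3⟩ | ⟨k1, k, k2, k3⟩ | ⟨k1, k, k2, k3⟩ | ⟨k1, k, k2⟩
      · exfalso; omega
      · exfalso; omega
      · exfalso; omega
      · exfalso; omega
      · exfalso; omega
      · rcases lt_trichotomy (rk2 y) (rk2 y') with hl | hl | hl
        · exfalso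
          have := b4 y h1 y' k1 hl.le
          omega
        · exact b2 y h1 y' k1 hl
        · exfalso
          have := b4 y' k1 y h1 hl.le
          omega
      all_goals (exfalso; omega)
    · rcases lcls y' hyX' hy' with ⟨k1, k⟩ | ⟨k1, k2, k, k3⟩ | ⟨x0', k0, k1, k2, k, k3⟩ |
        ⟨k1, k2, k, k3⟩ | ⟨k1, k, k2, k3⟩ | ⟨k1, k, k2, k3⟩ | ⟨k1, k, k2⟩
      · exfalso; omega
      · exfalso; omega
      · exfalso; omega
      · exfalso; omega
      · exfalso; omega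
      · exfalso; omega
      · exact d2 y h1 y' k1 (by omega)
  · -- [G]
    intro r hr hpr
    have hrX : r ∈ X := (mem_filter.1 (hU hr)).1
    have hpX : par r ∉ X := hR.parX r hrX
    have hor : par r = ys ∨ par (par r) ∈ H ∨ par r ∈ Sp := by
      rcases hpr with h | h
      · exact Or.inr (Or.inr h)
      · exact Or.inr (Or.inl h)
    have nNT : par r ∉ NT := fun h => ((mNT _).1 h).2.2.2.2 r hr rfl
    rcases lcls (par r) hpX hor with ⟨-, h⟩ | ⟨-, -, h, h'⟩ | ⟨x0, h0, h1, h2, h, h'⟩ |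
      ⟨-, h, h', h''⟩ | ⟨h1, h, h', h''⟩ | ⟨-, h, h', h''⟩ | ⟨h1, h, h'⟩
    · constructor <;> omega
    · constructor <;> omega
    · constructor <;> omega
    · rw [hgs] at h h'
      constructor <;> omega
    · exact absurd ((mO1 _).1 h1).1 nNT
    · constructor <;> omega
    · exact absurd (hTop h1) nNT
  · rw [t0]
    constructor <;> omega

end Pool.Agent.Lib.MP_7c15de_co.AS
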