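import Pool.Agent.Lib.MP_7c15de_co.AS.Stm
import Pool.Agent.Lib.MP_7c15de_co.TH.P_enum
import Pool.Agent.Lib.MP_7c15de_co.TH.P_dg

/-!
# MP_7c15de_co, `k(n) = (1 + o(1)) n`: piece [Jloc], the hub
-/

set_option autoImplicit false

namespace Pool.Agent.Lib.MP_7c15de_co.AS

open Finset Pool.Agent.Lib.MP_7c15de_co Pool.Agent.Lib.MP_7c15de_co.TH

private theorem jl_eq {k a b : ℤ} (h : a ≡ b [ZMOD k]) (h1 : b - a < k) (h2 : a - b < k) :
    a = b := by
  have h3 : k ∣ b - a := h.dvd
  have h4 : b - a = 0 := by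
    refine Int.eq_zero_of_abs_lt_dvd h3 ?_
    rw [abs_lt]
    constructor <;> linarith
  linarith

private theorem jl_inj {V : Type} [DecidableEq V] (A : Finset V) (B : Finset ℤ)
    (h : A.card ≤ B.card) :
    ∃ f : V → ℤ, (∀ a ∈ A, f a ∈ B) ∧ ∀ a ∈ A, ∀ b ∈ A, f a = f b → a = b := by
  have h' : Fintype.card A ≤ Fintype.card B := by
    rw [Fintype.card_coe, Fintype.card_coe]
    exact h
  obtain ⟨e⟩ := Function.Embedding.nonempty_of_card_le h'
  refine ⟨fun a => if ha : a ∈ A then (e ⟨a, ha⟩ : ℤ) else 0, ?_, ?_⟩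
  · intro a ha
    simp only [ha, dif_pos]
    exact (e ⟨a, ha⟩).2
  · intro a ha b hb hab
    simp only [ha, hb, dif_pos] at hab
    have := e.injective (Subtype.ext hab)
    exact congrArg Subtype.val this

open Classical in
/-- the free coordinates -/
private theorem jl_free {V : Type} [Fintype V] [DecidableEq V] (T : SimpleGraph V) (D' : ℕ)
    (u : V → ℤ) (H E : Finset V) (sh : V → ℕ)
    (hc : ∑ x ∈ H, dg T x + E.card = D') :
    ∃ e : V → ℤ, (∀ r ∈ E, 0 ≤ e r ∧ e r < D' ∧ ∀ x ∈ H, ∀ y, T.Adj x y → u y - sh x ≠ e r) ∧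
      ∀ r ∈ E, ∀ s ∈ E, e r = e s → r = s := by
  set S : Finset (Σ _ : V, V) := H.sigma fun x => univ.filter fun y => T.Adj x y with hS
  have hSc : S.card = ∑ x ∈ H, dg T x := by
    rw [hS, Finset.card_sigma]
    refine Finset.sum_congr rfl fun x _ => ?_
    exact ((p_dg V T).2.2.2.1 x _ (fun y => by simp)).symm
  set I : Finset ℤ := S.image fun q => u q.2 - sh q.1 with hI
  set F : Finset ℤ := (Finset.Ico (0 : ℤ) D') \ I with hF
  have hFc : E.card ≤ F.card := by
    have h1 : (Finset.Ico (0 : ℤ) D').card - I.card ≤ F.card := Finset.le_card_sdiff _ _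
    have h2 : I.card ≤ S.card := Finset.card_image_le
    have h3 : (Finset.Ico (0 : ℤ) D').card = D' := by simp
    omega
  obtain ⟨f, hf1, hf2⟩ := jl_inj E F hFc
  refine ⟨f, ?_, hf2⟩
  intro r hr
  have h := hf1 r hr
  rw [hF, Finset.mem_sdiff, Finset.mem_Ico] at h
  refine ⟨h.1.1, h.1.2, ?_⟩
  intro x hx y hxy he
  refine h.2 ?_
  rw [hI, Finset.mem_image]
  exact ⟨⟨x, y⟩, by simp [hS, hx, hxy], he⟩

/-- the enumeration of the leaves -/
private theorem jl_enum {V : Type} [DecidableEq V] [Nonempty V] (U : Finset V) (w : V → ℤ)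
    (b : ℤ) (hb : ∀ r ∈ U, w r ≤ b) :
    ∃ ix : V → ℕ, (∀ r ∈ U, ix r < U.card) ∧ (∀ r ∈ U, ∀ s ∈ U, ix r = ix s → r = s) ∧
      (∀ r ∈ U, ∀ s ∈ U, ix r ≤ ix s → w s ≤ w r) ∧
      ∀ i < U.card, ∃ r ∈ U, ix r = i := by
  obtain ⟨xs, h1, h2, h3, h4⟩ := p_enum V U (fun r => (b - w r).toNat)
  choose! ix hix1 hix2 using h2
  refine ⟨ix, hix1, ?_, ?_, ?_⟩
  · intro r hr s hs h
    rw [← hix2 r hr, ← hix2 s hs, h]
  · intro r hr s hs h
    have := h4 (ix r) (ix s) h (hix1 s hs)
    rw [hix2 r hr, hix2 s hs] at this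
    have hr' := hb r hr
    have hs' := hb s hs
    omega
  · intro i hi
    refine ⟨xs i, h1 i hi, ?_⟩
    exact h3 _ (hix1 _ (h1 i hi)) _ hi (hix2 _ (h1 i hi))

theorem p_Jloc : S_Jloc := by
  intro V _ _ T k Z0 Lz D' u H E U1 U2 ys pr sh β' dHE dH1 dH2 dE1 dE2 d12 hadj hprE hsh hshi
    hHL hA hB hC hD hys1 hys2 hLZ hZD hLk hc1 hc2 hU1 hU2 hDβ hβk
  classical
  have : Nonempty V := ⟨ys⟩
  obtain ⟨e, he1, he2⟩ := jl_free T D' u H E sh hc1
  set U : Finset V := U1 ∪ U2 with hU
  have hUc : U.card = U1.card + U2.card := Finset.card_union_of_disjoint d12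
  have hUb : ∀ r ∈ U, u (pr r) ≤ β' := by
    intro r hr
    rcases Finset.mem_union.1 hr with h | h
    · exact (hU1 r h).2.le
    · have := (hU2 r h).2
      have : (0 : ℤ) ≤ Lz := by positivity
      linarith
  have hUb1 : ∀ r ∈ U, u (pr r) ≤ β' - 1 := by
    intro r hr
    rcases Finset.mem_union.1 hr with h | h
    · have := (hU1 r h).2
      linarith
    · have := (hU2 r h).2
      have : (0 : ℤ) ≤ Lz := by positivity
      linarith
  have hUl : ∀ r ∈ U, (Z0 : ℤ) ≤ u (pr r) := by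
    intro r hr
    rcases Finset.mem_union.1 hr with h | h
    · have h1 := (hU1 r h).1
      have h2 : (Z0 : ℤ) ≤ D' := by exact_mod_cast hZD
      have h3 : (0 : ℤ) ≤ U1.card := by positivity
      have h4 : (0 : ℤ) ≤ Lz := by positivity
      linarith
    · exact (hU2 r h).1
  obtain ⟨ix, hi1, hi2, hi3, hi4⟩ := jl_enum U (fun r => u (pr r)) β' hUb
  -- the elements of U1 come first
  have hfirst : ∀ r ∈ U1, ix r < U1.card := by
    intro r hr
    have hrU : r ∈ U := Finset.mem_union_left _ hr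
    have hsub : (Finset.range (ix r + 1)) ⊆ U1.image ix := by
      intro i hi
      rw [Finset.mem_range] at hi
      have hiU : i < U.card := lt_of_le_of_lt (Nat.lt_succ_iff.1 hi) (hi1 r hrU)
      obtain ⟨s, hs, hsi⟩ := hi4 i hiU
      have h1 : u (pr r) ≤ u (pr s) := hi3 s hs r hrU (by omega)
      rw [Finset.mem_image]
      refine ⟨s, ?_, hsi⟩
      rcases Finset.mem_union.1 hs with h | h
      · exact h
      · exfalso
        have h2 := (hU2 s h).2
        have h3 := (hU1 r hr).1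
        have h4 : (0 : ℤ) ≤ U1.card := by positivity
        have h5 : (0 : ℤ) ≤ Lz := by positivity
        linarith
    have h1 := Finset.card_le_card hsub
    rw [Finset.card_range] at h1
    have h2 : (U1.image ix).card ≤ U1.card := Finset.card_image_le
    omega
  -- the shifts
  set a : V → ℤ := fun x => if x ∈ H then (sh x : ℤ) else if x ∈ E then u ys - e x
    else u (pr x) - (D' + ix x) with ha
  have aH : ∀ x ∈ H, a x = sh x := by
    intro x hx
    simp only [ha, hx, if_true]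
  have nHE : ∀ x ∈ E, x ∉ H := fun x hx h => Finset.disjoint_left.1 dHE h hx
  have aE : ∀ x ∈ E, a x = u ys - e x := by
    intro x hx
    simp only [ha, hx, nHE x hx, if_true, if_false]
  have nHU : ∀ x ∈ U, x ∉ H ∧ x ∉ E := by
    intro x hx
    rcases Finset.mem_union.1 hx with h | h
    · exact ⟨fun h' => Finset.disjoint_left.1 dH1 h' h, fun h' => Finset.disjoint_left.1 dE1 h' h⟩
    · exact ⟨fun h' => Finset.disjoint_left.1 dH2 h' h, fun h' => Finset.disjoint_left.1 dE2 h' h⟩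
  have aU : ∀ x ∈ U, a x = u (pr x) - (D' + ix x) := by
    intro x hx
    simp only [ha, (nHU x hx).1, (nHU x hx).2, if_false]
  have hmem : ∀ x ∈ H ∪ E ∪ U1 ∪ U2, x ∈ H ∨ x ∈ E ∨ x ∈ U := by
    intro x hx
    simp only [Finset.mem_union, hU] at hx ⊢
    tauto
  have hadj' : ∀ r, r ∈ E ∨ r ∈ U → ∀ y, T.Adj r y ↔ y = pr r := by
    intro r hr y
    refine hadj r ?_ y
    simp only [Finset.mem_union, hU] at hr ⊢
    tauto
  -- the total degree
  have hsum : ∑ x ∈ H ∪ E ∪ U1 ∪ U2, dg T x = k := by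
    have one : ∀ r, r ∈ E ∨ r ∈ U → dg T r = 1 := by
      intro r hr
      have := (p_dg V T).2.2.2.1 r {pr r} (fun y => by rw [hadj' r hr y]; simp)
      simpa using this
    have dd2 : Disjoint (H ∪ E ∪ U1) U2 := by
      rw [Finset.disjoint_union_left, Finset.disjoint_union_left]
      exact ⟨⟨dH2, dE2⟩, d12⟩
    have dd1 : Disjoint (H ∪ E) U1 := by
      rw [Finset.disjoint_union_left]
      exact ⟨dH1, dE1⟩
    rw [Finset.sum_union dd2, Finset.sum_union dd1, Finset.sum_union dHE]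
    have s1 : ∑ x ∈ E, dg T x = E.card := by
      rw [Finset.sum_congr rfl fun x hx => one x (Or.inl hx)]
      simp
    have s2 : ∑ x ∈ U1, dg T x = U1.card := by
      rw [Finset.sum_congr rfl fun x hx => one x (Or.inr (Finset.mem_union_left _ hx))]
      simp
    have s3 : ∑ x ∈ U2, dg T x = U2.card := by
      rw [Finset.sum_congr rfl fun x hx => one x (Or.inr (Finset.mem_union_right _ hx))]
      simp
    rw [s1, s2, s3]
    omega
  -- casts
  have cZD : (Z0 : ℤ) ≤ D' := by exact_mod_cast hZD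
  have cLZ : (Lz : ℤ) ≤ Z0 := by exact_mod_cast hLZ
  have cLk : 2 * (Lz : ℤ) < k := by exact_mod_cast hLk
  have c0 : (0 : ℤ) ≤ U1.card := by positivity
  have c0' : (0 : ℤ) ≤ U2.card := by positivity
  have c1 : (0 : ℤ) ≤ Lz := by positivity
  have c2 : (U.card : ℤ) = U1.card + U2.card := by exact_mod_cast hUc
  have c3 : (D' : ℤ) + U1.card + U2.card = k := by exact_mod_cast hc2
  have c4 : (0 : ℤ) ≤ D' := by positivity
  -- near and far shifts
  have near : ∀ x, x ∈ H ∨ x ∈ E → -(Lz : ℤ) < a x ∧ a x < Lz := by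
    intro x hx
    rcases hx with hx | hx
    · rw [aH x hx]
      have h1 := hsh x hx
      have h2 : ((sh x : ℕ) : ℤ) < Lz := by exact_mod_cast lt_of_lt_of_le h1 hHL
      have h3 : (0 : ℤ) ≤ (sh x : ℤ) := by positivity
      constructor <;> linarith
    · rw [aE x hx]
      obtain ⟨h1, h2, h3⟩ := he1 x hx
      have h4 := hC (e x) h1 h2 h3
      constructor <;> linarith [h4.1, h4.2]
  have far : ∀ x ∈ U, ((Lz : ℤ) < a x ∧ a x < k - Lz) ∨ (-(k : ℤ) + Lz < a x ∧ a x < -Lz) := by
    intro x hx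
    rw [aU x hx]
    have h0 : (0 : ℤ) ≤ (ix x : ℤ) := by positivity
    rcases Finset.mem_union.1 hx with h | h
    · left
      have h1 : ((ix x : ℕ) : ℤ) < U1.card := by exact_mod_cast hfirst x h
      have h2 := hU1 x h
      constructor <;> linarith [h2.1, h2.2]
    · right
      have h1 : ((ix x : ℕ) : ℤ) < U.card := by exact_mod_cast hi1 x hx
      have h2 := hU2 x h
      constructor <;> linarith [h2.1, h2.2]
  have farfar : ∀ x ∈ U, ∀ x' ∈ U, ix x < ix x' → ¬ a x ≡ a x' [ZMOD k] := by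
    intro x hx x' hx' hlt hmod
    have h1 : u (pr x') ≤ u (pr x) := hi3 x hx x' hx' hlt.le
    have h2 : ((ix x : ℕ) : ℤ) < ix x' := by exact_mod_cast hlt
    have h3 : ((ix x' : ℕ) : ℤ) < U.card := by exact_mod_cast hi1 x' hx'
    have h4 : (0 : ℤ) ≤ (ix x : ℤ) := by positivity
    have h5 := hUb1 x hx
    have h6 := hUl x' hx'
    rw [aU x hx, aU x' hx'] at hmod
    have h7 := jl_eq hmod (by linarith) (by linarith)
    linarith
  have shifts : ∀ x ∈ H ∪ E ∪ U1 ∪ U2, ∀ x' ∈ H ∪ E ∪ U1 ∪ U2, a x ≡ a x' [ZMOD k] → x = x' := by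
    intro x hx x' hx' hmod
    have nn : ∀ x x' : V, (x ∈ H ∨ x ∈ E) → (x' ∈ H ∨ x' ∈ E) → a x ≡ a x' [ZMOD k] →
        a x = a x' := by
      intro x x' h h' hm
      have n1 := near x h
      have n2 := near x' h'
      exact jl_eq hm (by linarith [n1.1, n1.2, n2.1, n2.2]) (by linarith [n1.1, n1.2, n2.1, n2.2])
    have nf : ∀ x x' : V, (x ∈ H ∨ x ∈ E) → x' ∈ U → ¬ a x ≡ a x' [ZMOD k] := by
      intro x x' h h' hm
      have n1 := near x h
      have n2 := far x' h'
      rcases n2 with n2 | n2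
      · have := jl_eq hm (by linarith [n1.1, n1.2, n2.1, n2.2]) (by linarith [n1.1, n1.2, n2.1, n2.2])
        linarith [n1.1, n1.2, n2.1, n2.2]
      · have := jl_eq hm (by linarith [n1.1, n1.2, n2.1, n2.2]) (by linarith [n1.1, n1.2, n2.1, n2.2])
        linarith [n1.1, n1.2, n2.1, n2.2]
    have he : ∀ x ∈ H, ∀ r ∈ E, a x ≠ a r := by
      intro x hx r hr h
      rw [aH x hx, aE r hr] at h
      obtain ⟨x', hx', y', hxy, hu⟩ := hD x hx
      exact (he1 r hr).2.2 x' hx' y' hxy (by rw [hu]; linarith)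
    rcases hmem x hx with h | h | h <;> rcases hmem x' hx' with h' | h' | h'
    · have := nn x x' (Or.inl h) (Or.inl h') hmod
      rw [aH x h, aH x' h'] at this
      exact hshi x h x' h' (by exact_mod_cast this)
    · exact absurd (nn x x' (Or.inl h) (Or.inr h') hmod) (he x h x' h')
    · exact absurd hmod (nf x x' (Or.inl h) h')
    · exact absurd (nn x x' (Or.inr h) (Or.inl h') hmod).symm (he x' h' x h)
    · have := nn x x' (Or.inr h) (Or.inr h') hmod
      rw [aE x h, aE x' h'] at this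
      exact he2 x h x' h' (by linarith)
    · exact absurd hmod (nf x x' (Or.inr h) h')
    · exact absurd hmod.symm (nf x' x (Or.inl h') h)
    · exact absurd hmod.symm (nf x' x (Or.inr h') h)
    · rcases lt_trichotomy (ix x) (ix x') with hl | hl | hl
      · exact absurd hmod (farfar x h x' h' hl)
      · exact hi2 x h x' h' hl
      · exact absurd hmod.symm (farfar x' h' x h hl)
  -- coordinates
  have coE : ∀ r ∈ E, ∀ y, T.Adj r y → y = pr r ∧ u y - a r = e r := by
    intro r hr y hy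
    have h1 := (hadj' r (Or.inl hr) y).1 hy
    refine ⟨h1, ?_⟩
    rw [aE r hr, h1, hprE r hr]
    ring
  have coU : ∀ r ∈ U, ∀ y, T.Adj r y → y = pr r ∧ u y - a r = D' + ix r := by
    intro r hr y hy
    have h1 := (hadj' r (Or.inr hr) y).1 hy
    refine ⟨h1, ?_⟩
    rw [aU r hr, h1]
    ring
  have rng : ∀ x ∈ H ∪ E ∪ U1 ∪ U2, ∀ y, T.Adj x y → 0 ≤ u y - a x ∧ u y - a x < k := by
    intro x hx y hy
    rcases hmem x hx with h | h | h
    · rw [aH x h]
      have := hA x h y hy
      constructor <;> linarith [this.1, this.2]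
    · rw [(coE x h y hy).2]
      have := he1 x h
      constructor <;> linarith [this.1, this.2.1]
    · rw [(coU x h y hy).2]
      have h1 : ((ix x : ℕ) : ℤ) < U.card := by exact_mod_cast hi1 x h
      have h2 : (0 : ℤ) ≤ (ix x : ℤ) := by positivity
      constructor <;> linarith
  have cdiff : ∀ x ∈ H ∪ E ∪ U1 ∪ U2, ∀ x' ∈ H ∪ E ∪ U1 ∪ U2, ∀ y y' : V, T.Adj x y →
      T.Adj x' y' → u y - a x = u y' - a x' → x = x' ∧ y = y' := by
    intro x hx x' hx' y y' hy hy' hco
    have EU : ∀ r ∈ E, ∀ s ∈ U, ∀ y y' : V, T.Adj r y → T.Adj s y' → u y - a r ≠ u y' - a s := by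
      intro r hr s hs y y' hy hy' h
      rw [(coE r hr y hy).2, (coU s hs y' hy').2] at h
      have h1 := (he1 r hr).2.1
      have h2 : (0 : ℤ) ≤ (ix s : ℤ) := by positivity
      linarith
    have HU : ∀ r ∈ H, ∀ s ∈ U, ∀ y y' : V, T.Adj r y → T.Adj s y' → u y - a r ≠ u y' - a s := by
      intro r hr s hs y y' hy hy' h
      rw [aH r hr, (coU s hs y' hy').2] at h
      have h1 := (hA r hr y hy).2
      have h2 : (0 : ℤ) ≤ (ix s : ℤ) := by positivity
      linarith
    have HE : ∀ r ∈ H, ∀ s ∈ E, ∀ y y' : V, T.Adj r y → T.Adj s y' → u y - a r ≠ u y' - a s := by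
      intro r hr s hs y y' hy hy' h
      rw [aH r hr, (coE s hs y' hy').2] at h
      exact (he1 s hs).2.2 r hr y hy h
    rcases hmem x hx with h | h | h <;> rcases hmem x' hx' with h' | h' | h'
    · rw [aH x h, aH x' h'] at hco
      exact hB x h x' h' y y' hy hy' hco
    · exact absurd hco (HE x h x' h' y y' hy hy')
    · exact absurd hco (HU x h x' h' y y' hy hy')
    · exact absurd hco.symm (HE x' h' x h y' y hy' hy)
    · rw [(coE x h y hy).2, (coE x' h' y' hy').2] at hco
      have hxx := he2 x h x' h' hco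
      subst hxx
      exact ⟨rfl, by rw [(coE x h y hy).1, (coE x h y' hy').1]⟩
    · exact absurd hco (EU x h x' h' y y' hy hy')
    · exact absurd hco.symm (HU x' h' x h y' y hy' hy)
    · exact absurd hco.symm (EU x' h' x h y' y hy' hy)
    · rw [(coU x h y hy).2, (coU x' h' y' hy').2] at hco
      have hxx := hi2 x h x' h' (by
        have : ((ix x : ℕ) : ℤ) = ix x' := by linarith
        exact_mod_cast this)
      subst hxx
      exact ⟨rfl, by rw [(coU x h y hy).1, (coU x h y' hy').1]⟩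
  refine ⟨by rw [hsum], a, ?_, ?_⟩
  · intro x hx x' hx' h
    rw [hsum] at h
    exact shifts x hx x' hx' h
  · intro x hx x' hx' y y' hy hy' h
    rw [hsum] at h
    refine cdiff x hx x' hx' y y' hy hy' ?_
    have r1 := rng x hx y hy
    have r2 := rng x' hx' y' hy'
    have := jl_eq h (by linarith [r1.1, r1.2, r2.1, r2.2]) (by linarith [r1.1, r1.2, r2.1, r2.2])
    linarith

end Pool.Agent.Lib.MP_7c15de_co.AS
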