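import Pool.Agent.Lib.MP_7c15de_co.AS.Stm

/-!
# MP_7c15de_co, [AS Jpick]: the vertex `xt`, the set `Top`, the covering children and the shifts
-/

set_option autoImplicit false

namespace Pool.Agent.Lib.MP_7c15de_co.AS

open Finset Pool.Agent.Lib.MP_7c15de_co Pool.Agent.Lib.MP_7c15de_co.TH

private theorem jpick_enum {V : Type} [DecidableEq V] (A : Finset V) :
    ∃ e : V → ℕ, (∀ x ∈ A, e x < A.card) ∧ ∀ x ∈ A, ∀ y ∈ A, e x = e y → x = y := by
  refine ⟨fun x => if h : x ∈ A then (A.equivFin ⟨x, h⟩ : ℕ) else 0, ?_, ?_⟩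
  · intro x hx
    show (if h : x ∈ A then (A.equivFin ⟨x, h⟩ : ℕ) else 0) < A.card
    rw [dif_pos hx]
    exact (A.equivFin ⟨x, hx⟩).2
  · intro x hx y hy h
    have h' : (if h : x ∈ A then (A.equivFin ⟨x, h⟩ : ℕ) else 0) =
      (if h : y ∈ A then (A.equivFin ⟨y, h⟩ : ℕ) else 0) := h
    rw [dif_pos hx, dif_pos hy] at h'
    have := A.equivFin.injective (Fin.ext h')
    exact congrArg Subtype.val this

private theorem jpick_cov {V : Type} [DecidableEq V] (A B : Finset V) (hAB : A.card ≤ B.card) (v0 : V) :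
    ∃ cov : V → V, (∀ x ∈ A, cov x ∈ B) ∧ ∀ x ∈ A, ∀ y ∈ A, cov x = cov y → x = y := by
  obtain ⟨e, he1, he2⟩ := jpick_enum A
  refine ⟨fun x => if h : e x < B.card then (B.equivFin.symm ⟨e x, h⟩ : V) else v0, ?_, ?_⟩
  · intro x hx
    show (if h : e x < B.card then (B.equivFin.symm ⟨e x, h⟩ : V) else v0) ∈ B
    rw [dif_pos (lt_of_lt_of_le (he1 x hx) hAB)]
    exact (B.equivFin.symm ⟨e x, _⟩).2
  · intro x hx y hy h
    have h' : (if h : e x < B.card then (B.equivFin.symm ⟨e x, h⟩ : V) else v0) =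
      (if h : e y < B.card then (B.equivFin.symm ⟨e y, h⟩ : V) else v0) := h
    rw [dif_pos (lt_of_lt_of_le (he1 x hx) hAB), dif_pos (lt_of_lt_of_le (he1 y hy) hAB)] at h'
    have h1 := B.equivFin.symm.injective (Subtype.ext h')
    exact he2 x hx y hy (congrArg Fin.val h1)

private theorem jpick_sh {V : Type} [DecidableEq V] (H : Finset V) (xt x2 : V) (h1 : xt ∈ H)
    (h2 : x2 ∈ H) (h : x2 ≠ xt) :
    ∃ sh : V → ℕ, (∀ x ∈ H, sh x < H.card) ∧ (∀ x ∈ H, ∀ x' ∈ H, sh x = sh x' → x = x') ∧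
      sh xt + 1 = H.card ∧ sh x2 = 0 := by
  obtain ⟨e, he1, he2⟩ := jpick_enum ((H.erase xt).erase x2)
  have hc : ((H.erase xt).erase x2).card + 2 = H.card := by
    have a1 := card_erase_of_mem (mem_erase.2 ⟨h, h2⟩)
    have a2 := card_erase_of_mem h1
    have a3 : 0 < (H.erase xt).card := card_pos.2 ⟨x2, mem_erase.2 ⟨h, h2⟩⟩
    have a4 : 0 < H.card := card_pos.2 ⟨xt, h1⟩
    omega
  have hmem : ∀ x ∈ H, x ≠ xt → x ≠ x2 → x ∈ (H.erase xt).erase x2 := fun x hx hx1 hx2 =>
    mem_erase.2 ⟨hx2, mem_erase.2 ⟨hx1, hx⟩⟩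
  obtain ⟨sh, hsh⟩ : ∃ sh : V → ℕ, sh = fun x => if x = xt then H.card - 1 else if x = x2 then 0 else e x + 1 :=
    ⟨_, rfl⟩
  have s1 : sh xt = H.card - 1 := by rw [hsh]; simp
  have s2 : sh x2 = 0 := by rw [hsh]; simp [h]
  have s3 : ∀ x, x ≠ xt → x ≠ x2 → sh x = e x + 1 := by
    intro x hx1 hx2
    rw [hsh]
    simp [hx1, hx2]
  refine ⟨sh, ?_, ?_, by omega, s2⟩
  · intro x hx
    by_cases hx1 : x = xt
    · rw [hx1]; omega
    · by_cases hx2 : x = x2
      · rw [hx2]; omega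
      · have := he1 x (hmem x hx hx1 hx2)
        rw [s3 x hx1 hx2]
        omega
  · intro x hx x' hx' he
    by_cases hx1 : x = xt
    · by_cases hx1' : x' = xt
      · rw [hx1, hx1']
      · exfalso
        by_cases hx2' : x' = x2
        · rw [hx1, hx2'] at he
          omega
        · have := he1 x' (hmem x' hx' hx1' hx2')
          rw [hx1, s3 x' hx1' hx2'] at he
          omega
    · by_cases hx2 : x = x2
      · by_cases hx1' : x' = xt
        · exfalso
          rw [hx1', hx2] at he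
          omega
        · by_cases hx2' : x' = x2
          · rw [hx2, hx2']
          · exfalso
            rw [hx2, s3 x' hx1' hx2'] at he
            omega
      · have e1 := he1 x (hmem x hx hx1 hx2)
        by_cases hx1' : x' = xt
        · exfalso
          rw [hx1', s3 x hx1 hx2] at he
          omega
        · by_cases hx2' : x' = x2
          · exfalso
            rw [hx2', s3 x hx1 hx2] at he
            omega
          · rw [s3 x hx1 hx2, s3 x' hx1' hx2'] at he
            exact he2 x (hmem x hx hx1 hx2) x' (hmem x' hx' hx1' hx2') (by omega)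

theorem p_Jpick (hrt : S_rt) : S_Jpick := by
  intro ε δ C C1 J M0 K Bf hP
  refine ⟨⌈(2 * ((C + 1 : ℝ) * (cσ C M0 + C + 1) + (cLm C M0 + cσ C M0 + 2 * C + 5)) + 6 * C + 4) / ε⌉₊, ?_⟩
  intro n hn k hH V _ _ T _ X hX ys par μ R HY H U hHYc hHX hH2 hHc hk2 hcase hU hlt
  have hε := hP.ε0
  obtain ⟨rt1, -, -, -, -, -, -⟩ := hrt V T X ys par μ hX R
  have hnb : 2 * ((C + 1 : ℝ) * (cσ C M0 + C + 1) + (cLm C M0 + cσ C M0 + 2 * C + 5)) + 6 * C + 4 ≤ ε * n := by
    have h1 := Nat.ceil_le.1 hn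
    rw [div_le_iff₀ hε] at h1
    linarith
  -- the children of H
  have hmk : ∀ x y, y ∈ kids X ys par x ↔ y ∉ X ∧ y ≠ ys ∧ par y = x := by
    intro x y
    simp [kids]
  have hCH : (H.biUnion (kids X ys par)).card = ∑ x ∈ H, (dg T x - 1) := by
    rw [card_biUnion]
    · refine sum_congr rfl fun x hx => ?_
      rw [rt1 x (hHX hx)]
      simp
    · intro x _ x' _ hne
      rw [Function.onFun, disjoint_left]
      intro y hy hy'
      rw [hmk] at hy hy'
      exact hne (hy.2.2.symm.trans hy'.2.2)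
  have hsub : H.biUnion (kids X ys par) ⊆
      ntJ X ys par HY H U ∪ (ltJ X ys par HY H U ∪ spJ HY H par) := by
    intro y hy
    rw [mem_biUnion] at hy
    obtain ⟨x, hx, hyx⟩ := hy
    rw [hmk] at hyx
    rw [mem_union, mem_union]
    by_cases hsp : y ∈ spJ HY H par
    · exact Or.inr (Or.inr hsp)
    · by_cases hr : ∃ r ∈ U, par r = y
      · right; left
        rw [ltJ, mem_filter]
        exact ⟨mem_compl.2 hyx.1, hyx.2.1, by rw [hyx.2.2]; exact hx, hsp, hr⟩
      · left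
        rw [ntJ, mem_filter]
        push Not at hr
        exact ⟨mem_compl.2 hyx.1, hyx.2.1, by rw [hyx.2.2]; exact hx, hsp, hr⟩
  have hcard : ∑ x ∈ H, (dg T x - 1) ≤
      (ntJ X ys par HY H U).card + ((ltJ X ys par HY H U).card + (C + (C + 1))) := by
    rw [← hCH]
    refine (card_le_card hsub).trans ((card_union_le _ _).trans ?_)
    refine Nat.add_le_add_left ((card_union_le _ _).trans (Nat.add_le_add_left ?_ _)) _
    rw [spJ]
    refine (card_union_le _ _).trans (Nat.add_le_add hHYc (card_image_le.trans hHc))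
  have hDm : ∑ x ∈ H, (dg T x - 1) + H.card = ∑ x ∈ H, dg T x := by
    rw [card_eq_sum_ones, ← sum_add_distrib]
    refine sum_congr rfl fun x hx => ?_
    have := hH2 x hx
    omega
  have hnt : k ≤ n + 2 * (ntJ X ys par HY H U).card + 6 * C + 4 := by omega
  have hntr : (k : ℝ) ≤ n + 2 * (ntJ X ys par HY H U).card + 6 * C + 4 := by exact_mod_cast hnt
  have hklo : (n : ℝ) + ε * n ≤ k := by
    have h1 := hH.lo
    have h2 : (1 + ε) * (n : ℝ) = n + ε * n := by ring
    linarith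
  have hbig : ((C + 1) * (cσ C M0 + C + 1) + (cLm C M0 + cσ C M0 + 2 * C + 5) : ℕ) ≤
      (ntJ X ys par HY H U).card := by
    have : ((C + 1 : ℝ) * (cσ C M0 + C + 1) + (cLm C M0 + cσ C M0 + 2 * C + 5)) ≤
        ((ntJ X ys par HY H U).card : ℝ) := by linarith
    exact_mod_cast this
  have hHne : H.Nonempty := by
    rcases hcase with h | h
    · exact card_pos.1 (by omega)
    · exact h.1
  -- the vertex xt
  obtain ⟨xt, hxt, hfib⟩ := exists_le_card_fiber_of_mul_le_card_of_maps_to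
    (s := ntJ X ys par HY H U) (t := H) (f := par) (n := cσ C M0 + C + 1)
    (by
      intro a ha
      rw [ntJ, mem_filter] at ha
      exact ha.2.2.1) hHne
    (by
      have h1 : H.card * (cσ C M0 + C + 1) ≤ (C + 1) * (cσ C M0 + C + 1) := Nat.mul_le_mul_right _ hHc
      omega)
  obtain ⟨Top, hTop, hTopc⟩ := exists_subset_card_eq
    (s := (ntJ X ys par HY H U).filter (fun y => par y = xt)) (n := cσ C M0) (by omega)
  have hrest : (H.erase xt).card ≤ (((ntJ X ys par HY H U).filter (fun y => par y = xt)) \ Top).card := by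
    rw [card_sdiff_of_subset hTop, card_erase_of_mem hxt]
    omega
  obtain ⟨cov, hcov1, hcov2⟩ := jpick_cov _ _ hrest xt
  have hc1 : ∀ c ∈ Top, par c = xt := fun c hc => (mem_filter.1 (hTop hc)).2
  have hc2 : ∀ x ∈ H, x ≠ xt → cov x ∈ ntJ X ys par HY H U ∧ cov x ∉ Top ∧ par (cov x) = xt := by
    intro x hx hne
    have h1 := hcov1 x (mem_erase.2 ⟨hne, hx⟩)
    rw [mem_sdiff, mem_filter] at h1
    exact ⟨h1.1.1, h1.2, h1.1.2⟩
  have hc3 : ∀ x ∈ H, ∀ x' ∈ H, x ≠ xt → x' ≠ xt → cov x = cov x' → x = x' := by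
    intro x hx x' hx' hne hne' he
    exact hcov2 x (mem_erase.2 ⟨hne, hx⟩) x' (mem_erase.2 ⟨hne', hx'⟩) he
  have hTop' : Top ⊆ ntJ X ys par HY H U := fun c hc => (mem_filter.1 (hTop hc)).1
  have hlast : cLm C M0 + cσ C M0 + 2 * C + 5 ≤ (ntJ X ys par HY H U).card := by
    have := Nat.zero_le ((C + 1) * (cσ C M0 + C + 1))
    omega
  by_cases hex : ∃ x2 ∈ H, x2 ≠ xt
  · obtain ⟨x2, hx2, hne⟩ := hex
    obtain ⟨sh, s1, s2, s3, s4⟩ := jpick_sh H xt x2 hxt hx2 hne
    have hkid : (kids X ys par x2).Nonempty := by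
      rw [← card_pos]
      have h1 := rt1 x2 (hHX hx2)
      have h2 := hH2 x2 hx2
      omega
    obtain ⟨c2, hc2'⟩ := hkid
    exact ⟨xt, x2, c2, Top, cov, sh, hxt, hTop', hTopc, hc1, hc2, hc3, s1, s2, s3,
      fun _ => ⟨hx2, hne, s4, hc2'⟩, hlast⟩
  · push Not at hex
    have hH1 : H = {xt} := by
      ext x
      rw [mem_singleton]
      exact ⟨fun hx => hex x hx, fun hx => by rw [hx]; exact hxt⟩
    have hadj : T.Adj ys xt := by
      rcases hcase with h | h
      · rw [hH1, card_singleton] at h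
        omega
      · exact h.2 xt hxt
    refine ⟨xt, xt, xt, Top, cov, fun _ => 0, hxt, hTop', hTopc, hc1, hc2, hc3, ?_, ?_, ?_,
      fun h => absurd hadj h, hlast⟩
    · intro x _
      exact card_pos.2 hHne
    · intro x hx x' hx' _
      rw [hex x hx, hex x' hx']
    · rw [hH1, card_singleton]

end Pool.Agent.Lib.MP_7c15de_co.AS
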