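import Pool.Agent.Lib.MP_7c15de_co.AS.Stm
import Pool.Agent.Lib.MP_7c15de_co.TH.P_dg

/-!
# MP_7c15de_co, `k(n) = (1 + o(1)) n`: piece [Jset], the hub `H` and the root `ys`
-/

set_option autoImplicit false

namespace Pool.Agent.Lib.MP_7c15de_co.AS

open Finset Pool.Agent.Lib.MP_7c15de_co Pool.Agent.Lib.MP_7c15de_co.TH

/-- Consequences of the counting for the set of the heavy vertices of one class. -/
private theorem jset_heavy (hcnt : S_cnt) (V : Type) [Fintype V] [DecidableEq V]
    (T : SimpleGraph V) (hT : T.IsTree) (X : Finset V)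
    (hX : ∀ a b, T.Adj a b → (a ∈ X ↔ b ∉ X)) (n C k : ℕ) (h1 : X.card = n) (h2 : Xᶜ.card = n)
    (hC : 5 ≤ C) (hn : 10 * C ^ 2 ≤ n) (hk : n ≤ k)
    (hbig : (∃ x ∈ X, k < 2 * dg T x) ∨
      3 * k < 5 * ∑ x ∈ X.filter (fun x => k < C * dg T x), dg T x) :
    (∀ x ∈ X.filter (fun x => k < C * dg T x), C < dg T x) ∧
    (X.filter (fun x => k < C * dg T x)).card ≤ C ∧
    k < 2 * ∑ x ∈ X.filter (fun x => k < C * dg T x), dg T x ∧
    (2 ≤ (X.filter (fun x => k < C * dg T x)).card → k + 2 * C ≤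
      2 * ∑ x ∈ X.filter (fun x => k < C * dg T x), dg T x) ∧
    1 + ∑ x ∈ X.filter (fun x => k < C * dg T x), dg T x + (X.filter (fun x => 2 ≤ dg T x)).card ≤
      2 * C + n := by
  have hn1 : 1 ≤ n := by nlinarith
  obtain ⟨c1, c2, c3, c4, c5⟩ := hcnt V T hT X hX n h1 h2 hn1
  set HX := X.filter (fun x => k < C * dg T x) with hHX
  have hsub : HX ⊆ X := filter_subset _ _
  have hlarge : ∀ x ∈ HX, C < dg T x := by
    intro x hx
    have h3 : k < C * dg T x := (mem_filter.1 hx).2
    by_contra hcon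
    push Not at hcon
    have h4 : C * dg T x ≤ C * C := Nat.mul_le_mul_left _ hcon
    nlinarith
  have h2le : ∀ x ∈ HX, 2 ≤ dg T x := fun x hx => by
    have := hlarge x hx
    omega
  have e3 := c3 HX hsub h2le
  have e4 := c4 HX hsub
  have hsum : ∑ x ∈ HX, dg T x = ∑ x ∈ HX, (dg T x - 1) + HX.card := by
    rw [card_eq_sum_ones, ← sum_add_distrib]
    refine sum_congr rfl fun x _ => ?_
    have := c1 x
    omega
  have hcard : HX.card ≤ C := by
    have h5 : HX.card * k ≤ C * ∑ x ∈ HX, dg T x := by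
      rw [mul_sum, card_eq_sum_ones, sum_mul]
      refine sum_le_sum fun x hx => ?_
      have h3 : k < C * dg T x := (mem_filter.1 hx).2
      omega
    have h6 : ∑ x ∈ HX, dg T x ≤ n - 1 + HX.card := by omega
    by_contra hcon
    push Not at hcon
    have h7 : C * ∑ x ∈ HX, dg T x ≤ C * (n - 1 + HX.card) := Nat.mul_le_mul_left _ h6
    have h8 : HX.card * k ≤ C * (n - 1) + C * HX.card := by
      have : C * (n - 1 + HX.card) = C * (n - 1) + C * HX.card := by ring
      omega
    obtain ⟨n', rfl⟩ : ∃ n', n = n' + 1 := ⟨n - 1, by omega⟩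
    simp only [Nat.add_sub_cancel] at h8
    obtain ⟨a, ha⟩ : ∃ a, HX.card = C + 1 + a := ⟨HX.card - (C + 1), by omega⟩
    rw [ha] at h8
    obtain ⟨b, rfl⟩ : ∃ b, k = n' + 1 + b := ⟨k - (n' + 1), by omega⟩
    nlinarith [Nat.zero_le (a * n'), Nat.zero_le (a * b), Nat.zero_le (C * b),
      Nat.zero_le (C * a), sq_nonneg (C : ℤ), Nat.mul_le_mul_left a hn]
  have hkk : k < 2 * ∑ x ∈ HX, dg T x := by
    rcases hbig with ⟨x, hx, hx2⟩ | h
    · have hxH : x ∈ HX := by
        rw [hHX, mem_filter]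
        refine ⟨hx, ?_⟩
        have : 2 * dg T x ≤ C * dg T x := Nat.mul_le_mul_right _ (by omega)
        omega
      have h9 : dg T x ≤ ∑ x ∈ HX, dg T x := single_le_sum (fun _ _ => Nat.zero_le _) hxH
      omega
    · omega
  refine ⟨hlarge, hcard, hkk, ?_, ?_⟩
  · intro htwo
    rcases hbig with ⟨x, hx, hx2⟩ | h
    · have hxH : x ∈ HX := by
        rw [hHX, mem_filter]
        refine ⟨hx, ?_⟩
        have : 2 * dg T x ≤ C * dg T x := Nat.mul_le_mul_right _ (by omega)
        omega
      obtain ⟨x', hx'H, hne⟩ : ∃ x' ∈ HX, x' ≠ x := by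
        by_contra hcon
        push Not at hcon
        have : HX ⊆ {x} := fun z hz => mem_singleton.2 (hcon z hz)
        have := card_le_card this
        rw [card_singleton] at this
        omega
      have h9 : dg T x + dg T x' ≤ ∑ x ∈ HX, dg T x := by
        have h10 : ({x, x'} : Finset V) ⊆ HX := by
          intro z hz
          rcases mem_insert.1 hz with rfl | hz
          · exact hxH
          · rw [mem_singleton.1 hz]; exact hx'H
        calc dg T x + dg T x' = ∑ z ∈ ({x, x'} : Finset V), dg T z := by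
              rw [sum_pair (Ne.symm hne)]
          _ ≤ _ := sum_le_sum_of_subset h10
      have h11 := hlarge x' hx'H
      omega
    · have : 10 * C ≤ n := by nlinarith
      omega
  · -- nonleaves
    have h12 : (X.filter (fun x => dg T x = 1)).card + (X.filter (fun x => 2 ≤ dg T x)).card =
        n := by
      rw [← h1, ← card_filter_add_card_filter_not (s := X) (fun x => dg T x = 1)]
      congr 1
      congr 1
      refine filter_congr fun x _ => ?_
      have := c1 x
      omega
    omega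

/-- A vertex between `ys` and `x1`. -/
private theorem jset_between (V : Type) [Fintype V] [DecidableEq V] (T : SimpleGraph V)
    (hT : T.IsTree) (X : Finset V) (hX : ∀ a b, T.Adj a b → (a ∈ X ↔ b ∉ X)) (x1 ys : V)
    (hx1 : x1 ∈ X) (hys : ys ∉ X) (hna : ¬ T.Adj ys x1) :
    ∃ x0 ∈ X, x0 ≠ x1 ∧ 2 ≤ dg T x0 := by
  obtain ⟨par, -, hpar, -⟩ := parent_exists T hT x1
  have hne : ys ≠ x1 := fun h => hys (h ▸ hx1)
  obtain ⟨a1, a2⟩ := hpar ys hne
  have hne0 : par ys ≠ x1 := fun h => hna (h ▸ a1)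
  obtain ⟨b1, b2⟩ := hpar (par ys) hne0
  refine ⟨par ys, ?_, hne0, ?_⟩
  · by_contra hcon
    exact hys ((hX ys (par ys) a1).2 hcon)
  · have hne2 : ys ≠ par (par ys) := by
      intro h
      rw [← h] at b2
      omega
    have hsub : ({ys, par (par ys)} : Set V) ⊆ T.neighborSet (par ys) := by
      intro z hz
      rcases hz with rfl | hz
      · exact a1.symm
      · rw [Set.mem_singleton_iff.1 hz]
        exact b1
    have h1 := Set.ncard_le_ncard hsub (Set.toFinite _)
    rw [Set.ncard_pair hne2] at h1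
    exact h1

theorem p_Jset (hcnt : S_cnt) (hJflex : S_Jflex) : S_Jset := by
  intro ε δ C C1 J M0 K Bf hP
  obtain ⟨N1, hN1⟩ := exists_nat_gt ((4 * C + 1 : ℝ) / ε)
  refine ⟨max (10 * C ^ 2) N1, fun n hn k hk V _ _ T _ hT X hX hX1 hX2 hbX hbY => ?_⟩
  have hε := hP.ε0
  have hC5 : 5 ≤ C := by
    have h1 := hP.εC
    have h2 := hP.ε1
    have h3 : (100 : ℝ) ≤ C := by nlinarith [Nat.cast_nonneg (α := ℝ) C]
    have : 100 ≤ C := by exact_mod_cast h3
    omega
  have hn1 : 10 * C ^ 2 ≤ n := le_trans (le_max_left _ _) hn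
  have hn2 : N1 ≤ n := le_trans (le_max_right _ _) hn
  have hkn : n + 4 * C + 1 ≤ k := by
    have h1 := hk.lo
    have h2 : (4 * C + 1 : ℝ) ≤ ε * n := by
      rw [div_lt_iff₀ hε] at hN1
      have h3 : (N1 : ℝ) ≤ n := by exact_mod_cast hn2
      nlinarith
    have h3 : ((n + 4 * C + 1 : ℕ) : ℝ) ≤ k := by push_cast; nlinarith
    exact_mod_cast h3
  have hkn' : n ≤ k := by omega
  have hXc : ∀ a b, T.Adj a b → (a ∈ Xᶜ ↔ b ∉ Xᶜ) := by
    intro a b hab
    rw [mem_compl, mem_compl]
    have := hX a b hab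
    tauto
  have hXcc : Xᶜᶜ.card = n := by rw [compl_compl]; exact hX1
  obtain ⟨a1, a2, a3, a4, a5⟩ := jset_heavy hcnt V T hT X hX n C k hX1 hX2 hC5 hn1 hkn' hbX
  obtain ⟨b1, b2, b3, b4, b5⟩ :=
    jset_heavy hcnt V T hT Xᶜ hXc n C k hX2 hXcc hC5 hn1 hkn' hbY
  set HX := X.filter (fun x => k < C * dg T x) with hHX
  set HY := Xᶜ.filter (fun x => k < C * dg T x) with hHY
  have hHYX : ∀ y ∈ HY, y ∉ X := fun y hy => mem_compl.1 (mem_filter.1 hy).1
  have hHYne : HY.Nonempty := by
    rw [nonempty_iff_ne_empty]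
    intro h
    rw [h, sum_empty] at b3
    omega
  have hfl := hJflex V T hT X hX HY hHYne hHYX
  set lam := ((lf T X).filter (fun r => ∃ y ∈ HY, T.Adj r y)).card with hlam
  have hlam1 : k + 3 ≤ n + 3 * C + lam := by omega
  -- pigeonhole
  obtain ⟨ys, hys, hysl⟩ : ∃ ys ∈ HY,
      k ≤ n + 4 * C * ((lf T X).filter (fun r => T.Adj r ys)).card := by
    by_contra hcon
    push Not at hcon
    have h1 : lam ≤ ∑ y ∈ HY, ((lf T X).filter (fun r => T.Adj r y)).card := by
      rw [hlam]
      have h2 : (lf T X).filter (fun r => ∃ y ∈ HY, T.Adj r y) ⊆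
          HY.biUnion (fun y => (lf T X).filter (fun r => T.Adj r y)) := by
        intro r hr
        obtain ⟨h3, y, hy, h4⟩ := mem_filter.1 hr
        exact mem_biUnion.2 ⟨y, hy, mem_filter.2 ⟨h3, h4⟩⟩
      exact (card_le_card h2).trans card_biUnion_le
    have h2 : 4 * C * lam ≤ ∑ y ∈ HY, (k - n) := by
      calc 4 * C * lam ≤ 4 * C * ∑ y ∈ HY, ((lf T X).filter (fun r => T.Adj r y)).card :=
            Nat.mul_le_mul_left _ h1
        _ = ∑ y ∈ HY, 4 * C * ((lf T X).filter (fun r => T.Adj r y)).card := mul_sum _ _ _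
        _ ≤ ∑ y ∈ HY, (k - n) := sum_le_sum fun y hy => by
            have := hcon y hy
            omega
    rw [sum_const, smul_eq_mul] at h2
    have h3 : 4 * C * lam ≤ C * (k - n) := h2.trans (Nat.mul_le_mul_right _ b2)
    have h4 : C * (4 * lam) ≤ C * (k - n) := by
      calc C * (4 * lam) = 4 * C * lam := by ring
        _ ≤ _ := h3
    have h5 : 4 * lam ≤ k - n := Nat.le_of_mul_le_mul_left h4 (by omega)
    omega
  have hysX : ys ∉ X := hHYX ys hys
  obtain ⟨r0, hr0⟩ : ((lf T X).filter (fun r => T.Adj r ys)).Nonempty := by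
    rw [← card_pos]
    by_contra hcon
    have : ((lf T X).filter (fun r => T.Adj r ys)).card = 0 := by omega
    rw [this] at hysl
    omega
  obtain ⟨hr1, hr2⟩ := mem_filter.1 hr0
  obtain ⟨hr3, hr4⟩ := mem_filter.1 hr1
  have hHXne : HX.Nonempty := by
    rw [nonempty_iff_ne_empty]
    intro h
    rw [h, sum_empty] at a3
    omega
  have hb3 : k ≤ 2 * ∑ x ∈ HY, dg T x := b3.le
  have hHXle : ∀ x ∈ HX, 2 ≤ dg T x := fun x hx => by
    have := a1 x hx
    omega
  by_cases htwo : 2 ≤ HX.card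
  · refine ⟨HX, ys, r0, Subset.refl _, filter_subset _ _, hHXle, by omega, b2, hb3, ?_, hys, hr3,
      hr4, hr2, hysl, Or.inl htwo⟩
    have := a4 htwo
    omega
  · have hone : HX.card = 1 := by
      have := hHXne.card_pos
      omega
    obtain ⟨x1, hx1⟩ := card_eq_one.1 hone
    have hx1H : x1 ∈ HX := by rw [hx1]; exact mem_singleton_self _
    have hx1X : x1 ∈ X := (mem_filter.1 hx1H).1
    have hx1k : k < 2 * dg T x1 := by
      rw [hx1, sum_singleton] at a3
      exact a3
    by_cases hadj : T.Adj ys x1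
    · refine ⟨HX, ys, r0, Subset.refl _, filter_subset _ _, hHXle, by omega, b2, hb3, ?_, hys,
        hr3, hr4, hr2, hysl, Or.inr ⟨hHXne, fun x hx => ?_⟩⟩
      · rw [hone, hx1, sum_singleton]
        omega
      · rw [hx1, mem_singleton] at hx
        rw [hx]
        exact hadj
    · obtain ⟨x0, hx0, hx01, hx02⟩ := jset_between V T hT X hX x1 ys hx1X hysX hadj
      have hcard : ({x1, x0} : Finset V).card = 2 := card_pair (Ne.symm hx01)
      refine ⟨{x1, x0}, ys, r0, ?_, ?_, ?_, ?_, b2, hb3, ?_, hys, hr3, hr4, hr2, hysl,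
        Or.inl ?_⟩
      · rw [hx1]
        intro z hz
        rw [mem_singleton] at hz
        rw [hz]
        exact mem_insert_self _ _
      · intro z hz
        rcases mem_insert.1 hz with rfl | hz
        · exact hx1X
        · rw [mem_singleton.1 hz]; exact hx0
      · intro z hz
        rcases mem_insert.1 hz with rfl | hz
        · exact hHXle _ hx1H
        · rw [mem_singleton.1 hz]; exact hx02
      · rw [hcard]; omega
      · rw [hcard, sum_pair (Ne.symm hx01)]
        omega
      · rw [hcard]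

end Pool.Agent.Lib.MP_7c15de_co.AS
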