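import Pool.Agent.Lib.MP_7c15de_co.AS.Stm
import Pool.Agent.Lib.MP_7c15de_co.TH.Final

/-!
# MP_7c15de_co, [AS S]: Construction (S)
-/

set_option autoImplicit false

namespace Pool.Agent.Lib.MP_7c15de_co.AS

open Finset Pool.Agent.Lib.MP_7c15de_co Pool.Agent.Lib.MP_7c15de_co.TH

/-- The numbers `s = k / d` and `N = k / s`. -/
private theorem num_aux {k d C : ℕ} (hd : 0 < d) (h2 : 2 * d ≤ k) (hC : k < C * d)
    (hdS : ∀ s, 1 ≤ s → s ≤ C → s ∣ k) :
    0 < k / (k / d) ∧ k / (k / d) ∣ k ∧ d ≤ k / (k / d) ∧ 2 * (k / (k / d) - d) ≤ d := by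
  have hs2 : 2 ≤ k / d := (Nat.le_div_iff_mul_le hd).2 h2
  have hsC : k / d < C := (Nat.div_lt_iff_lt_mul hd).2 hC
  have hsk : k / d ∣ k := hdS _ (by omega) hsC.le
  have hN : (k / d) * (k / (k / d)) = k := Nat.mul_div_cancel' hsk
  have hle : (k / d) * d ≤ k := Nat.div_mul_le_self k d
  have hlt : k < (k / d + 1) * d := by
    have h3 := Nat.div_add_mod k d
    have h4 := Nat.mod_lt k hd
    nlinarith
  have hdN : d ≤ k / (k / d) := by
    rw [Nat.le_div_iff_mul_le (by omega)]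
    rw [mul_comm]
    exact hle
  refine ⟨lt_of_lt_of_le hd hdN, Nat.div_dvd_of_dvd hsk, hdN, ?_⟩
  obtain ⟨e, he⟩ := Nat.exists_eq_add_of_le hdN
  rw [he] at hN ⊢
  have h5 : (k / d) * e < d := by nlinarith
  have h6 : 2 * e ≤ (k / d) * e := Nat.mul_le_mul_right e hs2
  omega

theorem p_S (hrt : S_rt) (hcnt : S_cnt) (hS1 : S_S1) (hFall : S_Fall) (hcX : S_cX) : S_S := by
  intro ε δ C C1 J M0 K Bf hP
  obtain ⟨n0, hn0⟩ := hS1 ε δ C C1 J M0 K Bf hP
  refine ⟨max n0 1, ?_⟩
  intro n hn k hk V _ _ T hT X hbip hXn hXcn h2 h5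
  have hn1 : 1 ≤ n := le_trans (le_max_right _ _) hn
  obtain ⟨y0, par, μ, P, grp, u, w0, β, hRt, hur, hui, hMed, hPe, hPd, hSm, hHi, hHf, hHb⟩ :=
    hn0 n (le_trans (le_max_left _ _) hn) k hk V T hT X hbip hXn hXcn h2 h5 _ rfl
  set H : Finset V := X.filter (fun x => k < C * dg T x) with hH
  obtain ⟨c1, c2, c3, c4, c5⟩ := p_cov V T k u
  obtain ⟨q1, q2, q3, q4, q5⟩ := hcnt V T hT X hbip n hXn hXcn hn1
  obtain ⟨r1, r2, r3, r4, r5, r6, r7⟩ := hrt V T X y0 par μ hbip hRt
  have hC1 : 2 ≤ C1 := by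
    have h1 := hP.C1C
    have h2 := hP.εC
    have h3 : (1 : ℝ) ≤ C := by
      have h4 := hP.ε1
      have h5 := hP.ε0
      by_contra hc
      push Not at hc
      nlinarith
    have h3' : 1 ≤ C := by exact_mod_cast h3
    nlinarith
  have hHX : H ⊆ X := filter_subset _ _
  have hHd : ∀ x ∈ H, 8 ≤ dg T x := fun x hx => by
    have := hHb x hx
    omega
  -- the leaves that are not used by the medium vertices
  set L : Finset V := lf T X \ (X.filter (fun x => x ∉ H ∧ C1 ≤ dg T x)).biUnion P with hL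
  have hlf : ∀ x, x ∈ lf T X ↔ x ∈ X ∧ dg T x = 1 := by
    intro x
    rw [lf, mem_filter]
  have hLlf : L ⊆ lf T X := sdiff_subset
  have hLX : ∀ r ∈ L, r ∈ X ∧ dg T r = 1 := fun r hr => (hlf r).1 (hLlf hr)
  have hcard : ∑ x ∈ H, dg T x ≤ L.card + 2 * H.card := by
    have h3 := q3 H hHX (fun x hx => by have := hHd x hx; omega)
    have h4 : ((X.filter (fun x => x ∉ H ∧ C1 ≤ dg T x)).biUnion P).card ≤
        ∑ x ∈ X.filter (fun x => x ∉ H ∧ 2 ≤ dg T x), (dg T x - 2) := by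
      refine card_biUnion_le.trans ?_
      have h5 : ∑ x ∈ X.filter (fun x => x ∉ H ∧ C1 ≤ dg T x), (P x).card ≤
          ∑ x ∈ X.filter (fun x => x ∉ H ∧ C1 ≤ dg T x), (dg T x - 2) := by
        refine sum_le_sum ?_
        intro x hx
        rw [mem_filter] at hx
        have := (hMed x hx.1 hx.2.1 hx.2.2).2.1
        omega
      refine h5.trans (sum_le_sum_of_subset ?_)
      intro x hx
      rw [mem_filter] at hx ⊢
      exact ⟨hx.1, hx.2.1, by omega⟩
    have h5 : (lf T X).card ≤ L.card + ((X.filter (fun x => x ∉ H ∧ C1 ≤ dg T x)).biUnion P).card := by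
      have := card_le_card_sdiff_add_card (t := (X.filter (fun x => x ∉ H ∧ C1 ≤ dg T x)).biUnion P)
        (s := lf T X)
      rw [hL]
      omega
    have h6 : (X.filter (fun x => dg T x = 1)).card = (lf T X).card := rfl
    omega
  have hDis : Disjoint H L := by
    rw [disjoint_left]
    intro x hx hx'
    have h1 := hHd x hx
    have h2 := (hLX x hx').2
    omega
  obtain ⟨P', hP1, hP2⟩ := hFall V T k β u H L par (fun x => k / (k / dg T x)) w0 hDis
    (fun r hr => r6 r (hLX r hr).1 (hLX r hr).2)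
    (by
      intro x hx
      have hx' := mem_filter.1 (hH ▸ hx)
      have h8 := hHd x hx
      obtain ⟨a1, a2, a3, a4⟩ := num_aux (k := k) (d := dg T x) (C := C) (by omega) (h2 x hx'.1)
        hx'.2 hk.dS
      exact ⟨a1, a2, a3, a4, hHb x hx⟩)
    hHi
    (by
      intro x hx δ' hδ
      obtain ⟨b1, b2⟩ := hHf x hx δ' hδ
      exact ⟨b1, (card_le_card (filter_subset_filter _ hLlf)).trans b2⟩)
    hcard
  have hcov : Cov T k u (H.biUnion (fun x => insert x (P' x))) := by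
    refine c4 V _ _ (fun x hx => c2 _ (hP1 x hx).2) ?_
    intro x hx x' hx' z hz hz'
    rw [mem_insert] at hz hz'
    rcases hz with hz | hz <;> rcases hz' with hz' | hz'
    · rw [← hz, hz']
    · exfalso
      have h1 := (hLX z ((hP1 x' hx').1 hz')).2
      have h2 := hHd x hx
      rw [hz] at h1
      omega
    · exfalso
      have h1 := (hLX z ((hP1 x hx).1 hz)).2
      have h2 := hHd x' hx'
      rw [hz'] at h1
      omega
    · exact hP2 x hx x' hx' z hz hz'
  have mHP : ∀ z, z ∈ H.biUnion (fun x => insert x (P' x)) ↔ ∃ x ∈ H, z = x ∨ z ∈ P' x := by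
    intro z
    rw [mem_biUnion]
    constructor
    · rintro ⟨x, hx, hz⟩
      exact ⟨x, hx, mem_insert.1 hz⟩
    · rintro ⟨x, hx, hz⟩
      exact ⟨x, hx, mem_insert.2 hz⟩
  have hfin := hcX V T k C1 u X H (H.biUnion (fun x => insert x (P' x))) P grp
    (fun x _ => q1 x) hC1
    (fun x hx => (mHP x).2 ⟨x, hx, Or.inl rfl⟩)
    (by
      intro z hz
      obtain ⟨x, hx, h | h⟩ := (mHP z).1 hz
      · rw [h]
        exact hHX hx
      · exact (hLX z ((hP1 x hx).1 h)).1)
    (by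
      intro z hz hzH
      obtain ⟨x, hx, h | h⟩ := (mHP z).1 hz
      · rw [h] at hzH
        exact absurd hx hzH
      · exact (hLX z ((hP1 x hx).1 h)).2)
    hcov
    (by
      intro x hx hxH hxC
      obtain ⟨a1, a2, a3⟩ := hMed x hx hxH hxC
      refine ⟨a1, ?_⟩
      intro r hr
      refine ⟨(a3 r hr).1, (a3 r hr).2, ?_⟩
      intro hr'
      obtain ⟨x', hx', h | h⟩ := (mHP r).1 hr'
      · have h1 := (a3 r hr).2
        have h2 := hHd x' hx'
        rw [h] at h1
        omega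
      · have h1 := (hP1 x' hx').1 h
        rw [hL, mem_sdiff] at h1
        exact h1.2 (mem_biUnion.2 ⟨x, mem_filter.2 ⟨hx, hxH, hxC⟩, hr⟩))
    hPd hSm
  have hk0 : 0 < k := by
    have h1 := hk.lo
    have h2 := hP.ε0
    have h3 : (1 : ℝ) ≤ n := by exact_mod_cast hn1
    have h4 : (0 : ℝ) < k := by nlinarith
    exact_mod_cast h4
  have hVc : Fintype.card V = (2 * n - 1) + 1 := by
    have h1 := card_add_card_compl X
    rw [hXn, hXcn] at h1
    omega
  refine final_crit V T hT X hbip (2 * n - 1) k hVc hk0 u ?_ hfin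
  intro y hy y' hy' hm
  refine hui y hy y' hy' ?_
  have h1 := hur y hy
  have h2 := hur y' hy'
  have h3 : u y % k = u y' % k := hm
  rwa [Int.emod_eq_of_lt h1.1 h1.2, Int.emod_eq_of_lt h2.1 h2.2] at h3

end Pool.Agent.Lib.MP_7c15de_co.AS
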