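import Pool.Agent.Lib.MP_7c15de_co.AS.Stm
import Pool.Agent.Lib.MP_7c15de_co.TH.P_dg

/-!
# MP_7c15de_co, piece S1: construction (S), the labels
-/

set_option autoImplicit false

namespace Pool.Agent.Lib.MP_7c15de_co.AS

open Finset Pool.Agent.Lib.MP_7c15de_co Pool.Agent.Lib.MP_7c15de_co.TH

open Classical in
/-- vertices outside `X` with many leaves -/
private noncomputable def LHs {V : Type} [Fintype V] [DecidableEq V] (T : SimpleGraph V) (X : Finset V)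
    (τ : ℕ) : Finset V :=
  Xᶜ.filter (fun y => τ ≤ ((lf T X).filter (fun r => T.Adj r y)).card)

private theorem LHs_card {V : Type} [Fintype V] [DecidableEq V] (T : SimpleGraph V) (X : Finset V)
    (τ k Q : ℕ) (hk : k < Q * τ) (hn : X.card ≤ k) : (LHs T X τ).card ≤ Q := by
  classical
  have hdg := (p_dg V T).2.2.2.2.2
  by_contra hcon
  push Not at hcon
  have h1 : (LHs T X τ).card * τ ≤
      ∑ y ∈ LHs T X τ, ((lf T X).filter (fun r => T.Adj r y)).card := by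
    have := Finset.card_nsmul_le_sum (LHs T X τ)
      (fun y => ((lf T X).filter (fun r => T.Adj r y)).card) τ (by
        intro y hy
        unfold LHs at hy
        rw [Finset.mem_filter] at hy
        exact hy.2)
    simpa using this
  have h2 : ∑ y ∈ LHs T X τ, ((lf T X).filter (fun r => T.Adj r y)).card ≤ (lf T X).card := by
    rw [← Finset.card_biUnion]
    · apply Finset.card_le_card
      intro r hr
      rw [Finset.mem_biUnion] at hr
      obtain ⟨y, _, hr⟩ := hr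
      exact (Finset.mem_filter.mp hr).1
    · intro y _ y' _ hne
      show Disjoint _ _
      rw [Finset.disjoint_left]
      intro r hr hr'
      rw [Finset.mem_filter] at hr hr'
      have hr1 : dg T r = 1 := by
        have := hr.1
        unfold lf at this
        exact (Finset.mem_filter.mp this).2
      exact hne (((hdg r y' hr1 hr'.2) y).mp hr.2)
  have h3 : (lf T X).card ≤ X.card := by
    unfold lf
    exact Finset.card_filter_le _ _
  have h4 : Q * τ ≤ (LHs T X τ).card * τ := Nat.mul_le_mul_right _ hcon.le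
  omega

private theorem heavy_card {V : Type} (C n k : ℕ) (hnC : C ^ 2 ≤ n) (hkn : n ≤ k) (H : Finset V)
    (d : V → ℕ) (hH : ∀ x ∈ H, k < C * d x) (hsum : ∑ x ∈ H, (d x - 1) + 1 ≤ n) : H.card ≤ C := by
  by_contra hcon
  push Not at hcon
  have h1 : ∀ x ∈ H, ((k : ℤ) + 1 - C) ≤ C * ((d x - 1 : ℕ) : ℤ) := by
    intro x hx
    have h := hH x hx
    have hd : 1 ≤ d x := by
      by_contra h0
      have : d x = 0 := by omega
      rw [this] at h
      omega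
    have h' : (k : ℤ) < C * (d x : ℤ) := by exact_mod_cast h
    push_cast [Nat.cast_sub hd]
    linarith
  have h2 : (H.card : ℤ) * ((k : ℤ) + 1 - C) ≤ C * ((∑ x ∈ H, (d x - 1) : ℕ) : ℤ) := by
    have := Finset.sum_le_sum h1
    rw [Finset.sum_const, nsmul_eq_mul, ← Finset.mul_sum] at this
    push_cast at this ⊢
    exact this
  have h3 : ((∑ x ∈ H, (d x - 1) : ℕ) : ℤ) ≤ n - 1 := by
    have : ((∑ x ∈ H, (d x - 1) + 1 : ℕ) : ℤ) ≤ n := by exact_mod_cast hsum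
    push_cast at this ⊢
    linarith
  have h4 : (C : ℤ) * ((∑ x ∈ H, (d x - 1) : ℕ) : ℤ) ≤ C * (n - 1) :=
    mul_le_mul_of_nonneg_left h3 (by positivity)
  have h5 : (C : ℤ) + 1 ≤ H.card := by exact_mod_cast hcon
  have h6 : ((C : ℤ)) ^ 2 ≤ n := by exact_mod_cast hnC
  have h7 : (n : ℤ) ≤ k := by exact_mod_cast hkn
  have h8 : (0 : ℤ) ≤ (k : ℤ) + 1 - C := by nlinarith
  have h9 : ((C : ℤ) + 1) * ((k : ℤ) + 1 - C) ≤ (H.card : ℤ) * ((k : ℤ) + 1 - C) :=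
    mul_le_mul_of_nonneg_right h5 h8
  nlinarith

private theorem Nfacts (k C d : ℕ) (hd2 : 2 * d ≤ k) (hdC : k < C * d)
    (hdS : ∀ s, 1 ≤ s → s ≤ C → s ∣ k) :
    0 < k / (k / d) ∧ k / (k / d) ∣ k ∧ d ≤ k / (k / d) ∧ (k / d) * (k / (k / d)) = k ∧ 1 ≤ k / d ∧
      k / d ≤ C := by
  have hd : 0 < d := by
    rcases Nat.eq_zero_or_pos d with h | h
    · rw [h] at hdC; omega
    · exact h
  have hs1 : 2 ≤ k / d := (Nat.le_div_iff_mul_le hd).mpr hd2
  have hs2 : k / d ≤ C := by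
    have : k / d < C := (Nat.div_lt_iff_lt_mul hd).mpr hdC
    omega
  have hdvd := hdS (k / d) (by omega) hs2
  have h1 : (k / d) * (k / (k / d)) = k := Nat.mul_div_cancel' hdvd
  have h2 : d ≤ k / (k / d) := by
    rw [Nat.le_div_iff_mul_le (by omega)]
    exact Nat.mul_div_le k d
  exact ⟨by omega, Dvd.intro_left _ h1, h2, h1, by omega, hs2⟩

private theorem few_labels (S : Finset ℤ) (N s k : ℕ) (hN : 0 < N) (hk : s * N = k) (δ : ℤ)
    (h : ∀ z ∈ S, 0 ≤ z ∧ z < k ∧ z ≡ δ [ZMOD N]) : S.card ≤ s := by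
  have hN' : (0 : ℤ) < N := by exact_mod_cast hN
  have h1 : S.card ≤ (range s).card := by
    apply Finset.card_le_card_of_injOn (fun z : ℤ => (z / (N : ℤ)).toNat)
    · intro z hz
      have hz' : z ∈ S := hz
      obtain ⟨h0, h1, _⟩ := h z hz'
      have h3 : z / N < s := by
        rw [Int.ediv_lt_iff_lt_mul hN']
        have : ((s * N : ℕ) : ℤ) = k := by exact_mod_cast hk
        push_cast at this
        linarith
      have h4 : 0 ≤ z / (N : ℤ) := Int.ediv_nonneg h0 hN'.le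
      simp only [Finset.coe_range, Set.mem_Iio]
      omega
    · intro z hz z' hz' he
      have hz1 : z ∈ S := hz
      have hz2 : z' ∈ S := hz'
      obtain ⟨h0, _, h2⟩ := h z hz1
      obtain ⟨h0', _, h2'⟩ := h z' hz2
      have he' : (z / (N : ℤ)).toNat = (z' / (N : ℤ)).toNat := he
      have h4 : 0 ≤ z / (N : ℤ) := Int.ediv_nonneg h0 hN'.le
      have h4' : 0 ≤ z' / (N : ℤ) := Int.ediv_nonneg h0' hN'.le
      have he2 : z / (N : ℤ) = z' / (N : ℤ) := by omega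
      have hm : z % (N : ℤ) = z' % (N : ℤ) := h2.trans h2'.symm
      rw [← Int.mul_ediv_add_emod z N, ← Int.mul_ediv_add_emod z' N, he2, hm]
  simpa using h1

private theorem filler_count {V : Type} [DecidableEq V] (S : Finset V) (pr : V → V) (u : V → ℤ)
    (N s k τ : ℕ) (δ : ℤ) (hN : 0 < N) (hk : s * N = k)
    (h1 : ∀ r ∈ S, 0 ≤ u (pr r) ∧ u (pr r) < k ∧ u (pr r) ≡ δ [ZMOD N])
    (hinj : ∀ r ∈ S, ∀ r' ∈ S, u (pr r) = u (pr r') → pr r = pr r')
    (hτ : ∀ r ∈ S, (S.filter (fun r' => pr r' = pr r)).card ≤ τ) : S.card ≤ τ * s := by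
  have h2 : S.card ≤ τ * (S.image pr).card := by
    apply Finset.card_le_mul_card_image
    intro y hy
    rw [Finset.mem_image] at hy
    obtain ⟨r, hr, rfl⟩ := hy
    exact hτ r hr
  have h3 : (S.image pr).card ≤ s := by
    have h4 : (S.image pr).card = ((S.image pr).image u).card := by
      symm
      apply Finset.card_image_of_injOn
      intro y hy y' hy' he
      simp only [Finset.coe_image, Set.mem_image, Finset.mem_coe] at hy hy'
      obtain ⟨r, hr, rfl⟩ := hy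
      obtain ⟨r', hr', rfl⟩ := hy'
      exact hinj r hr r' hr' he
    rw [h4]
    apply few_labels _ N s k hN hk δ
    intro z hz
    rw [Finset.mem_image] at hz
    obtain ⟨y, hy, rfl⟩ := hz
    rw [Finset.mem_image] at hy
    obtain ⟨r, hr, rfl⟩ := hy
    exact h1 r hr
  exact h2.trans (Nat.mul_le_mul_left _ h3)

/-- The groups. -/
private theorem groups (hseg : S_seg) (ε δ : ℝ) (C C1 J M0 K : ℕ) (Bf : ℕ → ℕ)
    (hP : Prm ε δ C C1 J M0 K Bf) (n k c g1 g2 g3 g4 : ℕ) (hk : Host ε C C1 M0 n k)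
    {V : Type} [DecidableEq V] (H O : Finset V) (d : V → ℕ)
    (hcnt : (∑ x ∈ H, (d x - 1)) + ∑ x ∈ O, (d x - 1) + 1 = n) (hHC : H.card ≤ C)
    (hd1 : ∀ x ∈ H, 1 ≤ d x) (hd2 : ∀ x ∈ O, 2 ≤ d x) (hOk : ∀ x ∈ O, C * d x ≤ k)
    (hn : (C : ℝ) + c + 3 * K ≤ 7 / 10 * ε * n)
    (h1 : c ≤ g1) (h2 : g1 ≤ g2) (h3 : g2 ≤ g3) (h4 : g3 ≤ g4) (h5 : g4 ≤ k)
    (hg : (g2 - g1) + (g4 - g3) = ∑ x ∈ H, d x) :
    ∃ grp : V → Fin 3, ∀ i, (∀ x ∈ O, grp x ≠ i) ∨
      (1 + δ) * ∑ x ∈ O.filter (fun x => grp x = i), ((d x : ℝ) - 1) + K ≤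
        ((![g1 - c, g3 - g2, k - g4] : Fin 3 → ℕ) i : ℕ) := by
  have hε0 := hP.ε0
  have hε1 := hP.ε1
  have hδ0 := hP.δ0
  have hδ := hP.δε
  have hεC := hP.εC
  have hC : (100 : ℝ) ≤ C := by
    have : (0 : ℝ) ≤ C := Nat.cast_nonneg _
    nlinarith
  have hCpos : (0 : ℝ) < C := by linarith
  have hn0 : (0 : ℝ) ≤ n := Nat.cast_nonneg _
  have hk0 : (0 : ℝ) ≤ k := Nat.cast_nonneg _
  have hklo := hk.lo
  have hkhi := hk.hi
  have hk4 : (k : ℝ) ≤ 4 * n := by nlinarith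
  have hδ1 : δ ≤ 1 := by linarith
  -- real sums
  have hO : ∑ x ∈ O, ((d x : ℝ) - 1) = (n : ℝ) - 1 - ((∑ x ∈ H, d x : ℕ) : ℝ) + H.card := by
    have e1 : ((∑ x ∈ O, (d x - 1) : ℕ) : ℝ) = ∑ x ∈ O, ((d x : ℝ) - 1) := by
      push_cast
      apply Finset.sum_congr rfl
      intro x hx
      have := hd2 x hx
      rw [Nat.cast_sub (by omega)]
      simp
    have e2 : ((∑ x ∈ H, (d x - 1) : ℕ) : ℝ) = ((∑ x ∈ H, d x : ℕ) : ℝ) - H.card := by
      push_cast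
      rw [eq_sub_iff_add_eq, Finset.cast_card, ← Finset.sum_add_distrib]
      apply Finset.sum_congr rfl
      intro x hx
      have := hd1 x hx
      rw [Nat.cast_sub (by omega)]
      simp
    have e3 : ((∑ x ∈ H, (d x - 1) : ℕ) : ℝ) + ((∑ x ∈ O, (d x - 1) : ℕ) : ℝ) + 1 = n := by
      exact_mod_cast hcnt
    rw [← e1]
    rw [e2] at e3
    linarith
  have hDm : (H.card : ℝ) ≤ ((∑ x ∈ H, d x : ℕ) : ℝ) := by
    have : H.card ≤ ∑ x ∈ H, d x := by
      rw [Finset.card_eq_sum_ones]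
      exact Finset.sum_le_sum hd1
    exact_mod_cast this
  have hHC' : (H.card : ℝ) ≤ C := by exact_mod_cast hHC
  set b : ℝ := 2 * k / C with hb
  have hbn : b ≤ 8 / 100 * ε * n := by
    rw [hb, div_le_iff₀ hCpos]
    nlinarith
  have hb0 : 0 ≤ b := by rw [hb]; positivity
  set L : Fin 3 → ℝ := ![(g1 : ℝ) - c - K, (g3 : ℝ) - g2 - K, (k : ℝ) - g4 - K] with hL
  have hgr : ((g2 : ℝ) - g1) + ((g4 : ℝ) - g3) = ((∑ x ∈ H, d x : ℕ) : ℝ) := by
    rw [← hg]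
    push_cast [Nat.cast_sub h2, Nat.cast_sub h4]
    ring
  have hwt : ∀ x ∈ O, 0 < (1 + δ) * ((d x : ℝ) - 1) ∧ (1 + δ) * ((d x : ℝ) - 1) ≤ b := by
    intro x hx
    have h2x : (2 : ℝ) ≤ d x := by exact_mod_cast hd2 x hx
    have hkx : (C : ℝ) * d x ≤ k := by exact_mod_cast hOk x hx
    refine ⟨by nlinarith, ?_⟩
    rw [hb, le_div_iff₀ hCpos]
    have : (1 + δ) * ((d x : ℝ) - 1) ≤ 2 * d x := by nlinarith
    nlinarith
  have hsum : ∑ x ∈ O, (1 + δ) * ((d x : ℝ) - 1) ≤ ∑ i : Fin 3, max (L i - b) 0 := by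
    rw [← Finset.mul_sum, hO]
    have e1 : ∑ i : Fin 3, (L i - b) ≤ ∑ i : Fin 3, max (L i - b) 0 :=
      Finset.sum_le_sum fun i _ => le_max_left _ _
    refine le_trans ?_ e1
    rw [Fin.sum_univ_three]
    simp only [hL, Matrix.cons_val_zero, Matrix.cons_val_one, Matrix.cons_val]
    have e2 : δ * n ≤ ε / 50 * n := mul_le_mul_of_nonneg_right hδ hn0
    nlinarith
  obtain ⟨grp, hgrp⟩ := hseg V O (fun x => (1 + δ) * ((d x : ℝ) - 1)) b L hb0 hwt hsum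
  refine ⟨grp, fun i => ?_⟩
  rcases hgrp i with h | h
  · exact Or.inl h
  · right
    rw [← Finset.mul_sum] at h
    have e : ((![g1 - c, g3 - g2, k - g4] : Fin 3 → ℕ) i : ℝ) = L i + K := by
      fin_cases i
      · simp only [hL, Fin.zero_eta, Matrix.cons_val_zero]
        rw [Nat.cast_sub h1]; ring
      · simp only [hL, Fin.mk_one, Matrix.cons_val_one, Matrix.cons_val_zero]
        rw [Nat.cast_sub h3]; ring
      · simp only [hL, Fin.reduceFinMk, Matrix.cons_val]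
        rw [Nat.cast_sub h5]; ring
    rw [e]
    linarith

private theorem mem_kids' {V : Type} [Fintype V] [DecidableEq V] (X : Finset V) (y0 : V) (par : V → V)
    (x y : V) : y ∈ kids X y0 par x ↔ y ∉ X ∧ y ≠ y0 ∧ par y = x := by
  unfold kids
  simp

private theorem heavyG (hheavy : S_heavy) {V : Type} [Fintype V] [DecidableEq V] (T : SimpleGraph V)
    (X : Finset V) (y0 : V) (par : V → V) (μ : V → ℕ) (hX : ∀ a b, T.Adj a b → (a ∈ X ↔ b ∉ X))
    (hRt : Rt T X y0 par μ) (N A t c M0 : ℕ) (x : V) (Sp : Finset V) (idx : V → ℕ) (hx : x ∈ X)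
    (h2 : 2 ≤ dg T x) (hN : dg T x ≤ N) (hA1 : A ≤ t * N) (hA2 : t * N + c + 1 ≤ A + dg T x)
    (hM0 : 2 ≤ M0) (hcN : c ≤ N) (hc : ∀ y ∈ Sp, M0 * idx y + M0 ≤ c)
    (hidx : ∀ y ∈ Sp, ∀ y' ∈ Sp, idx y = idx y' → y = y') :
    ∃ G : (V → ℤ) → V → ℤ,
      (∀ w w' : V → ℤ, w (par x) = w' (par x) → ∀ c ∈ kids X y0 par x, G w c = G w' c) ∧
      (∀ c ∈ kids X y0 par x, ∀ w, c ∈ Sp → ((M0 * idx c : ℕ) : ℤ) ≤ G w c ∧
        G w c ≤ ((M0 * idx c : ℕ) : ℤ) + 1) ∧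
      (∀ c ∈ kids X y0 par x, ∀ w, c ∉ Sp → (A : ℤ) ≤ G w c ∧ G w c < A + dg T x) ∧
      (∀ w, ∀ c ∈ kids X y0 par x, ∀ c' ∈ kids X y0 par x, c ∉ Sp → c' ∉ Sp → G w c = G w c' → c = c') ∧
      ∀ u : V → ℤ, (∀ c ∈ kids X y0 par x, u c = G u c) →
        (∀ y y', T.Adj x y → T.Adj x y' → u y ≡ u y' [ZMOD N] → y = y') ∧
        ∀ δ : ℤ, (∀ y, T.Adj x y → ¬ u y ≡ δ [ZMOD N]) →
          ∃ j : ℕ, j ≤ N - dg T x ∧ δ ≡ (A : ℤ) + dg T x - 1 + j [ZMOD N] := by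
  have hbd : ∀ y ∈ Sp, ∀ e : ℤ, 0 ≤ e → e ≤ 1 →
      0 ≤ ((M0 * idx y : ℕ) : ℤ) + e ∧ ((M0 * idx y : ℕ) : ℤ) + e < c := by
    intro y hy e he0 he1
    have h := hc y hy
    have h' : ((M0 * idx y : ℕ) : ℤ) + M0 ≤ c := by exact_mod_cast h
    have hM : (2 : ℤ) ≤ M0 := by exact_mod_cast hM0
    have h0 : (0 : ℤ) ≤ ((M0 * idx y : ℕ) : ℤ) := Nat.cast_nonneg _
    constructor <;> linarith
  have hA1' : (A : ℤ) ≤ ((t * N : ℕ) : ℤ) := by exact_mod_cast hA1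
  have hA2' : ((t * N : ℕ) : ℤ) + c + 1 ≤ (A : ℤ) + dg T x := by exact_mod_cast hA2
  apply hheavy V T X y0 par μ hX hRt N A x Sp (fun y => ((M0 * idx y : ℕ) : ℤ)) hx h2 hN
  · intro y _ hy e he0 he1
    obtain ⟨hb0, hb1⟩ := hbd y hy e he0 he1
    refine ⟨((t * N : ℕ) : ℤ) + (((M0 * idx y : ℕ) : ℤ) + e), by linarith, by linarith, ?_⟩
    rw [Int.modEq_iff_dvd]
    refine ⟨-t, ?_⟩
    push_cast
    ring
  · intro y _ hy y' _ hy' e e' he0 he1 he0' he1' hmod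
    obtain ⟨hb0, hb1⟩ := hbd y hy e he0 he1
    obtain ⟨hb0', hb1'⟩ := hbd y' hy' e' he0' he1'
    have hcN' : (c : ℤ) ≤ N := by exact_mod_cast hcN
    have heq : ((M0 * idx y : ℕ) : ℤ) + e = ((M0 * idx y' : ℕ) : ℤ) + e' := by
      have h1 : (((M0 * idx y : ℕ) : ℤ) + e) % N = (((M0 * idx y' : ℕ) : ℤ) + e') % N := hmod
      rwa [Int.emod_eq_of_lt hb0 (by linarith), Int.emod_eq_of_lt hb0' (by linarith)] at h1
    have hii : idx y = idx y' := by
      have hM : (2 : ℤ) ≤ M0 := by exact_mod_cast hM0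
      push_cast at heq
      rcases lt_trichotomy (idx y) (idx y') with h | h | h
      · exfalso
        have h' : (idx y : ℤ) + 1 ≤ idx y' := by exact_mod_cast h
        nlinarith
      · exact h
      · exfalso
        have h' : (idx y' : ℤ) + 1 ≤ idx y := by exact_mod_cast h
        nlinarith
    refine ⟨hidx y hy y' hy' hii, ?_⟩
    rw [hii] at heq
    linarith

theorem p_S1 (hrt : S_rt) (hcnt : S_cnt) (hplan2 : S_plan2) (hplace : S_place) (hseg : S_seg)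
    (hheavy : S_heavy) (hlab2 : S_lab2) : S_S1 := by
  classical
  intro ε δ C C1 J M0 K Bf hP
  have hε0 := hP.ε0
  have hC100R : (100 : ℝ) ≤ C := by
    have h0 : (0 : ℝ) ≤ C := Nat.cast_nonneg _
    have := hP.ε1
    have := hP.εC
    nlinarith
  have hC100 : 100 ≤ C := by exact_mod_cast hC100R
  have hQ1 : 10000 ≤ C ^ 2 := by nlinarith
  have hC1 := hP.C1C
  have hM0C := hP.M0C
  obtain ⟨c, hc⟩ : ∃ c : ℕ, c = M0 * (64 * C ^ 2 + 1) := ⟨_, rfl⟩
  obtain ⟨k0, hk0⟩ := hplace C c (by omega)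
  obtain ⟨n4, hn4⟩ := exists_nat_ge (((C : ℝ) + c + 3 * K) / (7 / 10 * ε))
  refine ⟨max (max k0 n4) (44 * C ^ 2 + 1), ?_⟩
  intro n hn k hk V _ _ T hT X hX hXn hXcn h2 h5 H hH
  have hnk0 : k0 ≤ n := le_trans (le_trans (le_max_left _ _) (le_max_left _ _)) hn
  have hnn4 : n4 ≤ n := le_trans (le_trans (le_max_right _ _) (le_max_left _ _)) hn
  have hnC : 44 * C ^ 2 + 1 ≤ n := le_trans (le_max_right _ _) hn
  have hnR : (C : ℝ) + c + 3 * K ≤ 7 / 10 * ε * n := by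
    have h1 : ((C : ℝ) + c + 3 * K) / (7 / 10 * ε) ≤ n := hn4.trans (by exact_mod_cast hnn4)
    rw [div_le_iff₀ (by positivity)] at h1
    linarith
  have hkn : n ≤ k := by
    have h1 := hk.lo
    have h0 : (0 : ℝ) ≤ n := Nat.cast_nonneg _
    have : (n : ℝ) ≤ k := by nlinarith
    exact_mod_cast this
  have hkpos : 0 < k := by omega
  -- counting
  obtain ⟨hdg1, -, hcnt3, hcnt4, r0, hr0X, hr0⟩ := hcnt V T hT X hX n hXn hXcn (by omega)
  have hHX : H ⊆ X := by rw [hH]; exact Finset.filter_subset _ _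
  have hHk : ∀ x ∈ H, k < C * dg T x := by
    intro x hx
    rw [hH, Finset.mem_filter] at hx
    exact hx.2
  have hOk : ∀ x ∈ X, x ∉ H → C * dg T x ≤ k := by
    intro x hx hxH
    rw [hH, Finset.mem_filter] at hxH
    by_contra hcon
    exact hxH ⟨hx, by omega⟩
  have hHd2 : ∀ x ∈ H, 2 ≤ dg T x := by
    intro x hx
    have h1 := hHk x hx
    by_contra hcon
    have h3 : dg T x ≤ 1 := by omega
    have : C * dg T x ≤ C * 1 := Nat.mul_le_mul_left _ h3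
    nlinarith
  have hc4 := hcnt4 H hHX
  have hHC : H.card ≤ C := heavy_card C n k (by omega) hkn H (dg T) hHk (by omega)
  -- the vertices with many leaves
  obtain ⟨τ, hτdef⟩ : ∃ τ : ℕ, τ = k / (64 * C ^ 2) + 1 := ⟨_, rfl⟩
  have hτ : k < 64 * C ^ 2 * τ := by
    rw [hτdef]
    exact Nat.lt_mul_div_succ k (by omega)
  have hτk : 64 * C ^ 2 * τ ≤ k + 64 * C ^ 2 := by
    rw [hτdef, mul_add, mul_one]
    exact Nat.add_le_add_right (Nat.mul_div_le k _) _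
  have hLH : (LHs T X τ).card ≤ 64 * C ^ 2 :=
    LHs_card T X τ k _ hτ (by rw [hXn]; exact hkn)
  obtain ⟨y0, hy0⟩ := (p_dg V T).2.2.2.2.1 r0 hr0
  have hadj : T.Adj r0 y0 := (hy0 y0).mpr rfl
  obtain ⟨Sp, hSpdef⟩ : ∃ Sp : Finset V, Sp = insert y0 (LHs T X τ) := ⟨_, rfl⟩
  have hy0Sp : y0 ∈ Sp := by rw [hSpdef]; exact Finset.mem_insert_self _ _
  have hSpcard : Sp.card ≤ 64 * C ^ 2 + 1 := by
    rw [hSpdef]
    exact (Finset.card_insert_le _ _).trans (by omega)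
  obtain ⟨idx, hidx1, hidx2⟩ : ∃ idx : V → ℕ, (∀ y ∈ Sp, idx y < Sp.card) ∧
      ∀ y ∈ Sp, ∀ y' ∈ Sp, idx y = idx y' → y = y' := by
    refine ⟨fun y => if h : y ∈ Sp then (Sp.equivFin ⟨y, h⟩ : ℕ) else 0, ?_, ?_⟩
    · intro y hy
      simp only [hy, dite_true]
      exact (Sp.equivFin ⟨y, hy⟩).2
    · intro y hy y' hy' he
      simp only [hy, hy', dite_true] at he
      have := Sp.equivFin.injective (Fin.ext he)
      exact congrArg Subtype.val this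
  have hM02 : 2 ≤ M0 := by omega
  have hSpc : ∀ y ∈ Sp, M0 * idx y + M0 ≤ c := by
    intro y hy
    have h1 := hidx1 y hy
    have h3 : M0 * (idx y + 1) ≤ M0 * (64 * C ^ 2 + 1) := Nat.mul_le_mul_left _ (by omega)
    rw [hc]
    rw [mul_add, mul_one] at h3
    exact h3
  -- the places
  obtain ⟨A, t, g1, g2, g3, g4, hcg, h12, h23, h34, h4k, hgsum, hAin, hAdisj, hAt⟩ :=
    hk0 k (by omega) hk.dS V H (dg T) (fun x hx => ⟨hHk x hx, h2 x (hHX hx)⟩) (by rw [hH]; exact h5)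
  -- the medium vertices
  have hNm0 : ∀ x, ∃ N, x ∈ X → x ∉ H → C1 ≤ dg T x →
      N ∣ k ∧ dg T x ≤ N ∧ (C - 1) * N ≤ C * dg T x := by
    intro x
    by_cases h : x ∈ X ∧ x ∉ H ∧ C1 ≤ dg T x
    · obtain ⟨N, hN⟩ := hk.dN (dg T x) h.2.2 (hOk x h.1 h.2.1)
      exact ⟨N, fun _ _ _ => hN⟩
    · exact ⟨0, fun h1 h3 h4 => absurd ⟨h1, h3, h4⟩ h⟩
  choose Nm hNm using hNm0
  obtain ⟨Mst, hMst⟩ : ∃ Mst : Finset V, Mst = X.filter (fun x => x ∉ H ∧ C1 ≤ dg T x) := ⟨_, rfl⟩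
  have hMstmem : ∀ x, x ∈ Mst ↔ x ∈ X ∧ x ∉ H ∧ C1 ≤ dg T x := by
    intro x; rw [hMst, Finset.mem_filter]
  have hq : ∀ x ∈ Mst, 4 * (Nm x - dg T x) + Sp.card + 3 ≤ dg T x := by
    intro x hx
    rw [hMstmem] at hx
    obtain ⟨_, hN1, hN2⟩ := hNm x hx.1 hx.2.1 hx.2.2
    have h3 : 99 * (Nm x - dg T x) ≤ dg T x := by
      have h4 : (C - 1) * (Nm x - dg T x) ≤ dg T x := by
        zify [hN1, (show 1 ≤ C by omega)] at hN2 ⊢
        nlinarith
      have h5 : 99 * (Nm x - dg T x) ≤ (C - 1) * (Nm x - dg T x) :=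
        Nat.mul_le_mul_right _ (by omega)
      omega
    have := hx.2.2
    omega
  obtain ⟨par, μ, last, P, hRt, hlast, hP0, hPr, hPdisj, -⟩ :=
    hplan2 V T hT X hX (by rw [hXn, hXcn]) r0 y0 hr0X hr0 hadj Mst ∅ (fun _ => Sp)
      (fun x => Nm x - dg T x) (by rw [hMst]; exact Finset.filter_subset _ _) (fun _ => hq)
  obtain ⟨hrt1, hrt2, hrt3, hrt4, hrt5, hrt6, -⟩ := hrt V T X y0 par μ hX hRt
  -- the groups
  obtain ⟨grp, hgrp⟩ := groups hseg ε δ C C1 J M0 K Bf hP n k c g1 g2 g3 g4 hk H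
    (X.filter (fun x => x ∉ H ∧ 2 ≤ dg T x)) (dg T) hc4 hHC
    (fun x hx => by have := hHd2 x hx; omega)
    (fun x hx => (Finset.mem_filter.mp hx).2.2)
    (fun x hx => hOk x (Finset.mem_filter.mp hx).1 (Finset.mem_filter.mp hx).2.1)
    hnR hcg h12 h23 h34 h4k hgsum
  -- the numbers `N x` of the heavy vertices
  have hNf : ∀ x ∈ H, 0 < k / (k / dg T x) ∧ k / (k / dg T x) ∣ k ∧ dg T x ≤ k / (k / dg T x) ∧
      (k / dg T x) * (k / (k / dg T x)) = k ∧ 1 ≤ k / dg T x ∧ k / dg T x ≤ C :=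
    fun x hx => Nfacts k C (dg T x) (h2 x (hHX hx)) (hHk x hx) hk.dS
  have hcd : ∀ x ∈ H, c ≤ dg T x := by
    intro x hx
    obtain ⟨h1, h3⟩ := hAt x hx
    omega
  have hG0 : ∀ x, ∃ G : (V → ℤ) → V → ℤ, x ∈ H →
      (∀ w w' : V → ℤ, w (par x) = w' (par x) → ∀ c ∈ kids X y0 par x, G w c = G w' c) ∧
      (∀ c ∈ kids X y0 par x, ∀ w, c ∈ Sp → ((M0 * idx c : ℕ) : ℤ) ≤ G w c ∧
        G w c ≤ ((M0 * idx c : ℕ) : ℤ) + 1) ∧
      (∀ c ∈ kids X y0 par x, ∀ w, c ∉ Sp → (A x : ℤ) ≤ G w c ∧ G w c < A x + dg T x) ∧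
      (∀ w, ∀ c ∈ kids X y0 par x, ∀ c' ∈ kids X y0 par x, c ∉ Sp → c' ∉ Sp → G w c = G w c' → c = c') ∧
      ∀ u : V → ℤ, (∀ c ∈ kids X y0 par x, u c = G u c) →
        (∀ y y', T.Adj x y → T.Adj x y' → u y ≡ u y' [ZMOD ((k / (k / dg T x) : ℕ) : ℤ)] → y = y') ∧
        ∀ δ : ℤ, (∀ y, T.Adj x y → ¬ u y ≡ δ [ZMOD ((k / (k / dg T x) : ℕ) : ℤ)]) →
          ∃ j : ℕ, j ≤ (k / (k / dg T x)) - dg T x ∧
            δ ≡ (A x : ℤ) + dg T x - 1 + j [ZMOD ((k / (k / dg T x) : ℕ) : ℤ)] := by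
    intro x
    by_cases hx : x ∈ H
    · obtain ⟨hN1, hN2, hN3, hN4, hN5, hN6⟩ := hNf x hx
      obtain ⟨hA1, hA2⟩ := hAt x hx
      have hcdx := hcd x hx
      obtain ⟨G, hG⟩ := heavyG hheavy T X y0 par μ hX hRt (k / (k / dg T x)) (A x) (t x) c M0 x Sp idx
        (hHX hx) (hHd2 x hx) hN3 hA1 hA2 hM02 (by omega) hSpc hidx2
      exact ⟨G, fun _ => hG⟩
    · exact ⟨fun _ _ => 0, fun h => absurd h hx⟩
  choose G hG using hG0
  -- the labels
  obtain ⟨fH, hfH⟩ : ∃ fH : V → (V → ℤ) → ℤ, fH = fun y w =>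
    if y = y0 then ((M0 * idx y0 : ℕ) : ℤ) else G (par y) w y := ⟨_, rfl⟩
  have hdep : ∀ y ∉ X, y = y0 ∨ par y ∈ H → ∀ w w' : V → ℤ, (∀ z, μ z < μ y → w z = w' z) →
      fH y w = fH y w' := by
    intro y hy hyH w w' hw
    rw [hfH]
    by_cases h0 : y = y0
    · simp [h0]
    · have hpH : par y ∈ H := hyH.resolve_left h0
      simp only [h0, if_false]
      exact (hG (par y) hpH).1 w w' (hw _ (hRt.lt y hy h0)) y
        ((mem_kids' X y0 par _ y).mpr ⟨hy, h0, rfl⟩)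
  have hmed : ∀ x ∈ X, x ∉ H → C1 ≤ dg T x → Nm x ∣ k ∧ (C - 1) * Nm x ≤ C * dg T x ∧
      dg T x + (P x).card = Nm x ∧ last x ∈ kids X y0 par x ∧ last x ∉ Sp ∧
      ∀ r ∈ P x, r ∈ X ∧ dg T r = 1 ∧ μ (par r) < μ (last x) := by
    intro x hx hxH hxC
    obtain ⟨hN0, hN1, hN2⟩ := hNm x hx hxH hxC
    have hxM : x ∈ Mst := (hMstmem x).mpr ⟨hx, hxH, hxC⟩
    obtain ⟨hl1, hl2, hl3⟩ := hlast x hxM
    exact ⟨hN0, hN2, by rw [hl3]; omega, hl1, hl2, hPr x hxM⟩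
  have hgr2 : ∀ i : Fin 3, (∀ x ∈ X, x ∉ H → 2 ≤ dg T x → grp x ≠ i) ∨
      (1 + δ) * ∑ x ∈ X.filter (fun x => x ∉ H ∧ 2 ≤ dg T x ∧ grp x = i), ((dg T x : ℝ) - 1) + K ≤
        ((![g1 - c, g3 - g2, k - g4] : Fin 3 → ℕ) i : ℕ) := by
    intro i
    rcases hgrp i with h | h
    · left
      intro x hx hxH hx2
      exact h x (Finset.mem_filter.mpr ⟨hx, hxH, hx2⟩)
    · right
      have e : X.filter (fun x => x ∉ H ∧ 2 ≤ dg T x ∧ grp x = i) =
          (X.filter (fun x => x ∉ H ∧ 2 ≤ dg T x)).filter (fun x => grp x = i) := by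
        ext x
        simp only [Finset.mem_filter]
        tauto
      rw [e]
      exact h
  obtain ⟨u, hu0, hu1, hu2, hu3, hu4, hu5⟩ := hlab2 ε δ C C1 J M0 K Bf hP V T X y0 par μ hX hRt k H Sp
    (fun y => ((M0 * idx y : ℕ) : ℤ)) Nm P last grp ![(c : ℤ), (g2 : ℤ), (g4 : ℤ)]
    ![g1 - c, g3 - g2, k - g4] fH hkpos hk.dM (by omega) hdep hmed hgr2
  have hM0Z : (2 : ℤ) ≤ M0 := by exact_mod_cast hM02
  have hfy0 : u y0 = ((M0 * idx y0 : ℕ) : ℤ) := by
    rw [hu0 y0 hRt.y0X (Or.inl rfl), hfH]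
    simp
  have hfk : ∀ y ∉ X, y ≠ y0 → par y ∈ H → u y = G (par y) u y := by
    intro y hy h0 hp
    conv_lhs => rw [hu0 y hy (Or.inr hp), hfH]
    simp [h0]
  have hcls1 : ∀ y ∉ X, y ∈ Sp → ((M0 * idx y : ℕ) : ℤ) ≤ u y ∧ u y < ((M0 * idx y : ℕ) : ℤ) + M0 := by
    intro y hy hySp
    by_cases h0 : y = y0
    · rw [h0, hfy0]
      constructor <;> linarith
    · by_cases hp : par y ∈ H
      · have hk1 := (hG (par y) hp).2.1 y ((mem_kids' X y0 par _ y).mpr ⟨hy, h0, rfl⟩) u hySp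
        rw [hfk y hy h0 hp]
        exact ⟨hk1.1, by linarith [hk1.2]⟩
      · exact hu1 y hy h0 hp hySp
  have hcls2 : ∀ y ∉ X, y ∉ Sp → par y ∈ H → (A (par y) : ℤ) ≤ u y ∧ u y < A (par y) + dg T (par y) := by
    intro y hy hySp hp
    have h0 : y ≠ y0 := fun h => hySp (h ▸ hy0Sp)
    rw [hfk y hy h0 hp]
    exact (hG (par y) hp).2.2.1 y ((mem_kids' X y0 par _ y).mpr ⟨hy, h0, rfl⟩) u hySp
  have hcls3 : ∀ y ∉ X, y ∉ Sp → par y ∉ H →
      (grp (par y) = 0 ∧ (c : ℤ) ≤ u y ∧ u y < g1) ∨ (grp (par y) = 1 ∧ (g2 : ℤ) ≤ u y ∧ u y < g3) ∨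
        (grp (par y) = 2 ∧ (g4 : ℤ) ≤ u y ∧ u y < k) := by
    intro y hy hySp hp
    have h0 : y ≠ y0 := fun h => hySp (h ▸ hy0Sp)
    have h := hu2 y hy h0 hp hySp
    generalize grp (par y) = i at h ⊢
    fin_cases i
    · left
      simp only [Fin.zero_eta, Matrix.cons_val_zero] at h
      refine ⟨rfl, by omega, by omega⟩
    · right; left
      simp only [Fin.mk_one, Matrix.cons_val_one, Matrix.cons_val_zero] at h
      refine ⟨rfl, by omega, by omega⟩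
    · right; right
      simp only [Fin.reduceFinMk, Matrix.cons_val] at h
      refine ⟨rfl, by omega, by omega⟩
  have hreg : ∀ y ∉ X, (y ∈ Sp ∧ 0 ≤ u y ∧ u y < c) ∨
      (y ∉ Sp ∧ par y ∈ H ∧ (((g1 : ℤ) ≤ u y ∧ u y < g2) ∨ ((g3 : ℤ) ≤ u y ∧ u y < g4))) ∨
      (y ∉ Sp ∧ par y ∉ H ∧ ((grp (par y) = 0 ∧ (c : ℤ) ≤ u y ∧ u y < g1) ∨
        (grp (par y) = 1 ∧ (g2 : ℤ) ≤ u y ∧ u y < g3) ∨
        (grp (par y) = 2 ∧ (g4 : ℤ) ≤ u y ∧ u y < k))) := by
    intro y hy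
    by_cases hySp : y ∈ Sp
    · left
      have h1 := hcls1 y hy hySp
      have h3 : ((M0 * idx y + M0 : ℕ) : ℤ) ≤ c := by exact_mod_cast hSpc y hySp
      have h4 : (0 : ℤ) ≤ ((M0 * idx y : ℕ) : ℤ) := Nat.cast_nonneg _
      push_cast at h1 h3 h4
      exact ⟨hySp, by linarith, by linarith⟩
    · by_cases hp : par y ∈ H
      · right; left
        have h1 := hcls2 y hy hySp hp
        have h3 := hAin (par y) hp
        refine ⟨hySp, hp, ?_⟩
        omega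
      · right; right
        exact ⟨hySp, hp, hcls3 y hy hySp hp⟩
  have hrange : ∀ y ∉ X, 0 ≤ u y ∧ u y < k := by
    intro y hy
    rcases hreg y hy with h | h | h <;> omega
  have hinj : ∀ y ∉ X, ∀ y' ∉ X, u y = u y' → y = y' := by
    intro y hy y' hy' he
    rcases hreg y hy with ⟨hs, ha, hb⟩ | ⟨hs, hp, ha⟩ | ⟨hs, hp, ha⟩ <;>
      rcases hreg y' hy' with ⟨hs', ha', hb'⟩ | ⟨hs', hp', ha'⟩ | ⟨hs', hp', ha'⟩
    · have h1 := hcls1 y hy hs
      have h3 := hcls1 y' hy' hs'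
      rw [he] at h1
      apply hidx2 y hs y' hs'
      push_cast at h1 h3
      rcases lt_trichotomy (idx y) (idx y') with h | h | h
      · exfalso
        have h' : (idx y : ℤ) + 1 ≤ idx y' := by exact_mod_cast h
        nlinarith
      · exact h
      · exfalso
        have h' : (idx y' : ℤ) + 1 ≤ idx y := by exact_mod_cast h
        nlinarith
    · omega
    · omega
    · omega
    · have h0 : y ≠ y0 := fun h => hs (h ▸ hy0Sp)
      have h0' : y' ≠ y0 := fun h => hs' (h ▸ hy0Sp)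
      by_cases hpp : par y = par y'
      · apply (hG (par y) hp).2.2.2.1 u y ((mem_kids' X y0 par _ y).mpr ⟨hy, h0, rfl⟩) y'
          ((mem_kids' X y0 par _ y').mpr ⟨hy', h0', hpp.symm⟩) hs hs'
        rw [← hfk y hy h0 hp, he, hfk y' hy' h0' hp', hpp]
      · exfalso
        have h1 := hcls2 y hy hs hp
        have h3 := hcls2 y' hy' hs' hp'
        have h4 := hAdisj (par y) hp (par y') hp' hpp
        omega
    · omega
    · omega
    · omega
    · have h0 : y ≠ y0 := fun h => hs (h ▸ hy0Sp)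
      have h0' : y' ≠ y0 := fun h => hs' (h ▸ hy0Sp)
      by_cases hgg : grp (par y) = grp (par y')
      · exact hu3 y hy h0 hp hs y' hy' h0' hp' hs' hgg he
      · exfalso
        rcases ha with ⟨e1, ha⟩ | ⟨e1, ha⟩ | ⟨e1, ha⟩ <;>
          rcases ha' with ⟨e1', ha'⟩ | ⟨e1', ha'⟩ | ⟨e1', ha'⟩ <;>
          first
            | exact hgg (e1.trans e1'.symm)
            | omega
  have hGu : ∀ x ∈ H, ∀ c ∈ kids X y0 par x, u c = G x u c := by
    intro x hx y hy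
    obtain ⟨h1, h3, h4⟩ := (mem_kids' X y0 par x y).mp hy
    have := hfk y h1 h3 (by rw [h4]; exact hx)
    rwa [h4] at this
  refine ⟨y0, par, μ, P, grp, u, fun x => (A x : ℤ) + dg T x - 1, C * τ, hRt, hrange, hinj, ?_, ?_,
    hPdisj, hu5, ?_, ?_, ?_⟩
  · intro x hx hxH hxC
    have hxM : x ∈ Mst := (hMstmem x).mpr ⟨hx, hxH, hxC⟩
    refine ⟨hu4 x hx hxH hxC, ?_, fun r hr => ⟨(hPr x hxM r hr).1, (hPr x hxM r hr).2.1⟩⟩
    rw [(hlast x hxM).2.2]
    have := hq x hxM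
    omega
  · intro x hx
    apply hP0
    rw [hMstmem]
    exact hx
  · intro x hx
    exact ((hG x hx).2.2.2.2 u (hGu x hx)).1
  · intro x hx δ' hfree
    obtain ⟨j, hj1, hj2⟩ := ((hG x hx).2.2.2.2 u (hGu x hx)).2 δ' hfree
    refine ⟨⟨j, hj1, hj2⟩, ?_⟩
    obtain ⟨hN1, hN2, hN3, hN4, hN5, hN6⟩ := hNf x hx
    obtain ⟨hA1, hA2⟩ := hAt x hx
    have hlf : ∀ r ∈ lf T X, r ∈ X ∧ dg T r = 1 := by
      intro r hr
      unfold lf at hr
      exact Finset.mem_filter.mp hr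
    have hkey : ∀ r ∈ (lf T X).filter
        (fun r => u (par r) ≡ δ' [ZMOD ((k / (k / dg T x) : ℕ) : ℤ)]), par r ∉ Sp := by
      intro r hr hrSp
      obtain ⟨hr1, hr2⟩ := Finset.mem_filter.mp hr
      have hpX : par r ∉ X := hRt.parX r (hlf r hr1).1
      obtain ⟨hc0, hc1⟩ : 0 ≤ u (par r) ∧ u (par r) < c := by
        rcases hreg (par r) hpX with h | h | h
        · exact h.2
        · exact absurd hrSp h.1
        · exact absurd hrSp h.1
      obtain ⟨N, hNdef⟩ : ∃ N : ℕ, N = k / (k / dg T x) := ⟨_, rfl⟩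
      rw [← hNdef] at hr2 hj1 hj2 hN1 hN3 hA1 hA2
      have hmod : (t x : ℤ) * N + u (par r) ≡ (A x : ℤ) + dg T x - 1 + j [ZMOD N] := by
        refine Int.ModEq.trans ?_ (hr2.trans hj2)
        rw [Int.modEq_iff_dvd]
        exact ⟨-(t x : ℤ), by ring⟩
      have hA1' : (A x : ℤ) ≤ (t x : ℤ) * N := by exact_mod_cast hA1
      have hA2' : (t x : ℤ) * N + c + 1 ≤ (A x : ℤ) + dg T x := by exact_mod_cast hA2
      have hj1' : (j : ℤ) + dg T x ≤ N := by
        have : j + dg T x ≤ N := by omega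
        exact_mod_cast this
      have hj0 : (0 : ℤ) ≤ j := Nat.cast_nonneg _
      have hdvd := hmod.dvd
      have hle := Int.le_of_dvd (by linarith) hdvd
      linarith
    have hcount := filler_count ((lf T X).filter
        (fun r => u (par r) ≡ δ' [ZMOD ((k / (k / dg T x) : ℕ) : ℤ)])) par u (k / (k / dg T x))
        (k / dg T x) k τ δ' hN1 hN4 (by
          intro r hr
          obtain ⟨hr1, hr2⟩ := Finset.mem_filter.mp hr
          have hpX : par r ∉ X := hRt.parX r (hlf r hr1).1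
          exact ⟨(hrange _ hpX).1, (hrange _ hpX).2, hr2⟩) (by
          intro r hr r' hr' he
          have hpX : par r ∉ X := hRt.parX r (hlf r (Finset.mem_filter.mp hr).1).1
          have hpX' : par r' ∉ X := hRt.parX r' (hlf r' (Finset.mem_filter.mp hr').1).1
          exact hinj _ hpX _ hpX' he) (by
          intro r hr
          have hpX : par r ∉ X := hRt.parX r (hlf r (Finset.mem_filter.mp hr).1).1
          have hns := hkey r hr
          rw [hSpdef, Finset.mem_insert, not_or] at hns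
          have hns2 := hns.2
          unfold LHs at hns2
          rw [Finset.mem_filter, not_and] at hns2
          have hns3 := hns2 (Finset.mem_compl.mpr hpX)
          refine le_trans (Finset.card_le_card ?_) (Nat.le_of_lt (Nat.lt_of_not_le hns3))
          intro r' hr'
          obtain ⟨hr1, hr2⟩ := Finset.mem_filter.mp hr'
          have hr3 := (Finset.mem_filter.mp hr1).1
          rw [Finset.mem_filter]
          refine ⟨hr3, ?_⟩
          exact (hrt6 r' (hlf r' hr3).1 (hlf r' hr3).2 (par r)).mpr hr2.symm)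
    refine hcount.trans ?_
    rw [mul_comm]
    exact Nat.mul_le_mul_right _ hN6
  · intro x hx
    have h1 := hHk x hx
    have h3 : C * (8 * (H.card + 1) + 6 * (C * τ)) ≤ k := by
      have e1 : C * (8 * (H.card + 1) + 6 * (C * τ)) = 8 * (C * (H.card + 1)) + 6 * (C ^ 2 * τ) := by
        ring
      have e2 : C * (H.card + 1) ≤ C * (2 * C) := Nat.mul_le_mul_left _ (by omega)
      have e3 : C * (2 * C) = 2 * C ^ 2 := by ring
      have e4 : 64 * C ^ 2 * τ = 64 * (C ^ 2 * τ) := by ring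
      rw [e1]
      rw [e4] at hτk
      omega
    exact Nat.le_of_lt (Nat.lt_of_mul_lt_mul_left (lt_of_le_of_lt h3 h1))

end Pool.Agent.Lib.MP_7c15de_co.AS
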