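import Pool.Agent.Lib.MP_7c15de_co.AS.Stm

set_option autoImplicit false

namespace Pool.Agent.Lib.MP_7c15de_co.AS

open Finset Pool.Agent.Lib.MP_7c15de_co Pool.Agent.Lib.MP_7c15de_co.TH

theorem p_arc : S_arc := by
  classical
  intro V _ N m S v hN hm
  have hN0 : (N : ℤ) ≠ 0 := by omega
  have hinv : ∀ (w : ℤ) (t : ℕ), t < N →
      ((w - (((w - (t : ℤ)) % (N : ℤ)).toNat : ℤ)) % (N : ℤ)).toNat = t := by
    intro w t ht
    have h1 := Int.emod_nonneg (w - (t : ℤ)) hN0
    rw [Int.toNat_of_nonneg h1]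
    have h2 : (w - (w - (t : ℤ)) % (N : ℤ)) % (N : ℤ) = (t : ℤ) % N := by
      rw [Int.sub_emod, Int.emod_emod_of_dvd _ (dvd_refl _), ← Int.sub_emod]
      congr 1
      ring
    rw [h2, Int.emod_eq_of_lt (by omega) (by omega)]
    simp
  have hcount : ∀ w : ℤ, ((range N).filter (fun e : ℕ => (w - (e : ℤ)) % (N : ℤ) < m)).card = m := by
    intro w
    refine (card_nbij' (t := range m) (fun e : ℕ => ((w - (e : ℤ)) % (N : ℤ)).toNat)
      (fun e : ℕ => ((w - (e : ℤ)) % (N : ℤ)).toNat) ?_ ?_ ?_ ?_).trans (card_range m)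
    · intro e he
      have he' := (mem_filter.mp (mem_coe.mp he)).2
      have h1 := Int.emod_nonneg (w - (e : ℤ)) hN0
      apply mem_coe.mpr
      apply mem_range.mpr
      show ((w - (e : ℤ)) % (N : ℤ)).toNat < m
      omega
    · intro e he
      have he' := mem_range.mp (mem_coe.mp he)
      have h1 := Int.emod_nonneg (w - (e : ℤ)) hN0
      have h2 := Int.emod_lt_of_pos (w - (e : ℤ)) (show (0 : ℤ) < N by omega)
      have h3 := hinv w e (by omega)
      apply mem_coe.mpr
      apply mem_filter.mpr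
      have h4 := Int.emod_nonneg (w - (((w - (e : ℤ)) % (N : ℤ)).toNat : ℤ)) hN0
      refine ⟨mem_range.mpr ?_, ?_⟩
      · show ((w - (e : ℤ)) % (N : ℤ)).toNat < N
        omega
      · show (w - (((w - (e : ℤ)) % (N : ℤ)).toNat : ℤ)) % (N : ℤ) < m
        omega
    · intro e he
      have he' := mem_filter.mp (mem_coe.mp he)
      exact hinv w e (mem_range.mp he'.1)
    · intro e he
      have he' := mem_range.mp (mem_coe.mp he)
      exact hinv w e (by omega)
  by_contra hcon
  push Not at hcon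
  have h1 : ∑ e ∈ range N, (S.filter (fun r => (v r - ((e : ℕ) : ℤ)) % (N : ℤ) < m)).card =
      S.card * m := by
    have h2 : ∑ e ∈ range N, (S.filter (fun r => (v r - ((e : ℕ) : ℤ)) % (N : ℤ) < m)).card =
        ∑ r ∈ S, ((range N).filter (fun e : ℕ => (v r - (e : ℤ)) % (N : ℤ) < m)).card := by
      simp only [card_filter]
      exact sum_comm
    rw [h2, sum_congr rfl (fun r _ => hcount (v r)), sum_const, smul_eq_mul]
  have h3 : ∑ e ∈ range N, N * (S.filter (fun r => (v r - ((e : ℕ) : ℤ)) % (N : ℤ) < m)).card <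
      ∑ _e ∈ range N, S.card * m := by
    apply sum_lt_sum_of_nonempty
    · exact nonempty_range_iff.mpr (by omega)
    · intro e _
      exact hcon e
  rw [← mul_sum, h1, sum_const, card_range, smul_eq_mul] at h3
  exact lt_irrefl _ h3

end Pool.Agent.Lib.MP_7c15de_co.AS
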