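import Pool.Agent.Lib.MP_7c15de_co.AS.Stm
import Pool.Agent.Lib.MP_7c15de_co.TH.Final

/-!
# MP_7c15de_co, [AS cX]: putting the parts together
-/

set_option autoImplicit false

namespace Pool.Agent.Lib.MP_7c15de_co.AS

open Finset Pool.Agent.Lib.MP_7c15de_co Pool.Agent.Lib.MP_7c15de_co.TH

theorem p_cX : S_cX := by
  intro V _ _ T k C1 u X Hs HP P grp hdg hC1 hHH hHX hHP1 hcHP hMed hPd hSm
  obtain ⟨c1, c2, c3, c4, c5⟩ := p_cov V T k u
  obtain ⟨l1, l2⟩ := final_locF V T k u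
  -- the medium vertices and their fillers
  have hM : Cov T k u ((X.filter (fun x => x ∉ Hs ∧ C1 ≤ dg T x)).biUnion
      (fun x => insert x (P x))) := by
    refine c4 V _ _ ?_ ?_
    · intro x hx
      rw [mem_filter] at hx
      exact c2 _ (hMed x hx.1 hx.2.1 hx.2.2).1
    · intro x hx x' hx' z hz hz'
      rw [mem_filter] at hx hx'
      rw [mem_insert] at hz hz'
      have hp := (hMed x hx.1 hx.2.1 hx.2.2).2
      have hp' := (hMed x' hx'.1 hx'.2.1 hx'.2.2).2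
      rcases hz with hz | hz <;> rcases hz' with hz' | hz'
      · rw [← hz, hz']
      · exfalso
        have := (hp' z hz').2.1
        rw [hz] at this
        omega
      · exfalso
        have := (hp z hz).2.1
        rw [hz'] at this
        omega
      · exact hPd x x' z hz hz'
  -- the small vertices
  have hS : Cov T k u ((univ : Finset (Fin 3)).biUnion
      (fun i => X.filter (fun x => x ∉ Hs ∧ 2 ≤ dg T x ∧ dg T x < C1 ∧ grp x = i))) := by
    refine c4 (Fin 3) _ _ (fun i _ => hSm i) ?_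
    intro i _ j _ x hx hx'
    rw [mem_filter] at hx hx'
    rw [← hx.2.2.2.2, hx'.2.2.2.2]
  set A1 := (X.filter (fun x => x ∉ Hs ∧ C1 ≤ dg T x)).biUnion (fun x => insert x (P x)) with hA1
  set A2 := (univ : Finset (Fin 3)).biUnion
      (fun i => X.filter (fun x => x ∉ Hs ∧ 2 ≤ dg T x ∧ dg T x < C1 ∧ grp x = i)) with hA2
  have m1 : ∀ z, z ∈ A1 ↔ ∃ x, (x ∈ X ∧ x ∉ Hs ∧ C1 ≤ dg T x) ∧ (z = x ∨ z ∈ P x) := by
    intro z
    rw [hA1, mem_biUnion]
    constructor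
    · rintro ⟨x, hx, hz⟩
      exact ⟨x, mem_filter.1 hx, mem_insert.1 hz⟩
    · rintro ⟨x, hx, hz⟩
      exact ⟨x, mem_filter.2 hx, mem_insert.2 hz⟩
  have m2 : ∀ z, z ∈ A2 ↔ z ∈ X ∧ z ∉ Hs ∧ 2 ≤ dg T z ∧ dg T z < C1 := by
    intro z
    rw [hA2, mem_biUnion]
    constructor
    · rintro ⟨i, _, hz⟩
      rw [mem_filter] at hz
      exact ⟨hz.1, hz.2.1, hz.2.2.1, hz.2.2.2.1⟩
    · rintro ⟨h1, h2, h3, h4⟩
      exact ⟨grp z, mem_univ _, mem_filter.2 ⟨h1, h2, h3, h4, rfl⟩⟩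
  have d1 : Disjoint HP A1 := by
    rw [disjoint_left]
    intro z hz hz1
    obtain ⟨x, hx, h | h⟩ := (m1 z).1 hz1
    · subst h
      have := hHP1 z hz hx.2.1
      omega
    · exact ((hMed x hx.1 hx.2.1 hx.2.2).2 z h).2.2 hz
  have d2 : Disjoint (HP ∪ A1) A2 := by
    rw [disjoint_left]
    intro z hz hz2
    obtain ⟨h1, h2, h3, h4⟩ := (m2 z).1 hz2
    rcases mem_union.1 hz with hz | hz
    · have := hHP1 z hz h2
      omega
    · obtain ⟨x, hx, h | h⟩ := (m1 z).1 hz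
      · subst h
        omega
      · have := ((hMed x hx.1 hx.2.1 hx.2.2).2 z h).2.1
        omega
  have hR : Cov T k u (X \ (HP ∪ A1 ∪ A2)) := by
    refine l2 _ ?_
    intro z hz
    rw [mem_sdiff, mem_union, mem_union, not_or, not_or] at hz
    obtain ⟨hzX, ⟨hz1, hz2⟩, hz3⟩ := hz
    have hzH : z ∉ Hs := fun h => hz1 (hHH h)
    have h0 := hdg z hzX
    by_contra hne
    by_cases hc : C1 ≤ dg T z
    · exact hz2 ((m1 z).2 ⟨z, ⟨hzX, hzH, hc⟩, Or.inl rfl⟩)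
    · exact hz3 ((m2 z).2 ⟨hzX, hzH, by omega, by omega⟩)
  have h := c3 _ _ (c3 _ _ (c3 _ _ hcHP hM d1) hS d2) hR disjoint_sdiff
  have e : HP ∪ A1 ∪ A2 ∪ X \ (HP ∪ A1 ∪ A2) = X := by
    rw [union_sdiff_of_subset]
    intro z hz
    rw [mem_union, mem_union] at hz
    rcases hz with (hz | hz) | hz
    · exact hHX hz
    · obtain ⟨x, hx, h | h⟩ := (m1 z).1 hz
      · rw [h]; exact hx.1
      · exact ((hMed x hx.1 hx.2.1 hx.2.2).2 z h).1
    · exact ((m2 z).1 hz).1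
  rwa [e] at h

end Pool.Agent.Lib.MP_7c15de_co.AS
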