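import Pool.Agent.Lib.MP_7c15de_co.AS.Stm
import Pool.Agent.Lib.MP_7c15de_co.TH.P_dg

/-!
# MP_7c15de_co, [AS cnt]: counting
-/

set_option autoImplicit false

namespace Pool.Agent.Lib.MP_7c15de_co.AS

open Finset Pool.Agent.Lib.MP_7c15de_co Pool.Agent.Lib.MP_7c15de_co.TH

theorem p_cnt : S_cnt := by
  intro V _ _ T hT X hX n hXn hYn hn
  have hdg := TH.p_dg V T
  obtain ⟨-, h2, h3, -, -, -⟩ := hdg
  have hcard : Fintype.card V = 2 * n := by
    rw [← Finset.card_add_card_compl X, hXn, hYn]; omega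
  have hpos : ∀ x, 1 ≤ dg T x := h2 hT (by omega)
  have hsum : (∑ x ∈ X, dg T x) + 1 = 2 * n := by
    rw [h3 hT X hX, hcard]
  -- the sum of `dg - 1` over any set
  have hs1 : ∀ A : Finset V, ∑ x ∈ A, dg T x = ∑ x ∈ A, (dg T x - 1) + A.card := by
    intro A
    rw [Finset.card_eq_sum_ones, ← Finset.sum_add_distrib]
    refine Finset.sum_congr rfl fun x _ => ?_
    have := hpos x
    omega
  have h4 : ∀ H ⊆ X, (∑ x ∈ H, (dg T x - 1)) +
      ∑ x ∈ X.filter (fun x => x ∉ H ∧ 2 ≤ dg T x), (dg T x - 1) + 1 = n := by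
    intro H hH
    have e1 : ∑ x ∈ X, (dg T x - 1) + 1 = n := by
      have := hs1 X
      rw [hXn] at this
      omega
    have e2 : ∑ x ∈ X, (dg T x - 1) = ∑ x ∈ H, (dg T x - 1) + ∑ x ∈ X \ H, (dg T x - 1) := by
      rw [add_comm, Finset.sum_sdiff hH]
    have e3 : ∑ x ∈ X.filter (fun x => x ∉ H ∧ 2 ≤ dg T x), (dg T x - 1) =
        ∑ x ∈ X \ H, (dg T x - 1) := by
      refine Finset.sum_subset ?_ ?_
      · intro x hx
        rw [Finset.mem_filter] at hx
        rw [Finset.mem_sdiff]
        exact ⟨hx.1, hx.2.1⟩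
      · intro x hx hx2
        rw [Finset.mem_sdiff] at hx
        rw [Finset.mem_filter] at hx2
        have : ¬ 2 ≤ dg T x := fun h => hx2 ⟨hx.1, hx.2, h⟩
        omega
    rw [e3]
    omega
  refine ⟨hpos, hsum, ?_, h4, ?_⟩
  · intro H hH hH2
    have h5 := h4 H hH
    have h6 := hs1 H
    have h7 : ∑ x ∈ X.filter (fun x => x ∉ H ∧ 2 ≤ dg T x), (dg T x - 1) =
        ∑ x ∈ X.filter (fun x => x ∉ H ∧ 2 ≤ dg T x), (dg T x - 2) +
          (X.filter (fun x => x ∉ H ∧ 2 ≤ dg T x)).card := by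
      rw [Finset.card_eq_sum_ones, ← Finset.sum_add_distrib]
      refine Finset.sum_congr rfl fun x hx => ?_
      have := (Finset.mem_filter.1 hx).2.2
      omega
    have h8 : (X.filter (fun x => dg T x = 1)).card +
        (X.filter (fun x => x ∉ H ∧ 2 ≤ dg T x)).card + H.card = n := by
      have e1 : X.filter (fun x => ¬ dg T x = 1) =
          X.filter (fun x => x ∉ H ∧ 2 ≤ dg T x) ∪ H := by
        ext x
        rw [Finset.mem_union, Finset.mem_filter, Finset.mem_filter]
        have hp := hpos x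
        constructor
        · rintro ⟨hx, h⟩
          by_cases hxH : x ∈ H
          · exact Or.inr hxH
          · exact Or.inl ⟨hx, hxH, by omega⟩
        · rintro (⟨hx, -, h⟩ | hxH)
          · exact ⟨hx, by omega⟩
          · have := hH2 x hxH
            exact ⟨hH hxH, by omega⟩
      have e2 : Disjoint (X.filter (fun x => x ∉ H ∧ 2 ≤ dg T x)) H := by
        rw [Finset.disjoint_left]
        intro x hx
        exact (Finset.mem_filter.1 hx).2.1
      have e3 := Finset.card_filter_add_card_filter_not (s := X) (fun x => dg T x = 1)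
      rw [e1, Finset.card_union_of_disjoint e2, hXn] at e3
      omega
    omega
  · by_contra hcon
    push Not at hcon
    have h9 : ∀ x ∈ X, 2 ≤ dg T x := by
      intro x hx
      have := hcon x hx
      have := hpos x
      omega
    have h10 : ∑ x ∈ X, 2 ≤ ∑ x ∈ X, dg T x := Finset.sum_le_sum h9
    rw [Finset.sum_const, hXn, smul_eq_mul] at h10
    omega

end Pool.Agent.Lib.MP_7c15de_co.AS
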