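import Pool.Agent.Lib.MP_7c15de_co.AS.Stm

/-!
# MP_7c15de_co, [AS heavy]: the labels of the children of a heavy vertex
-/

set_option autoImplicit false

namespace Pool.Agent.Lib.MP_7c15de_co.AS

open Finset Pool.Agent.Lib.MP_7c15de_co Pool.Agent.Lib.MP_7c15de_co.TH

/-- two congruent integers in an interval of length `≤ N` are equal -/
private lemma eq_of_modEq_of_mem {N : ℕ} {A a b : ℤ} {d : ℕ} (hd : d ≤ N) (ha : A ≤ a)
    (ha' : a < A + d) (hb : A ≤ b) (hb' : b < A + d) (h : a ≡ b [ZMOD N]) : a = b := by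
  have h1 : (N : ℤ) ∣ b - a := h.dvd
  have hd' : (d : ℤ) ≤ N := by exact_mod_cast hd
  have h2 : b - a = 0 := by
    apply Int.eq_zero_of_abs_lt_dvd h1
    rw [abs_lt]
    constructor <;> linarith
  linarith

/-- the labels for a fixed label `w0` of the parent -/
private lemma heavy_aux {V : Type} [DecidableEq V] (N d : ℕ) (A w0 : ℤ) (Ks Kn : Finset V)
    (gs : V → ℤ) (hKd : Disjoint Ks Kn) (hcard : Ks.card + Kn.card + 1 = d) (hdN : d ≤ N)
    (h1 : ∀ c ∈ Ks, ∀ e : ℤ, 0 ≤ e → e ≤ 1 →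
      ∃ h : ℤ, A ≤ h ∧ h + 1 < A + d ∧ h ≡ gs c + e [ZMOD N])
    (h2 : ∀ c ∈ Ks, ∀ c' ∈ Ks, ∀ e e' : ℤ, 0 ≤ e → e ≤ 1 → 0 ≤ e' →
      e' ≤ 1 → gs c + e ≡ gs c' + e' [ZMOD N] → c = c' ∧ e = e') :
    ∃ g : V → ℤ, (∀ c ∈ Ks, gs c ≤ g c ∧ g c ≤ gs c + 1) ∧
      (∀ c ∈ Kn, A ≤ g c ∧ g c < A + d) ∧
      (∀ c ∈ Ks ∪ Kn, ¬ g c ≡ w0 [ZMOD N]) ∧
      (∀ c ∈ Ks ∪ Kn, ∀ c' ∈ Ks ∪ Kn, g c ≡ g c' [ZMOD N] → c = c') ∧
      ∀ h : ℤ, A ≤ h → h + 1 < A + d → h ≡ w0 [ZMOD N] ∨ ∃ c ∈ Ks ∪ Kn, g c ≡ h [ZMOD N] := by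
  classical
  -- labels of the special children
  obtain ⟨ee, hee⟩ : ∃ ee : V → ℤ, ∀ c, ee c = if gs c ≡ w0 [ZMOD N] then 1 else 0 :=
    ⟨_, fun _ => rfl⟩
  have hee0 : ∀ c, 0 ≤ ee c ∧ ee c ≤ 1 := by
    intro c
    rw [hee c]
    split_ifs <;> norm_num
  have hgw : ∀ c ∈ Ks, ¬ gs c + ee c ≡ w0 [ZMOD N] := by
    intro c hc h
    by_cases hh : gs c ≡ w0 [ZMOD N]
    · have e1 : ee c = 1 := by rw [hee c, if_pos hh]
      rw [e1] at h
      have h3 : gs c + 0 ≡ gs c + 1 [ZMOD N] := by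
        rw [add_zero]; exact hh.trans h.symm
      have h4 := (h2 c hc c hc 0 1 le_rfl zero_le_one zero_le_one le_rfl h3).2
      norm_num at h4
    · have e1 : ee c = 0 := by rw [hee c, if_neg hh]
      rw [e1, add_zero] at h
      exact hh h
  have hch : ∀ c ∈ Ks, ∃ h : ℤ, A ≤ h ∧ h + 1 < A + d ∧ h ≡ gs c + ee c [ZMOD N] :=
    fun c hc => h1 c hc (ee c) (hee0 c).1 (hee0 c).2
  obtain ⟨hh, hhs⟩ : ∃ hh : V → ℤ, ∀ c ∈ Ks, A ≤ hh c ∧ hh c + 1 < A + d ∧
      hh c ≡ gs c + ee c [ZMOD N] := by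
    choose! hh hhs using hch
    exact ⟨hh, hhs⟩
  have hinj : ∀ c ∈ Ks, ∀ c' ∈ Ks, gs c + ee c ≡ gs c' + ee c' [ZMOD N] → c = c' :=
    fun c hc c' hc' h => (h2 c hc c' hc' _ _ (hee0 c).1 (hee0 c).2 (hee0 c').1 (hee0 c').2 h).1
  have hhinj : Set.InjOn hh (Ks : Set V) := by
    intro c hc c' hc' h
    apply hinj c hc c' hc'
    have a1 := (hhs c hc).2.2
    have a2 := (hhs c' hc').2.2
    rw [h] at a1
    exact a1.symm.trans a2
  have hIm : (Ks.image hh).card = Ks.card := Finset.card_image_of_injOn hhinj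
  have hsub : Ks.image hh ⊆ Finset.Ico A (A + d - 1) := by
    intro z hz
    rw [mem_image] at hz
    obtain ⟨c, hc, rfl⟩ := hz
    have := hhs c hc
    rw [Finset.mem_Ico]
    exact ⟨this.1, by linarith [this.2.1]⟩
  -- the set of the labels of the other children
  obtain ⟨Av, hAc, hAI, hAw, hAg, hAall⟩ : ∃ Av : Finset ℤ, Av.card = Kn.card ∧
      (∀ h ∈ Av, A ≤ h ∧ h < A + d) ∧ (∀ h ∈ Av, ¬ h ≡ w0 [ZMOD N]) ∧
      (∀ h ∈ Av, ∀ c ∈ Ks, ¬ h ≡ gs c + ee c [ZMOD N]) ∧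
      ∀ h : ℤ, A ≤ h → h + 1 < A + d → h ∈ Av ∨ h ≡ w0 [ZMOD N] ∨
        ∃ c ∈ Ks, gs c + ee c ≡ h [ZMOD N] := by
    by_cases hw : ∃ h0 : ℤ, A ≤ h0 ∧ h0 + 1 < A + d ∧ h0 ≡ w0 [ZMOD N]
    · obtain ⟨h0, b1, b2, b3⟩ := hw
      have hn : h0 ∉ Ks.image hh := by
        intro hz
        rw [mem_image] at hz
        obtain ⟨c, hc, hz⟩ := hz
        have := (hhs c hc).2.2
        rw [hz] at this
        exact hgw c hc (this.symm.trans b3)
      refine ⟨Finset.Ico A (A + d) \ insert h0 (Ks.image hh), ?_, ?_, ?_, ?_, ?_⟩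
      · rw [Finset.card_sdiff_of_subset, Finset.card_insert_of_notMem hn, hIm, Int.card_Ico]
        · have : (A + d - A).toNat = d := by
            rw [show A + d - A = (d : ℤ) by ring]; exact Int.toNat_natCast d
          rw [this]
          omega
        · intro z hz
          rw [mem_insert] at hz
          rw [Finset.mem_Ico]
          rcases hz with rfl | hz
          · exact ⟨b1, by linarith⟩
          · have := Finset.mem_Ico.mp (hsub hz)
            exact ⟨this.1, by linarith [this.2]⟩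
      · intro h hh'
        rw [mem_sdiff, Finset.mem_Ico] at hh'
        exact hh'.1
      · intro h hh' hhw
        rw [mem_sdiff, Finset.mem_Ico, mem_insert] at hh'
        apply hh'.2
        left
        exact eq_of_modEq_of_mem hdN hh'.1.1 hh'.1.2 b1 (by linarith) (hhw.trans b3.symm)
      · intro h hh' c hc hhc
        rw [mem_sdiff, Finset.mem_Ico, mem_insert] at hh'
        apply hh'.2
        right
        rw [mem_image]
        have := hhs c hc
        exact ⟨c, hc, (eq_of_modEq_of_mem hdN hh'.1.1 hh'.1.2 this.1 (by linarith [this.2.1])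
          (hhc.trans this.2.2.symm)).symm⟩
      · intro h c1 c2
        by_cases hz : h ∈ insert h0 (Ks.image hh)
        · right
          rw [mem_insert, mem_image] at hz
          rcases hz with rfl | ⟨c, hc, rfl⟩
          · exact Or.inl b3
          · exact Or.inr ⟨c, hc, (hhs c hc).2.2.symm⟩
        · left
          rw [mem_sdiff, Finset.mem_Ico]
          exact ⟨⟨c1, by linarith⟩, hz⟩
    · refine ⟨Finset.Ico A (A + d - 1) \ Ks.image hh, ?_, ?_, ?_, ?_, ?_⟩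
      · rw [Finset.card_sdiff_of_subset hsub, hIm, Int.card_Ico]
        have : (A + d - 1 - A).toNat = d - 1 := by omega
        rw [this]
        omega
      · intro h hh'
        rw [mem_sdiff, Finset.mem_Ico] at hh'
        exact ⟨hh'.1.1, by linarith [hh'.1.2]⟩
      · intro h hh' hhw
        rw [mem_sdiff, Finset.mem_Ico] at hh'
        exact hw ⟨h, hh'.1.1, by linarith [hh'.1.2], hhw⟩
      · intro h hh' c hc hhc
        rw [mem_sdiff, Finset.mem_Ico] at hh'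
        apply hh'.2
        rw [mem_image]
        have := hhs c hc
        exact ⟨c, hc, (eq_of_modEq_of_mem hdN hh'.1.1 (by linarith [hh'.1.2]) this.1
          (by linarith [this.2.1]) (hhc.trans this.2.2.symm)).symm⟩
      · intro h c1 c2
        by_cases hz : h ∈ Ks.image hh
        · right
          rw [mem_image] at hz
          obtain ⟨c, hc, rfl⟩ := hz
          exact Or.inr ⟨c, hc, (hhs c hc).2.2.symm⟩
        · left
          rw [mem_sdiff, Finset.mem_Ico]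
          exact ⟨⟨c1, by linarith⟩, hz⟩
  -- the bijection
  obtain ⟨eq⟩ : Nonempty ({c // c ∈ Kn} ≃ {h // h ∈ Av}) := ⟨Finset.equivOfCardEq hAc.symm⟩
  obtain ⟨g, hg⟩ : ∃ g : V → ℤ, ∀ c, g c = if hc : c ∈ Kn then ((eq ⟨c, hc⟩ : {h // h ∈ Av}) : ℤ)
      else gs c + ee c := ⟨_, fun _ => rfl⟩
  have hgn : ∀ c (hc : c ∈ Kn), g c = ((eq ⟨c, hc⟩ : {h // h ∈ Av}) : ℤ) := by
    intro c hc
    rw [hg c, dif_pos hc]
  have hgs : ∀ c ∈ Ks, g c = gs c + ee c := by
    intro c hc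
    rw [hg c, dif_neg (Finset.disjoint_left.mp hKd hc)]
  have hgA : ∀ c ∈ Kn, g c ∈ Av := by
    intro c hc
    rw [hgn c hc]
    exact (eq ⟨c, hc⟩).2
  refine ⟨g, ?_, ?_, ?_, ?_, ?_⟩
  · intro c hc
    rw [hgs c hc]
    have := hee0 c
    exact ⟨by linarith [this.1], by linarith [this.2]⟩
  · intro c hc
    exact hAI _ (hgA c hc)
  · intro c hc
    rcases mem_union.mp hc with hc | hc
    · rw [hgs c hc]; exact hgw c hc
    · exact hAw _ (hgA c hc)
  · intro c hc c' hc' h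
    rcases mem_union.mp hc with hc | hc <;> rcases mem_union.mp hc' with hc' | hc'
    · rw [hgs c hc, hgs c' hc'] at h
      exact hinj c hc c' hc' h
    · rw [hgs c hc] at h
      exact absurd h.symm (hAg _ (hgA c' hc') c hc)
    · rw [hgs c' hc'] at h
      exact absurd h (hAg _ (hgA c hc) c' hc')
    · have i1 := hAI _ (hgA c hc)
      have i2 := hAI _ (hgA c' hc')
      have h3 := eq_of_modEq_of_mem hdN i1.1 i1.2 i2.1 i2.2 h
      rw [hgn c hc, hgn c' hc'] at h3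
      have h4 := eq.injective (Subtype.ext h3)
      exact congrArg Subtype.val h4
  · intro h c1 c2
    rcases hAall h c1 c2 with h3 | h3 | ⟨c, hc, h3⟩
    · right
      refine ⟨(eq.symm ⟨h, h3⟩ : {c // c ∈ Kn}), mem_union_right _ (eq.symm ⟨h, h3⟩).2, ?_⟩
      rw [hgn _ (eq.symm ⟨h, h3⟩).2]
      have e1 : eq ⟨((eq.symm ⟨h, h3⟩ : {c // c ∈ Kn}) : V), (eq.symm ⟨h, h3⟩).2⟩ = ⟨h, h3⟩ :=
        eq.apply_symm_apply ⟨h, h3⟩
      rw [e1]
    · exact Or.inl h3
    · right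
      refine ⟨c, mem_union_left _ hc, ?_⟩
      rw [hgs c hc]
      exact h3

theorem p_heavy (hrt : S_rt) : S_heavy := by
  intro V _ _ T X y0 par μ hcol hRt N A x Sp gs hx hd2 hdN h1 h2
  obtain ⟨r1, -⟩ := hrt V T X y0 par μ hcol hRt
  have hkc := r1 x hx
  obtain ⟨Ks, hKs⟩ : ∃ Ks, Ks = (kids X y0 par x).filter (fun c => c ∈ Sp) := ⟨_, rfl⟩
  obtain ⟨Kn, hKn⟩ : ∃ Kn, Kn = (kids X y0 par x).filter (fun c => c ∉ Sp) := ⟨_, rfl⟩
  have mKs : ∀ c, c ∈ Ks ↔ c ∈ kids X y0 par x ∧ c ∈ Sp := by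
    intro c; rw [hKs, mem_filter]
  have mKn : ∀ c, c ∈ Kn ↔ c ∈ kids X y0 par x ∧ c ∉ Sp := by
    intro c; rw [hKn, mem_filter]
  have mU : ∀ c ∈ kids X y0 par x, c ∈ Ks ∪ Kn := by
    intro c hc
    rw [mem_union, mKs, mKn]
    by_cases h : c ∈ Sp
    · exact Or.inl ⟨hc, h⟩
    · exact Or.inr ⟨hc, h⟩
  have mU' : ∀ c ∈ Ks ∪ Kn, c ∈ kids X y0 par x := by
    intro c hc
    rw [mem_union, mKs, mKn] at hc
    rcases hc with h | h
    · exact h.1
    · exact h.1
  have hdisj : Disjoint Ks Kn := by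
    rw [Finset.disjoint_left]
    intro c hc hc'
    exact ((mKn c).mp hc').2 ((mKs c).mp hc).2
  have hcard : Ks.card + Kn.card + 1 = dg T x := by
    rw [hkc, hKs, hKn, Finset.card_filter_add_card_filter_not]
  have key : ∀ w0 : ℤ, _ := fun w0 => heavy_aux N (dg T x) A w0 Ks Kn gs hdisj hcard hdN
    (fun c hc => h1 c ((mKs c).mp hc).1 ((mKs c).mp hc).2)
    (fun c hc c' hc' => h2 c ((mKs c).mp hc).1 ((mKs c).mp hc).2 c' ((mKs c').mp hc').1
      ((mKs c').mp hc').2)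
  choose g g1 g2 g3 g4 g5 using key
  refine ⟨fun w => g (w (par x)), ?_, ?_, ?_, ?_, ?_⟩
  · intro w w' hww c _
    show g (w (par x)) c = g (w' (par x)) c
    rw [hww]
  · intro c hc w hs
    exact g1 _ c ((mKs c).mpr ⟨hc, hs⟩)
  · intro c hc w hs
    exact g2 _ c ((mKn c).mpr ⟨hc, hs⟩)
  · intro w c hc c' hc' _ _ h
    apply g4 (w (par x)) c (mU c hc) c' (mU c' hc')
    have h' : g (w (par x)) c = g (w (par x)) c' := h
    rw [h']
  · intro u hu
    have hu' : ∀ c ∈ kids X y0 par x, u c = g (u (par x)) c := hu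
    have hadj : ∀ y, T.Adj x y ↔ y = par x ∨ y ∈ kids X y0 par x := by
      intro y
      rw [hRt.adj x hx y, kids, mem_filter]
      constructor
      · rintro (h | h)
        · exact Or.inl h
        · exact Or.inr ⟨mem_univ _, h⟩
      · rintro (h | h)
        · exact Or.inl h
        · exact Or.inr h.2
    constructor
    · intro y y' hy hy' h
      rcases (hadj y).mp hy with e1 | e1 <;> rcases (hadj y').mp hy' with e2 | e2
      · rw [e1, e2]
      · exfalso
        rw [e1, hu' y' e2] at h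
        exact g3 _ y' (mU y' e2) h.symm
      · exfalso
        rw [e2, hu' y e1] at h
        exact g3 _ y (mU y e1) h
      · rw [hu' y e1, hu' y' e2] at h
        exact g4 _ y (mU y e1) y' (mU y' e2) h
    · intro δ hδ
      have hN : (0 : ℤ) < N := by
        have : 0 < N := by omega
        exact_mod_cast this
      have hr0 := Int.emod_nonneg (δ - A) hN.ne'
      have hrN := Int.emod_lt_of_pos (δ - A) hN
      obtain ⟨r, hr⟩ : ∃ r : ℤ, r = (δ - A) % N := ⟨_, rfl⟩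
      rw [← hr] at hr0 hrN
      have hrm : r ≡ δ - A [ZMOD N] := by
        rw [hr]; exact Int.mod_modEq _ _
      have hδr : A + r ≡ δ [ZMOD N] := by
        have := hrm.add_left A
        rwa [add_sub_cancel] at this
      by_cases hlt : r + 1 < dg T x
      · exfalso
        rcases g5 (u (par x)) (A + r) (by linarith) (by linarith) with h3 | ⟨c, hc, h3⟩
        · exact hδ (par x) ((hadj _).mpr (Or.inl rfl)) (h3.symm.trans hδr)
        · refine hδ c ((hadj _).mpr (Or.inr (mU' c hc))) ?_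
          rw [hu' c (mU' c hc)]
          exact h3.trans hδr
      · refine ⟨(r + 1 - dg T x).toNat, ?_, ?_⟩
        · omega
        · have e1 : (((r + 1 - dg T x).toNat : ℕ) : ℤ) = r + 1 - dg T x :=
            Int.toNat_of_nonneg (by omega)
          rw [e1, show A + (dg T x : ℤ) - 1 + (r + 1 - dg T x) = A + r by ring]
          exact hδr.symm

end Pool.Agent.Lib.MP_7c15de_co.AS
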