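import Pool.Agent.Lib.MP_7c15de_co.AS.Stm

/-!
# MP_7c15de_co, [AS k3]: a host size with many divisors
-/

set_option autoImplicit false

namespace Pool.Agent.Lib.MP_7c15de_co.AS

open Finset Pool.Agent.Lib.MP_7c15de_co Pool.Agent.Lib.MP_7c15de_co.TH

private lemma k3_pow (x : ℝ) (hx : 1 ≤ x) : ∃ A : ℕ, (2 : ℝ) ^ A ≤ x ∧ x < (2 : ℝ) ^ (A + 1) := by
  have h1 : 1 ≤ ⌊x⌋₊ := (Nat.one_le_floor_iff x).mpr hx
  refine ⟨Nat.log 2 ⌊x⌋₊, ?_, ?_⟩
  · have h2 := Nat.pow_log_le_self 2 (x := ⌊x⌋₊) (by omega)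
    calc (2 : ℝ) ^ Nat.log 2 ⌊x⌋₊ = ((2 ^ Nat.log 2 ⌊x⌋₊ : ℕ) : ℝ) := by push_cast; rfl
      _ ≤ (⌊x⌋₊ : ℝ) := by exact_mod_cast h2
      _ ≤ x := Nat.floor_le (by linarith)
  · have h2 := Nat.lt_pow_succ_log_self (b := 2) (by norm_num) ⌊x⌋₊
    calc x < (⌊x⌋₊ : ℝ) + 1 := Nat.lt_floor_add_one x
      _ ≤ ((2 ^ (Nat.log 2 ⌊x⌋₊ + 1) : ℕ) : ℝ) := by
        have : ⌊x⌋₊ + 1 ≤ 2 ^ (Nat.log 2 ⌊x⌋₊ + 1) := h2
        exact_mod_cast this
      _ = (2 : ℝ) ^ (Nat.log 2 ⌊x⌋₊ + 1) := by push_cast; rfl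

/-- If `C N ≤ (C+1) d` then `(C-1) N ≤ C d`. -/
private lemma k3_C (C N d : ℕ) (hC : 2 ≤ C) (h : C * N ≤ (C + 1) * d) : (C - 1) * N ≤ C * d := by
  obtain ⟨c, rfl⟩ : ∃ c, C = c + 2 := ⟨C - 2, by omega⟩
  have e : c + 2 - 1 = c + 1 := by omega
  rw [e]
  have h1 : (c + 2) * ((c + 1) * N) ≤ (c + 2) * ((c + 2) * d) := by
    calc (c + 2) * ((c + 1) * N) = (c + 1) * ((c + 2) * N) := by ring
      _ ≤ (c + 1) * ((c + 2 + 1) * d) := Nat.mul_le_mul_left _ h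
      _ ≤ (c + 2) * ((c + 2) * d) := by nlinarith
  exact Nat.le_of_mul_le_mul_left h1 (by omega)

private lemma k3_log (C d : ℕ) (hC : 2 ≤ C) (hd : C ≤ d) : ∃ b : ℕ, 2 ^ b * C ≤ d ∧
    d < 2 ^ (b + 1) * C := by
  have hdC : 1 ≤ d / C := (Nat.one_le_div_iff (by omega)).mpr hd
  refine ⟨Nat.log 2 (d / C), ?_, ?_⟩
  · have := Nat.pow_log_le_self 2 (x := d / C) (by omega)
    exact (Nat.le_div_iff_mul_le (by omega)).mp this
  · have := Nat.lt_pow_succ_log_self (b := 2) (by norm_num) (d / C)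
    exact (Nat.div_lt_iff_lt_mul (by omega)).mp this

private lemma k3_case1 (C A L t d : ℕ) (hC : 2 ≤ C) (hL : (2 * C).factorial ∣ L) (hd : C ≤ d)
    (hdA : d < 2 ^ (A + 1) * C) :
    ∃ N, N ∣ 2 ^ A * L * t ∧ d ≤ N ∧ (C - 1) * N ≤ C * d := by
  obtain ⟨b, hb1, hb2⟩ := k3_log C d hC hd
  have h2b : 0 < 2 ^ b := by positivity
  obtain ⟨s, hs⟩ : ∃ s, s = (d + 2 ^ b - 1) / 2 ^ b := ⟨_, rfl⟩
  have hs1 : d ≤ 2 ^ b * s := by
    have := Nat.div_add_mod (d + 2 ^ b - 1) (2 ^ b)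
    have h7 := Nat.mod_lt (d + 2 ^ b - 1) h2b
    rw [← hs] at this
    omega
  have hs2 : 2 ^ b * s ≤ d + 2 ^ b - 1 := by
    rw [hs]; exact Nat.mul_div_le _ _
  have hs3 : s ≤ 2 * C := by
    by_contra hcon
    have h8 : 2 * C + 1 ≤ s := by omega
    have h9 : 2 ^ b * (2 * C + 1) ≤ 2 ^ b * s := Nat.mul_le_mul_left _ h8
    have h10 : 2 ^ b * (2 * C + 1) = 2 ^ (b + 1) * C + 2 ^ b := by ring
    omega
  have hs4 : 1 ≤ s := by
    by_contra hcon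
    have h11 : s = 0 := Nat.lt_one_iff.mp (not_le.mp hcon)
    rw [h11, Nat.mul_zero] at hs1
    omega
  have hbA : b ≤ A := by
    by_contra hcon
    have h12 : A + 1 ≤ b := by omega
    have h13 : 2 ^ (A + 1) ≤ 2 ^ b := Nat.pow_le_pow_right (by norm_num) h12
    have h14 : 2 ^ (A + 1) * C ≤ 2 ^ b * C := Nat.mul_le_mul_right _ h13
    omega
  refine ⟨2 ^ b * s, ?_, hs1, ?_⟩
  · have hsL : s ∣ L := (Nat.dvd_factorial (by omega) hs3).trans hL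
    exact (Nat.mul_dvd_mul (pow_dvd_pow 2 hbA) hsL).mul_right _
  · apply k3_C C _ d hC
    have h19 : C * (2 ^ b * s) ≤ C * (d + 2 ^ b - 1) := Nat.mul_le_mul_left _ hs2
    have h20 : C * (d + 2 ^ b - 1) ≤ C * (d + 2 ^ b) := Nat.mul_le_mul_left _ (by omega)
    have h21 : C * (d + 2 ^ b) = C * d + 2 ^ b * C := by ring
    have h22 : (C + 1) * d = C * d + d := by ring
    omega

private lemma k3_case2 (C A L t d : ℕ) (hC : 2 ≤ C) (hL : (2 * C).factorial ∣ L) (hLA : L ≤ 2 ^ A)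
    (ht : t ≤ 2 * C) (hdA : 2 ^ (A + 1) * C ≤ d) (hk : C * d ≤ 2 ^ A * L * t) :
    ∃ N, N ∣ 2 ^ A * L * t ∧ d ≤ N ∧ (C - 1) * N ≤ C * d := by
  obtain ⟨k, hkdef⟩ : ∃ k, k = 2 ^ A * L * t := ⟨_, rfl⟩
  rw [← hkdef] at hk ⊢
  have h2A : 0 < 2 ^ (A + 1) * C := by positivity
  have hd0 : 0 < d := by omega
  obtain ⟨e, he⟩ : ∃ e, e = k / d := ⟨_, rfl⟩
  have he1 : e * d ≤ k := by rw [he]; exact Nat.div_mul_le_self _ _
  have he2 : k < (e + 1) * d := by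
    rw [he, mul_comm]
    exact Nat.lt_mul_div_succ k hd0
  have heC : C ≤ e := by
    rw [he]
    exact (Nat.le_div_iff_mul_le hd0).2 hk
  have heL : e ≤ L := by
    have h1 : e * (2 ^ (A + 1) * C) ≤ L * (2 ^ (A + 1) * C) := by
      calc e * (2 ^ (A + 1) * C) ≤ e * d := Nat.mul_le_mul_left _ hdA
        _ ≤ k := he1
        _ = 2 ^ A * L * t := hkdef
        _ ≤ 2 ^ A * L * (2 * C) := Nat.mul_le_mul_left _ ht
        _ = L * (2 ^ (A + 1) * C) := by ring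
    exact Nat.le_of_mul_le_mul_right h1 h2A
  obtain ⟨b, hb1, hb2⟩ := k3_log C e hC heC
  have h2b : 0 < 2 ^ b := by positivity
  have hbA : b ≤ A := by
    have h1 : 2 ^ b ≤ 2 ^ A := by
      calc 2 ^ b ≤ 2 ^ b * C := Nat.le_mul_of_pos_right _ (by omega)
        _ ≤ e := hb1
        _ ≤ L := heL
        _ ≤ 2 ^ A := hLA
    exact (Nat.pow_le_pow_iff_right (by norm_num)).1 h1
  obtain ⟨s, hs⟩ : ∃ s, s = e / 2 ^ b := ⟨_, rfl⟩
  have hs1 : 2 ^ b * s ≤ e := by rw [hs]; exact Nat.mul_div_le _ _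
  have hs2 : e < 2 ^ b * (s + 1) := by
    rw [hs]
    exact Nat.lt_mul_div_succ e h2b
  have hsC : C ≤ s := by
    rw [hs]
    exact (Nat.le_div_iff_mul_le h2b).2 (by rw [mul_comm]; exact hb1)
  have hs3 : s ≤ 2 * C := by
    by_contra hcon
    have h8 : 2 * C + 1 ≤ s := by omega
    have h9 : 2 ^ b * (2 * C + 1) ≤ 2 ^ b * s := Nat.mul_le_mul_left _ h8
    have h10 : 2 ^ b * (2 * C + 1) = 2 ^ (b + 1) * C + 2 ^ b := by ring
    omega
  obtain ⟨c, hc⟩ : ∃ c, c = 2 ^ b * s := ⟨_, rfl⟩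
  have hc0 : 0 < c := by
    rw [hc]
    exact Nat.mul_pos h2b (by omega)
  have hck : c ∣ k := by
    have hsL : s ∣ L := (Nat.dvd_factorial (by omega) hs3).trans hL
    rw [hc, hkdef]
    exact (Nat.mul_dvd_mul (pow_dvd_pow 2 hbA) hsL).mul_right _
  obtain ⟨N, hN⟩ := hck
  refine ⟨N, ⟨c, by rw [hN, mul_comm]⟩, ?_, ?_⟩
  · have h1 : c * d ≤ c * N := by
      rw [← hN]
      calc c * d ≤ e * d := Nat.mul_le_mul_right _ (by rw [hc]; exact hs1)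
        _ ≤ k := he1
    exact Nat.le_of_mul_le_mul_left h1 hc0
  · apply k3_C C _ d hC
    -- `C k ≤ (C+1) c d`
    have h1 : C * 2 ^ b ≤ c := by
      rw [hc, mul_comm]
      exact Nat.mul_le_mul_left _ hsC
    have h2 : e + 1 ≤ c + 2 ^ b := by
      have : 2 ^ b * (s + 1) = c + 2 ^ b := by rw [hc]; ring
      omega
    have h3 : k ≤ (c + 2 ^ b) * d := he2.le.trans (Nat.mul_le_mul_right _ h2)
    have h4 : c * (C * N) ≤ c * ((C + 1) * d) := by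
      calc c * (C * N) = C * (c * N) := by ring
        _ = C * k := by rw [← hN]
        _ ≤ C * ((c + 2 ^ b) * d) := Nat.mul_le_mul_left _ h3
        _ = (C * c + C * 2 ^ b) * d := by ring
        _ ≤ (C * c + c) * d := Nat.mul_le_mul_right _ (by omega)
        _ = c * ((C + 1) * d) := by ring
    exact Nat.le_of_mul_le_mul_left h4 hc0

theorem p_k3 : S_k3 := by
  intro C C1 M0 hC hC1 hM0
  obtain ⟨L, hL⟩ : ∃ L : ℕ, L = M0 * Nat.factorial (2 * C) := ⟨_, rfl⟩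
  have hLpos : 0 < L := by rw [hL]; exact Nat.mul_pos hM0 (Nat.factorial_pos _)
  have hLr : (0 : ℝ) < L := by exact_mod_cast hLpos
  have hL1 : (1 : ℝ) ≤ L := by exact_mod_cast hLpos
  have hCr : (0 : ℝ) < C := by exact_mod_cast (by omega : 0 < C)
  refine ⟨2 * L * (L * C), ?_⟩
  intro n hn lam hlam
  have hnr : (2 * (L : ℝ) * (L * C)) ≤ n := by exact_mod_cast hn
  have hLC : (0 : ℝ) < (L : ℝ) * C := by positivity
  have hnpos : (0 : ℝ) < n := lt_of_lt_of_le (by positivity) hnr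
  have hln : (n : ℝ) ≤ lam * n := by nlinarith
  have hlnpos : (0 : ℝ) < lam * n := lt_of_lt_of_le hnpos hln
  obtain ⟨A, hA1, hA2⟩ := k3_pow (lam * n / (L * C)) (by
    rw [one_le_div hLC]
    nlinarith)
  rw [le_div_iff₀ hLC] at hA1
  rw [div_lt_iff₀ hLC] at hA2
  have hLA : L ≤ 2 ^ A := by
    have h1 : 2 * (L : ℝ) * (L * C) < 2 ^ (A + 1) * (L * C) := by linarith
    have h2 : 2 * (L : ℝ) < 2 ^ (A + 1) := lt_of_mul_lt_mul_right h1 hLC.le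
    have h3 : (L : ℝ) < 2 ^ A := by
      rw [pow_succ] at h2
      linarith
    have h4 : ((L : ℕ) : ℝ) ≤ ((2 ^ A : ℕ) : ℝ) := by
      push_cast
      exact h3.le
    exact_mod_cast h4
  have h2A : (0 : ℝ) < (2 : ℝ) ^ A * L := by positivity
  obtain ⟨t, ht⟩ : ∃ t : ℕ, t = ⌈lam * n / ((2 : ℝ) ^ A * L)⌉₊ := ⟨_, rfl⟩
  have ht1 : lam * n ≤ (2 : ℝ) ^ A * L * t := by
    have := Nat.le_ceil (lam * n / ((2 : ℝ) ^ A * L))
    rw [div_le_iff₀ h2A] at this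
    rw [ht]; linarith
  have ht2 : (2 : ℝ) ^ A * L * t < lam * n + (2 : ℝ) ^ A * L := by
    have := Nat.ceil_lt_add_one (a := lam * n / ((2 : ℝ) ^ A * L)) (by positivity)
    rw [← ht] at this
    have h3 := mul_lt_mul_of_pos_left this h2A
    have h4 : (2 : ℝ) ^ A * L * (lam * n / ((2 : ℝ) ^ A * L) + 1) = lam * n + (2 : ℝ) ^ A * L := by
      field_simp
    linarith
  have ht3 : t ≤ 2 * C := by
    rw [ht]
    refine Nat.ceil_le.2 ?_
    rw [div_le_iff₀ h2A]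
    push_cast
    rw [pow_succ] at hA2
    nlinarith
  have hLf : (2 * C).factorial ∣ L := by rw [hL]; exact Dvd.intro_left _ rfl
  refine ⟨2 ^ A * L * t, ?_, ?_, ?_, ?_, ?_⟩
  · have : M0 ∣ L := by rw [hL]; exact Dvd.intro _ rfl
    exact (this.mul_left _).mul_right _
  · push_cast; exact ht1
  · push_cast
    have h5 : (2 : ℝ) ^ A * L ≤ lam * n / C := by
      rw [le_div_iff₀ hCr]; linarith
    have h6 : lam * (1 + 1 / C) * n = lam * n + lam * n / C := by ring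
    linarith
  · intro s hs1 hs2
    exact (((Nat.dvd_factorial (by omega) (by omega)).trans hLf).mul_left _).mul_right _
  · intro d hd hdk
    rcases lt_or_ge d (2 ^ (A + 1) * C) with h | h
    · exact k3_case1 C A L t d hC hLf (hC1.trans hd) h
    · exact k3_case2 C A L t d hC hLf hLA ht3 h hdk

end Pool.Agent.Lib.MP_7c15de_co.AS
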