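import Pool.Agent.Lib.MP_7c15de_co.AS.Stm

/-!
# MP_7c15de_co, `k(n) = (1 + o(1)) n`: the labelling
-/

set_option autoImplicit false

namespace Pool.Agent.Lib.MP_7c15de_co.AS

open Finset Pool.Agent.Lib.MP_7c15de_co Pool.Agent.Lib.MP_7c15de_co.TH

/-- Numerical consequences of `Prm` used for the medium vertices. -/
private theorem prm_C {ε δ : ℝ} {C C1 J M0 K : ℕ} {Bf : ℕ → ℕ} (hp : Prm ε δ C C1 J M0 K Bf) :
    100 ≤ C := by
  have h1 := hp.εC
  have h2 : ε * C ≤ 1 * (C : ℝ) := mul_le_mul_of_nonneg_right hp.ε1 (Nat.cast_nonneg C)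
  have h3 : (100 : ℝ) ≤ (C : ℝ) := by linarith
  exact_mod_cast h3

private theorem med_num {C C1 d p s N : ℕ} (hC : 100 ≤ C) (hC1 : 1000 * C ^ 2 ≤ C1) (hd : C1 ≤ d)
    (hs : s ≤ 100 * C ^ 2) (hN : (C - 1) * N ≤ C * d) (hdp : d + p = N) :
    2 * (p + 1 + s) ≤ N := by
  obtain ⟨e, rfl⟩ : ∃ e, C = e + 100 := ⟨C - 100, by omega⟩
  have h1 : (e + 100 - 1) = e + 99 := by omega
  rw [h1] at hN
  subst hdp
  have h2 : (e + 99) * p ≤ d := by nlinarith
  have h3 : 99 * p ≤ d := by nlinarith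
  have h4 : 1 ≤ (e + 100) ^ 2 := Nat.one_le_pow _ _ (by omega)
  omega

theorem p_lab2 (hrt : S_rt) (hmed : S_med) (hsmall : S_small) : S_lab2 := by
  intro ε δ C C1 J M0 K Bf hp V _ _ T X y0 par μ hcol hR k Hs Sp gs N P last grp b len fH
    hk hM0k hSp hfH hML hreg
  have hC : 100 ≤ C := prm_C hp
  have hC1 := hp.C1C
  have hM0 := hp.M0C
  have hC2 : 1 ≤ C ^ 2 := Nat.one_le_pow _ _ (by omega)
  have hM0pos : 0 < M0 := by omega
  obtain ⟨rt1, rt2, -, -, rt5, -, -⟩ := hrt V T X y0 par μ hcol hR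
  -- the offsets
  let ML : Fin 3 → Finset V := fun i => X.filter (fun x => x ∉ Hs ∧ C1 ≤ dg T x ∧ grp x = i)
  let MS : Fin 3 → Finset V := fun i =>
    X.filter (fun x => x ∉ Hs ∧ 2 ≤ dg T x ∧ dg T x < C1 ∧ grp x = i)
  have memML : ∀ i x, x ∈ ML i ↔ x ∈ X ∧ x ∉ Hs ∧ C1 ≤ dg T x ∧ grp x = i := by
    intro i x
    exact Finset.mem_filter
  have memMS : ∀ i x, x ∈ MS i ↔ x ∈ X ∧ x ∉ Hs ∧ 2 ≤ dg T x ∧ dg T x < C1 ∧ grp x = i := by
    intro i x
    exact Finset.mem_filter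
  choose off off1 off2 using fun i : Fin 3 => offsets (ML i) N
  let ox : V → ℤ := fun x => b (grp x) + (off (grp x) x : ℤ)
  let sN : Fin 3 → ℕ := fun i => ∑ x ∈ ML i, N x
  let sb : Fin 3 → ℤ := fun i => b i + (sN i : ℤ)
  let B : Fin 3 → ℕ := fun i => Bf (∑ x ∈ MS i, (dg T x - 1))
  -- the medium vertices
  have hGm : ∀ x, ∃ G : (V → ℤ) → V → ℤ, x ∈ X → x ∉ Hs → C1 ≤ dg T x →
      (∀ c ∈ kids X y0 par x, ∀ w w' : V → ℤ, (∀ z, μ z < μ c → w z = w' z) → G w c = G w' c) ∧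
      (∀ c ∈ kids X y0 par x, ∀ w, c ∈ Sp → gs c ≤ G w c ∧ G w c < gs c + M0) ∧
      (∀ c ∈ kids X y0 par x, ∀ w, c ∉ Sp → ox x ≤ G w c ∧ G w c < ox x + N x) ∧
      (∀ w, ∀ c ∈ kids X y0 par x, ∀ c' ∈ kids X y0 par x, c ∉ Sp → c' ∉ Sp →
        G w c = G w c' → c = c') ∧
      ∀ u : V → ℤ, (∀ c ∈ kids X y0 par x, u c = G u c) → Loc T k u (insert x (P x)) := by
    intro x
    by_cases hx : x ∈ X ∧ x ∉ Hs ∧ C1 ≤ dg T x
    · obtain ⟨hxX, hxH, hxC⟩ := hx
      obtain ⟨m1, m2, m3, m4, m5, m6⟩ := hML x hxX hxH hxC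
      have hxP : x ∉ P x := by
        intro h
        have := (m6 x h).2.1
        omega
      obtain ⟨G, hG⟩ := hmed V T X y0 par μ hcol hR k M0 (N x) x (last x) (P x) Sp gs (ox x)
        hxX m4 m5 m1 m3 (by omega) hxP m6
        (med_num hC hC1 hxC hSp m2 m3) (by omega)
      exact ⟨G, fun _ _ _ => hG⟩
    · exact ⟨fun _ _ => 0, fun h1 h2 h3 => absurd ⟨h1, h2, h3⟩ hx⟩
  choose Gm hGm using hGm
  -- the small vertices
  have hGs : ∀ i : Fin 3, ∃ G : (V → ℤ) → V → ℤ,
      (∀ x ∈ MS i, ∀ c ∈ kids X y0 par x, ∀ w w' : V → ℤ, (∀ z, μ z < μ c → w z = w' z) →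
        G w c = G w' c) ∧
      (∀ x ∈ MS i, ∀ c ∈ kids X y0 par x, ∀ w, c ∈ Sp → gs c ≤ G w c ∧ G w c < gs c + M0) ∧
      (∀ x ∈ MS i, ∀ c ∈ kids X y0 par x, ∀ w, c ∉ Sp →
        sb i ≤ G w c ∧ G w c < sb i + ((M0 * B i : ℕ) : ℤ)) ∧
      (∀ w, ∀ x ∈ MS i, ∀ x' ∈ MS i, ∀ c ∈ kids X y0 par x, ∀ c' ∈ kids X y0 par x',
        c ∉ Sp → c' ∉ Sp → G w c = G w c' → c = c') ∧
      ∀ u : V → ℤ, (∀ x ∈ MS i, ∀ c ∈ kids X y0 par x, u c = G u c) → Cov T k u (MS i) := by
    intro i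
    refine hsmall V T X y0 par μ hcol hR C1 J M0 k (B i) (MS i) Sp gs (sb i) hM0pos hM0k hp.dv
      (Finset.filter_subset _ _) ?_ ?_
    · intro x hx
      have := (memMS i x).1 hx
      exact ⟨this.2.2.1, this.2.2.2.1⟩
    · intro deg hdeg hsum
      have := hp.G (MS i).card deg hdeg
      rw [hsum] at this
      exact this
  choose Gs hGs using hGs
  -- the recursion
  let body : V → (V → ℤ) → ℤ := fun y w =>
    if y = y0 ∨ par y ∈ Hs then fH y w
    else if C1 ≤ dg T (par y) then Gm (par y) w y else Gs (grp (par y)) w y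
  obtain ⟨u, hu⟩ := rec_exists μ body
  have hdep : ∀ y z, μ z < μ y → (fun z => if μ z < μ y then u z else 0) z = u z := by
    intro y z hz
    simp only [hz, if_true]
  have hkid : ∀ y ∉ X, y ≠ y0 → y ∈ kids X y0 par (par y) := by
    intro y hy hy0
    unfold kids
    rw [Finset.mem_filter]
    exact ⟨Finset.mem_univ _, hy, hy0, rfl⟩
  have ofkid : ∀ x c, c ∈ kids X y0 par x → c ∉ X ∧ c ≠ y0 ∧ par c = x := by
    intro x c hc
    unfold kids at hc
    rw [Finset.mem_filter] at hc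
    exact hc.2
  have ua : ∀ y ∉ X, y = y0 ∨ par y ∈ Hs → u y = fH y u := by
    intro y hy h
    rw [hu y]
    simp only [body]
    rw [if_pos h]
    exact hfH y hy h _ _ (hdep y)
  have ub : ∀ y ∉ X, y ≠ y0 → par y ∉ Hs → C1 ≤ dg T (par y) → u y = Gm (par y) u y := by
    intro y hy hy0 hyH hyC
    conv_lhs => rw [hu y]
    simp only [body]
    rw [if_neg (by tauto), if_pos hyC]
    exact (hGm (par y) (hR.parY y hy hy0) hyH hyC).1 y (hkid y hy hy0) _ _ (hdep y)
  have hms : ∀ y ∉ X, y ≠ y0 → par y ∉ Hs → ¬ C1 ≤ dg T (par y) → par y ∈ MS (grp (par y)) := by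
    intro y hy hy0 hyH hyC
    exact (memMS _ _).2 ⟨hR.parY y hy hy0, hyH, rt5 y hy hy0, by omega, rfl⟩
  have uc : ∀ y ∉ X, y ≠ y0 → par y ∉ Hs → ¬ C1 ≤ dg T (par y) →
      u y = Gs (grp (par y)) u y := by
    intro y hy hy0 hyH hyC
    conv_lhs => rw [hu y]
    simp only [body]
    rw [if_neg (by tauto), if_neg hyC]
    exact (hGs (grp (par y))).1 (par y) (hms y hy hy0 hyH hyC) y (hkid y hy hy0) _ _ (hdep y)
  -- the lengths
  have hlen : ∀ i, (∃ x ∈ X, x ∉ Hs ∧ 2 ≤ dg T x ∧ grp x = i) → sN i + M0 * B i ≤ len i := by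
    rintro i ⟨x, hx, hxH, hx2, hxi⟩
    rcases hreg i with h | h
    · exact absurd hxi (h x hx hxH hx2)
    · have e1 : X.filter (fun x => x ∉ Hs ∧ 2 ≤ dg T x ∧ grp x = i) = ML i ∪ MS i := by
        ext z
        rw [Finset.mem_union, memML, memMS, Finset.mem_filter]
        constructor
        · rintro ⟨h1, h2, h3, h4⟩
          by_cases h5 : C1 ≤ dg T z
          · exact Or.inl ⟨h1, h2, h5, h4⟩
          · exact Or.inr ⟨h1, h2, h3, by omega, h4⟩
        · rintro (⟨h1, h2, h3, h4⟩ | ⟨h1, h2, h3, h5, h4⟩)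
          · exact ⟨h1, h2, by omega, h4⟩
          · exact ⟨h1, h2, h3, h4⟩
      have e2 : Disjoint (ML i) (MS i) := by
        rw [Finset.disjoint_left]
        intro z hz hz'
        rw [memML] at hz
        rw [memMS] at hz'
        omega
      rw [e1, Finset.sum_union e2, mul_add] at h
      have e3 : (sN i : ℝ) ≤ (1 + δ) * ∑ x ∈ ML i, ((dg T x : ℝ) - 1) := by
        simp only [sN]
        push_cast
        rw [Finset.mul_sum]
        refine Finset.sum_le_sum fun z hz => ?_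
        rw [memML] at hz
        exact hp.q (dg T z) (N z) hz.2.2.1 (hML z hz.1 hz.2.1 hz.2.2.1).2.1
      have e4 : ((∑ x ∈ MS i, (dg T x - 1) : ℕ) : ℝ) = ∑ x ∈ MS i, ((dg T x : ℝ) - 1) := by
        rw [Nat.cast_sum]
        refine Finset.sum_congr rfl fun z hz => ?_
        rw [memMS] at hz
        rw [Nat.cast_sub (by omega)]
        simp
      have e5 := hp.B (∑ x ∈ MS i, (dg T x - 1))
      rw [e4] at e5
      have e6 : ((sN i + M0 * B i : ℕ) : ℝ) ≤ ((len i : ℕ) : ℝ) := by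
        push_cast
        push_cast at e5
        simp only [B]
        linarith
      exact_mod_cast e6
  -- location of the labels
  have locb : ∀ y ∉ X, y ≠ y0 → par y ∉ Hs → C1 ≤ dg T (par y) → y ∉ Sp →
      ox (par y) ≤ u y ∧ u y < ox (par y) + N (par y) := by
    intro y hy hy0 hyH hyC hyS
    rw [ub y hy hy0 hyH hyC]
    exact (hGm (par y) (hR.parY y hy hy0) hyH hyC).2.2.1 y (hkid y hy hy0) u hyS
  have locc : ∀ y ∉ X, y ≠ y0 → par y ∉ Hs → ¬ C1 ≤ dg T (par y) → y ∉ Sp →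
      sb (grp (par y)) ≤ u y ∧ u y < sb (grp (par y)) + ((M0 * B (grp (par y)) : ℕ) : ℤ) := by
    intro y hy hy0 hyH hyC hyS
    rw [uc y hy hy0 hyH hyC]
    exact (hGs (grp (par y))).2.2.1 (par y) (hms y hy hy0 hyH hyC) y (hkid y hy hy0) u hyS
  have hml : ∀ y ∉ X, y ≠ y0 → par y ∉ Hs → C1 ≤ dg T (par y) → par y ∈ ML (grp (par y)) := by
    intro y hy hy0 hyH hyC
    exact (memML _ _).2 ⟨hR.parY y hy hy0, hyH, hyC, rfl⟩
  -- the medium labels of the group are before the small ones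
  have hsep : ∀ y ∉ X, y ≠ y0 → par y ∉ Hs → C1 ≤ dg T (par y) → y ∉ Sp →
      u y < sb (grp (par y)) := by
    intro y hy hy0 hyH hyC hyS
    have h1 := (locb y hy hy0 hyH hyC hyS).2
    have h2 := off1 (grp (par y)) (par y) (hml y hy hy0 hyH hyC)
    have h3 : ox (par y) + N (par y) ≤ sb (grp (par y)) := by
      simp only [ox, sb, sN]
      have : ((off (grp (par y)) (par y) + N (par y) : ℕ) : ℤ) ≤
          ((∑ z ∈ ML (grp (par y)), N z : ℕ) : ℤ) := by exact_mod_cast h2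
      push_cast at this ⊢
      linarith
    linarith
  refine ⟨u, ua, ?_, ?_, ?_, ?_, ?_⟩
  · -- special children
    intro y hy hy0 hyH hyS
    by_cases hyC : C1 ≤ dg T (par y)
    · rw [ub y hy hy0 hyH hyC]
      exact (hGm (par y) (hR.parY y hy hy0) hyH hyC).2.1 y (hkid y hy hy0) u hyS
    · rw [uc y hy hy0 hyH hyC]
      exact (hGs (grp (par y))).2.1 (par y) (hms y hy hy0 hyH hyC) y (hkid y hy hy0) u hyS
  · -- the regions
    intro y hy hy0 hyH hyS
    have hl := hlen (grp (par y)) ⟨par y, hR.parY y hy hy0, hyH, rt5 y hy hy0, rfl⟩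
    have hl' : ((sN (grp (par y)) + M0 * B (grp (par y)) : ℕ) : ℤ) ≤
        ((len (grp (par y)) : ℕ) : ℤ) := by exact_mod_cast hl
    by_cases hyC : C1 ≤ dg T (par y)
    · have h1 := locb y hy hy0 hyH hyC hyS
      have h2 := hsep y hy hy0 hyH hyC hyS
      constructor
      · have h3 : b (grp (par y)) ≤ ox (par y) := by
          simp only [ox]
          have : (0 : ℤ) ≤ (off (grp (par y)) (par y) : ℤ) := Int.natCast_nonneg _
          linarith
        linarith [h1.1]
      · have h4 : sb (grp (par y)) ≤ b (grp (par y)) + len (grp (par y)) := by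
          simp only [sb]
          have : (0 : ℤ) ≤ ((M0 * B (grp (par y)) : ℕ) : ℤ) := Int.natCast_nonneg _
          push_cast at this hl' ⊢
          linarith
        linarith
    · have h1 := locc y hy hy0 hyH hyC hyS
      constructor
      · have h3 : b (grp (par y)) ≤ sb (grp (par y)) := by
          simp only [sb]
          have : (0 : ℤ) ≤ (sN (grp (par y)) : ℤ) := Int.natCast_nonneg _
          linarith
        linarith [h1.1]
      · have h4 : sb (grp (par y)) + ((M0 * B (grp (par y)) : ℕ) : ℤ) ≤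
            b (grp (par y)) + len (grp (par y)) := by
          simp only [sb]
          push_cast at hl' ⊢
          linarith
        linarith [h1.2]
  · -- injectivity
    intro y hy hy0 hyH hyS y' hy' hy0' hyH' hyS' hg huu
    by_cases hyC : C1 ≤ dg T (par y) <;> by_cases hyC' : C1 ≤ dg T (par y')
    · by_cases hxx : par y = par y'
      · have h1 := ub y hy hy0 hyH hyC
        have h2 := ub y' hy' hy0' hyH' hyC'
        rw [← hxx] at h2
        have hk' : y' ∈ kids X y0 par (par y) := by rw [hxx]; exact hkid y' hy' hy0'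
        exact (hGm (par y) (hR.parY y hy hy0) hyH hyC).2.2.2.1 u y (hkid y hy hy0) y' hk' hyS hyS'
          (by rw [← h1, ← h2, huu])
      · exfalso
        have h1 := locb y hy hy0 hyH hyC hyS
        have h2 := locb y' hy' hy0' hyH' hyC' hyS'
        have m1 := hml y hy hy0 hyH hyC
        have m2 := hml y' hy' hy0' hyH' hyC'
        rw [← hg] at m2
        simp only [ox] at h1 h2
        rw [← hg] at h2
        rcases off2 (grp (par y)) (par y) m1 (par y') m2 hxx with h | h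
        · have h' : ((off (grp (par y)) (par y) + N (par y) : ℕ) : ℤ) ≤
              ((off (grp (par y)) (par y') : ℕ) : ℤ) := by exact_mod_cast h
          push_cast at h'
          linarith [h1.2, h2.1]
        · have h' : ((off (grp (par y)) (par y') + N (par y') : ℕ) : ℤ) ≤
              ((off (grp (par y)) (par y) : ℕ) : ℤ) := by exact_mod_cast h
          push_cast at h'
          linarith [h2.2, h1.1]
    · exfalso
      have h1 := hsep y hy hy0 hyH hyC hyS
      have h2 := (locc y' hy' hy0' hyH' hyC' hyS').1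
      rw [← hg] at h2
      linarith
    · exfalso
      have h1 := hsep y' hy' hy0' hyH' hyC' hyS'
      have h2 := (locc y hy hy0 hyH hyC hyS).1
      rw [← hg] at h1
      linarith
    · have h1 := uc y hy hy0 hyH hyC
      have h2 := uc y' hy' hy0' hyH' hyC'
      rw [← hg] at h2
      have m2 := hms y' hy' hy0' hyH' hyC'
      rw [← hg] at m2
      exact (hGs (grp (par y))).2.2.2.1 u (par y) (hms y hy hy0 hyH hyC) (par y') m2 y
        (hkid y hy hy0) y' (hkid y' hy' hy0') hyS hyS' (by rw [← h1, ← h2, huu])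
  · -- the medium parts
    intro x hx hxH hxC
    refine (hGm x hx hxH hxC).2.2.2.2 u fun c hc => ?_
    obtain ⟨c1, c2, c3⟩ := ofkid x c hc
    have := ub c c1 c2 (by rw [c3]; exact hxH) (by rw [c3]; exact hxC)
    rwa [c3] at this
  · -- the small parts
    intro i
    refine (hGs i).2.2.2.2 u fun x hx c hc => ?_
    obtain ⟨c1, c2, c3⟩ := ofkid x c hc
    obtain ⟨x1, x2, x3, x4, x5⟩ := (memMS i x).1 hx
    have := uc c c1 c2 (by rw [c3]; exact x2) (by rw [c3]; omega)
    rwa [c3, x5] at this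

end Pool.Agent.Lib.MP_7c15de_co.AS
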