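import Pool.Agent.Lib.MP_7c15de_co.AS.Stm
import Pool.Agent.Lib.MP_7c15de_co.TH.Final

set_option autoImplicit false

namespace Pool.Agent.Lib.MP_7c15de_co.AS

open Finset Pool.Agent.Lib.MP_7c15de_co Pool.Agent.Lib.MP_7c15de_co.TH

theorem p_main (hk3 : S_k3) (hprm : S_prm) (hS : S_S) (hJ : S_J) : S_main := by
  classical
  intro ε0 hε0
  obtain ⟨ε, hε, hε1, hεε⟩ : ∃ ε : ℝ, 0 < ε ∧ ε ≤ 1 ∧ 3 * ε ≤ ε0 := by
    refine ⟨min 1 (ε0 / 3), lt_min one_pos (by positivity), min_le_left _ _, ?_⟩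
    have := min_le_right 1 (ε0 / 3)
    linarith
  obtain ⟨δ, C, C1, J, M0, K, Bf, hP⟩ := hprm ε hε hε1
  have hC100 : (100 : ℝ) ≤ C := by
    have h1 := hP.εC
    have h2 : (0 : ℝ) ≤ C := Nat.cast_nonneg C
    nlinarith
  have hC100' : 100 ≤ C := by exact_mod_cast hC100
  have hCC1 : C ≤ C1 := by
    have h1 := hP.C1C
    nlinarith
  have hM0 : 0 < M0 := by
    have h1 := hP.M0C
    omega
  obtain ⟨n1, hn1⟩ := hk3 C C1 M0 (by omega) hCC1 hM0
  obtain ⟨n2, hn2⟩ := hS ε δ C C1 J M0 K Bf hP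
  obtain ⟨n3, hn3⟩ := hJ ε δ C C1 J M0 K Bf hP
  refine ⟨max (max n1 n2) (max n3 1), ?_⟩
  intro n hn
  have hnn1 : n1 ≤ n := (le_max_left _ _).trans ((le_max_left _ _).trans hn)
  have hnn2 : n2 ≤ n := (le_max_right _ _).trans ((le_max_left _ _).trans hn)
  have hnn3 : n3 ≤ n := (le_max_left _ _).trans ((le_max_right _ _).trans hn)
  have hn0 : 1 ≤ n := (le_max_right _ _).trans ((le_max_right _ _).trans hn)
  obtain ⟨k, hk1, hk2, hk3', hk4, hk5⟩ := hn1 n hnn1 (1 + ε) (by linarith)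
  have hnR : (1 : ℝ) ≤ n := by exact_mod_cast hn0
  have hkhi : (k : ℝ) ≤ (1 + 3 * ε) * n := by
    refine hk3'.trans ?_
    have h1 : (1 : ℝ) / C ≤ ε / 100 := by
      rw [div_le_div_iff₀ (by linarith) (by norm_num)]
      linarith [hP.εC]
    have h2 : (1 + ε) * (1 + 1 / (C : ℝ)) ≤ 1 + 3 * ε := by
      have h3 : (0 : ℝ) ≤ 1 / C := by positivity
      nlinarith
    exact mul_le_mul_of_nonneg_right h2 (by linarith)
  have hH : Host ε C C1 M0 n k := ⟨hk2, hkhi, hk1, hk4, hk5⟩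
  have hkpos : 0 < k := by
    have : (0 : ℝ) < k := by nlinarith
    exact_mod_cast this
  refine ⟨k, ⟨hkpos, ?_⟩, ?_⟩
  · intro V _ T hT
    obtain ⟨hT1, c, hc, hct, hcf⟩ := hT
    let X : Finset V := univ.filter (fun v => c v = true)
    have hX : ∀ a b, T.Adj a b → (a ∈ X ↔ b ∉ X) := by
      intro a b hab
      have := hc a b hab
      simp only [X, mem_filter, mem_univ, true_and]
      cases ha : c a <;> cases hb : c b <;> simp_all
    have hXc : X.card = n := by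
      rw [← hct, Fintype.card_subtype]
    have hXcc : Xᶜ.card = n := by
      rw [← hcf, Fintype.card_subtype]
      congr 1
      ext v
      simp [X]
    have hX' : ∀ a b, T.Adj a b → (a ∈ Xᶜ ↔ b ∉ Xᶜ) := by
      intro a b hab
      have := hX a b hab
      simp only [mem_compl]
      tauto
    by_cases h1 : (∀ x ∈ X, 2 * dg T x ≤ k) ∧
        5 * ∑ x ∈ X.filter (fun x => k < C * dg T x), dg T x ≤ 3 * k
    · exact hn2 n hnn2 k hH V T hT1 X hX hXc hXcc h1.1 h1.2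
    by_cases h2 : (∀ x ∈ Xᶜ, 2 * dg T x ≤ k) ∧
        5 * ∑ x ∈ Xᶜ.filter (fun x => k < C * dg T x), dg T x ≤ 3 * k
    · exact hn2 n hnn2 k hH V T hT1 Xᶜ hX' hXcc (by rw [compl_compl]; exact hXc) h2.1 h2.2
    have g1 : (∃ x ∈ X, k < 2 * dg T x) ∨
        3 * k < 5 * ∑ x ∈ X.filter (fun x => k < C * dg T x), dg T x := by
      by_contra hcon
      push Not at hcon
      exact h1 ⟨fun x hx => hcon.1 x hx, hcon.2⟩
    have g2 : (∃ x ∈ Xᶜ, k < 2 * dg T x) ∨
        3 * k < 5 * ∑ x ∈ Xᶜ.filter (fun x => k < C * dg T x), dg T x := by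
      by_contra hcon
      push Not at hcon
      exact h2 ⟨fun x hx => hcon.1 x hx, hcon.2⟩
    rcases le_total (Xᶜ.filter (fun y => 2 ≤ dg T y ∧
        ∀ x ∈ X.filter (fun x => k < C * dg T x), ¬ T.Adj y x)).card
      (X.filter (fun x => 2 ≤ dg T x ∧
        ∀ y ∈ Xᶜ.filter (fun y => k < C * dg T y), ¬ T.Adj x y)).card with h | h
    · exact hn3 n hnn3 k hH V T hT1 X hX hXc hXcc g1 g2 h
    · apply hn3 n hnn3 k hH V T hT1 Xᶜ hX' hXcc (by rw [compl_compl]; exact hXc) g2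
      · rw [compl_compl]
        exact g1
      · rw [compl_compl]
        exact h
  · refine hkhi.trans ?_
    have : (1 + 3 * ε) ≤ 1 + ε0 := by linarith
    exact mul_le_mul_of_nonneg_right this (by linarith)

end Pool.Agent.Lib.MP_7c15de_co.AS
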