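import Pool.Agent.Lib.MP_7c15de_co.AS.Stm
import Pool.Agent.Lib.MP_7c15de_co.TH.Final

set_option autoImplicit false

namespace Pool.Agent.Lib.MP_7c15de_co.AS

open Finset Pool.Agent.Lib.MP_7c15de_co Pool.Agent.Lib.MP_7c15de_co.TH

private theorem med_small {N : ℕ} {s t : ℤ} (hst : |s - t| < N)
    (h : (s : ZMod N) = (t : ZMod N)) : s = t := by
  rw [ZMod.intCast_eq_intCast_iff] at h
  have h1 : (N : ℤ) ∣ s - t := h.symm.dvd
  have := Int.eq_zero_of_abs_lt_dvd h1 hst
  omega

private theorem med_spec {V : Type} [DecidableEq V] (N : ℕ) (w0 : ZMod N) (gs : V → ℤ) :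
    ∀ A : Finset V, A.card + 1 ≤ N → ∃ e : V → ℤ, (∀ c ∈ A, 0 ≤ e c ∧ e c ≤ A.card) ∧
      (∀ c ∈ A, ∀ c' ∈ A, ((gs c + e c : ℤ) : ZMod N) = ((gs c' + e c' : ℤ) : ZMod N) → c = c') ∧
      (∀ c ∈ A, ((gs c + e c : ℤ) : ZMod N) ≠ w0) := by
  intro A
  induction A using Finset.induction_on with
  | empty => intro _; exact ⟨fun _ => 0, by simp, by simp, by simp⟩
  | insert a A ha ih =>
    intro hA
    rw [Finset.card_insert_of_notMem ha] at hA ⊢
    obtain ⟨e, h1, h2, h3⟩ := ih (by omega)
    have hF : (insert w0 (A.image (fun c => ((gs c + e c : ℤ) : ZMod N)))).card ≤ A.card + 1 := by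
      refine (Finset.card_insert_le _ _).trans ?_
      have := Finset.card_image_le (s := A) (f := fun c => ((gs c + e c : ℤ) : ZMod N))
      omega
    have hI : ((Finset.Icc (0 : ℤ) ((A.card : ℤ) + 1)).image
        (fun j : ℤ => ((gs a + j : ℤ) : ZMod N))).card = A.card + 2 := by
      rw [Finset.card_image_of_injOn]
      · rw [Int.card_Icc]
        omega
      · intro j hj j' hj' h
        rw [Finset.mem_coe, Finset.mem_Icc] at hj hj'
        have := med_small (N := N) (s := gs a + j) (t := gs a + j')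
          (by rw [abs_lt]; constructor <;> omega) h
        omega
    obtain ⟨y, hy, hyF⟩ := Finset.exists_mem_notMem_of_card_lt_card (hF.trans_lt (by omega) :
      (insert w0 (A.image (fun c => ((gs c + e c : ℤ) : ZMod N)))).card <
        ((Finset.Icc (0 : ℤ) ((A.card : ℤ) + 1)).image
        (fun j : ℤ => ((gs a + j : ℤ) : ZMod N))).card)
    obtain ⟨j, hj, rfl⟩ := Finset.mem_image.mp hy
    rw [Finset.mem_Icc] at hj
    rw [Finset.mem_insert, not_or] at hyF
    have hne : ∀ c ∈ A, ((gs c + e c : ℤ) : ZMod N) ≠ ((gs a + j : ℤ) : ZMod N) := by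
      intro c hc h
      exact hyF.2 (Finset.mem_image.mpr ⟨c, hc, h⟩)
    have hca : ∀ c ∈ A, c ≠ a := fun c hc h => ha (h ▸ hc)
    refine ⟨Function.update e a j, ?_, ?_, ?_⟩
    · intro c hc
      rcases Finset.mem_insert.mp hc with rfl | hc
      · rw [Function.update_self]
        push_cast
        exact ⟨hj.1, hj.2⟩
      · rw [Function.update_of_ne (hca c hc)]
        have := h1 c hc
        push_cast
        constructor <;> omega
    · intro c hc c' hc' h
      rcases Finset.mem_insert.mp hc with h5 | h5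
      · rcases Finset.mem_insert.mp hc' with h6 | h6
        · rw [h5, h6]
        · rw [h5, Function.update_self, Function.update_of_ne (hca c' h6)] at h
          exact absurd h.symm (hne c' h6)
      · rcases Finset.mem_insert.mp hc' with h6 | h6
        · rw [h6, Function.update_self, Function.update_of_ne (hca c h5)] at h
          exact absurd h (hne c h5)
        · rw [Function.update_of_ne (hca c h5), Function.update_of_ne (hca c' h6)] at h
          exact h2 c h5 c' h6 h
    · intro c hc
      rcases Finset.mem_insert.mp hc with rfl | hc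
      · rw [Function.update_self]
        exact hyF.1
      · rw [Function.update_of_ne (hca c hc)]
        exact h3 c hc

/-- An injection into a set that is large enough. -/
private theorem med_inj {V W : Type} [DecidableEq V] [DecidableEq W] [Nonempty W] (A : Finset V)
    (B : Finset W) (h : A.card ≤ B.card) :
    ∃ f : V → W, (∀ a ∈ A, f a ∈ B) ∧ ∀ a ∈ A, ∀ a' ∈ A, f a = f a' → a = a' := by
  classical
  obtain ⟨B', hB', hc⟩ := Finset.exists_subset_card_eq h
  let e : A ≃ B' := Finset.equivOfCardEq hc.symm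
  refine ⟨fun a => if h : a ∈ A then (e ⟨a, h⟩ : W) else Classical.arbitrary W, ?_, ?_⟩
  · intro a ha
    simp only [ha, dif_pos]
    exact hB' (e ⟨a, ha⟩).2
  · intro a ha a' ha' hh
    simp only [ha, ha', dif_pos] at hh
    have := e.injective (Subtype.ext hh)
    exact congrArg Subtype.val this

/-- Step 1: the labels of the children different from `l`. -/
private theorem med_step1 {V : Type} [DecidableEq V] (N M0 p : ℕ) (hN : 0 < N)
    (ch Sp : Finset V) (l : V) (hl : l ∈ ch) (hlS : l ∉ Sp) (hNc : ch.card + 1 + p = N)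
    (h2 : 2 * (p + 1 + Sp.card) ≤ N) (hM : Sp.card + 2 ≤ M0) (gs : V → ℤ) (off w0 : ℤ) :
    ∃ (g : V → ℤ) (W : Finset ℤ),
      (∀ c ∈ ch, c ∈ Sp → gs c ≤ g c ∧ g c < gs c + M0) ∧
      (∀ c ∈ ch, c ∉ Sp → off ≤ g c ∧ g c < off + N) ∧
      (∀ c ∈ ch, ∀ c' ∈ ch, c ≠ l → c' ≠ l → (g c : ZMod N) = (g c' : ZMod N) → c = c') ∧
      (∀ c ∈ ch, c ≠ l → (g c : ZMod N) ≠ (w0 : ZMod N)) ∧
      W.card = p + 1 ∧
      (∀ j ∈ W, 1 ≤ j ∧ j < N) ∧
      (∀ j ∈ W, ∀ j' ∈ W, 2 * |j - j'| < N) ∧
      (∀ j ∈ W, ∀ c ∈ ch, c ≠ l → (g c : ZMod N) ≠ ((w0 + j : ℤ) : ZMod N)) := by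
  classical
  have : NeZero N := ⟨by omega⟩
  set A : Finset V := ch ∩ Sp with hA
  have hAS : A.card ≤ Sp.card := Finset.card_le_card Finset.inter_subset_right
  obtain ⟨e, e1, e2, e3⟩ := med_spec N (w0 : ZMod N) gs A (by omega)
  set R1 : Finset (ZMod N) := A.image (fun c => ((gs c + e c : ℤ) : ZMod N)) with hR1
  have hR1c : R1.card ≤ A.card := Finset.card_image_le
  set I : Finset ℤ := Finset.Icc ((N : ℤ) - (p + 1 + A.card)) (N - 1) with hI
  have hIc : I.card = p + 1 + A.card := by
    rw [hI, Int.card_Icc]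
    omega
  have hIinj : ∀ j ∈ I, ∀ j' ∈ I, ((w0 + j : ℤ) : ZMod N) = ((w0 + j' : ℤ) : ZMod N) → j = j' := by
    intro j hj j' hj' h
    rw [hI, Finset.mem_Icc] at hj hj'
    have := med_small (N := N) (s := w0 + j) (t := w0 + j')
      (by rw [abs_lt]; constructor <;> omega) h
    omega
  have hW0 : p + 1 ≤ (I.filter (fun j => ((w0 + j : ℤ) : ZMod N) ∉ R1)).card := by
    have h1 := Finset.card_filter_add_card_filter_not (s := I)
      (fun j : ℤ => ((w0 + j : ℤ) : ZMod N) ∉ R1)
    have h3 : (I.filter (fun j : ℤ => ¬ ((w0 + j : ℤ) : ZMod N) ∉ R1)).card ≤ R1.card := by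
      apply Finset.card_le_card_of_injOn (fun j : ℤ => ((w0 + j : ℤ) : ZMod N))
      · intro j hj
        rw [Finset.mem_coe, Finset.mem_filter, not_not] at hj
        exact hj.2
      · intro j hj j' hj' h
        rw [Finset.mem_coe, Finset.mem_filter] at hj hj'
        exact hIinj j hj.1 j' hj'.1 h
    omega
  obtain ⟨W, hWs, hWc⟩ := Finset.exists_subset_card_eq hW0
  have hWI : ∀ j ∈ W, j ∈ I ∧ ((w0 + j : ℤ) : ZMod N) ∉ R1 := by
    intro j hj
    exact Finset.mem_filter.mp (hWs hj)
  have hWI' : ∀ j ∈ W, (N : ℤ) - (p + 1 + A.card) ≤ j ∧ j ≤ N - 1 := by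
    intro j hj
    have := (hWI j hj).1
    rwa [hI, Finset.mem_Icc] at this
  set F : Finset (ZMod N) := insert (w0 : ZMod N)
    (R1 ∪ W.image (fun j : ℤ => ((w0 + j : ℤ) : ZMod N))) with hF
  have hFc : F.card ≤ 1 + (A.card + (p + 1)) := by
    refine (Finset.card_insert_le _ _).trans ?_
    have h1 := Finset.card_union_le R1 (W.image (fun j : ℤ => ((w0 + j : ℤ) : ZMod N)))
    have h3 := Finset.card_image_le (s := W) (f := fun j : ℤ => ((w0 + j : ℤ) : ZMod N))
    omega
  set B : Finset V := (ch.erase l) \ Sp with hB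
  have hBc : B.card + A.card + 1 = ch.card := by
    have h1 : (ch.erase l).card + 1 = ch.card := Finset.card_erase_add_one hl
    have h3 : B.card + ((ch.erase l) ∩ Sp).card = (ch.erase l).card :=
      Finset.card_sdiff_add_card_inter _ _
    have h4 : (ch.erase l) ∩ Sp = A := by
      ext c
      simp only [hA, Finset.mem_inter, Finset.mem_erase]
      constructor
      · rintro ⟨⟨_, h⟩, h'⟩
        exact ⟨h, h'⟩
      · rintro ⟨h, h'⟩
        exact ⟨⟨fun hcl => hlS (hcl ▸ h'), h⟩, h'⟩
    rw [h4] at h3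
    omega
  have hR2 : B.card ≤ (Fᶜ).card := by
    rw [Finset.card_compl, ZMod.card]
    omega
  obtain ⟨f, f1, f2⟩ := med_inj B Fᶜ hR2
  have hfF : ∀ c ∈ B, f c ≠ (w0 : ZMod N) ∧ f c ∉ R1 ∧ ∀ j ∈ W, f c ≠ ((w0 + j : ℤ) : ZMod N) := by
    intro c hc
    have := f1 c hc
    rw [Finset.mem_compl, hF, Finset.mem_insert, not_or, Finset.mem_union, not_or] at this
    refine ⟨this.1, this.2.1, ?_⟩
    intro j hj h
    exact this.2.2 (Finset.mem_image.mpr ⟨j, hj, h.symm⟩)
  set g : V → ℤ := fun c => if c ∈ Sp then gs c + e c else off + ((f c - (off : ZMod N)).val : ℤ)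
    with hg
  have hgS : ∀ c, c ∈ Sp → g c = gs c + e c := fun c hc => by simp only [hg, if_pos hc]
  have hgN : ∀ c, c ∉ Sp → g c = off + ((f c - (off : ZMod N)).val : ℤ) :=
    fun c hc => by simp only [hg, if_neg hc]
  have hgN' : ∀ c, c ∉ Sp → (g c : ZMod N) = f c := by
    intro c hc
    rw [hgN c hc]
    push_cast
    rw [ZMod.natCast_val, ZMod.cast_id', id]
    ring
  have hAmem : ∀ c ∈ ch, c ∈ Sp → c ∈ A := fun c hc hcS => Finset.mem_inter.mpr ⟨hc, hcS⟩
  have hBmem : ∀ c ∈ ch, c ≠ l → c ∉ Sp → c ∈ B := fun c hc hcl hcS =>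
    Finset.mem_sdiff.mpr ⟨Finset.mem_erase.mpr ⟨hcl, hc⟩, hcS⟩
  have hgR : ∀ c ∈ ch, c ∈ Sp → (g c : ZMod N) ∈ R1 := by
    intro c hc hcS
    rw [hgS c hcS]
    exact Finset.mem_image.mpr ⟨c, hAmem c hc hcS, rfl⟩
  refine ⟨g, W, ?_, ?_, ?_, ?_, hWc, ?_, ?_, ?_⟩
  · intro c hc hcS
    rw [hgS c hcS]
    have := e1 c (hAmem c hc hcS)
    constructor <;> omega
  · intro c hc hcS
    rw [hgN c hcS]
    have := ZMod.val_lt (f c - (off : ZMod N))
    constructor <;> omega
  · intro c hc c' hc' hcl hcl' h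
    by_cases hcS : c ∈ Sp
    · by_cases hcS' : c' ∈ Sp
      · rw [hgS c hcS, hgS c' hcS'] at h
        exact e2 c (hAmem c hc hcS) c' (hAmem c' hc' hcS') h
      · exfalso
        rw [hgN' c' hcS'] at h
        exact (hfF c' (hBmem c' hc' hcl' hcS')).2.1 (h ▸ hgR c hc hcS)
    · by_cases hcS' : c' ∈ Sp
      · exfalso
        rw [hgN' c hcS] at h
        exact (hfF c (hBmem c hc hcl hcS)).2.1 (h ▸ hgR c' hc' hcS')
      · rw [hgN' c hcS, hgN' c' hcS'] at h
        exact f2 c (hBmem c hc hcl hcS) c' (hBmem c' hc' hcl' hcS') h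
  · intro c hc hcl
    by_cases hcS : c ∈ Sp
    · rw [hgS c hcS]
      exact e3 c (hAmem c hc hcS)
    · rw [hgN' c hcS]
      exact (hfF c (hBmem c hc hcl hcS)).1
  · intro j hj
    have := hWI' j hj
    constructor <;> omega
  · intro j hj j' hj'
    have h1 := hWI' j hj
    have h3 := hWI' j' hj'
    have h4 : |j - j'| ≤ p + A.card := by
      rw [abs_le]
      constructor <;> omega
    omega
  · intro j hj c hc hcl
    by_cases hcS : c ∈ Sp
    · intro h
      exact (hWI j hj).2 (h ▸ hgR c hc hcS)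
    · rw [hgN' c hcS]
      exact (hfF c (hBmem c hc hcl hcS)).2.2 j hj

/-- Step 2: the coordinates of the fillers and of `l`. -/
private theorem med_step2 {V : Type} [DecidableEq V] (N p : ℕ) (hN : 0 < N) (P : Finset V)
    (hP : P.card = p) (w0 : ℤ) (W : Finset ℤ) (hWc : W.card = p + 1)
    (hW2 : ∀ j ∈ W, ∀ j' ∈ W, 2 * |j - j'| < N) (v : V → ℤ) :
    ∃ (js : ℤ) (j : V → ℤ), js ∈ W ∧ (∀ r ∈ P, j r ∈ W) ∧ (∀ r ∈ P, j r ≠ js) ∧
      (∀ r ∈ P, ∀ r' ∈ P, j r = j r' → r = r') ∧
      (∀ r ∈ P, ((w0 + j r : ℤ) : ZMod N) ≠ (v r : ZMod N)) ∧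
      (∀ r ∈ P, ∀ r' ∈ P, ((v r - j r : ℤ) : ZMod N) = ((v r' - j r' : ℤ) : ZMod N) → r = r') := by
  classical
  have : NeZero N := ⟨by omega⟩
  let e : P ≃ Fin p := P.equivFin.trans (finCongr hP)
  have hinj : ∀ j ∈ W, ∀ j' ∈ W, (j : ZMod N) = (j' : ZMod N) → j = j' := by
    intro j hj j' hj' h
    have h1 := hW2 j hj j' hj'
    exact med_small (by have := abs_nonneg (j - j'); omega) h
  have hS : ∀ i : Fin p, p ≤ (W.filter (fun j : ℤ => ((w0 + j : ℤ) : ZMod N) ≠
      (v (e.symm i) : ZMod N))).card := by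
    intro i
    have h1 : (W.filter (fun j : ℤ => ¬ (((w0 + j : ℤ) : ZMod N) ≠
        (v (e.symm i) : ZMod N)))).card ≤ 1 := by
      rw [Finset.card_le_one]
      intro x hx y hy
      rw [Finset.mem_filter] at hx hy
      apply hinj x hx.1 y hy.1
      have h2 := not_not.mp hx.2
      have h3 := not_not.mp hy.2
      have h4 := h2.trans h3.symm
      push_cast at h4
      exact add_left_cancel h4
    have h2 := Finset.card_filter_add_card_filter_not (s := W)
      (fun j : ℤ => ((w0 + j : ℤ) : ZMod N) ≠ (v (e.symm i) : ZMod N))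
    omega
  obtain ⟨x, hx, hd⟩ := cn_exists p _ hS
    (fun i i' => ((v (e.symm i') - v (e.symm i) : ℤ) : ZMod N).valMinAbs)
  have hxW : ∀ i, x i ∈ W ∧ ((w0 + x i : ℤ) : ZMod N) ≠ (v (e.symm i) : ZMod N) := by
    intro i
    exact Finset.mem_filter.mp (hx i)
  have hxinj : ∀ i i', x i = x i' → i = i' := by
    intro i i' h
    by_contra hne
    rcases lt_or_gt_of_ne hne with hlt | hlt
    · exact (hd i i' hlt).1 (by rw [h]; ring)
    · exact (hd i' i hlt).1 (by rw [h]; ring)
  have hlt : ∀ i i', i < i' → ((v (e.symm i) - x i : ℤ) : ZMod N) ≠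
      ((v (e.symm i') - x i' : ℤ) : ZMod N) := by
    intro i i' hii h
    have h1 : ((v (e.symm i') - v (e.symm i) : ℤ) : ZMod N) = ((x i' - x i : ℤ) : ZMod N) := by
      push_cast at h ⊢
      linear_combination (-1 : ZMod N) * h
    have h2 : ((v (e.symm i') - v (e.symm i) : ℤ) : ZMod N).valMinAbs = x i' - x i := by
      rw [ZMod.valMinAbs_spec]
      refine ⟨h1, ?_⟩
      have a1 := hW2 (x i) (hxW i).1 (x i') (hxW i').1
      rw [abs_sub_comm] at a1
      have a2 := neg_abs_le (x i' - x i)
      have a3 := le_abs_self (x i' - x i)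
      constructor
      · omega
      · omega
    exact (hd i i' hii).2 h2.symm
  have hex : ∃ js ∈ W, js ∉ Finset.univ.image x := by
    apply Finset.exists_mem_notMem_of_card_lt_card
    refine lt_of_le_of_lt Finset.card_image_le ?_
    rw [Finset.card_univ, Fintype.card_fin]
    omega
  obtain ⟨js, hjs, hjx⟩ := hex
  let j : V → ℤ := fun r => if h : r ∈ P then x (e ⟨r, h⟩) else 0
  have hj : ∀ r (h : r ∈ P), j r = x (e ⟨r, h⟩) := fun r h => dif_pos h
  refine ⟨js, j, hjs, ?_, ?_, ?_, ?_, ?_⟩
  · intro r hr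
    rw [hj r hr]
    exact (hxW _).1
  · intro r hr h
    rw [hj r hr] at h
    exact hjx (Finset.mem_image.mpr ⟨_, Finset.mem_univ _, h⟩)
  · intro r hr r' hr' h
    rw [hj r hr, hj r' hr'] at h
    exact congrArg Subtype.val (e.injective (hxinj _ _ h))
  · intro r hr
    rw [hj r hr]
    have := (hxW (e ⟨r, hr⟩)).2
    rwa [Equiv.symm_apply_apply] at this
  · intro r hr r' hr' h
    rw [hj r hr, hj r' hr'] at h
    by_contra hne
    have hne' : e ⟨r, hr⟩ ≠ e ⟨r', hr'⟩ := by
      intro h1
      exact hne (congrArg Subtype.val (e.injective h1))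
    rcases lt_or_gt_of_ne hne' with h3 | h3
    · have := hlt _ _ h3
      rw [Equiv.symm_apply_apply, Equiv.symm_apply_apply] at this
      exact this h
    · have := hlt _ _ h3
      rw [Equiv.symm_apply_apply, Equiv.symm_apply_apply] at this
      exact this h.symm

theorem p_med (hrt : S_rt) : S_med := by
  intro V _ _ T X y0 par μ hcol hRt k M0 N x l P Sp gs off hx hl hlS hNk hdN hN hxP hPr h2 hM
  classical
  have : NeZero N := ⟨by omega⟩
  obtain ⟨r1, r2, -, -, -, r6, -⟩ := hrt V T X y0 par μ hcol hRt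
  set ch : Finset V := kids X y0 par x with hch
  have hdx : dg T x = ch.card + 1 := r1 x hx
  have hmch : ∀ c, c ∈ ch ↔ c ∉ X ∧ c ≠ y0 ∧ par c = x := by
    intro c
    rw [hch, kids, Finset.mem_filter]
    simp only [Finset.mem_univ, true_and]
  have hadj : ∀ y, T.Adj x y ↔ y = par x ∨ y ∈ ch := by
    intro y
    rw [hRt.adj x hx y, hmch]
  have hμ : ∀ c ∈ ch, μ (par x) < μ c := by
    intro c hc
    rw [hmch] at hc
    have := hRt.lt c hc.1 hc.2.1
    rwa [hc.2.2] at this
  -- step 1
  have hs1 := fun w0 : ℤ => med_step1 N M0 P.card hN ch Sp l hl hlS (by omega) h2 hM gs off w0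
  choose g W g1 g2 g3 g4 g5 g6 g7 g8 using hs1
  -- step 2
  have hs2 := fun (w0 : ℤ) (v : V → ℤ) => med_step2 N P.card hN P rfl w0 (W w0) (g5 w0) (g7 w0) v
  choose js j j1 j2 j3 j4 j5 j6 using hs2
  let vv : (V → ℤ) → V → ℤ := fun w r => if r ∈ P then w (par r) else 0
  let G : (V → ℤ) → V → ℤ := fun w c =>
    if c = l then off + (((w (par x) + js (w (par x)) (vv w) : ℤ) : ZMod N) - (off : ZMod N)).val
    else g (w (par x)) c
  have hGl : ∀ w, G w l = off + (((w (par x) + js (w (par x)) (vv w) : ℤ) : ZMod N) -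
      (off : ZMod N)).val := fun w => if_pos rfl
  have hGn : ∀ w c, c ≠ l → G w c = g (w (par x)) c := fun w c hc => if_neg hc
  have hGl' : ∀ w, (G w l : ZMod N) = ((w (par x) + js (w (par x)) (vv w) : ℤ) : ZMod N) := by
    intro w
    rw [hGl w]
    rw [Int.cast_add, Int.cast_natCast, ZMod.natCast_val, ZMod.cast_id', id]
    ring
  have hGinj : ∀ w, ∀ c ∈ ch, ∀ c' ∈ ch, (G w c : ZMod N) = (G w c' : ZMod N) → c = c' := by
    intro w c hc c' hc' h
    by_cases hcl : c = l
    · by_cases hcl' : c' = l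
      · rw [hcl, hcl']
      · exfalso
        rw [hcl, hGl', hGn w c' hcl'] at h
        exact g8 (w (par x)) _ (j1 _ _) c' hc' hcl' h.symm
    · by_cases hcl' : c' = l
      · exfalso
        rw [hcl', hGl', hGn w c hcl] at h
        exact g8 (w (par x)) _ (j1 _ _) c hc hcl h
      · rw [hGn w c hcl, hGn w c' hcl'] at h
        exact g3 _ c hc c' hc' hcl hcl' h
  refine ⟨G, ?_, ?_, ?_, ?_, ?_⟩
  · intro c hc w w' hww
    have h0 : w (par x) = w' (par x) := hww _ (hμ c hc)
    by_cases hcl : c = l
    · have hv : vv w = vv w' := by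
        funext r
        simp only [vv]
        by_cases hr : r ∈ P
        · rw [if_pos hr, if_pos hr]
          apply hww
          rw [hcl]
          exact (hPr r hr).2.2
        · rw [if_neg hr, if_neg hr]
      rw [hcl, hGl, hGl, h0, hv]
    · rw [hGn w c hcl, hGn w' c hcl, h0]
  · intro c hc w hcS
    have hcl : c ≠ l := fun h => hlS (h ▸ hcS)
    rw [hGn w c hcl]
    exact g1 _ c hc hcS
  · intro c hc w hcS
    by_cases hcl : c = l
    · rw [hcl, hGl]
      have := ZMod.val_lt (((w (par x) + js (w (par x)) (vv w) : ℤ) : ZMod N) - (off : ZMod N))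
      constructor <;> omega
    · rw [hGn w c hcl]
      exact g2 _ c hc hcS
  · intro w c hc c' hc' _ _ h
    exact hGinj w c hc c' hc' (by rw [h])
  · intro u hu
    have hsum : ∑ z ∈ insert x P, dg T z = N := by
      rw [Finset.sum_insert hxP, Finset.sum_congr rfl (fun r hr => (hPr r hr).2.1)]
      simpa using hdN
    have hvv : ∀ r ∈ P, vv u r = u (par r) := fun r hr => if_pos hr
    have hadjP : ∀ r ∈ P, ∀ y, T.Adj r y ↔ y = par r := fun r hr => r6 r (hPr r hr).1 (hPr r hr).2.1
    have hxr : ∀ r ∈ P, r ≠ x := fun r hr h => hxP (h ▸ hr)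
    let a : V → ℤ := fun z => if z = x then 0 else vv u z - (u (par x) + j (u (par x)) (vv u) z)
    have hax : a x = 0 := if_pos rfl
    have har : ∀ r ∈ P, a r = u (par r) - (u (par x) + j (u (par x)) (vv u) r) := by
      intro r hr
      have : a r = vv u r - (u (par x) + j (u (par x)) (vv u) r) := if_neg (hxr r hr)
      rw [this, hvv r hr]
    -- residues of the labels around x
    have hux : ∀ y, T.Adj x y → (u y : ZMod N) = (u (par x) : ZMod N) → y = par x := by
      intro y hy h
      rcases (hadj y).mp hy with h1 | h1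
      · exact h1
      · exfalso
        rw [hu y h1] at h
        by_cases hyl : y = l
        · rw [hyl, hGl'] at h
          have h3 := g6 (u (par x)) _ (j1 (u (par x)) (vv u))
          have h4 := med_small (N := N) (s := u (par x) + js (u (par x)) (vv u)) (t := u (par x))
            (by rw [abs_lt]; constructor <;> omega) h
          omega
        · rw [hGn u y hyl] at h
          exact g4 _ y h1 hyl h
    have huu : ∀ y y', T.Adj x y → T.Adj x y' → (u y : ZMod N) = (u y' : ZMod N) → y = y' := by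
      intro y y' hy hy' h
      rcases (hadj y).mp hy with h1 | h1
      · rw [h1] at h
        rw [h1, hux y' hy' h.symm]
      · rcases (hadj y').mp hy' with h3 | h3
        · rw [h3] at h
          rw [h3, hux y hy h]
        · rw [hu y h1, hu y' h3] at h
          exact hGinj u y h1 y' h3 h
    have hur : ∀ y, T.Adj x y → ∀ r ∈ P, (u y : ZMod N) ≠
        ((u (par x) + j (u (par x)) (vv u) r : ℤ) : ZMod N) := by
      intro y hy r hr h
      have hW := j2 (u (par x)) (vv u) r hr
      rcases (hadj y).mp hy with h1 | h1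
      · rw [h1] at h
        have h3 := g6 (u (par x)) _ hW
        have h4 := med_small (N := N) (s := u (par x)) (t := u (par x) + j (u (par x)) (vv u) r)
          (by rw [abs_lt]; constructor <;> omega) h
        omega
      · rw [hu y h1] at h
        by_cases hyl : y = l
        · rw [hyl, hGl'] at h
          have h3 := g6 (u (par x)) _ hW
          have h5 := g6 (u (par x)) _ (j1 (u (par x)) (vv u))
          have h4 := med_small (N := N) (s := u (par x) + js (u (par x)) (vv u))
            (t := u (par x) + j (u (par x)) (vv u) r)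
            (by rw [abs_lt]; constructor <;> omega) h
          exact j3 (u (par x)) (vv u) r hr (by omega)
        · rw [hGn u y hyl] at h
          exact g8 _ _ hW y h1 hyl h
    refine ⟨by rw [hsum]; exact hNk, a, ?_, ?_⟩
    · rw [hsum]
      intro z hz z' hz' h
      rw [← ZMod.intCast_eq_intCast_iff] at h
      rcases Finset.mem_insert.mp hz with h1 | h1
      · rcases Finset.mem_insert.mp hz' with h3 | h3
        · rw [h1, h3]
        · exfalso
          rw [h1, hax, har z' h3] at h
          apply j5 (u (par x)) (vv u) z' h3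
          rw [hvv z' h3]
          push_cast at h ⊢
          linear_combination h
      · rcases Finset.mem_insert.mp hz' with h3 | h3
        · exfalso
          rw [h3, hax, har z h1] at h
          apply j5 (u (par x)) (vv u) z h1
          rw [hvv z h1]
          push_cast at h ⊢
          linear_combination -h
        · rw [har z h1, har z' h3] at h
          apply j6 (u (par x)) (vv u) z h1 z' h3
          rw [hvv z h1, hvv z' h3]
          push_cast at h ⊢
          linear_combination h
    · rw [hsum]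
      intro z hz z' hz' y y' hzy hzy' h
      rw [← ZMod.intCast_eq_intCast_iff] at h
      rcases Finset.mem_insert.mp hz with h1 | h1
      · rcases Finset.mem_insert.mp hz' with h3 | h3
        · rw [h1] at hzy
          rw [h3] at hzy'
          rw [h1, h3, hax] at h
          refine ⟨by rw [h1, h3], huu y y' hzy hzy' ?_⟩
          push_cast at h ⊢
          linear_combination -h
        · exfalso
          rw [h1] at hzy
          have h5 := (hadjP z' h3 y').mp hzy'
          rw [h1, hax, har z' h3, h5] at h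
          apply hur y hzy z' h3
          push_cast at h ⊢
          linear_combination -h
      · rcases Finset.mem_insert.mp hz' with h3 | h3
        · exfalso
          rw [h3] at hzy'
          have h5 := (hadjP z h1 y).mp hzy
          rw [h3, hax, har z h1, h5] at h
          apply hur y' hzy' z h1
          push_cast at h ⊢
          linear_combination h
        · have h5 := (hadjP z h1 y).mp hzy
          have h6 := (hadjP z' h3 y').mp hzy'
          rw [har z h1, har z' h3, h5, h6] at h
          have h7 : z = z' := by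
            apply j4 (u (par x)) (vv u) z h1 z' h3
            have a1 := g7 (u (par x)) _ (j2 (u (par x)) (vv u) z h1) _
              (j2 (u (par x)) (vv u) z' h3)
            have a2 : |j (u (par x)) (vv u) z - j (u (par x)) (vv u) z'| < (N : ℤ) := by
              have a3 := abs_nonneg (j (u (par x)) (vv u) z - j (u (par x)) (vv u) z')
              omega
            apply med_small (N := N) a2
            push_cast at h ⊢
            linear_combination -h
          exact ⟨h7, by rw [h5, h6, h7]⟩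

end Pool.Agent.Lib.MP_7c15de_co.AS
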