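import Pool.Agent.Lib.MP_7c15de_co.AS.Stm

/-!
# MP_7c15de_co, piece `place`: positions of the intervals of the heavy vertices
-/

set_option autoImplicit false

namespace Pool.Agent.Lib.MP_7c15de_co.AS

open Finset Pool.Agent.Lib.MP_7c15de_co Pool.Agent.Lib.MP_7c15de_co.TH

private lemma place_off {V : Type} [DecidableEq V] (M : Finset V) (N : V → ℕ) :
    ∃ off : V → ℕ, (∀ x ∈ M, off x + N x ≤ ∑ z ∈ M, N z) ∧
      ∀ x ∈ M, ∀ x' ∈ M, x ≠ x' → off x + N x ≤ off x' ∨ off x' + N x' ≤ off x := by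
  induction M using Finset.induction_on with
  | empty => exact ⟨fun _ => 0, by simp, by simp⟩
  | insert a s ha ih =>
    obtain ⟨off, h1, h2⟩ := ih
    refine ⟨Function.update off a (∑ z ∈ s, N z), ?_, ?_⟩
    · intro x hx
      rw [Finset.sum_insert ha]
      rcases Finset.mem_insert.mp hx with hxa | hx2
      · rw [hxa, Function.update_self]; omega
      · have hne : x ≠ a := fun e => ha (e ▸ hx2)
        rw [Function.update_of_ne hne]
        have := h1 x hx2
        omega
    · intro x hx x' hx' hne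
      rcases Finset.mem_insert.mp hx with hxa | hx2
      · rcases Finset.mem_insert.mp hx' with hxa' | hx2'
        · exact absurd (hxa.trans hxa'.symm) hne
        · have hne' : x' ≠ a := fun e => ha (e ▸ hx2')
          rw [hxa, Function.update_self, Function.update_of_ne hne']
          right; exact h1 x' hx2'
      · have hne1 : x ≠ a := fun e => ha (e ▸ hx2)
        rcases Finset.mem_insert.mp hx' with hxa' | hx2'
        · rw [hxa', Function.update_self, Function.update_of_ne hne1]
          left; exact h1 x hx2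
        · have hne' : x' ≠ a := fun e => ha (e ▸ hx2')
          rw [Function.update_of_ne hne1, Function.update_of_ne hne']
          exact h2 x hx2 x' hx2' hne

open Classical in
private lemma place_bad (N d c o l : ℕ) (hN : 0 < N) (hdN : d ≤ N) (hc : c + 1 ≤ d) :
    ((range l).filter (fun h => ¬ ∃ t, c + h + o ≤ t * N ∧ t * N + c + 1 ≤ c + h + o + d)).card
      ≤ (N - d + c) * (l / N + 1) := by
  have key : ((range l).filter
      (fun h => ¬ ∃ t, c + h + o ≤ t * N ∧ t * N + c + 1 ≤ c + h + o + d)).card ≤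
      ((Icc 1 (N - d + c)) ×ˢ (range (l / N + 1))).card := by
    apply Finset.card_le_card_of_injOn (fun h => ((c + h + o) % N, h / N))
    · intro h hh
      rw [mem_coe, mem_filter, mem_range] at hh
      obtain ⟨h1, h2⟩ := hh
      have hA := Nat.div_add_mod (c + h + o) N
      have hlt := Nat.mod_lt (c + h + o) hN
      simp only [mem_coe, mem_product, mem_Icc, mem_range]
      refine ⟨⟨?_, ?_⟩, ?_⟩
      · by_contra h0
        have h0' : (c + h + o) % N = 0 := by omega
        apply h2
        refine ⟨(c + h + o) / N, ?_, ?_⟩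
        · rw [mul_comm]; omega
        · rw [mul_comm]; omega
      · by_contra h3
        apply h2
        refine ⟨(c + h + o) / N + 1, ?_, ?_⟩
        · rw [add_mul, mul_comm ((c + h + o) / N) N]; omega
        · rw [add_mul, mul_comm ((c + h + o) / N) N]; omega
      · exact Nat.lt_succ_of_le (Nat.div_le_div_right h1.le)
    · intro h _ h' _ heq
      simp only [Prod.mk.injEq] at heq
      obtain ⟨e1, e2⟩ := heq
      have e3 : h ≡ h' [MOD N] := by
        have e4 : c + h + o ≡ c + h' + o [MOD N] := e1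
        exact (Nat.ModEq.add_left_cancel' c (Nat.ModEq.add_right_cancel' o e4))
      have a1 := Nat.div_add_mod h N
      have a2 := Nat.div_add_mod h' N
      have e5 : h % N = h' % N := e3
      rw [← a1, ← a2, e2, e5]
  rwa [card_product, Nat.card_Icc, card_range, Nat.add_sub_cancel] at key

private lemma place_num (S : ℝ) (h : S = 2 ∨ S = 3 ∨ 4 ≤ S) :
    1 / S + 3 / 100 ≤ (2 / 5 + 1 / (S + 1)) ^ 2 := by
  rcases h with rfl | rfl | h
  · norm_num
  · norm_num
  · have h1 : 0 < S := by linarith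
    have h2 : 0 < S + 1 := by linarith
    have h3 : 1 / S + 3 / 100 ≤ 4 / 25 + (4 / 5) * (1 / (S + 1)) := by
      rw [div_add_div _ _ h1.ne' (by norm_num), mul_one_div, div_add_div _ _ (by norm_num) h2.ne',
        div_le_div_iff₀ (by positivity) (by positivity)]
      nlinarith [mul_nonneg (sub_nonneg.mpr h) (sub_nonneg.mpr h)]
    have h4 : 0 ≤ (1 / (S + 1)) ^ 2 := by positivity
    nlinarith

theorem p_place : S_place := by
  intro C c hC
  refine ⟨100 * (c + C * ((C + 1) * c) + 1) + C * (c + 1) + 1, ?_⟩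
  intro k hk hdvd V _ H d hd hsum
  classical
  rcases H.eq_empty_or_nonempty with rfl | hne
  · exact ⟨fun _ => 0, fun _ => 0, k, k, k, k, by omega, le_rfl, le_rfl, le_rfl, le_rfl,
      by simp, by simp, by simp, by simp⟩
  obtain ⟨x1, hx1, hmax⟩ := H.exists_max_image d hne
  have hk0 : 0 < k := by omega
  have hfact : ∀ x ∈ H, 0 < d x ∧ 2 ≤ k / d x ∧ k / d x < C ∧ (k / d x) * (k / (k / d x)) = k ∧
      d x ≤ k / (k / d x) ∧ k < (k / d x + 1) * d x ∧ c + 1 ≤ d x := by
    intro x hx
    obtain ⟨h1, h2⟩ := hd x hx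
    have h3 : 0 < d x := by
      rcases Nat.eq_zero_or_pos (d x) with h | h
      · rw [h] at h1; omega
      · exact h
    have h4 : 2 ≤ k / d x := (Nat.le_div_iff_mul_le h3).mpr h2
    have h5 : k / d x < C := (Nat.div_lt_iff_lt_mul h3).mpr h1
    have h6 : (k / d x) * (k / (k / d x)) = k :=
      Nat.mul_div_cancel' (hdvd _ (by omega) h5.le)
    have h7 : d x ≤ k / (k / d x) := by
      rw [Nat.le_div_iff_mul_le (by omega), mul_comm]
      exact Nat.div_mul_le_self k (d x)
    have h8 : k < (k / d x + 1) * d x := by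
      have e1 := Nat.div_add_mod k (d x)
      have e2 := Nat.mod_lt k h3
      rw [add_mul, mul_comm (k / d x)]; omega
    refine ⟨h3, h4, h5, h6, h7, h8, ?_⟩
    by_contra h9
    have h10 : C * d x ≤ C * (c + 1) := Nat.mul_le_mul_left _ (by omega)
    omega
  obtain ⟨f1, f2, f3, f4, f5, f6, f7⟩ := hfact x1 hx1
  set s1 := k / d x1 with hs1
  set N1 := k / s1 with hN1
  set H' := H.erase x1 with hH'
  set D' := ∑ x ∈ H', d x with hD'
  have hDD : ∑ x ∈ H, d x = D' + d x1 := (Finset.sum_erase_add H d hx1).symm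
  obtain ⟨o, ho1, ho2⟩ := place_off H' d
  -- real inequalities
  have hKpos : (0 : ℝ) < k := by exact_mod_cast hk0
  have hS2 : (2 : ℝ) ≤ s1 := by exact_mod_cast f2
  have hS0 : (0 : ℝ) < s1 := by linarith
  have r1 : (s1 : ℝ) * N1 = k := by exact_mod_cast f4
  have r2 : (k : ℝ) < (s1 + 1) * d x1 := by exact_mod_cast f6
  have r3 : 5 * ((D' : ℝ) + d x1) ≤ 3 * k := by
    rw [hDD] at hsum; exact_mod_cast hsum
  have r4 : (k : ℝ) * (2 / 5 + 1 / (s1 + 1)) ≤ k - D' := by
    have e1 : (k : ℝ) * (1 / (s1 + 1)) ≤ d x1 := by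
      rw [mul_one_div, div_le_iff₀ (by linarith)]; linarith
    nlinarith
  have r5 : (k : ℝ) * (N1 + 3 / 100 * k) ≤ (k - D') ^ 2 := by
    have e1 : 1 / (s1 : ℝ) + 3 / 100 ≤ (2 / 5 + 1 / ((s1 : ℝ) + 1)) ^ 2 := by
      apply place_num
      have : s1 = 2 ∨ s1 = 3 ∨ 4 ≤ s1 := by omega
      rcases this with h | h | h
      · left; rw [h]; norm_num
      · right; left; rw [h]; norm_num
      · right; right; exact_mod_cast h
    have e2 : (k : ℝ) * (N1 + 3 / 100 * k) = k ^ 2 * (1 / s1 + 3 / 100) := by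
      have : (N1 : ℝ) = k * (1 / s1) := by
        rw [mul_one_div, eq_div_iff hS0.ne', mul_comm]; exact r1
      rw [this]; ring
    rw [e2]
    calc (k : ℝ) ^ 2 * (1 / s1 + 3 / 100) ≤ k ^ 2 * (2 / 5 + 1 / ((s1 : ℝ) + 1)) ^ 2 := by gcongr
      _ = (k * (2 / 5 + 1 / ((s1 : ℝ) + 1))) ^ 2 := by ring
      _ ≤ (k - D') ^ 2 := by
        apply pow_le_pow_left₀ _ r4
        positivity
  set E : ℕ := C * ((C + 1) * c) with hE
  have r6 : (100 : ℝ) * (c + E + 1) ≤ k := by
    have : 100 * (c + E + 1) ≤ k := by omega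
    exact_mod_cast this
  have hc0 : (0 : ℝ) ≤ c := Nat.cast_nonneg _
  have hE0 : (0 : ℝ) ≤ E := Nat.cast_nonneg _
  have hD0 : (0 : ℝ) ≤ D' := Nat.cast_nonneg _
  have hN0 : (0 : ℝ) ≤ N1 := Nat.cast_nonneg _
  have hd0 : (0 : ℝ) ≤ d x1 := Nat.cast_nonneg _
  have r7 : (N1 : ℝ) + c + 1 ≤ k - D' := by
    by_contra h
    push Not at h
    have e1 : 0 ≤ (k : ℝ) - D' := by linarith
    have e2 : ((k : ℝ) - D') ^ 2 ≤ k * (k - D') := by nlinarith
    have e3 : (k : ℝ) * (N1 + 3 / 100 * k) ≤ k * (k - D') := le_trans r5 e2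
    have e4 : (N1 : ℝ) + 3 / 100 * k ≤ k - D' := le_of_mul_le_mul_left e3 hKpos
    linarith
  have n7 : N1 + c + 1 + D' ≤ k := by
    have : (N1 : ℝ) + c + 1 + D' ≤ k := by linarith
    exact_mod_cast this
  obtain ⟨l, hl⟩ : ∃ l, l + (N1 + D' + c) = k + 1 := ⟨k + 1 - (N1 + D' + c), by omega⟩
  have hlr : (l : ℝ) = k + 1 - (N1 + D' + c) := by
    have : (l : ℝ) + (N1 + D' + c) = k + 1 := by exact_mod_cast hl
    linarith
  have hl0 : (0 : ℝ) ≤ l := Nat.cast_nonneg _
  have hlk : (l : ℝ) ≤ k := by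
    have : 1 ≤ N1 := by
      rcases Nat.eq_zero_or_pos N1 with h | h
      · rw [h] at f4; omega
      · exact h
    have : (1 : ℝ) ≤ N1 := by exact_mod_cast this
    rw [hlr]; linarith
  have r8 : (l : ℝ) * D' / k + D' / s1 + E < l := by
    have e1 : (l : ℝ) * D' + D' * N1 + E * k < l * k := by
      have e2 : (k - N1 - D' - c : ℝ) * (k - D') ≤ l * (k - D') := by
        apply mul_le_mul_of_nonneg_right _ (by linarith)
        rw [hlr]; linarith
      nlinarith
    have e3 : (D' : ℝ) / s1 = D' * N1 / k := by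
      rw [div_eq_div_iff hS0.ne' hKpos.ne', ← r1]; ring
    rw [e3]
    have e4 : (l : ℝ) * D' / k + D' * N1 / k + E = (l * D' + D' * N1 + E * k) / k := by
      field_simp
    rw [e4, div_lt_iff₀ hKpos]
    exact e1
  -- the number of the elements of `H'`
  have hcard : H'.card ≤ C := by
    have e1 : H'.card * k ≤ C * D' := by
      rw [hD', Finset.mul_sum, ← smul_eq_mul, ← Finset.sum_const]
      apply Finset.sum_le_sum
      intro x hx
      exact (hd x (Finset.mem_of_mem_erase hx)).1.le
    have e2 : C * D' ≤ C * k := Nat.mul_le_mul_left _ (by omega)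
    exact Nat.le_of_mul_le_mul_right (e1.trans e2) hk0
  -- the bad positions
  let bad : V → Finset ℕ := fun x => (range l).filter (fun h => ¬ ∃ t,
    c + h + o x ≤ t * (k / (k / d x)) ∧ t * (k / (k / d x)) + c + 1 ≤ c + h + o x + d x)
  have hbad : ∀ x ∈ H', ((bad x).card : ℝ) ≤ l * d x / k + d x / s1 + ((C + 1) * c : ℕ) := by
    intro x hx
    have hxH := Finset.mem_of_mem_erase hx
    obtain ⟨g1, g2, g3, g4, g5, g6, g7⟩ := hfact x hxH
    have b1 := place_bad (k / (k / d x)) (d x) c (o x) l (by omega) g5 g7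
    have b2 : ((bad x).card : ℝ) ≤ ((k / (k / d x) - d x + c : ℕ) : ℝ) * ((l / (k / (k / d x)) + 1 : ℕ) : ℝ) := by
      exact_mod_cast b1
    set s := k / d x with hs
    set N := k / s with hN
    have hss : s1 ≤ s := Nat.div_le_div_left (hmax x hxH) g1
    have q1 : ((N - d x + c : ℕ) : ℝ) = N - d x + c := by
      rw [Nat.cast_add, Nat.cast_sub g5]
    have hNpos : (0 : ℝ) < N := by
      have : 0 < N := by omega
      exact_mod_cast this
    have q2 : ((l / N + 1 : ℕ) : ℝ) ≤ l / N + 1 := by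
      rw [Nat.cast_add, Nat.cast_one]
      have := @Nat.cast_div_le ℝ _ _ _ l N
      linarith
    have hsR : (s1 : ℝ) ≤ s := by exact_mod_cast hss
    have hs0 : (0 : ℝ) < s := lt_of_lt_of_le hS0 hsR
    have q3 : (s : ℝ) * N = k := by exact_mod_cast g4
    have q4 : (k : ℝ) < (s + 1) * d x := by exact_mod_cast g6
    have q5 : (d x : ℝ) ≤ N := by exact_mod_cast g5
    have hdx0 : (0 : ℝ) ≤ d x := Nat.cast_nonneg _
    have q6 : (s : ℝ) * (N - d x) ≤ d x := by nlinarith
    have q7 : (N : ℝ) - d x ≤ d x / s1 := by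
      rw [le_div_iff₀ hS0]
      have : ((N : ℝ) - d x) * s1 ≤ (N - d x) * s := mul_le_mul_of_nonneg_left hsR (by linarith)
      linarith
    have q8 : ((N : ℝ) - d x) * (l / N) ≤ l * d x / k := by
      rw [← q3]
      rw [mul_div_assoc', div_le_div_iff₀ hNpos (by positivity)]
      have : (l : ℝ) * N * (s * (N - d x)) ≤ l * N * d x := by
        apply mul_le_mul_of_nonneg_left q6; positivity
      nlinarith
    have q9 : (c : ℝ) * (l / N) ≤ c * C := by
      apply mul_le_mul_of_nonneg_left _ hc0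
      rw [div_le_iff₀ hNpos]
      have e1 : (s : ℝ) ≤ C := by exact_mod_cast g3.le
      have e2 : (s : ℝ) * N ≤ C * N := mul_le_mul_of_nonneg_right e1 hNpos.le
      linarith
    have q10 : (0 : ℝ) ≤ N - d x + c := by linarith
    calc ((bad x).card : ℝ) ≤ ((N - d x + c : ℕ) : ℝ) * ((l / N + 1 : ℕ) : ℝ) := b2
      _ ≤ (N - d x + c) * (l / N + 1) := by
        rw [q1]; exact mul_le_mul_of_nonneg_left q2 q10
      _ = (N - d x) * (l / N) + (N - d x) + c * (l / N) + c := by ring
      _ ≤ l * d x / k + d x / s1 + c * C + c := by linarith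
      _ = l * d x / k + d x / s1 + ((C + 1) * c : ℕ) := by push_cast; ring
  have hunion : (H'.biUnion bad).card < l := by
    have e1 : ((H'.biUnion bad).card : ℝ) ≤ ∑ x ∈ H', ((bad x).card : ℝ) := by
      exact_mod_cast Finset.card_biUnion_le
    have e2 : ∑ x ∈ H', ((bad x).card : ℝ) ≤
        ∑ x ∈ H', ((l : ℝ) * d x / k + d x / s1 + ((C + 1) * c : ℕ)) := Finset.sum_le_sum hbad
    have e3 : ∑ x ∈ H', ((l : ℝ) * d x / k + d x / s1 + ((C + 1) * c : ℕ)) =
        l * D' / k + D' / s1 + H'.card * ((C + 1) * c : ℕ) := by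
      rw [Finset.sum_add_distrib, Finset.sum_add_distrib, Finset.sum_const, nsmul_eq_mul,
        ← Finset.sum_div, ← Finset.sum_div, ← Finset.mul_sum, hD', Nat.cast_sum]
    have e4 : (H'.card : ℝ) * ((C + 1) * c : ℕ) ≤ E := by
      rw [hE]
      have : H'.card * ((C + 1) * c) ≤ C * ((C + 1) * c) := Nat.mul_le_mul_right _ hcard
      exact_mod_cast this
    have e5 : ((H'.biUnion bad).card : ℝ) < l := by linarith
    exact_mod_cast e5
  obtain ⟨h, hh1, hh2⟩ : ∃ h ∈ range l, h ∉ H'.biUnion bad := by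
    apply Finset.exists_mem_notMem_of_card_lt_card
    rwa [Finset.card_range]
  rw [mem_range] at hh1
  have hgood : ∀ x ∈ H', ∃ t, c + h + o x ≤ t * (k / (k / d x)) ∧
      t * (k / (k / d x)) + c + 1 ≤ c + h + o x + d x := by
    intro x hx
    by_contra hcon
    apply hh2
    rw [Finset.mem_biUnion]
    exact ⟨x, hx, Finset.mem_filter.mpr ⟨mem_range.mpr hh1, hcon⟩⟩
  choose! t ht using hgood
  have hmem : ∀ x ∈ H, x ≠ x1 → x ∈ H' := fun x hx hne => Finset.mem_erase.mpr ⟨hne, hx⟩
  have hsN : (s1 - 1) * N1 + N1 = k := by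
    rw [← Nat.succ_mul, Nat.succ_eq_add_one, Nat.sub_add_cancel (by omega)]; exact f4
  refine ⟨fun x => if x = x1 then (s1 - 1) * N1 else c + h + o x,
    fun x => if x = x1 then s1 - 1 else t x, c + h, c + h + D', (s1 - 1) * N1,
    (s1 - 1) * N1 + d x1, by omega, by omega, by omega, by omega, by omega, by omega, ?_, ?_, ?_⟩
  · intro x hx
    by_cases hxx : x = x1
    · right
      simp only [hxx, if_true]
      exact ⟨le_rfl, le_rfl⟩
    · left
      simp only [hxx, if_false]
      have := ho1 x (hmem x hx hxx)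
      omega
  · intro x hx x' hx' hne
    by_cases hxx : x = x1
    · by_cases hxx' : x' = x1
      · exact absurd (hxx.trans hxx'.symm) hne
      · right
        simp only [hxx, hxx', if_true, if_false]
        have := ho1 x' (hmem x' hx' hxx')
        omega
    · by_cases hxx' : x' = x1
      · left
        simp only [hxx, hxx', if_true, if_false]
        have := ho1 x (hmem x hx hxx)
        omega
      · simp only [hxx, hxx', if_false]
        have := ho2 x (hmem x hx hxx) x' (hmem x' hx' hxx') hne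
        omega
  · intro x hx
    by_cases hxx : x = x1
    · subst hxx
      simp only [if_true]
      refine ⟨le_rfl, ?_⟩
      have : (s1 - 1) * (k / (k / d x)) = (s1 - 1) * N1 := rfl
      omega
    · simp only [hxx, if_false]
      exact ht x (hmem x hx hxx)

end Pool.Agent.Lib.MP_7c15de_co.AS
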