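import Pool.Agent.Lib.MP_7c15de_co.AS.Stm
import Pool.Agent.Lib.MP_7c15de_co.TH.P_dg

/-!
# MP_7c15de_co, piece plan2
-/

set_option autoImplicit false

namespace Pool.Agent.Lib.MP_7c15de_co.AS

open Finset Pool.Agent.Lib.MP_7c15de_co Pool.Agent.Lib.MP_7c15de_co.TH

private theorem choose_few {V : Type} [DecidableEq V] (S R : Finset V) (q : ℕ)
    (h : 4 * q ≤ S.card) : ∃ P ⊆ S, P.card = q ∧ 3 * (P ∩ R).card ≤ (S ∩ R).card := by
  have hcard : (S ∩ R).card + (S \ R).card = S.card := Finset.card_inter_add_card_sdiff S R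
  by_cases hq : q ≤ (S \ R).card
  · obtain ⟨P, hP, hPc⟩ := Finset.exists_subset_card_eq hq
    refine ⟨P, hP.trans Finset.sdiff_subset, hPc, ?_⟩
    have : P ∩ R = ∅ := by
      rw [← Finset.disjoint_iff_inter_eq_empty, Finset.disjoint_left]
      intro z hz
      exact (Finset.mem_sdiff.mp (hP hz)).2
    rw [this]
    simp
  · obtain ⟨P, hP1, hP2, hPc⟩ := Finset.exists_subsuperset_card_eq
      (Finset.sdiff_subset : S \ R ⊆ S) (show (S \ R).card ≤ q by omega)
      (show q ≤ S.card by omega)
    refine ⟨P, hP2, hPc, ?_⟩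
    have h1 : (P ∩ R).card + (P \ R).card = P.card := Finset.card_inter_add_card_sdiff P R
    have h2 : (S \ R).card ≤ (P \ R).card := by
      apply Finset.card_le_card
      intro z hz
      exact Finset.mem_sdiff.mpr ⟨hP1 hz, (Finset.mem_sdiff.mp hz).2⟩
    omega

theorem p_plan2 : S_plan2 := by
  classical
  intro V _ instV T hT X hbip hXY r0 y0 hr0X hr0dg hr0y0 Mst Rv Spf q hMst hq
  obtain ⟨dg1, -, -, dg4, -, dg6⟩ := TH.p_dg V T
  have hy0 : ∀ y, T.Adj r0 y ↔ y = y0 := dg6 r0 y0 hr0dg hr0y0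
  obtain ⟨par, hparr, hpar, hadj⟩ := parent_exists T hT r0
  have hy0adj : T.Adj r0 y0 := (hy0 y0).mpr rfl
  have hy0X : y0 ∉ X := (hbip r0 y0 hy0adj).mp hr0X
  have hy0r : y0 ≠ r0 := fun h => hy0X (h ▸ hr0X)
  have hpary0 : par y0 = r0 := by
    rcases hadj r0 y0 hy0adj with h | h
    · exact absurd rfl h.1
    · exact h.2
  have hparr0 : ∀ c, c ≠ r0 → par c = r0 → c = y0 := by
    intro c hc h
    have := (hpar c hc).1
    rw [h] at this
    exact (hy0 c).mp this.symm
  set dep : V → ℕ := fun v => T.dist r0 v with hdep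
  have hdepr : ∀ v, v ≠ r0 → dep v = dep (par v) + 1 := fun v hv => (hpar v hv).2
  have hdeple : ∀ (i : ℕ) v, dep (par^[i] v) ≤ dep v := by
    intro i
    induction i with
    | zero => intro v; simp
    | succ i ih =>
      intro v
      rw [Function.iterate_succ_apply]
      refine (ih (par v)).trans ?_
      by_cases hv : v = r0
      · rw [hv, hparr]
      · have := hdepr v hv
        omega
  have hiter_r : ∀ i : ℕ, par^[i] r0 = r0 := fun i => Function.iterate_fixed hparr i
  let chl : V → Finset V := fun x => Finset.univ.filter (fun c => c ≠ r0 ∧ par c = x)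
  have mem_chl : ∀ x c, c ∈ chl x ↔ c ≠ r0 ∧ par c = x := by
    intro x c
    simp [chl]
  let Desc : V → V → Prop := fun v w => ∃ i : ℕ, par^[i] w = v
  have desc_refl : ∀ v, Desc v v := fun v => ⟨0, rfl⟩
  have desc_trans : ∀ a b c, Desc a b → Desc b c → Desc a c := by
    rintro a b c ⟨i, hi⟩ ⟨j, hj⟩
    refine ⟨i + j, ?_⟩
    rw [Function.iterate_add_apply, hj, hi]
  have desc_par : ∀ v, Desc (par v) v := fun v => ⟨1, rfl⟩
  have chl_r0 : chl r0 ≠ ∅ := by
    intro h
    have : y0 ∈ chl r0 := (mem_chl r0 y0).mpr ⟨hy0r, hpary0⟩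
    rw [h] at this
    simp at this
  -- a descendant without children
  have leaf_desc : ∀ v, v ≠ r0 → ∃ w, chl w = ∅ ∧ Desc v w := by
    intro v hv
    obtain ⟨w, hw, hmax⟩ := Finset.exists_max_image (Finset.univ.filter (fun w => Desc v w)) dep
      ⟨v, Finset.mem_filter.mpr ⟨Finset.mem_univ v, desc_refl v⟩⟩
    rw [Finset.mem_filter] at hw
    refine ⟨w, ?_, hw.2⟩
    by_contra hne
    obtain ⟨c, hc⟩ := Finset.nonempty_iff_ne_empty.mpr hne
    rw [mem_chl] at hc
    have h1 : Desc v c := by
      apply desc_trans _ w _ hw.2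
      rw [← hc.2]
      exact desc_par c
    have h2 := hmax c (Finset.mem_filter.mpr ⟨Finset.mem_univ c, h1⟩)
    have h3 := hdepr c hc.1
    rw [hc.2] at h3
    omega
  have leaf_self : ∀ v w, chl v = ∅ → Desc v w → w = v := by
    rintro v w hv ⟨i, hi⟩
    rcases Nat.eq_zero_or_pos i with h | h
    · rw [h] at hi
      exact hi
    · exfalso
      obtain ⟨j, rfl⟩ : ∃ j, i = j + 1 := ⟨i - 1, by omega⟩
      rw [Function.iterate_succ_apply'] at hi
      by_cases hz : par^[j] w = r0
      · rw [hz, hparr] at hi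
        rw [← hi] at hv
        exact chl_r0 hv
      · have : par^[j] w ∈ chl v := (mem_chl _ _).mpr ⟨hz, hi⟩
        rw [hv] at this
        simp at this
  -- the leaves in X and the indices
  let LX : Finset V := X.filter (fun w => chl w = ∅)
  let eX : LX ≃ Fin LX.card := LX.equivFin
  let eV : V ≃ Fin (Fintype.card V) := Fintype.equivFin V
  let idx : V → ℕ := fun w => if h : w ∈ LX then (eX ⟨w, h⟩ : ℕ) + 1
    else LX.card + 1 + (eV w : ℕ)
  have idx1 : ∀ w (h : w ∈ LX), idx w = (eX ⟨w, h⟩ : ℕ) + 1 := fun w h => dif_pos h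
  have idx2 : ∀ w, w ∉ LX → idx w = LX.card + 1 + (eV w : ℕ) := fun w h => dif_neg h
  have idx_inj : ∀ w w', idx w = idx w' → w = w' := by
    intro w w' h
    by_cases h1 : w ∈ LX <;> by_cases h2 : w' ∈ LX
    · rw [idx1 w h1, idx1 w' h2] at h
      have h3 : eX ⟨w, h1⟩ = eX ⟨w', h2⟩ := by
        ext
        omega
      exact congrArg Subtype.val (eX.injective h3)
    · rw [idx1 w h1, idx2 w' h2] at h
      have := (eX ⟨w, h1⟩).isLt
      omega
    · rw [idx2 w h1, idx1 w' h2] at h
      have := (eX ⟨w', h2⟩).isLt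
      omega
    · rw [idx2 w h1, idx2 w' h2] at h
      apply eV.injective
      ext
      omega
  have idx_pos : ∀ w, 1 ≤ idx w := by
    intro w
    by_cases h1 : w ∈ LX
    · rw [idx1 w h1]
      omega
    · rw [idx2 w h1]
      omega
  -- the order of exploration
  let tset : V → Set ℕ := fun v => {j | ∃ w, chl w = ∅ ∧ Desc v w ∧ idx w = j}
  let t : V → ℕ := fun v => sInf (tset v)
  have t_le : ∀ v w, chl w = ∅ → Desc v w → t v ≤ idx w :=
    fun v w h1 h2 => Nat.sInf_le ⟨w, h1, h2, rfl⟩
  have t_mem : ∀ v, v ≠ r0 → ∃ w, chl w = ∅ ∧ Desc v w ∧ idx w = t v := by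
    intro v hv
    obtain ⟨w, h1, h2⟩ := leaf_desc v hv
    have : t v ∈ tset v := Nat.sInf_mem ⟨idx w, w, h1, h2, rfl⟩
    exact this
  have t_mono : ∀ v v', v' ≠ r0 → Desc v v' → t v ≤ t v' := by
    intro v v' hv' h
    obtain ⟨w, h1, h2, h3⟩ := t_mem v' hv'
    rw [← h3]
    exact t_le v w h1 (desc_trans _ _ _ h h2)
  have t_pos : ∀ v, v ≠ r0 → 1 ≤ t v := by
    intro v hv
    obtain ⟨w, _, _, h3⟩ := t_mem v hv
    rw [← h3]
    exact idx_pos w
  have t_leaf : ∀ w, chl w = ∅ → t w = idx w := by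
    intro w hw
    have hwr : w ≠ r0 := fun h => chl_r0 (h ▸ hw)
    obtain ⟨w', h1, h2, h3⟩ := t_mem w hwr
    rw [leaf_self w w' hw h2] at h3
    exact h3.symm
  have comp : ∀ c c', c ≠ r0 → c' ≠ r0 → t c = t c' →
      (∃ i, par^[i] c = c') ∨ (∃ i, par^[i] c' = c) := by
    intro c c' hc hc' h
    obtain ⟨w, _, ⟨i, hi⟩, h3⟩ := t_mem c hc
    obtain ⟨w', _, ⟨j, hj⟩, h3'⟩ := t_mem c' hc'
    have hww : w = w' := idx_inj _ _ (by rw [h3, h3', h])
    subst hww
    rcases le_total i j with hij | hij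
    · left
      refine ⟨j - i, ?_⟩
      rw [← hi, ← Function.iterate_add_apply, ← hj]
      congr 1
      omega
    · right
      refine ⟨i - j, ?_⟩
      rw [← hj, ← Function.iterate_add_apply, ← hi]
      congr 1
      omega
  -- injectivity on the tops
  have top_aux : ∀ c c', c ≠ r0 → c' ≠ r0 → par c ≠ r0 → t (par c) < t c → t c = t c' →
      (∃ i, par^[i] c = c') → c = c' := by
    rintro c c' hc hc' hpc hlt h ⟨i, hi⟩
    rcases Nat.eq_zero_or_pos i with h0 | h0
    · rw [h0] at hi
      exact hi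
    · exfalso
      obtain ⟨j, rfl⟩ : ∃ j, i = j + 1 := ⟨i - 1, by omega⟩
      rw [Function.iterate_succ_apply] at hi
      have h1 : t c' ≤ t (par c) := t_mono c' (par c) hpc ⟨j, hi⟩
      omega
  have top_inj : ∀ c c', c ≠ r0 → c' ≠ r0 → par c ≠ r0 → par c' ≠ r0 → t (par c) < t c →
      t (par c') < t c' → t c = t c' → c = c' := by
    intro c c' hc hc' hpc hpc' hlt hlt' h
    rcases comp c c' hc hc' h with h1 | h1
    · exact top_aux c c' hc hc' hpc hlt h h1
    · exact (top_aux c' c hc' hc hpc' hlt' h.symm h1).symm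
  have sib_aux : ∀ c c', c ≠ r0 → c' ≠ r0 → par c = par c' → (∃ i, par^[i] c = c') → c = c' := by
    rintro c c' hc hc' hpp ⟨i, hi⟩
    rcases Nat.eq_zero_or_pos i with h0 | h0
    · rw [h0] at hi
      exact hi
    · exfalso
      obtain ⟨j, rfl⟩ : ∃ j, i = j + 1 := ⟨i - 1, by omega⟩
      rw [Function.iterate_succ_apply] at hi
      have h1 := hdeple j (par c)
      rw [hi] at h1
      have h2 := hdepr c' hc'
      rw [← hpp] at h2
      omega
  have sib_inj : ∀ c c', c ≠ r0 → c' ≠ r0 → par c = par c' → t c = t c' → c = c' := by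
    intro c c' hc hc' hpp h
    rcases comp c c' hc hc' h with h1 | h1
    · exact sib_aux c c' hc hc' hpp h1
    · exact (sib_aux c' c hc' hc hpp.symm h1).symm
  have first_ex : ∀ v, v ≠ r0 → chl v ≠ ∅ → ∃ c ∈ chl v, t c = t v := by
    intro v hv hne
    obtain ⟨w, hw, ⟨i, hi⟩, h3⟩ := t_mem v hv
    rcases Nat.eq_zero_or_pos i with h0 | h0
    · rw [h0] at hi
      exfalso
      apply hne
      rw [← hi]
      exact hw
    · obtain ⟨j, rfl⟩ : ∃ j, i = j + 1 := ⟨i - 1, by omega⟩
      rw [Function.iterate_succ_apply'] at hi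
      have hz : par^[j] w ≠ r0 := by
        intro hz
        rw [hz, hparr] at hi
        exact hv hi.symm
      refine ⟨par^[j] w, (mem_chl _ _).mpr ⟨hz, hi⟩, ?_⟩
      apply le_antisymm
      · rw [← h3]
        exact t_le _ w hw ⟨j, rfl⟩
      · apply t_mono _ _ hz
        rw [← hi]
        exact desc_par _
  -- mains
  let M : Finset V := X.filter (fun x => x ≠ r0 ∧ chl x ≠ ∅)
  have mem_M : ∀ x, x ∈ M ↔ x ∈ X ∧ x ≠ r0 ∧ chl x ≠ ∅ := by
    intro x
    simp [M]
  have mem_LX : ∀ x, x ∈ LX ↔ x ∈ X ∧ chl x = ∅ := by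
    intro x
    simp [LX]
  have par_side : ∀ c, c ≠ r0 → (c ∈ X ↔ par c ∉ X) := fun c hc => hbip c _ (hpar c hc).1
  have chl_side : ∀ x ∈ M, ∀ c ∈ chl x, c ∉ X ∧ c ≠ y0 ∧ par c = x := by
    intro x hx c hc
    rw [mem_M] at hx
    rw [mem_chl] at hc
    refine ⟨?_, ?_, hc.2⟩
    · intro h
      have := (par_side c hc.1).mp h
      rw [hc.2] at this
      exact this hx.1
    · rintro rfl
      rw [hpary0] at hc
      exact hx.2.1 hc.2.symm
  have adj_M : ∀ x, x ≠ r0 → ∀ y, T.Adj x y ↔ (y = par x ∨ y ∈ chl x) := by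
    intro x hx y
    constructor
    · intro h
      rcases hadj x y h with h1 | h1
      · exact Or.inl h1.2.symm
      · exact Or.inr ((mem_chl x y).mpr h1)
    · rintro (rfl | h)
      · exact (hpar x hx).1
      · rw [mem_chl] at h
        have := (hpar y h.1).1
        rw [h.2] at this
        exact this.symm
  have degM : ∀ x, x ≠ r0 → dg T x = (chl x).card + 1 := by
    intro x hx
    rw [dg4 x (insert (par x) (chl x)) (fun z => by
      rw [Finset.mem_insert]
      exact adj_M x hx z), Finset.card_insert_of_notMem]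
    intro hmem
    rw [mem_chl] at hmem
    have h1 := hdepr _ hmem.1
    rw [hmem.2] at h1
    have h2 := hdepr x hx
    omega
  -- the set A of the later children
  let A : Finset V := Finset.univ.filter (fun c => c ∉ X ∧ c ≠ y0 ∧ t (par c) < t c)
  have mem_A : ∀ c, c ∈ A ↔ c ∉ X ∧ c ≠ y0 ∧ t (par c) < t c := by
    intro c
    simp [A]
  have nX_r : ∀ c, c ∉ X → c ≠ r0 := fun c hc h => hc (h ▸ hr0X)
  have A_par : ∀ c, c ∉ X → c ≠ y0 → par c ∈ M ∧ c ∈ chl (par c) := by
    intro c hc hcy
    have hcr := nX_r c hc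
    have h1 : par c ≠ r0 := fun h => hcy (hparr0 c hcr h)
    have h2 : c ∈ chl (par c) := (mem_chl _ _).mpr ⟨hcr, rfl⟩
    refine ⟨?_, h2⟩
    rw [mem_M]
    refine ⟨?_, h1, Finset.ne_empty_of_mem h2⟩
    by_contra h3
    exact hc ((par_side c hcr).mpr h3)
  have A_inj : ∀ a ∈ A, ∀ b ∈ A, t a = t b → a = b := by
    intro a ha b hb h
    rw [mem_A] at ha hb
    have h1 := A_par a ha.1 ha.2.1
    have h2 := A_par b hb.1 hb.2.1
    rw [mem_M] at h1 h2
    exact top_inj a b (nX_r a ha.1) (nX_r b hb.1) h1.1.2.1 h2.1.2.1 ha.2.2 hb.2.2 h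
  have A_card : A.card ≤ LX.card := by
    -- first children
    have hfirst : ∀ x, ∃ c, x ∈ M → c ∈ chl x ∧ t c = t x := by
      intro x
      by_cases hx : x ∈ M
      · have h := (mem_M x).mp hx
        obtain ⟨c, h1, h2⟩ := first_ex x h.2.1 h.2.2
        exact ⟨c, fun _ => ⟨h1, h2⟩⟩
      · exact ⟨x, fun h => absurd h hx⟩
    choose fc hfc using hfirst
    have h1 : M.image fc ⊆ (Xᶜ.erase y0) \ A := by
      intro c hc
      rw [Finset.mem_image] at hc
      obtain ⟨x, hx, rfl⟩ := hc
      obtain ⟨h1, h2⟩ := hfc x hx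
      obtain ⟨h3, h4, h5⟩ := chl_side x hx _ h1
      rw [Finset.mem_sdiff, Finset.mem_erase, Finset.mem_compl, mem_A]
      refine ⟨⟨h4, h3⟩, ?_⟩
      rintro ⟨_, _, h6⟩
      rw [h5, h2] at h6
      exact lt_irrefl _ h6
    have h2 : (M.image fc).card = M.card := by
      apply Finset.card_image_of_injOn
      intro x hx x' hx' h
      have e1 := (chl_side x hx _ (hfc x hx).1).2.2
      have e2 := (chl_side x' hx' _ (hfc x' hx').1).2.2
      have h' : fc x = fc x' := h
      rw [← e1, ← e2, h']
    have h3 : A ⊆ Xᶜ.erase y0 := by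
      intro c hc
      rw [mem_A] at hc
      rw [Finset.mem_erase, Finset.mem_compl]
      exact ⟨hc.2.1, hc.1⟩
    have h4 := Finset.card_le_card h1
    rw [h2, Finset.card_sdiff_of_subset h3] at h4
    have h5 := Finset.card_le_card h3
    have h6 : (Xᶜ.erase y0).card = Xᶜ.card - 1 :=
      Finset.card_erase_of_mem (Finset.mem_compl.mpr hy0X)
    have h7 : X.card = M.card + LX.card + 1 := by
      have e1 : X = insert r0 (M ∪ LX) := by
        ext z
        rw [Finset.mem_insert, Finset.mem_union, mem_M, mem_LX]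
        constructor
        · intro hz
          by_cases hzr : z = r0
          · exact Or.inl hzr
          · by_cases hch : chl z = ∅
            · exact Or.inr (Or.inr ⟨hz, hch⟩)
            · exact Or.inr (Or.inl ⟨hz, hzr, hch⟩)
        · rintro (h | h | h)
          · rw [h]
            exact hr0X
          · exact h.1
          · exact h.1
      have e2 : r0 ∉ M ∪ LX := by
        rw [Finset.mem_union, mem_M, mem_LX]
        rintro (h | h)
        · exact h.2.1 rfl
        · exact chl_r0 h.2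
      have e3 : Disjoint M LX := by
        rw [Finset.disjoint_left]
        intro z hz hz'
        rw [mem_M] at hz
        rw [mem_LX] at hz'
        exact hz.2.2 hz'.2
      have e4 := congrArg Finset.card e1
      rw [Finset.card_insert_of_notMem e2, Finset.card_union_of_disjoint e3] at e4
      exact e4
    have h8 : 1 ≤ Xᶜ.card := by
      rw [Nat.one_le_iff_ne_zero, ← Nat.pos_iff_ne_zero, Finset.card_pos]
      exact ⟨y0, Finset.mem_compl.mpr hy0X⟩
    omega
  -- ranks in A
  let rk : V → ℕ := fun c => (A.filter (fun z => t z ≤ t c)).card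
  obtain ⟨rk1, rk2⟩ := rank_spec A t A_inj
  have rk_lt : ∀ c ∈ A, rk c < t c := by
    intro c hc
    have h1 : (A.filter (fun z => t z ≤ t c)).image t ⊆ Finset.Icc 2 (t c) := by
      intro j hj
      rw [Finset.mem_image] at hj
      obtain ⟨z, hz, rfl⟩ := hj
      rw [Finset.mem_filter, mem_A] at hz
      rw [Finset.mem_Icc]
      have h2 := (mem_M _).mp (A_par z hz.1.1 hz.1.2.1).1
      have h3 := t_pos (par z) h2.2.1
      omega
    have h2 : ((A.filter (fun z => t z ≤ t c)).image t).card = rk c := by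
      apply Finset.card_image_of_injOn
      intro a ha b hb hab
      exact A_inj a (Finset.mem_filter.mp ha).1 b (Finset.mem_filter.mp hb).1 hab
    have h3 := Finset.card_le_card h1
    rw [h2, Nat.card_Icc] at h3
    have h4 := (rk1 c hc).1
    have h5 : 1 ≤ rk c := h4
    omega
  -- the leaf attached to an element of A
  have hleafOf : ∀ c, ∃ w, c ∈ A → w ∈ LX ∧ idx w = rk c := by
    intro c
    by_cases hc : c ∈ A
    · have h1 := rk1 c hc
      have h2 : rk c - 1 < LX.card := by
        have : 1 ≤ rk c := h1.1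
        have h3 : rk c ≤ A.card := h1.2
        omega
      refine ⟨(eX.symm ⟨rk c - 1, h2⟩).1, fun _ => ⟨(eX.symm ⟨rk c - 1, h2⟩).2, ?_⟩⟩
      rw [idx1 _ (eX.symm ⟨rk c - 1, h2⟩).2]
      simp only [Subtype.coe_eta, Equiv.apply_symm_apply]
      have : 1 ≤ rk c := h1.1
      omega
    · exact ⟨c, fun h => absurd h hc⟩
  choose lf hlf using hleafOf
  have lf_inj : ∀ c ∈ A, ∀ c' ∈ A, lf c = lf c' → c = c' := by
    intro c hc c' hc' h
    apply rk2 c hc c' hc'
    have h1 := (hlf c hc).2
    have h2 := (hlf c' hc').2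
    rw [h] at h1
    exact h1.symm.trans h2
  -- how many later children
  have later : ∀ x ∈ M, (chl x).card ≤ ((chl x).filter (fun c => c ∈ A)).card + 1 := by
    intro x hx
    have h1 := Finset.card_filter_add_card_filter_not (s := chl x) (fun c => c ∈ A)
    have h2 : ((chl x).filter (fun c => ¬ c ∈ A)).card ≤ 1 := by
      rw [Finset.card_le_one]
      intro a ha b hb
      rw [Finset.mem_filter] at ha hb
      have e1 := chl_side x hx a ha.1
      have e2 := chl_side x hx b hb.1
      have hxr := ((mem_M x).mp hx).2.1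
      have ta : t a = t x := by
        apply le_antisymm
        · by_contra hcon
          apply ha.2
          rw [mem_A]
          refine ⟨e1.1, e1.2.1, ?_⟩
          rw [e1.2.2]
          omega
        · apply t_mono _ _ (nX_r a e1.1)
          rw [← e1.2.2]
          exact desc_par a
      have tb : t b = t x := by
        apply le_antisymm
        · by_contra hcon
          apply hb.2
          rw [mem_A]
          refine ⟨e2.1, e2.2.1, ?_⟩
          rw [e2.2.2]
          omega
        · apply t_mono _ _ (nX_r b e2.1)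
          rw [← e2.2.2]
          exact desc_par b
      exact sib_inj a b (nX_r a e1.1) (nX_r b e2.1) (e1.2.2.trans e2.2.2.symm) (ta.trans tb.symm)
    omega
  have hK' : ∀ v, dep v < ∑ v, dep v + 1 := by
    intro v
    have := Finset.single_le_sum (f := dep) (fun z _ => Nat.zero_le _) (Finset.mem_univ v)
    omega
  obtain ⟨K, hK⟩ : ∃ K : ℕ, ∀ v, dep v < K := ⟨_, hK'⟩
  let par' : V → V := Function.update par r0 y0
  have par'_r0 : par' r0 = y0 := Function.update_self ..
  have par'_ne : ∀ v, v ≠ r0 → par' v = par v := fun v hv => Function.update_of_ne hv ..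
  have Mst_M : ∀ x ∈ Mst, x ∈ M := by
    intro x hx
    have h1 := hq par' x hx
    have h2 : x ≠ r0 := by
      rintro rfl
      omega
    rw [mem_M]
    refine ⟨hMst hx, h2, ?_⟩
    intro h3
    have h4 := degM x h2
    rw [h3, Finset.card_empty] at h4
    omega
  -- the last child
  have hlast : ∀ x, ∃ c, x ∈ Mst → (c ∈ chl x ∧ c ∉ Spf par' ∧
      ∀ c' ∈ chl x, c' ∉ Spf par' → t c' ≤ t c) := by
    intro x
    by_cases hx : x ∈ Mst
    · have hxM := Mst_M x hx
      have h1 := hq par' x hx
      have h2 := degM x ((mem_M x).mp hxM).2.1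
      have h3 : ((chl x) \ Spf par').Nonempty := by
        rw [← Finset.card_pos]
        have h4 := Finset.le_card_sdiff (Spf par') (chl x)
        omega
      obtain ⟨c, h4, h5⟩ := Finset.exists_max_image _ t h3
      rw [Finset.mem_sdiff] at h4
      exact ⟨c, fun _ => ⟨h4.1, h4.2, fun c' hc' hc'' =>
        h5 c' (Finset.mem_sdiff.mpr ⟨hc', hc''⟩)⟩⟩
    · exact ⟨x, fun h => absurd h hx⟩
  choose last hlast using hlast
  let A' : V → Finset V := fun x => ((chl x).filter (fun c => c ∈ A)).filter (fun c => t c ≤ t (last x))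
  have mem_A' : ∀ x c, c ∈ A' x ↔ (c ∈ chl x ∧ c ∈ A) ∧ t c ≤ t (last x) := by
    intro x c
    simp only [A', Finset.mem_filter]
  have A'_card : ∀ x ∈ Mst, 4 * q x ≤ (A' x).card := by
    intro x hx
    have hxM := Mst_M x hx
    have h1 := hq par' x hx
    have h2 := degM x ((mem_M x).mp hxM).2.1
    have h3 := later x hxM
    have h4 : (chl x).filter (fun c => c ∈ A) ⊆ A' x ∪ Spf par' := by
      intro c hc
      rw [Finset.mem_union, mem_A']
      by_cases hcs : c ∈ Spf par'
      · exact Or.inr hcs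
      · left
        rw [Finset.mem_filter] at hc
        exact ⟨hc, (hlast x hx).2.2 c hc.1 hcs⟩
    have h5 := Finset.card_le_card h4
    have h6 := Finset.card_union_le (A' x) (Spf par')
    omega
  have lf_injA' : ∀ x, Set.InjOn lf (A' x : Set V) := by
    intro x c hc c' hc' h
    exact lf_inj c ((mem_A' x c).mp hc).1.2 c' ((mem_A' x c').mp hc').1.2 h
  let S : V → Finset V := fun x => (A' x).image lf
  have S_card : ∀ x, (S x).card = (A' x).card := fun x => Finset.card_image_of_injOn (lf_injA' x)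
  have hPex : ∀ x, ∃ P : Finset V, (x ∈ Mst → P ⊆ S x ∧ P.card = q x ∧
      3 * (P ∩ Rv).card ≤ (S x ∩ Rv).card) ∧ (x ∉ Mst → P = ∅) := by
    intro x
    by_cases hx : x ∈ Mst
    · obtain ⟨P, h1, h2, h3⟩ := choose_few (S x) Rv (q x) (by
        rw [S_card]
        exact A'_card x hx)
      exact ⟨P, fun _ => ⟨h1, h2, h3⟩, fun h => absurd hx h⟩
    · exact ⟨∅, fun h => absurd h hx, fun _ => rfl⟩
  choose P hP hP' using hPex
  have S_disj : ∀ x ∈ Mst, ∀ x' ∈ Mst, ∀ r, r ∈ S x → r ∈ S x' → x = x' := by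
    intro x hx x' hx' r hr hr'
    rw [Finset.mem_image] at hr hr'
    obtain ⟨c, hc, h1⟩ := hr
    obtain ⟨c', hc', h1'⟩ := hr'
    rw [mem_A'] at hc hc'
    have h3 := lf_inj c hc.1.2 c' hc'.1.2 (h1.trans h1'.symm)
    rw [← (chl_side x (Mst_M x hx) c hc.1.1).2.2,
      ← (chl_side x' (Mst_M x' hx') c' hc'.1.1).2.2, h3]
  have P_S : ∀ x ∈ Mst, ∀ r ∈ P x, r ∈ S x := fun x hx r hr => (hP x hx).1 hr
  have P_Mst : ∀ x r, r ∈ P x → x ∈ Mst := by
    intro x r hr
    by_contra h
    rw [hP' x h] at hr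
    simp at hr
  refine ⟨par', fun v => t v * K + dep v, last, P, ?_, ?_, hP', ?_, ?_, ?_⟩
  · refine ⟨hy0X, ?_, ?_, ?_, ?_⟩
    · intro x hx
      by_cases hxr : x = r0
      · rw [hxr, par'_r0]
        exact hy0X
      · rw [par'_ne x hxr]
        exact (par_side x hxr).mp hx
    · intro y hy hyy
      rw [par'_ne y (nX_r y hy)]
      exact ((mem_M _).mp (A_par y hy hyy).1).1
    · intro x hx y
      by_cases hxr : x = r0
      · rw [hxr, par'_r0, hy0]
        constructor
        · exact Or.inl
        · rintro (h | ⟨h1, h2, h3⟩)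
          · exact h
          · rw [par'_ne y (nX_r y h1)] at h3
            exact hparr0 y (nX_r y h1) h3
      · rw [par'_ne x hxr, adj_M x hxr]
        constructor
        · rintro (h | h)
          · exact Or.inl h
          · right
            rw [mem_chl] at h
            have h1 : y ∉ X := by
              intro hy
              have := (par_side y h.1).mp hy
              rw [h.2] at this
              exact this hx
            refine ⟨h1, ?_, ?_⟩
            · rintro rfl
              rw [hpary0] at h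
              exact hxr h.2.symm
            · rw [par'_ne y h.1]
              exact h.2
        · rintro (h | ⟨h1, h2, h3⟩)
          · exact Or.inl h
          · right
            rw [par'_ne y (nX_r y h1)] at h3
            exact (mem_chl x y).mpr ⟨nX_r y h1, h3⟩
    · intro c hcX hcy
      have hcr := nX_r c hcX
      obtain ⟨hM, hchl⟩ := A_par c hcX hcy
      have hxr := ((mem_M _).mp hM).2.1
      rw [par'_ne c hcr, par'_ne (par c) hxr]
      have h2 := hdepr c hcr
      have h3 := hdepr (par c) hxr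
      have h4 : t (par (par c)) ≤ t c := by
        apply t_mono _ _ hcr
        refine ⟨2, ?_⟩
        rw [Function.iterate_succ_apply, Function.iterate_one]
      have h5 : t (par (par c)) * K ≤ t c * K := Nat.mul_le_mul_right K h4
      show t (par (par c)) * K + dep (par (par c)) < t c * K + dep c
      omega
  · intro x hx
    have h1 := hlast x hx
    have h2 := chl_side x (Mst_M x hx) _ h1.1
    refine ⟨?_, h1.2.1, (hP x hx).2.1⟩
    rw [kids, Finset.mem_filter]
    refine ⟨Finset.mem_univ _, h2.1, h2.2.1, ?_⟩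
    rw [par'_ne _ (nX_r _ h2.1)]
    exact h2.2.2
  · intro x hx r hr
    have h0 := P_S x hx r hr
    rw [Finset.mem_image] at h0
    obtain ⟨c, hc, h1⟩ := h0
    rw [mem_A'] at hc
    have h3 := hlf c hc.1.2
    rw [h1] at h3
    have h4 := (mem_LX r).mp h3.1
    have hrr : r ≠ r0 := by
      rintro rfl
      exact chl_r0 h4.2
    refine ⟨h4.1, ?_, ?_⟩
    · rw [degM r hrr, h4.2, Finset.card_empty]
    · have h5 : t (par r) ≤ t r := t_mono _ _ hrr (desc_par r)
      have h6 : t r = idx r := t_leaf r h4.2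
      have h7 := rk_lt c hc.1.2
      have h8 := hc.2
      have h9 : (t (par r) + 1) * K ≤ t (last x) * K := Nat.mul_le_mul_right K (by omega)
      have h10 := hK (par r)
      rw [par'_ne r hrr]
      show t (par r) * K + dep (par r) < t (last x) * K + dep (last x)
      rw [Nat.add_mul, Nat.one_mul] at h9
      omega
  · intro x x' r hr hr'
    have hx := P_Mst x r hr
    have hx' := P_Mst x' r hr'
    exact S_disj x hx x' hx' r (P_S x hx r hr) (P_S x' hx' r hr')
  · have h1 : Mst.biUnion P ∩ Rv = Mst.biUnion (fun x => P x ∩ Rv) := by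
      rw [Finset.biUnion_inter]
    have h2 : (Mst.biUnion P ∩ Rv).card ≤ ∑ x ∈ Mst, (P x ∩ Rv).card := by
      rw [h1]
      exact Finset.card_biUnion_le
    have h3 : ∑ x ∈ Mst, (S x ∩ Rv).card = (Mst.biUnion (fun x => S x ∩ Rv)).card := by
      rw [Finset.card_biUnion]
      intro x hx x' hx' hne
      rw [Function.onFun, Finset.disjoint_left]
      intro r hr hr'
      rw [Finset.mem_inter] at hr hr'
      exact hne (S_disj x hx x' hx' r hr.1 hr'.1)
    have h4 : (Mst.biUnion (fun x => S x ∩ Rv)).card ≤ Rv.card := by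
      apply Finset.card_le_card
      intro r hr
      rw [Finset.mem_biUnion] at hr
      obtain ⟨x, -, hr⟩ := hr
      exact (Finset.mem_inter.mp hr).2
    have h5 : ∑ x ∈ Mst, 3 * (P x ∩ Rv).card ≤ ∑ x ∈ Mst, (S x ∩ Rv).card :=
      Finset.sum_le_sum (fun x hx => (hP x hx).2.2)
    rw [← Finset.mul_sum] at h5
    omega

end Pool.Agent.Lib.MP_7c15de_co.AS
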