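import Pool.Agent.Lib.MP_7c15de_co.AS.Stm
import Pool.Agent.Lib.MP_7c15de_co.TH.Final

set_option autoImplicit false

namespace Pool.Agent.Lib.MP_7c15de_co.AS

open Finset Pool.Agent.Lib.MP_7c15de_co Pool.Agent.Lib.MP_7c15de_co.TH

theorem p_prm : S_prm := by
  intro ε hε hε1
  obtain ⟨δ, hδdef⟩ : ∃ δ : ℝ, δ = ε / 50 := ⟨_, rfl⟩
  have hδ0 : 0 < δ := by rw [hδdef]; positivity
  have hδ1 : δ ≤ 1 := by rw [hδdef]; linarith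
  obtain ⟨C0, hC0⟩ := exists_nat_ge (100 / ε + 4 / δ + 100)
  have h100 : 0 ≤ 100 / ε := by positivity
  have h4 : 0 ≤ 4 / δ := by positivity
  have hCε : 100 / ε ≤ (C0 : ℝ) := by linarith
  have hCδ : 4 / δ ≤ (C0 : ℝ) := by linarith
  have hC100 : (100 : ℝ) ≤ (C0 : ℝ) := by linarith
  have hC100n : 100 ≤ C0 := by exact_mod_cast hC100
  obtain ⟨C1, hC1def⟩ : ∃ C1 : ℕ, C1 = 1000 * C0 ^ 2 := ⟨_, rfl⟩
  have hC1C : C0 ≤ C1 := by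
    rw [hC1def]; nlinarith
  have hC1pos : 1 ≤ C1 := by omega
  obtain ⟨J, hJ⟩ := TH.final_game C1 δ hδ0
  obtain ⟨M0, hM0def⟩ : ∃ M0 : ℕ, M0 = (Nat.factorial C1) ^ (J + 1) := ⟨_, rfl⟩
  have hM0pos : 0 < M0 := by rw [hM0def]; positivity
  have hdv : ∀ d, 2 ≤ d → d < C1 → d ^ (J + 1) ∣ M0 := by
    intro d hd hdC
    rw [hM0def]
    exact pow_dvd_pow_of_dvd (Nat.dvd_factorial (by omega) hdC.le) _
  obtain ⟨K, Bf, hB, hG⟩ := hJ M0 hM0pos hdv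
  refine ⟨δ, C0, C1, J, M0, K, Bf, ⟨hε, hε1, ?_, hδ0, hδdef.le, hC1def.ge, ?_, ?_, hdv, hB, hG⟩⟩
  · rw [div_le_iff₀ hε] at hCε
    linarith
  · rw [hM0def]
    calc C1 ≤ Nat.factorial C1 := Nat.self_le_factorial C1
      _ = (Nat.factorial C1) ^ 1 := (pow_one _).symm
      _ ≤ (Nat.factorial C1) ^ (J + 1) :=
          Nat.pow_le_pow_right (Nat.factorial_pos C1) (by omega)
  · intro d N hd hN
    have hCc : ((C0 - 1 : ℕ) : ℝ) = (C0 : ℝ) - 1 := by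
      rw [Nat.cast_sub (by omega)]; simp
    have hNr : ((C0 : ℝ) - 1) * (N : ℝ) ≤ (C0 : ℝ) * (d : ℝ) := by
      rw [← hCc]; exact_mod_cast hN
    have hdC : (C0 : ℝ) ≤ (d : ℝ) := by exact_mod_cast hC1C.trans hd
    have hδC : 4 ≤ (C0 : ℝ) * δ := by
      rwa [div_le_iff₀ hδ0] at hCδ
    have hCpos : (0 : ℝ) < (C0 : ℝ) - 1 := by linarith
    -- `C ≤ (1 + δ / 2) (C - 1)`
    have h1 : (C0 : ℝ) ≤ (1 + δ / 2) * ((C0 : ℝ) - 1) := by nlinarith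
    have hd0 : (0 : ℝ) ≤ (d : ℝ) := by positivity
    have h2 : ((C0 : ℝ) - 1) * (N : ℝ) ≤ ((C0 : ℝ) - 1) * ((1 + δ / 2) * (d : ℝ)) := by
      calc ((C0 : ℝ) - 1) * (N : ℝ) ≤ (C0 : ℝ) * (d : ℝ) := hNr
        _ ≤ ((1 + δ / 2) * ((C0 : ℝ) - 1)) * (d : ℝ) := mul_le_mul_of_nonneg_right h1 hd0
        _ = ((C0 : ℝ) - 1) * ((1 + δ / 2) * (d : ℝ)) := by ring
    have h3 : (N : ℝ) ≤ (1 + δ / 2) * (d : ℝ) := le_of_mul_le_mul_left h2 hCpos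
    have h4' : (C0 : ℝ) * δ ≤ (d : ℝ) * δ := mul_le_mul_of_nonneg_right hdC hδ0.le
    nlinarith

end Pool.Agent.Lib.MP_7c15de_co.AS
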