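import Pool.Agent.Lib.MP_7c15de_co.AS.Stm
import Pool.Agent.Lib.MP_7c15de_co.TH.P_dg

/-!
# MP_7c15de_co, [AS rt]: basic facts on rooted structures
-/

set_option autoImplicit false

namespace Pool.Agent.Lib.MP_7c15de_co.AS

open Finset Pool.Agent.Lib.MP_7c15de_co Pool.Agent.Lib.MP_7c15de_co.TH

theorem p_rt : S_rt := by
  intro V _ _ T X y0 par μ hX R
  have hdg := TH.p_dg V T
  obtain ⟨-, -, -, hcard, -, -⟩ := hdg
  have memk : ∀ x y, y ∈ kids X y0 par x ↔ y ∉ X ∧ y ≠ y0 ∧ par y = x := by
    intro x y
    simp [kids]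
  have c2 : ∀ x ∈ X, par x ∉ kids X y0 par x := by
    intro x hx h
    rw [memk] at h
    obtain ⟨h1, h2, h3⟩ := h
    have := R.lt (par x) h1 h2
    rw [h3] at this
    exact lt_irrefl _ this
  have c1 : ∀ x ∈ X, dg T x = (kids X y0 par x).card + 1 := by
    intro x hx
    rw [hcard x (insert (par x) (kids X y0 par x)), Finset.card_insert_of_notMem (c2 x hx)]
    intro y
    rw [R.adj x hx y, Finset.mem_insert, memk]
  have c4 : ∀ y ∉ X, ∀ x, T.Adj y x ↔ (x ∈ X ∧ par x = y) ∨ (y ≠ y0 ∧ x = par y) := by
    intro y hy x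
    constructor
    · intro h
      have hx : x ∈ X := (hX x y h.symm).2 hy
      rcases (R.adj x hx y).1 h.symm with h1 | ⟨-, h2, h3⟩
      · exact Or.inl ⟨hx, h1.symm⟩
      · exact Or.inr ⟨h2, h3.symm⟩
    · rintro (⟨hx, h⟩ | ⟨h1, h2⟩)
      · exact ((R.adj x hx y).2 (Or.inl h.symm)).symm
      · have hx : x ∈ X := by rw [h2]; exact R.parY y hy h1
        exact ((R.adj x hx y).2 (Or.inr ⟨hy, h1, h2.symm⟩)).symm
  refine ⟨c1, c2, ?_, c4, ?_, ?_, ?_⟩
  · intro y hy
    by_cases hy0 : y = y0
    · rw [if_pos hy0, add_zero]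
      refine hcard y _ ?_
      intro x
      rw [c4 y hy x, Finset.mem_filter]
      constructor
      · rintro (h | ⟨h, -⟩)
        · exact h
        · exact absurd hy0 h
      · intro h
        exact Or.inl h
    · rw [if_neg hy0]
      have hn : par y ∉ X.filter (fun x => par x = y) := by
        intro h
        have h1 := (Finset.mem_filter.1 h).2
        have h2 := R.lt y hy hy0
        rw [h1] at h2
        exact lt_irrefl _ h2
      rw [hcard y (insert (par y) (X.filter (fun x => par x = y))),
        Finset.card_insert_of_notMem hn]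
      intro x
      rw [c4 y hy x, Finset.mem_insert, Finset.mem_filter]
      constructor
      · rintro (h | ⟨-, h⟩)
        · exact Or.inr h
        · exact Or.inl h
      · rintro (h | h)
        · exact Or.inr ⟨hy0, h⟩
        · exact Or.inl h
  · intro y hy hy0
    rw [c1 (par y) (R.parY y hy hy0)]
    have h : y ∈ kids X y0 par (par y) := (memk _ _).2 ⟨hy, hy0, rfl⟩
    have := Finset.card_pos.2 ⟨y, h⟩
    omega
  · intro x hx h1 y
    rw [c1 x hx] at h1
    have h2 : kids X y0 par x = ∅ := Finset.card_eq_zero.1 (by omega)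
    rw [R.adj x hx y]
    constructor
    · rintro (h | h)
      · exact h
      · have h3 := (memk x y).2 h
        rw [h2] at h3
        exact absurd h3 (Finset.notMem_empty _)
    · intro h
      exact Or.inl h
  · have h1 : ∑ x ∈ X, (dg T x - 1) = ∑ x ∈ X, (kids X y0 par x).card := by
      refine Finset.sum_congr rfl fun x hx => ?_
      rw [c1 x hx]
      omega
    have h2 : (Xᶜ.erase y0).card = ∑ x ∈ X, ((Xᶜ.erase y0).filter (fun y => par y = x)).card := by
      refine Finset.card_eq_sum_card_fiberwise ?_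
      intro y hy
      have hy' := Finset.mem_coe.1 hy
      rw [Finset.mem_erase, Finset.mem_compl] at hy'
      exact Finset.mem_coe.2 (R.parY y hy'.2 hy'.1)
    have h3 : ∀ x ∈ X, ((Xᶜ.erase y0).filter (fun y => par y = x)).card =
        (kids X y0 par x).card := by
      intro x hx
      refine congrArg Finset.card ?_
      ext y
      rw [Finset.mem_filter, Finset.mem_erase, Finset.mem_compl, memk]
      tauto
    rw [Finset.sum_congr rfl h3] at h2
    have h4 : (Xᶜ.erase y0).card + 1 = Xᶜ.card :=
      Finset.card_erase_add_one (Finset.mem_compl.2 R.y0X)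
    omega

end Pool.Agent.Lib.MP_7c15de_co.AS
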