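import Pool.Agent.Lib.MP_7c15de_co.AS.Stm
import Pool.Agent.Lib.MP_7c15de_co.TH.P_enum

/-!
# MP_7c15de_co: the piece `seq` (sorted fillers)
-/

set_option autoImplicit false

namespace Pool.Agent.Lib.MP_7c15de_co.AS

open Finset Pool.Agent.Lib.MP_7c15de_co Pool.Agent.Lib.MP_7c15de_co.TH

private theorem seq_core {V : Type} [DecidableEq V] (N p : ℕ) (S : Finset V) (v : V → ℤ)
    (W : Finset ℤ) (x : ℕ → V) (w : ℕ → ℤ) (j : ℕ → ℕ)
    (hxS : ∀ i < S.card, x i ∈ S) (hxi : ∀ i < S.card, ∀ i' < S.card, x i = x i' → i = i')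
    (hwW : ∀ i < p, w i ∈ W) (hw : ∀ i i', i < i' → i' < p → w i' < w i)
    (hj : ∀ i < p, j i < S.card) (hjm : ∀ i i', i < i' → i' < p → j i < j i')
    (hinc : ∀ i i', i < i' → i' < p → v (x (j i)) - w i < v (x (j i')) - w i')
    (hran : ∀ i < p, ∀ i' < p, v (x (j i)) - w i - (v (x (j i')) - w i') < N)
    (hnd : ∀ i < p, ¬ v (x (j i)) - w i ≡ 0 [ZMOD N]) :
    ∃ (P : Finset V) (δ : V → ℤ), P ⊆ S ∧ P.card = p ∧ (∀ r ∈ P, δ r ∈ W) ∧
      (∀ r ∈ P, ∀ r' ∈ P, δ r = δ r' → r = r') ∧
      (∀ r ∈ P, ∀ r' ∈ P, v r - δ r ≡ v r' - δ r' [ZMOD N] → r = r') ∧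
      ∀ r ∈ P, ¬ v r - δ r ≡ 0 [ZMOD N] := by
  classical
  have hji : ∀ i < p, ∀ i' < p, x (j i) = x (j i') → i = i' := by
    intro i hi i' hi' h
    have h1 := hxi _ (hj i hi) _ (hj i' hi') h
    rcases lt_trichotomy i i' with h2 | h2 | h2
    · have := hjm i i' h2 hi'; omega
    · exact h2
    · have := hjm i' i h2 hi; omega
  set P : Finset V := (range p).image (fun i => x (j i)) with hP
  have hmem : ∀ r ∈ P, ∃ i, i < p ∧ x (j i) = r := by
    intro r hr
    rw [hP, mem_image] at hr
    obtain ⟨i, hi, rfl⟩ := hr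
    exact ⟨i, mem_range.mp hi, rfl⟩
  choose! idx hidx using hmem
  refine ⟨P, fun r => w (idx r), ?_, ?_, ?_, ?_, ?_, ?_⟩
  · intro r hr
    obtain ⟨h1, h2⟩ := hidx r hr
    rw [← h2]
    exact hxS _ (hj _ h1)
  · rw [hP, card_image_of_injOn, card_range]
    intro a ha b hb hab
    exact hji a (by simpa using ha) b (by simpa using hb) hab
  · intro r hr
    exact hwW _ (hidx r hr).1
  · intro r hr r' hr' h
    obtain ⟨h1, h2⟩ := hidx r hr
    obtain ⟨h1', h2'⟩ := hidx r' hr'
    have h3 : idx r = idx r' := by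
      rcases lt_trichotomy (idx r) (idx r') with h4 | h4 | h4
      · have := hw _ _ h4 h1'; simp only at h; omega
      · exact h4
      · have := hw _ _ h4 h1; simp only at h; omega
    rw [← h2, ← h2', h3]
  · intro r hr r' hr' h
    obtain ⟨h1, h2⟩ := hidx r hr
    obtain ⟨h1', h2'⟩ := hidx r' hr'
    have key : ∀ i i', i < i' → i' < p →
        ¬ (v (x (j i)) - w i ≡ v (x (j i')) - w i' [ZMOD N]) := by
      intro i i' hii hi' hmod
      have h5 := hinc i i' hii hi'
      have h6 := hran i' hi' i (hii.trans hi')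
      have h7 := hmod.dvd
      have h8 := Int.eq_zero_of_abs_lt_dvd h7 (by rw [abs_lt]; constructor <;> omega)
      omega
    rcases lt_trichotomy (idx r) (idx r') with h4 | h4 | h4
    · exfalso
      apply key _ _ h4 h1'
      rw [h2, h2']; exact h
    · rw [← h2, ← h2', h4]
    · exfalso
      apply key _ _ h4 h1
      rw [h2, h2']; exact h.symm
  · intro r hr
    obtain ⟨h1, h2⟩ := hidx r hr
    have := hnd _ h1
    rw [h2] at this
    exact this

theorem p_seq : S_seq := by
  classical
  intro V _ N p β S v e w0 W hWc hW hS hpβ hβ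
  rcases Nat.eq_zero_or_pos p with hp0 | hp0
  · subst hp0
    exact ⟨∅, fun _ => 0, by simp, by simp, by simp, by simp, by simp, by simp⟩
  have hSpos : 0 < S.card := by omega
  obtain ⟨s0, hs0⟩ := card_pos.mp hSpos
  have : Nonempty V := ⟨s0⟩
  obtain ⟨x, hx1, hx2, hx3, hx4⟩ := TH.p_enum V S (fun r => (v r - e).toNat)
  have hvm : ∀ i j : ℕ, i ≤ j → j < S.card → v (x i) ≤ v (x j) := by
    intro i j hij hj
    have h1 := hx4 i j hij hj
    have h2 := (hS _ (hx1 i (by omega))).1
    have h3 := (hS _ (hx1 j hj)).1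

    omega
  -- the decreasing enumeration of `W`
  obtain ⟨ws, hw1, hw2, hw3, hw4⟩ := TH.p_enum ℤ W (fun δ => (δ - w0).toNat)
  rw [hWc] at hw1 hw2 hw3 hw4
  have hwsm : ∀ i j : ℕ, i < j → j < p → ws i < ws j := by
    intro i j hij hj
    have h1 := hw4 i j hij.le hj
    have h2 := (hW _ (hw1 i (by omega))).1
    have h3 := (hW _ (hw1 j hj)).1

    rcases lt_or_ge (ws i) (ws j) with h | h
    · exact h
    · have : ws i = ws j := by omega
      have := hw3 i (by omega) j hj this
      omega
  set w : ℕ → ℤ := fun i => ws (p - 1 - i) with hwdef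
  have hwW : ∀ i < p, w i ∈ W := fun i hi => hw1 _ (by omega)
  have hwd : ∀ i i', i < i' → i' < p → w i' < w i := by
    intro i i' hii hi'
    exact hwsm _ _ (by omega) (by omega)
  have hran : ∀ a < S.card, ∀ b < S.card, ∀ i < p, ∀ i' < p,
      v (x a) - w i - (v (x b) - w i') < N := by
    intro a ha b hb i hi i' hi'
    have h1 := hS _ (hx1 a ha)
    have h2 := hS _ (hx1 b hb)
    have h3 := hW _ (hwW i hi)
    have h4 := hW _ (hwW i' hi')
    omega
  by_cases hex : ∃ i0, i0 < p ∧ v (x i0) - w i0 ≡ 0 [ZMOD N]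
  · obtain ⟨i0, hi0, hmod0⟩ := hex
    have hex1 : ∃ i1, i0 ≤ i1 ∧ (S.card ≤ i1 ∨ v (x i1) ≠ v (x i0)) :=
      ⟨S.card, by omega, Or.inl le_rfl⟩
    set i1 := Nat.find hex1 with hi1
    have hi1s := Nat.find_spec hex1
    rw [← hi1] at hi1s
    have hmin : ∀ i, i0 ≤ i → i < i1 → i < S.card ∧ v (x i) = v (x i0) := by
      intro i hi hlt
      have := Nat.find_min hex1 hlt
      push Not at this
      exact this hi
    have hc : i1 - i0 ≤ β := by
      have h1 := hβ (w i0) (hwW i0 hi0)
      have h2 : ((Ico i0 i1).image x).card = i1 - i0 := by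
        rw [card_image_of_injOn, Nat.card_Ico]
        intro a ha b hb hab
        simp only [coe_Ico, Set.mem_Ico] at ha hb
        exact hx3 a (hmin a ha.1 ha.2).1 b (hmin b hb.1 hb.2).1 hab
      have h3 : (Ico i0 i1).image x ⊆ S.filter (fun r => v r ≡ w i0 [ZMOD N]) := by
        intro r hr
        obtain ⟨i, hi, rfl⟩ := mem_image.mp hr
        rw [mem_Ico] at hi
        obtain ⟨h4, h5⟩ := hmin i hi.1 hi.2
        rw [mem_filter]
        refine ⟨hx1 i h4, ?_⟩
        rw [h5]
        have h6 := hmod0.add_right (w i0)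
        simpa using h6
      have := card_le_card h3
      omega
    have hgt : ∀ i, i1 ≤ i → i < S.card → v (x i0) < v (x i) := by
      intro i hi hlt
      have h1 : v (x i1) ≠ v (x i0) := by
        rcases hi1s.2 with h | h
        · omega
        · exact h
      have h2 := hvm i0 i1 hi1s.1 (by omega)
      have h3 := hvm i1 i hi hlt
      omega
    set j : ℕ → ℕ := fun i => if i < i0 then i else i + (i1 - i0) with hjdef
    have hj : ∀ i < p, j i < S.card := by
      intro i hi
      simp only [hjdef]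
      split_ifs <;> omega
    have hjm : ∀ i i', i < i' → i' < p → j i < j i' := by
      intro i i' hii hi'
      simp only [hjdef]
      split_ifs <;> omega
    have hinc : ∀ i i', i < i' → i' < p → v (x (j i)) - w i < v (x (j i')) - w i' := by
      intro i i' hii hi'
      have h1 := hvm (j i) (j i') (hjm i i' hii hi').le (hj i' hi')
      have h2 := hwd i i' hii hi'
      omega
    have hndaux : ∀ a : ℤ, a ≡ 0 [ZMOD N] → a - (v (x i0) - w i0) < N →
        (v (x i0) - w i0) - a < N → a = v (x i0) - w i0 := by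
      intro a ha h1 h2
      have h3 := (hmod0.trans ha.symm).dvd
      have h4 := Int.eq_zero_of_abs_lt_dvd h3 (by rw [abs_lt]; constructor <;> omega)
      omega
    have hi0S : i0 < S.card := by omega
    apply seq_core N p S v W x w j hx1 hx3 hwW hwd hj hjm hinc
    · intro i hi i' hi'
      exact hran _ (hj i hi) _ (hj i' hi') i hi i' hi'
    · intro i hi hmod
      have h1 := hndaux _ hmod (hran _ (hj i hi) _ hi0S i hi i0 hi0)
        (hran _ hi0S _ (hj i hi) i0 hi0 i hi)
      by_cases hii : i < i0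
      · have hji : j i = i := by simp [hjdef, hii]
        rw [hji] at h1
        have h2 := hvm i i0 hii.le hi0S
        have h3 := hwd i i0 hii hi0
        omega
      · have hji : j i = i + (i1 - i0) := by simp [hjdef, hii]
        have h2 := hgt (j i) (by omega) (hj i hi)
        have h3 : w i ≤ w i0 := by
          rcases eq_or_lt_of_le (not_lt.mp hii) with h | h
          · rw [h]
          · exact (hwd i0 i h hi).le
        omega
  · push Not at hex
    apply seq_core N p S v W x w (fun i => i) hx1 hx3 hwW hwd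
    · intro i hi; show i < S.card; omega
    · intro i i' hii _; exact hii
    · intro i i' hii hi'
      have h1 := hvm i i' hii.le (by omega)
      have h2 := hwd i i' hii hi'
      show v (x i) - w i < v (x i') - w i'
      omega
    · intro i hi i' hi'
      exact hran _ (by omega) _ (by omega) i hi i' hi'
    · intro i hi
      exact hex i hi

end Pool.Agent.Lib.MP_7c15de_co.AS
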