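import Pool.Agent.Lib.MP_7c15de_co.AS.Stm
import Pool.Agent.Lib.MP_7c15de_co.TH.Final

/-!
# MP_7c15de_co, `k(n) = (1 + o(1)) n`: piece [small]

The small vertices of one group.
-/

set_option autoImplicit false

namespace Pool.Agent.Lib.MP_7c15de_co.AS

open Finset Pool.Agent.Lib.MP_7c15de_co Pool.Agent.Lib.MP_7c15de_co.TH

private theorem mem_kids {V : Type} [Fintype V] [DecidableEq V] (X : Finset V) (y0 : V)
    (par : V → V) (x c : V) : c ∈ kids X y0 par x ↔ c ∉ X ∧ c ≠ y0 ∧ par c = x := by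
  unfold kids
  rw [Finset.mem_filter]
  exact ⟨fun h => h.2, fun h => ⟨Finset.mem_univ _, h⟩⟩

theorem p_small (hrt : S_rt) : S_small := by
  classical
  intro V _ _ T X y0 par μ hbip hRt C1 J M0 k B MS Sp gs sb hM0 hM0k hdv hMSX hMSd hgame
  obtain ⟨r1, r2, -⟩ := hrt V T X y0 par μ hbip hRt
  haveI : Nonempty V := ⟨y0⟩
  obtain ⟨xs, x1, x2, x3, x4⟩ := TH.p_enum V MS (fun v => μ (par v))
  have hdeg : ∀ s < MS.card, 2 ≤ dg T (xs s) ∧ dg T (xs s) < C1 := fun s hs => hMSd _ (x1 s hs)
  have hsum : ∑ s ∈ range MS.card, (dg T (xs s) - 1) = ∑ x ∈ MS, (dg T x - 1) := by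
    apply Finset.sum_bij (fun s _ => xs s)
    · intro s hs
      exact x1 s (Finset.mem_range.mp hs)
    · intro s hs s' hs' h
      exact x3 s (Finset.mem_range.mp hs) s' (Finset.mem_range.mp hs') h
    · intro x hx
      obtain ⟨s, hs, h⟩ := x2 x hx
      exact ⟨s, Finset.mem_range.mpr hs, h⟩
    · intro s _
      rfl
  obtain ⟨sc, lab, hG⟩ := hgame (fun s => dg T (xs s)) hdeg hsum
  -- the index of a vertex of MS
  have hsi : ∀ x, ∃ s, x ∈ MS → s < MS.card ∧ xs s = x := by
    intro x
    by_cases hx : x ∈ MS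
    · obtain ⟨s, hs, h⟩ := x2 x hx
      exact ⟨s, fun _ => ⟨hs, h⟩⟩
    · exact ⟨0, fun h => absurd h hx⟩
  choose si hsi using hsi
  -- numbering of the children
  let e : V ≃ Fin (Fintype.card V) := Fintype.equivFin V
  let idx : V → ℕ := fun c =>
    ((kids X y0 par (par c)).filter (fun z => (e z : ℕ) ≤ (e c : ℕ))).card
  have e_inj : ∀ (s : Finset V), ∀ a ∈ s, ∀ b ∈ s, (e a : ℕ) = (e b : ℕ) → a = b := by
    intro s a _ b _ h
    exact e.injective (Fin.ext h)
  have idx_spec : ∀ x, ∀ c ∈ kids X y0 par x, 1 ≤ idx c ∧ idx c ≤ (kids X y0 par x).card := by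
    intro x c hc
    have h := (rank_spec (kids X y0 par x) (fun z => (e z : ℕ)) (e_inj _)).1 c hc
    have hpc : par c = x := ((mem_kids X y0 par x c).mp hc).2.2
    simp only [idx, hpc]
    exact h
  have idx_inj : ∀ x, ∀ c ∈ kids X y0 par x, ∀ c' ∈ kids X y0 par x, idx c = idx c' → c = c' := by
    intro x c hc c' hc' h
    have hpc : par c = x := ((mem_kids X y0 par x c).mp hc).2.2
    have hpc' : par c' = x := ((mem_kids X y0 par x c').mp hc').2.2
    simp only [idx, hpc, hpc'] at h
    exact (rank_spec (kids X y0 par x) (fun z => (e z : ℕ)) (e_inj _)).2 c hc c' hc' h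
  let rho : (V → ℤ) → ℕ → ℤ := fun w t => w (par (xs t)) - sb
  let ell : (V → ℤ) → V → ℤ := fun w c => sb + lab (si (par c)) (rho w) (idx c)
  let G : (V → ℤ) → V → ℤ := fun w c =>
    if c ∈ Sp then gs c + (ell w c - gs c) % (M0 : ℤ) else ell w c
  have G1 : ∀ w c, c ∈ Sp → G w c = gs c + (ell w c - gs c) % (M0 : ℤ) := fun w c h => if_pos h
  have G2 : ∀ w c, c ∉ Sp → G w c = ell w c := fun w c h => if_neg h
  have hM0' : (0 : ℤ) < (M0 : ℤ) := by exact_mod_cast hM0
  -- facts on children of vertices of MS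
  have hidxlt : ∀ x ∈ MS, ∀ c ∈ kids X y0 par x, 1 ≤ idx c ∧ idx c < dg T (xs (si (par c))) ∧
      si (par c) < MS.card ∧ xs (si (par c)) = x := by
    intro x hx c hc
    have hpc : par c = x := ((mem_kids X y0 par x c).mp hc).2.2
    obtain ⟨h1, h2⟩ := hsi x hx
    obtain ⟨h3, h4⟩ := idx_spec x c hc
    have h5 := r1 x (hMSX hx)
    rw [hpc, h2]
    refine ⟨h3, ?_, h1, rfl⟩
    omega
  refine ⟨G, ?_, ?_, ?_, ?_, ?_⟩
  · -- dependence
    intro x hx c hc w w' hw
    obtain ⟨h1, h2, h3, h4⟩ := hidxlt x hx c hc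
    have hc' := (mem_kids X y0 par x c).mp hc
    have hlt : μ (par x) < μ c := by
      have := hRt.lt c hc'.1 hc'.2.1
      rw [hc'.2.2] at this
      exact this
    have hlab : lab (si (par c)) (rho w) = lab (si (par c)) (rho w') := by
      apply hG.nonant
      intro t ht
      have h5 := x4 t (si (par c)) ht h3
      have h5' : μ (par (xs t)) ≤ μ (par (xs (si (par c)))) := h5
      rw [h4] at h5'
      show w (par (xs t)) - sb = w' (par (xs t)) - sb
      rw [hw (par (xs t)) (lt_of_le_of_lt h5' hlt)]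
    have hell : ell w c = ell w' c := by
      show sb + lab (si (par c)) (rho w) (idx c) = sb + lab (si (par c)) (rho w') (idx c)
      rw [hlab]
    by_cases hcS : c ∈ Sp
    · rw [G1 w c hcS, G1 w' c hcS, hell]
    · rw [G2 w c hcS, G2 w' c hcS, hell]
  · -- special children
    intro x hx c hc w hcS
    rw [G1 w c hcS]
    have h1 := Int.emod_nonneg (ell w c - gs c) (ne_of_gt hM0')
    have h2 := Int.emod_lt_of_pos (ell w c - gs c) hM0'
    constructor <;> linarith
  · -- the other children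
    intro x hx c hc w hcS
    obtain ⟨h1, h2, h3, h4⟩ := hidxlt x hx c hc
    have hb := hG.bnd (si (par c)) h3 (rho w) (idx c) h1 h2
    rw [G2 w c hcS]
    show sb ≤ sb + lab (si (par c)) (rho w) (idx c) ∧
      sb + lab (si (par c)) (rho w) (idx c) < sb + ((M0 * B : ℕ) : ℤ)
    constructor
    · linarith [hb.1]
    · linarith [hb.2]
  · -- injectivity
    intro w x hx x' hx' c hc c' hc' hcS hcS' h
    rw [G2 w c hcS, G2 w c' hcS'] at h
    obtain ⟨h1, h2, h3, h4⟩ := hidxlt x hx c hc
    obtain ⟨h1', h2', h3', h4'⟩ := hidxlt x' hx' c' hc'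
    have h5 : lab (si (par c)) (rho w) (idx c) = lab (si (par c')) (rho w) (idx c') := by
      have h6 : sb + lab (si (par c)) (rho w) (idx c) =
        sb + lab (si (par c')) (rho w) (idx c') := h
      linarith
    obtain ⟨h7, h8⟩ := hG.inj (rho w) (si (par c)) h3 (si (par c')) h3' (idx c) (idx c')
      h1 h2 h1' h2' h5
    have h9 : x = x' := by
      rw [← h4, ← h4', h7]
    subst h9
    exact idx_inj x c hc c' hc' h8
  · -- the parts
    intro u hu
    have hcong : ∀ s < MS.card, ∀ c ∈ kids X y0 par (xs s),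
        u c ≡ u (par (xs s)) + idx c * (dg T (xs s) : ℤ) ^ sc s (rho u)
          [ZMOD (dg T (xs s) : ℤ) ^ (sc s (rho u) + 1)] := by
      intro s hs c hc
      have hxs := x1 s hs
      obtain ⟨h1, h2, h3, h4⟩ := hidxlt (xs s) hxs c hc
      have hss : si (par c) = s := x3 _ h3 _ hs h4
      rw [hss] at h2
      have hcg := hG.cong s hs (rho u) (idx c) h1 h2
      have hell : ell u c ≡ u (par (xs s)) + idx c * (dg T (xs s) : ℤ) ^ sc s (rho u)
          [ZMOD (dg T (xs s) : ℤ) ^ (sc s (rho u) + 1)] := by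
        have h5 : ell u c = sb + lab s (rho u) (idx c) := by
          show sb + lab (si (par c)) (rho u) (idx c) = _
          rw [hss]
        have h6 : u (par (xs s)) + idx c * (dg T (xs s) : ℤ) ^ sc s (rho u) =
            sb + (rho u s + idx c * (dg T (xs s) : ℤ) ^ sc s (rho u)) := by
          show _ = sb + ((u (par (xs s)) - sb) + idx c * (dg T (xs s) : ℤ) ^ sc s (rho u))
          ring
        rw [h5, h6]
        exact Int.ModEq.add_left sb hcg
      have huc := hu (xs s) hxs c hc
      by_cases hcS : c ∈ Sp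
      · rw [huc, G1 u c hcS]
        have h7 : gs c + (ell u c - gs c) % (M0 : ℤ) ≡ ell u c [ZMOD (M0 : ℤ)] := by
          have h8 : (ell u c - gs c) % (M0 : ℤ) ≡ ell u c - gs c [ZMOD (M0 : ℤ)] :=
            Int.mod_modEq _ _
          have h9 := Int.ModEq.add_left (gs c) h8
          have h10 : gs c + (ell u c - gs c) = ell u c := by ring
          rw [h10] at h9
          exact h9
        have h11 : ((dg T (xs s) : ℤ) ^ (sc s (rho u) + 1)) ∣ (M0 : ℤ) := by
          have h12 := hdv (dg T (xs s)) (hdeg s hs).1 (hdeg s hs).2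
          have h13 : dg T (xs s) ^ (sc s (rho u) + 1) ∣ dg T (xs s) ^ (J + 1) :=
            pow_dvd_pow _ (Nat.add_le_add_right (hG.sc_le s hs (rho u)) 1)
          have h14 := h13.trans h12
          have h15 : (((dg T (xs s) ^ (sc s (rho u) + 1) : ℕ)) : ℤ) ∣ (M0 : ℤ) := by
            exact_mod_cast h14
          rw [Nat.cast_pow] at h15
          exact h15
        exact (Int.ModEq.of_dvd h11 h7).trans hell
      · rw [huc, G2 u c hcS]
        exact hell
    refine TH.final_covS V T k C1 J M0 u MS xs (fun s => dg T (xs s)) (fun s => sc s (rho u)) par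
      (fun x => kids X y0 par x) idx hM0k hdv x1 x2 x3 ?_ ?_ ?_ ?_ ?_ ?_ ?_
    · intro x hx
      have hxX := hMSX hx
      refine ⟨r2 x hxX, fun y => ?_⟩
      rw [hRt.adj x hxX y, mem_kids]
    · intro s hs
      exact ⟨r1 (xs s) (hMSX (x1 s hs)), hdeg s hs⟩
    · intro x _ c hc
      exact idx_spec x c hc
    · intro x _ c hc c' hc' h
      exact idx_inj x c hc c' hc' h
    · intro s hs
      exact hG.sc_le s hs (rho u)
    · exact hcong
    · intro d hd hdC j hj
      exact hG.count (rho u) d hd hdC j hj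

end Pool.Agent.Lib.MP_7c15de_co.AS
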