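import Pool.Agent.Lib.MP_7c15de_co.AS.Stm
import Pool.Agent.Lib.MP_7c15de_co.AS.P_k3
import Pool.Agent.Lib.MP_7c15de_co.AS.P_prm
import Pool.Agent.Lib.MP_7c15de_co.AS.P_rt
import Pool.Agent.Lib.MP_7c15de_co.AS.P_cnt
import Pool.Agent.Lib.MP_7c15de_co.AS.P_plan2
import Pool.Agent.Lib.MP_7c15de_co.AS.P_med
import Pool.Agent.Lib.MP_7c15de_co.AS.P_small
import Pool.Agent.Lib.MP_7c15de_co.AS.P_lab2
import Pool.Agent.Lib.MP_7c15de_co.AS.P_cX
import Pool.Agent.Lib.MP_7c15de_co.AS.P_seg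
import Pool.Agent.Lib.MP_7c15de_co.AS.P_seq
import Pool.Agent.Lib.MP_7c15de_co.AS.P_arc
import Pool.Agent.Lib.MP_7c15de_co.AS.P_F1
import Pool.Agent.Lib.MP_7c15de_co.AS.P_Fall
import Pool.Agent.Lib.MP_7c15de_co.AS.P_heavy
import Pool.Agent.Lib.MP_7c15de_co.AS.P_place
import Pool.Agent.Lib.MP_7c15de_co.AS.P_S1
import Pool.Agent.Lib.MP_7c15de_co.AS.P_S
import Pool.Agent.Lib.MP_7c15de_co.AS.P_Jflex
import Pool.Agent.Lib.MP_7c15de_co.AS.P_Jset
import Pool.Agent.Lib.MP_7c15de_co.AS.P_Jcount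
import Pool.Agent.Lib.MP_7c15de_co.AS.P_Jpick
import Pool.Agent.Lib.MP_7c15de_co.AS.P_Jlay
import Pool.Agent.Lib.MP_7c15de_co.AS.P_Jgrp
import Pool.Agent.Lib.MP_7c15de_co.AS.P_Jloc
import Pool.Agent.Lib.MP_7c15de_co.AS.P_J
import Pool.Agent.Lib.MP_7c15de_co.AS.P_main

set_option autoImplicit false

namespace Pool.Agent.Lib.MP_7c15de_co.AS

theorem final_rt : S_rt := p_rt
theorem final_cnt : S_cnt := p_cnt
theorem final_med : S_med := p_med final_rt
theorem final_small : S_small := p_small final_rt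
theorem final_lab2 : S_lab2 := p_lab2 final_rt final_med final_small
theorem final_F1 : S_F1 := p_F1 p_seq p_arc
theorem final_Fall : S_Fall := p_Fall final_F1
theorem final_heavy : S_heavy := p_heavy final_rt
theorem final_S1 : S_S1 :=
  p_S1 final_rt final_cnt p_plan2 p_place p_seg final_heavy final_lab2
theorem final_S : S_S := p_S final_rt final_cnt final_S1 final_Fall p_cX
theorem final_Jset : S_Jset := p_Jset final_cnt p_Jflex
theorem final_Jcount : S_Jcount := p_Jcount final_rt final_cnt p_Jflex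
theorem final_Jpick : S_Jpick := p_Jpick final_rt
theorem final_Jlay : S_Jlay := p_Jlay
theorem final_Jgrp : S_Jgrp := p_Jgrp p_seg
theorem final_J : S_J :=
  p_J final_rt final_cnt p_plan2 final_lab2 p_cX final_Jset final_Jcount final_Jpick final_Jlay
    final_Jgrp p_Jloc
theorem final_main : S_main := p_main p_k3 p_prm final_S final_J

end Pool.Agent.Lib.MP_7c15de_co.AS
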