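import Pool.Agent.Lib.MP_7c15de_co.AS.Stm

/-!
# MP_7c15de_co, `k(n) = (1 + o(1)) n`: piece [Jcount], the fillers `U` of the hub
-/

set_option autoImplicit false

namespace Pool.Agent.Lib.MP_7c15de_co.AS

open Finset Pool.Agent.Lib.MP_7c15de_co Pool.Agent.Lib.MP_7c15de_co.TH

theorem p_Jcount (hrt : S_rt) (hcnt : S_cnt) (hJflex : S_Jflex) : S_Jcount := by
  intro ε δ C C1 J M0 K Bf hP
  obtain ⟨N1, hN1⟩ := exists_nat_gt ((10 * (C + cL C M0 + 1 : ℕ) : ℝ) / ε)
  refine ⟨max 1 N1, ?_⟩
  intro n hn k hk V _ _ T _ hT X hX hX1 hX2 ys par μ hRt HX HY H Pd E hHY hys hHYc hHXH hHX hH2 hHc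
    hk1 hk2 hM hPd hE hPE hEc hEpar hPdc hCPd
  have hε := hP.ε0
  have hn1 : 1 ≤ n := le_trans (le_max_left _ _) hn
  have hn2 : N1 ≤ n := le_trans (le_max_right _ _) hn
  have hεn : (10 * (C + cL C M0 + 1 : ℕ) : ℝ) ≤ ε * n := by
    rw [div_lt_iff₀ hε] at hN1
    have h3 : (N1 : ℝ) ≤ n := by exact_mod_cast hn2
    nlinarith
  have hlo := hk.lo
  obtain ⟨c1, c2, c3, c4, c5⟩ := hcnt V T hT X hX n hX1 hX2 hn1
  obtain ⟨r1, r2, r3, r4, r5, r6, r7⟩ := hrt V T X ys par μ hX hRt
  have e3 := c3 H hHX hH2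
  have e4 := c4 H hHX
  set O := X.filter (fun x => x ∉ H ∧ 2 ≤ dg T x) with hO
  set D := ∑ x ∈ H, dg T x with hD
  have hysX : ys ∉ X := hRt.y0X
  have hDm : D = ∑ x ∈ H, (dg T x - 1) + H.card := by
    rw [hD, card_eq_sum_ones, ← sum_add_distrib]
    refine sum_congr rfl fun x _ => ?_
    have := c1 x
    omega
  have hDn : D + 1 ≤ n + H.card := by omega
  -- the number of the elements of `U`
  have hknR : (10 * (C + cL C M0 + 1 : ℕ) : ℝ) + n ≤ k := by nlinarith
  have hkn : 10 * (C + cL C M0 + 1) + n ≤ k := by exact_mod_cast hknR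
  obtain ⟨p, hp⟩ : ∃ p, p = k - D - cL C M0 := ⟨_, rfl⟩
  have hpk : p + D + cL C M0 = k := by omega
  obtain ⟨Av, hAv⟩ : ∃ Av : Finset V, Av = lf T X \ (Pd ∪ E) := ⟨_, rfl⟩
  have hlf : (lf T X).card = (X.filter (fun x => dg T x = 1)).card := rfl
  have hAvc : (lf T X).card ≤ Av.card + (Pd.card + cL C M0) := by
    have h1 : (lf T X).card ≤ (Av ∪ (Pd ∪ E)).card := by
      refine card_le_card ?_
      intro r hr
      by_cases h : r ∈ Pd ∪ E
      · exact mem_union_right _ h
      · exact mem_union_left _ (by rw [hAv]; exact mem_sdiff.2 ⟨hr, h⟩)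
    have h2 := card_union_le Av (Pd ∪ E)
    have h3 := card_union_le Pd E
    omega
  have hpAv : p ≤ Av.card := by
    rw [hlf] at hAvc
    omega
  have hAvX : Av ⊆ lf T X := by rw [hAv]; exact sdiff_subset
  have hAvPd : Disjoint Av Pd := by
    rw [hAv, disjoint_left]
    intro r hr hr'
    exact (mem_sdiff.1 hr).2 (mem_union_left _ hr')
  have hAvE : Disjoint Av E := by
    rw [hAv, disjoint_left]
    intro r hr hr'
    exact (mem_sdiff.1 hr).2 (mem_union_right _ hr')
  obtain ⟨Fz, hFz⟩ : ∃ Fz : Finset V, Fz = Av.filter (fun r => par r ∈ spJ HY H par) := ⟨_, rfl⟩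
  have hFzA : Fz ⊆ Av := by rw [hFz]; exact filter_subset _ _
  by_cases hcase : p ≤ Fz.card
  · obtain ⟨U, hU1, hU2⟩ := exists_subset_card_eq hcase
    have hUs : ∀ r ∈ U, par r ∈ spJ HY H par := by
      intro r hr
      have := hU1 hr
      rw [hFz] at this
      exact (mem_filter.1 this).2
    have hUA : U ⊆ Av := hU1.trans hFzA
    refine ⟨U, hUA.trans hAvX, disjoint_of_subset_left hUA hAvPd,
      disjoint_of_subset_left hUA hAvE, by rw [hU2]; exact hpk, ?_⟩
    have z1 : ltJ X ys par HY H U = ∅ := by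
      rw [eq_empty_iff_forall_notMem]
      intro c hc
      obtain ⟨-, -, -, h3, r, hr, hrc⟩ := mem_filter.1 hc
      exact h3 (hrc ▸ hUs r hr)
    have z2 : bJ par HY H U = ∅ := by
      rw [eq_empty_iff_forall_notMem]
      intro r hr
      obtain ⟨h1, h2, -⟩ := mem_filter.1 hr
      exact h2 (hUs r h1)
    have z3 : xbJ X par HY H U = ∅ := by
      rw [eq_empty_iff_forall_notMem]
      intro x hx
      obtain ⟨-, -, r, hr, h2, -⟩ := mem_filter.1 hx
      exact h2 (hUs r hr)
    rw [z1, z2, z3, sum_empty, card_empty, hU2]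
    have h1 : ((k : ℕ) : ℝ) = p + D + cL C M0 := by exact_mod_cast hpk.symm
    have h2 : ((D : ℕ) : ℝ) + 1 ≤ n + C + 1 := by
      have : D + 1 ≤ n + C + 1 := by omega
      exact_mod_cast this
    push_cast at hknR ⊢
    linarith
  · push Not at hcase
    obtain ⟨U, hU1, hU2, hU3⟩ := exists_subsuperset_card_eq hFzA hcase.le hpAv
    refine ⟨U, hU2.trans hAvX, disjoint_of_subset_left hU2 hAvPd,
      disjoint_of_subset_left hU2 hAvE, by rw [hU3]; exact hpk, ?_⟩
    have hUlf : ∀ r ∈ U, r ∈ X ∧ dg T r = 1 := fun r hr => mem_filter.1 (hAvX (hU2 hr))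
    -- `|ltJ| + |bJ| ≤ p - |Fz|`
    have q1 : (ltJ X ys par HY H U).card + (bJ par HY H U).card + Fz.card ≤ U.card := by
      have h1 : (ltJ X ys par HY H U).card ≤
          (U.filter (fun r => par r ∉ spJ HY H par ∧ par (par r) ∈ H)).card := by
        have : ltJ X ys par HY H U ⊆
            (U.filter (fun r => par r ∉ spJ HY H par ∧ par (par r) ∈ H)).image par := by
          intro c hc
          obtain ⟨h1, h2, h3, h4, r, hr, hrc⟩ := mem_filter.1 hc
          refine mem_image.2 ⟨r, mem_filter.2 ⟨hr, ?_, ?_⟩, hrc⟩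
          · rw [hrc]; exact h4
          · rw [hrc]; exact h3
        exact (card_le_card this).trans card_image_le
      have h2 : (U.filter (fun r => par r ∉ spJ HY H par ∧ par (par r) ∈ H)).card +
          (bJ par HY H U).card + Fz.card ≤ U.card := by
        unfold bJ
        rw [← card_union_of_disjoint, ← card_union_of_disjoint]
        · refine card_le_card ?_
          intro r hr
          rcases mem_union.1 hr with hr | hr
          · rcases mem_union.1 hr with hr | hr
            · exact (mem_filter.1 hr).1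
            · exact (mem_filter.1 hr).1
          · exact hU1 hr
        · rw [disjoint_left]
          intro r hr hr'
          rw [hFz] at hr'
          have h3 := (mem_filter.1 hr').2
          rcases mem_union.1 hr with hr | hr
          · exact (mem_filter.1 hr).2.1 h3
          · exact (mem_filter.1 hr).2.1 h3
        · rw [disjoint_left]
          intro r hr hr'
          exact (mem_filter.1 hr').2.2 (mem_filter.1 hr).2.2
      omega
    -- `xbJ`
    have q2 : xbJ X par HY H U ⊆ O := by
      intro x hx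
      obtain ⟨h1, h2, r, hr, h3, h4⟩ := mem_filter.1 hx
      rw [hO, mem_filter]
      refine ⟨h1, h2, ?_⟩
      rw [← h4]
      refine r5 (par r) (hRt.parX r (hUlf r hr).1) ?_
      intro h
      refine h3 ?_
      rw [h]
      exact mem_union_left _ hys
    have q3 : (xbJ X par HY H U).card ≤
        (Xᶜ.filter (fun y => 2 ≤ dg T y ∧ ∀ x ∈ HX, ¬ T.Adj y x)).card := by
      have : xbJ X par HY H U ⊆
          (Xᶜ.filter (fun y => 2 ≤ dg T y ∧ ∀ x ∈ HX, ¬ T.Adj y x)).image par := by
        intro x hx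
        obtain ⟨h1, h2, r, hr, h3, h4⟩ := mem_filter.1 hx
        have hpr : par r ∉ X := hRt.parX r (hUlf r hr).1
        have hne : par r ≠ ys := by
          intro h
          refine h3 ?_
          rw [h]
          exact mem_union_left _ hys
        refine mem_image.2 ⟨par r, mem_filter.2 ⟨mem_compl.2 hpr, ?_, ?_⟩, h4⟩
        · rw [r3 (par r) hpr, if_neg hne]
          have : 1 ≤ (X.filter (fun x => par x = par r)).card :=
            card_pos.2 ⟨r, mem_filter.2 ⟨(hUlf r hr).1, rfl⟩⟩
          omega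
        · intro x' hx' hadj
          rcases (r4 (par r) hpr x').1 hadj with ⟨-, h5⟩ | ⟨-, h5⟩
          · refine h3 ?_
            rw [← h5]
            exact mem_union_right _ (mem_image_of_mem _ (hHXH hx'))
          · rw [h4] at h5
            exact h2 (h5 ▸ hHXH hx')
      exact (card_le_card this).trans card_image_le
    set MX := (X.filter (fun x => 2 ≤ dg T x ∧ ∀ y ∈ HY, ¬ T.Adj x y)).card with hMX
    set s1 := ∑ x ∈ O, (dg T x - 2) with hs1
    have q4 : ∑ x ∈ xbJ X par HY H U, ((dg T x : ℝ) - 1) ≤ s1 + (xbJ X par HY H U).card := by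
      have h1 : ∑ x ∈ xbJ X par HY H U, (dg T x - 1) ≤ s1 + (xbJ X par HY H U).card := by
        have h2 : ∑ x ∈ xbJ X par HY H U, (dg T x - 1) =
            ∑ x ∈ xbJ X par HY H U, (dg T x - 2) + (xbJ X par HY H U).card := by
          rw [card_eq_sum_ones, ← sum_add_distrib]
          refine sum_congr rfl fun x hx => ?_
          have := (mem_filter.1 (q2 hx)).2.2
          omega
        have h3 : ∑ x ∈ xbJ X par HY H U, (dg T x - 2) ≤ s1 := sum_le_sum_of_subset q2
        omega
      have h4 : ∑ x ∈ xbJ X par HY H U, ((dg T x : ℝ) - 1) =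
          ((∑ x ∈ xbJ X par HY H U, (dg T x - 1) : ℕ) : ℝ) := by
        push_cast
        refine sum_congr rfl fun x hx => ?_
        rw [Nat.cast_sub (c1 x), Nat.cast_one]
      rw [h4]
      exact_mod_cast h1
    have hs1n : s1 ≤ n := by
      have : s1 ≤ ∑ x ∈ O, (dg T x - 1) := sum_le_sum fun x _ => by omega
      omega
    have hxbn : (xbJ X par HY H U).card ≤ n := by
      rw [← hX1]
      exact card_le_card (filter_subset _ _)
    -- (b)
    have hHYX : ∀ y ∈ HY, y ∉ X := fun y hy => mem_compl.1 (hHY hy)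
    have hfl := hJflex V T hT X hX HY ⟨ys, hys⟩ hHYX
    have hnl : (X.filter (fun x => dg T x = 1)).card + (X.filter (fun x => 2 ≤ dg T x)).card =
        n := by
      rw [← hX1, ← card_filter_add_card_filter_not (s := X) (fun x => dg T x = 1)]
      congr 1
      congr 1
      refine filter_congr fun x _ => ?_
      have := c1 x
      omega
    have hlam : ((lf T X).filter (fun r => ∃ y ∈ HY, T.Adj r y)).card ≤
        Fz.card + (Pd.card + cL C M0) := by
      have h1 : ((lf T X).filter (fun r => ∃ y ∈ HY, T.Adj r y)).card ≤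
          (Fz ∪ (Pd ∪ E)).card := by
        refine card_le_card ?_
        intro r hr
        obtain ⟨hr1, y, hy, hadj⟩ := mem_filter.1 hr
        by_cases h : r ∈ Pd ∪ E
        · exact mem_union_right _ h
        · refine mem_union_left _ ?_
          rw [hFz, mem_filter]
          refine ⟨by rw [hAv]; exact mem_sdiff.2 ⟨hr1, h⟩, ?_⟩
          obtain ⟨hr2, hr3⟩ := mem_filter.1 hr1
          have := (r6 r hr2 hr3 y).1 hadj
          rw [← this]
          exact mem_union_left _ hy
      have h2 := card_union_le Fz (Pd ∪ E)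
      have h3 := card_union_le Pd E
      omega
    -- the count
    have t1 : 2 * k + 2 * MX + 2 * s1 + 1 ≤ 2 * n + 4 * C + 2 * (Fz.card + (Pd.card + cL C M0)) := by
      omega
    have t1R : (2 : ℝ) * k + 2 * MX + 2 * s1 + 1 ≤
        2 * n + 4 * C + 2 * (Fz.card + (Pd.card + cL C M0)) := by exact_mod_cast t1
    have hxM : ((xbJ X par HY H U).card : ℝ) ≤ MX := by exact_mod_cast q3.trans hM
    have hxnR : ((xbJ X par HY H U).card : ℝ) ≤ n := by exact_mod_cast hxbn
    have hsnR : (s1 : ℝ) ≤ n := by exact_mod_cast hs1n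
    have hPdR : (Pd.card : ℝ) ≤ ε * n / 25 := by
      have h1 : (C : ℝ) * Pd.card ≤ 4 * n := by exact_mod_cast hCPd
      have h2 := hP.εC
      have h3 : (0 : ℝ) ≤ Pd.card := Nat.cast_nonneg _
      have h4 : 100 * (Pd.card : ℝ) ≤ ε * (4 * n) := by
        calc 100 * (Pd.card : ℝ) ≤ (ε * C) * Pd.card := mul_le_mul_of_nonneg_right h2 h3
          _ = ε * (C * Pd.card) := by ring
          _ ≤ ε * (4 * n) := mul_le_mul_of_nonneg_left h1 hε.le
      linarith
    have hδ0 := hP.δ0
    have hδn : δ * (s1 + (xbJ X par HY H U).card) ≤ ε * n / 25 := by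
      have h1 : (s1 : ℝ) + (xbJ X par HY H U).card ≤ 2 * n := by linarith
      have h2 := hP.δε
      have h3 : (0 : ℝ) ≤ n := Nat.cast_nonneg _
      calc δ * (s1 + (xbJ X par HY H U).card) ≤ δ * (2 * n) :=
            mul_le_mul_of_nonneg_left h1 hδ0.le
        _ ≤ ε / 50 * (2 * n) := mul_le_mul_of_nonneg_right h2 (by positivity)
        _ = ε * n / 25 := by ring
    have hsum : (1 + δ) * ∑ x ∈ xbJ X par HY H U, ((dg T x : ℝ) - 1) ≤
        (s1 + (xbJ X par HY H U).card) + ε * n / 25 := by
      calc (1 + δ) * ∑ x ∈ xbJ X par HY H U, ((dg T x : ℝ) - 1) ≤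
            (1 + δ) * (s1 + (xbJ X par HY H U).card) :=
            mul_le_mul_of_nonneg_left q4 (by linarith)
        _ = (s1 + (xbJ X par HY H U).card) + δ * (s1 + (xbJ X par HY H U).card) := by ring
        _ ≤ _ := by linarith
    have q1R : ((ltJ X ys par HY H U).card : ℝ) + (bJ par HY H U).card + Fz.card ≤ U.card := by
      exact_mod_cast q1
    have hlo' : (n : ℝ) + ε * n ≤ k := by linarith
    push_cast at hεn
    linarith

end Pool.Agent.Lib.MP_7c15de_co.AS
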