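import Pool.Agent.Lib.MP_7c15de_co.AS.Stm

/-!
# MP_7c15de_co, [AS seg]: dividing a set of weights into three groups
-/

set_option autoImplicit false

namespace Pool.Agent.Lib.MP_7c15de_co.AS

open Finset Pool.Agent.Lib.MP_7c15de_co Pool.Agent.Lib.MP_7c15de_co.TH

private theorem seg_lem {V : Type} [DecidableEq V] (A : Finset V) (wt : V → ℝ) (b L : ℝ)
    (hwt : ∀ x ∈ A, wt x ≤ b) (hL : 0 ≤ L) :
    ∃ A' ⊆ A, ∑ x ∈ A', wt x ≤ L ∧ (A' = A ∨ L - b < ∑ x ∈ A', wt x) := by
  classical
  have hne : (A.powerset.filter (fun B => ∑ x ∈ B, wt x ≤ L)).Nonempty :=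
    ⟨∅, mem_filter.2 ⟨mem_powerset.2 (empty_subset _), by simpa using hL⟩⟩
  obtain ⟨B, hB, hmax⟩ := exists_max_image _ (fun B : Finset V => B.card) hne
  rw [mem_filter, mem_powerset] at hB
  refine ⟨B, hB.1, hB.2, ?_⟩
  by_cases h : B = A
  · exact Or.inl h
  · right
    have hss : B ⊂ A := lt_of_le_of_ne hB.1 h
    obtain ⟨x, hxA, hxB⟩ := exists_of_ssubset hss
    by_contra hc
    push Not at hc
    have h1 : ∑ y ∈ insert x B, wt y ≤ L := by
      rw [sum_insert hxB]
      have := hwt x hxA
      linarith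
    have h2 := hmax (insert x B) (mem_filter.2 ⟨mem_powerset.2 (insert_subset hxA hB.1), h1⟩)
    rw [card_insert_of_notMem hxB] at h2
    omega

private theorem seg_step {V : Type} [DecidableEq V] (A : Finset V) (wt : V → ℝ) (b L R : ℝ)
    (hb : 0 ≤ b) (hwt : ∀ x ∈ A, 0 < wt x ∧ wt x ≤ b) (hR : 0 ≤ R)
    (hs : ∑ x ∈ A, wt x ≤ max (L - b) 0 + R) :
    ∃ A' ⊆ A, (A' = ∅ ∨ ∑ x ∈ A', wt x ≤ L) ∧ ∑ x ∈ A \ A', wt x ≤ R := by
  by_cases hL : 0 ≤ L
  · obtain ⟨A', h1, h2, h3⟩ := seg_lem A wt b L (fun x hx => (hwt x hx).2) hL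
    refine ⟨A', h1, Or.inr h2, ?_⟩
    have h4 := sum_sdiff (f := wt) h1
    rcases h3 with h3 | h3
    · rw [h3]
      simpa using hR
    · have h5 : 0 ≤ ∑ x ∈ A', wt x := sum_nonneg (fun x hx => (hwt x (h1 hx)).1.le)
      rcases le_total (L - b) 0 with h6 | h6
      · rw [max_eq_right h6] at hs
        linarith
      · rw [max_eq_left h6] at hs
        linarith
  · refine ⟨∅, empty_subset _, Or.inl rfl, ?_⟩
    rw [sdiff_empty]
    rw [max_eq_right (by linarith)] at hs
    linarith

theorem p_seg : S_seg := by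
  intro V _ A wt b L hb hwt hs
  rw [Fin.sum_univ_three] at hs
  obtain ⟨A0, h0, h0', h0''⟩ := seg_step A wt b (L 0) (max (L 1 - b) 0 + max (L 2 - b) 0) hb hwt
    (add_nonneg (le_max_right _ _) (le_max_right _ _)) (by linarith)
  have hwt1 : ∀ x ∈ A \ A0, 0 < wt x ∧ wt x ≤ b := fun x hx => hwt x (mem_sdiff.1 hx).1
  obtain ⟨A1, h1, h1', h1''⟩ := seg_step (A \ A0) wt b (L 1) (max (L 2 - b) 0) hb hwt1
    (le_max_right _ _) h0''
  refine ⟨fun x => if x ∈ A0 then 0 else if x ∈ A1 then 1 else 2, ?_⟩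
  have e0 : A.filter (fun x => (if x ∈ A0 then (0 : Fin 3) else if x ∈ A1 then 1 else 2) = 0) = A0 := by
    ext x
    rw [mem_filter]
    constructor
    · rintro ⟨_, h⟩
      by_contra hx
      rw [if_neg hx] at h
      split_ifs at h <;> exact absurd h (by decide)
    · intro hx
      exact ⟨h0 hx, by rw [if_pos hx]⟩
  have e1 : A.filter (fun x => (if x ∈ A0 then (0 : Fin 3) else if x ∈ A1 then 1 else 2) = 1) = A1 := by
    ext x
    rw [mem_filter]
    constructor
    · rintro ⟨_, h⟩
      by_contra hx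
      rw [if_neg hx] at h
      split_ifs at h <;> exact absurd h (by decide)
    · intro hx
      have := mem_sdiff.1 (h1 hx)
      exact ⟨this.1, by rw [if_neg this.2, if_pos hx]⟩
  have e2 : A.filter (fun x => (if x ∈ A0 then (0 : Fin 3) else if x ∈ A1 then 1 else 2) = 2) =
      (A \ A0) \ A1 := by
    ext x
    rw [mem_filter, mem_sdiff, mem_sdiff]
    constructor
    · rintro ⟨hA, h⟩
      refine ⟨⟨hA, ?_⟩, ?_⟩
      · intro hx
        rw [if_pos hx] at h
        exact absurd h (by decide)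
      · intro hx
        by_cases hx0 : x ∈ A0
        · rw [if_pos hx0] at h
          exact absurd h (by decide)
        · rw [if_neg hx0, if_pos hx] at h
          exact absurd h (by decide)
    · rintro ⟨⟨hA, hx0⟩, hx1⟩
      exact ⟨hA, by rw [if_neg hx0, if_neg hx1]⟩
  intro i
  fin_cases i
  · rcases h0' with h | h
    · left
      intro x hx he
      have : x ∈ A0 := by
        rw [← e0]
        exact mem_filter.2 ⟨hx, he⟩
      rw [h] at this
      exact absurd this (notMem_empty _)
    · right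
      have h' := h
      rw [← e0] at h'
      exact h'
  · rcases h1' with h | h
    · left
      intro x hx he
      have : x ∈ A1 := by
        rw [← e1]
        exact mem_filter.2 ⟨hx, he⟩
      rw [h] at this
      exact absurd this (notMem_empty _)
    · right
      have h' := h
      rw [← e1] at h'
      exact h'
  · rcases ((A \ A0) \ A1).eq_empty_or_nonempty with h | h
    · left
      intro x hx he
      have : x ∈ (A \ A0) \ A1 := by
        rw [← e2]
        exact mem_filter.2 ⟨hx, he⟩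
      rw [h] at this
      exact absurd this (notMem_empty _)
    · right
      have hpos : 0 < ∑ x ∈ (A \ A0) \ A1, wt x :=
        sum_pos (fun x hx => (hwt1 x (mem_sdiff.1 hx).1).1) h
      have h3 : ∑ x ∈ (A \ A0) \ A1, wt x ≤ L 2 := by
        rcases le_total (L 2 - b) 0 with h6 | h6
        · rw [max_eq_right h6] at h1''
          linarith
        · rw [max_eq_left h6] at h1''
          linarith
      rw [← e2] at h3
      exact h3

end Pool.Agent.Lib.MP_7c15de_co.AS
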