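import Pool.Agent.Lib.MP_7c15de_co.AS.Defs

/-!
# MP_7c15de_co, `k(n) = (1 + o(1)) n`: statements of the pieces (complete proofs in the docstrings)

THEOREM. For every `ε > 0` and all large `n` some `k ≤ (1 + ε) n` lies in `S(n)`.

Conventions. `V` is finite, `T` a tree on `V`, `X` one colour class, `Y = Xᶜ` the other one. The vertices of `Y`
get labels `u y`, different mod `k`; `X` is partitioned into parts `p` with `Loc T k u p`: `N = ∑_{x ∈ p} dg x`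
divides `k` and there are shifts `a x` (`x ∈ p`), different mod `N`, such that the *coordinates* `u y - a x` of the
edges `x y`, `x ∈ p`, are different mod `N`. (In `Loc` the coordinate has the opposite sign.) A leaf `x` with
neighbour `y` can be put at any coordinate `δ`: take the shift `a x = u y - δ`; such leaves are called *fillers*.
Two integers which differ by less than `N` and are congruent mod `N` are equal
(`Int.ModEq.dvd`, `Int.eq_zero_of_abs_lt_dvd`).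
The old libraries (`Criterion`, `CN`, `Block`, `Plan`, `Tree`, `TH.*`) may be used everywhere, in particular
`TH.p_dg`, `TH.final_crit`, `TH.p_cov`, `TH.final_locF`, `TH.p_enum`, `TH.final_covS`, `TH.final_game` (import
`TH.Final`).

OVERVIEW. `H` = heavy vertices of `X` (`k < C dg x`, at most `C` of them), `D = ∑_H dg`. Medium vertices get an own
block of `N ≤ (1 + 1/(C-1)) dg` labels for their children and `N - dg` fillers (`S_med`, Combinatorial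
Nullstellensatz; the order `μ` and the fillers come from `S_plan2`); the small vertices are handled by the old
game (`S_small`). A bounded number of *special* vertices `y ∈ Y` get labels in own slots `[gs y, gs y + M0)`.
(S) If `2 dg x ≤ k` for all `x ∈ X` and `5 D ≤ 3 k`: each heavy `x` is a part of its own, `N = k / s`,
`s = ⌊k / dg x⌋ ≥ 2`; its children get an interval of exactly `dg x` labels (`S_heavy`). The vertices `y` with many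
leaves get labels in a *safe zone* `[0, c)`, which lies mod `N` in the interval of `x`, for all heavy `x`
(`S_place`). The fillers of `x` are found by sorting: labels increasing, coordinates decreasing (`S_seq`).
(J) If neither class is as in (S): all heavy vertices of `X` are put in one part with `N = k`; the root `ys` is a
heavy vertex of `Y` with many leaves; the heavy vertices of `Y` and the parents of heavy vertices of `X` get labels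
in a *zone* of bounded length, the coordinates in the zone not used by the hub are taken by leaves at `ys`; all
other fillers are sorted. The class `X` is chosen such that at most as many nonleaves of `Y` are nonadjacent to the
heavy vertices of `X` as nonleaves of `X` are nonadjacent to the heavy vertices of `Y`.
-/

set_option autoImplicit false

namespace Pool.Agent.Lib.MP_7c15de_co.AS

open Finset Pool.Agent.Lib.MP_7c15de_co Pool.Agent.Lib.MP_7c15de_co.TH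

/-! ## 1. The host size, the rooted tree, counting -/

/-- [k3] A `k` with many divisors.
PROOF. `L = M0 · (2 C)!`. Let `A` be the largest natural number with `2^A L C ≤ lam n` (it exists and is as large as
we want if `n` is large, since `lam ≥ 1`; let `2^A ≥ L`, `n0 = L² C · 2` say), `t = ⌈lam n / (2^A L)⌉ ∈ [C, 2C]`,
`k = 2^A L t`, so `lam n ≤ k ≤ lam n + 2^A L ≤ lam n (1 + 1/C)`. `M0 ∣ k`, and `s ∣ (2C)! ∣ k` for `1 ≤ s ≤ C`.
Let `C ≤ C1 ≤ d`, `C d ≤ k`.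
Case 1: `d < 2^(A+1) C`. Let `2^b C ≤ d < 2^(b+1) C`, `b ≤ A`, `s = ⌈d / 2^b⌉ ∈ [C, 2C]`, `N = 2^b s`. Then
`d ≤ N < d + 2^b`, `C 2^b ≤ d`, so `C N ≤ (C+1) d` and `(C-1) N ≤ C d` (as `(C-1)(C+1) ≤ C²`).
`N ∣ 2^A (2C)! ∣ k`.
Case 2: `d ≥ 2^(A+1) C`. Let `e = ⌊k / d⌋ ≥ C`; `e ≤ k / (2^(A+1) C) = L t / (2 C) ≤ L ≤ 2^A`. Let
`2^b C ≤ e < 2^(b+1) C`, so `b ≤ A`, `s = ⌊e / 2^b⌋ ∈ [C, 2C)`, `c = 2^b s ≤ e`, `c ∣ 2^A (2C)! ∣ k`, `N = k / c`.
`c d ≤ e d ≤ k` gives `d ≤ N`. For the upper bound take the real number `e' = k / d`: in fact choose `b`, `s` with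
`2^b C ≤ e' < 2^(b+1) C`, `s = ⌊e' / 2^b⌋` (the same numbers, since `⌊⌊e'⌋ / m⌋ = ⌊e' / m⌋`); then
`c > e' - 2^b ≥ e' (1 - 1/C)`, so `N = k / c < (k / e') C / (C-1) = d C / (C-1)`. -/
def S_k3 : Prop :=
  ∀ C C1 M0 : ℕ, 2 ≤ C → C ≤ C1 → 0 < M0 → ∃ n0 : ℕ, ∀ n : ℕ, n0 ≤ n → ∀ lam : ℝ, 1 ≤ lam →
    ∃ k : ℕ, M0 ∣ k ∧ lam * n ≤ k ∧ (k : ℝ) ≤ lam * (1 + 1 / C) * n ∧
      (∀ s, 1 ≤ s → s ≤ C → s ∣ k) ∧
      ∀ d, C1 ≤ d → C * d ≤ k → ∃ N, N ∣ k ∧ d ≤ N ∧ (C - 1) * N ≤ C * d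

/-- [prm] The parameters exist.
PROOF. `δ = ε / 50`, `C ≥ 100 / ε` and `C ≥ 4 / δ`, `C ≥ 100`, `C1 ≥ 1000 C²`, `C1 ≥ 4 / δ`. `q`: `N ≤ (C / (C-1)) d`
(as `C ≥ 2`) and `(C/(C-1)) d ≤ (1+δ)(d-1)` since `C/(C-1) ≤ 1 + δ/2` (for instance `1/(C-1) ≤ δ/2`) and
`(1 + δ/2) d ≤ (1 + δ)(d - 1)` iff `1 + δ ≤ δ d / 2`, true if `d ≥ C1 ≥ 4/δ` (`δ ≤ 1`). `J` from `TH.S_game`
(`C := C1`, `η := δ`), `M0 = (C1 !)^(J+1) ≥ C1`, `K`, `Bf` from `TH.S_game`. -/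
def S_prm : Prop :=
  ∀ ε : ℝ, 0 < ε → ε ≤ 1 → ∃ (δ : ℝ) (C C1 J M0 K : ℕ) (Bf : ℕ → ℕ), Prm ε δ C C1 J M0 K Bf

/-- [rt] Basic facts on rooted structures.
PROOF. (2) If `par x = c` is a child of `x` then `μ (par (par c)) = μ (par x) = μ c`, contradicting `lt`. (1) the
neighbours of `x` are `par x` and `kids x`, use `TH.S_dg` (4) and (2). (4) `Rt.adj` for `x = par y` gives
`T.Adj (par y) y`; if `T.Adj y x` then `x ∈ X` (colouring) and `Rt.adj x y` gives `y = par x` or (`y ≠ y0` and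
`par y = x`). The alternatives `par x = y` and `x = par y` exclude each other (then `y ≠ y0`, and `y` is a child of
`x` with `par x = y`, see (2)). (3) from (4): the neighbours of `y` are the `x ∈ X` with `par x = y` and, if
`y ≠ y0`, `par y`. (5) `y` and `par (par y)` are two neighbours of `par y`, different by `lt`. (6) if
`dg x = 1` then `kids x = ∅` by (1). (7) every `y ∉ X`, `y ≠ y0` is in exactly one `kids x`, `x ∈ X`. -/
def S_rt : Prop :=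
  ∀ (V : Type) [Fintype V] [DecidableEq V] (T : SimpleGraph V) (X : Finset V) (y0 : V) (par : V → V)
    (μ : V → ℕ), (∀ a b, T.Adj a b → (a ∈ X ↔ b ∉ X)) → Rt T X y0 par μ →
    (∀ x ∈ X, dg T x = (kids X y0 par x).card + 1) ∧
    (∀ x ∈ X, par x ∉ kids X y0 par x) ∧
    (∀ y ∉ X, dg T y = (X.filter (fun x => par x = y)).card + (if y = y0 then 0 else 1)) ∧
    (∀ y ∉ X, ∀ x, T.Adj y x ↔ (x ∈ X ∧ par x = y) ∨ (y ≠ y0 ∧ x = par y)) ∧
    (∀ y ∉ X, y ≠ y0 → 2 ≤ dg T (par y)) ∧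
    (∀ x ∈ X, dg T x = 1 → ∀ y, T.Adj x y ↔ y = par x) ∧
    (∑ x ∈ X, (dg T x - 1)) + 1 = Xᶜ.card

/-- [cnt] Counting.
PROOF. `TH.S_dg` (2), (3): `dg ≥ 1`, `∑_X dg + 1 = |V| = 2n`. So `∑_X (dg - 1) = n - 1`. Let `H ⊆ X` with `2 ≤ dg` on
`H`. `X` is the disjoint union of `H`, the leaves and the other nonleaves `O`. (4): `∑_H (dg-1) + ∑_O (dg-1) = n-1`.
(3): `∑_O (dg - 2) + ∑_H (dg - 2) = n - 1 - (|H| + |O|) = n - 1 - (n - |leaves|)`. (5) if there were no leaf then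
`∑_X dg ≥ 2n`. -/
def S_cnt : Prop :=
  ∀ (V : Type) [Fintype V] [DecidableEq V] (T : SimpleGraph V), T.IsTree →
    ∀ X : Finset V, (∀ a b, T.Adj a b → (a ∈ X ↔ b ∉ X)) → ∀ n : ℕ, X.card = n → Xᶜ.card = n → 1 ≤ n →
    (∀ x, 1 ≤ dg T x) ∧ (∑ x ∈ X, dg T x) + 1 = 2 * n ∧
    (∀ H ⊆ X, (∀ x ∈ H, 2 ≤ dg T x) →
      (X.filter (fun x => dg T x = 1)).card + 2 * H.card =
        1 + ∑ x ∈ H, dg T x + ∑ x ∈ X.filter (fun x => x ∉ H ∧ 2 ≤ dg T x), (dg T x - 2)) ∧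
    (∀ H ⊆ X, (∑ x ∈ H, (dg T x - 1)) + ∑ x ∈ X.filter (fun x => x ∉ H ∧ 2 ≤ dg T x), (dg T x - 1) + 1 = n) ∧
    ∃ r ∈ X, dg T r = 1

/-- [plan2] A rooted structure with root `y0` (the neighbour of a given leaf `r0 ∈ X`), fillers `P x` for the
vertices `x ∈ Mst` and for each of them a child `last x` that comes after the parents of the fillers in the order
`μ`. The set `Spf par` of special vertices may depend on `par`.
PROOF. Follow `plan_exists` (Tree.lean) with this `r0`, `y0`: it gives `par` (rooted at `r0`; change it to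
`par r0 := y0`), `dep`, `chl`, `LX` (the leaves in `X` other than `r0`), `idx`, `t`, `K`, `μ v = t v * K + dep v`, the
set `A` of the later children `c` (`c ∉ X`, `c ≠ y0`, `t (par c) < t c`), and the injection `lf : A → LX` with
`idx (lf c) = rk c < t c`; `|chl x| ≤ |chl x ∩ A| + 1` (`later`), `t` is injective on the children of a vertex
(`sib_inj`). Let `Sp = Spf par`, `x ∈ Mst` (`dg x ≥ 3`, so `x ≠ r0` and `x` is a main), `l = last x` := the child of `x`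
not in `Sp` with the largest `t` (`|chl x| = dg x - 1 > |Sp|`). The children `c` with `t c > t l` are in `Sp`, so
`A' x := {c ∈ chl x ∩ A : t c ≤ t l}` has at least `dg x - 2 - |Sp| ≥ 4 (q x)` elements. `S x := lf (A' x)`, these sets
are disjoint for different `x`. For `r = lf c`, `c ∈ A' x`: `t (par r) ≤ t r = idx r = rk c < t c ≤ t l`, so
`μ (par r) < μ l` as in `plan_exists` (`μ_P`). Choose `P x ⊆ S x` with `q x` elements and `|P x ∩ Rv|` minimal: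
if `q x ≤ |S x \ Rv|` it is `0`, otherwise `P x ⊇ S x \ Rv` and `3 |P x ∩ Rv| = 3 (q x - |S x \ Rv|) ≤
4 q x - |S x \ Rv| ≤ |S x ∩ Rv|`. Sum over `x`. `Rt`: `adj` is `adj_M` for `x ≠ r0` (`par y0 = r0` in Tree.lean;
`y0` is not a child of a vertex `x ≠ r0`), for `r0` both sides say `y = y0` (a vertex `y ≠ y0` has `par y ≠ r0`,
`hparr0`); for `x ∈ X` with `chl x = ∅` also `adj_M`; `lt` is `μ_par` (`par y ∈ M` by `A_par`; if `par (par y)` is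
to be taken for the new `par`: `par y ≠ r0`). -/
def S_plan2 : Prop :=
  ∀ (V : Type) [Fintype V] [DecidableEq V] (T : SimpleGraph V), T.IsTree →
    ∀ X : Finset V, (∀ a b, T.Adj a b → (a ∈ X ↔ b ∉ X)) → Xᶜ.card ≤ X.card →
    ∀ r0 y0 : V, r0 ∈ X → dg T r0 = 1 → T.Adj r0 y0 →
    ∀ (Mst Rv : Finset V) (Spf : (V → V) → Finset V) (q : V → ℕ), Mst ⊆ X →
    (∀ par : V → V, ∀ x ∈ Mst, 4 * q x + (Spf par).card + 3 ≤ dg T x) →
    ∃ (par : V → V) (μ : V → ℕ) (last : V → V) (P : V → Finset V),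
      Rt T X y0 par μ ∧
      (∀ x ∈ Mst, last x ∈ kids X y0 par x ∧ last x ∉ Spf par ∧ (P x).card = q x) ∧
      (∀ x, x ∉ Mst → P x = ∅) ∧
      (∀ x ∈ Mst, ∀ r ∈ P x, r ∈ X ∧ dg T r = 1 ∧ μ (par r) < μ (last x)) ∧
      (∀ x x' r, r ∈ P x → r ∈ P x' → x = x') ∧
      3 * ((Mst.biUnion P) ∩ Rv).card ≤ Rv.card

/-! ## 2. Labels of the children of the medium and the small vertices -/

/-- [med] A medium vertex `x`, its fillers `P` and its last child `l`. `N = dg x + |P|`. The labels `G w c` of the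
children `c` of `x` depend only on labels `w z` with `μ z < μ c`.
PROOF. `p = |P|`, `ch = kids x`, `d = |ch| + 1 = dg x` (`S_rt`), `N = d + p`, `q = |ch ∩ Sp| ≤ |Sp|`.
Fix `w`; everything for the children `≠ l` will depend only on `w0 = w (par x)` (`μ (par x) < μ c`, as
`par (par c) = par x`). Special children `c`: by induction over the finite set `ch ∩ Sp` choose
`e c ∈ [0, q]` such that the labels `gs c + e c` are different mod `N` from `w0` and from each other (`q + 1 ≤ N`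
different residues `gs c + e`, at most `q` forbidden ones); `q < M0`. Let `Q = {j ∈ [1, N) : w0 + j ≢ gs c + e c` for
all special `c}`, `|Q| = N - 1 - q`. The `n' = |ch| - q - 1` children outside `Sp ∪ {l}` get the residues `w0 + j` for the
`n'` smallest elements `j` of `Q` (fix an injection; take the set of `j ∈ Q` with `#{j' ∈ Q : j' < j} < n'` and a
bijection). The other elements of `Q` form a set `W`, `|W| = N - 1 - q - n' = N - |ch| = p + 1`, and `W ⊆ [n'+1, N-1]`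
(the element of `Q` with `i` smaller ones is `≥ i + 1`), an interval of length `N - 1 - n' = p + 1 + q`, `2 (p + 1 + q) ≤ N`.
Fillers: let `v r = w (par r)`, `S r = {j ∈ W : w0 + j ≢ v r}`, `|S r| ≥ p` (the elements of `W` are different mod
`N`). `cn_exists` (CN.lean) applied to an enumeration of `P` and `e i i' = ` the integer of smallest absolute value
congruent to `v r_{i'} - v r_i` (`(… : ZMod N).valMinAbs`, as in `loc`, Block.lean) gives `j r ∈ S r`, pairwise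
different, with `j r' - j r ≢ v r' - v r` (as `|j r' - j r| < N/2`). Let `ρ = w0 + j*`, `j*` the element of `W` that is
not a `j r`. `l` gets the residue `ρ`, which depends on `w0` and the `w (par r)`, `r ∈ P` (`μ (par r) < μ l`).
The label of `c ∉ Sp` with residue `ρ'` is `off + (ρ' - off) % N`; these residues are pairwise different.
`Loc`: `∑ dg = d + p = N`. Shifts `a x = 0`, `a r = v r - (w0 + j r)`. Coordinates: those of `x` are `w0`, the residues of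
the children (all different, not in `w0 + W` except `ρ = w0 + j*`), that of `r` is `w0 + j r`. Shifts different:
`a r ≢ 0` since `w0 + j r ≢ v r`; `a r - a r' = (v r - v r') - (j r - j r') ≢ 0`. -/
def S_med : Prop :=
  ∀ (V : Type) [Fintype V] [DecidableEq V] (T : SimpleGraph V) (X : Finset V) (y0 : V) (par : V → V)
    (μ : V → ℕ), (∀ a b, T.Adj a b → (a ∈ X ↔ b ∉ X)) → Rt T X y0 par μ →
    ∀ (k M0 N : ℕ) (x l : V) (P Sp : Finset V) (gs : V → ℤ) (off : ℤ),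
    x ∈ X → l ∈ kids X y0 par x → l ∉ Sp → N ∣ k → dg T x + P.card = N → 0 < N → x ∉ P →
    (∀ r ∈ P, r ∈ X ∧ dg T r = 1 ∧ μ (par r) < μ l) →
    2 * (P.card + 1 + Sp.card) ≤ N → Sp.card + 2 ≤ M0 →
    ∃ G : (V → ℤ) → V → ℤ,
      (∀ c ∈ kids X y0 par x, ∀ w w' : V → ℤ, (∀ z, μ z < μ c → w z = w' z) → G w c = G w' c) ∧
      (∀ c ∈ kids X y0 par x, ∀ w, c ∈ Sp → gs c ≤ G w c ∧ G w c < gs c + M0) ∧
      (∀ c ∈ kids X y0 par x, ∀ w, c ∉ Sp → off ≤ G w c ∧ G w c < off + N) ∧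
      (∀ w, ∀ c ∈ kids X y0 par x, ∀ c' ∈ kids X y0 par x, c ∉ Sp → c' ∉ Sp → G w c = G w c' → c = c') ∧
      ∀ u : V → ℤ, (∀ c ∈ kids X y0 par x, u c = G u c) → Loc T k u (insert x P)

/-- [small] The small vertices of one group `MS`.
PROOF. Enumerate `MS` as `xs 0, xs 1, …` with `μ (par (xs s))` nondecreasing (`TH.S_enum` with `g = μ ∘ par`; `V`
nonempty), `deg s = dg (xs s)` for `s < n = |MS|`, `∑ (deg s - 1) = ∑_{x ∈ MS} (dg x - 1)`. The hypothesis gives `sc`, `lab`.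
`idx` numbers each `kids x` by `1, …, |kids x| = dg x - 1` (`rank_spec`, Tree.lean, with an injection `V → ℕ`).
For `c ∈ kids (xs s)` let `ℓ = sb + lab s ρ (idx c)`, `ρ t = w (par (xs t)) - sb`, and
`G w c = ℓ` if `c ∉ Sp`, `G w c = gs c + (ℓ - gs c) % M0` if `c ∈ Sp`. Dependence: for `t ≤ s`,
`μ (par (xs t)) ≤ μ (par (xs s)) < μ c`, and `Game.nonant`. Ranges: `Game.bnd`. Injectivity: `Game.inj`, `idx` is
injective on `kids x`, `xs` is injective. Let `u c = G u c` for all children. Then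
`u c ≡ ℓ ≡ sb + ρ s + idx c d^j = u (par (xs s)) + idx c d^j mod d^(j+1)`, `d = deg s`, `j = sc s ρ`, by `Game.cong`
(in the case `c ∈ Sp` as `d^(j+1) ∣ d^(J+1) ∣ M0`, `j ≤ J` by `Game.sc_le`). `TH.S_covS` (`ch = kids`, `sc0 s = sc s ρ`,
`Game.count`, `Rt.adj`, `S_rt` (1), (2)) gives `Cov T k u MS`. -/
def S_small : Prop :=
  ∀ (V : Type) [Fintype V] [DecidableEq V] (T : SimpleGraph V) (X : Finset V) (y0 : V) (par : V → V)
    (μ : V → ℕ), (∀ a b, T.Adj a b → (a ∈ X ↔ b ∉ X)) → Rt T X y0 par μ →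
    ∀ (C1 J M0 k B : ℕ) (MS Sp : Finset V) (gs : V → ℤ) (sb : ℤ), 0 < M0 → M0 ∣ k →
    (∀ d, 2 ≤ d → d < C1 → d ^ (J + 1) ∣ M0) → MS ⊆ X → (∀ x ∈ MS, 2 ≤ dg T x ∧ dg T x < C1) →
    (∀ deg : ℕ → ℕ, (∀ s < MS.card, 2 ≤ deg s ∧ deg s < C1) →
      ∑ s ∈ range MS.card, (deg s - 1) = ∑ x ∈ MS, (dg T x - 1) →
      ∃ sc lab, Game C1 J M0 MS.card deg B sc lab) →
    ∃ G : (V → ℤ) → V → ℤ,
      (∀ x ∈ MS, ∀ c ∈ kids X y0 par x, ∀ w w' : V → ℤ, (∀ z, μ z < μ c → w z = w' z) → G w c = G w' c) ∧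
      (∀ x ∈ MS, ∀ c ∈ kids X y0 par x, ∀ w, c ∈ Sp → gs c ≤ G w c ∧ G w c < gs c + M0) ∧
      (∀ x ∈ MS, ∀ c ∈ kids X y0 par x, ∀ w, c ∉ Sp → sb ≤ G w c ∧ G w c < sb + ((M0 * B : ℕ) : ℤ)) ∧
      (∀ w, ∀ x ∈ MS, ∀ x' ∈ MS, ∀ c ∈ kids X y0 par x, ∀ c' ∈ kids X y0 par x', c ∉ Sp → c' ∉ Sp →
        G w c = G w c' → c = c') ∧
      ∀ u : V → ℤ, (∀ x ∈ MS, ∀ c ∈ kids X y0 par x, u c = G u c) → Cov T k u MS

/-- [lab2] The labelling. `Hs` is the set of the heavy vertices (or any set of vertices of `X` to be treated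
separately), `fH y w` the prescribed label of the root and of the children of `Hs`; `grp` divides the other
nonleaves of `X` into three groups, group `i` uses the interval `[b i, b i + len i)` of labels.
PROOF. Let `ML = {x ∈ X : x ∉ Hs, C1 ≤ dg x}`, `MS i = {x ∈ X : x ∉ Hs, 2 ≤ dg x < C1, grp x = i}`. For each `i` let
`off x = b i + (offset of x)` for the medium `x` of group `i`, where the offsets are those of `offsets` (Plan.lean) for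
the set `{x ∈ ML : grp x = i}` and `N`, and `sb i = b i + ∑_{x ∈ ML, grp x = i} N x`, `B i = Bf (∑_{x ∈ MS i} (dg x - 1))`.
`S_med` for `x ∈ ML` (`2 (|P x| + 1 + |Sp|) ≤ N x`: `(C-1) |P x| ≤ dg x` from `(C-1) N x ≤ C dg x`, `|Sp| ≤ 100 C²`,
`dg x ≥ 1000 C²`, `C ≥ 100`; `|Sp| + 2 ≤ C1 ≤ M0`), `S_small` for each `MS i` (`Prm.G`) give functions `G`.
`rec_exists` (Plan.lean) with `body y w := fH y w` if `y = y0 ∨ par y ∈ Hs`, `:= G_{par y} w y` if `par y ∈ ML`,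
`:= G_{i} w y` if `par y ∈ MS i` (every `y ∉ X`, `y ≠ y0` has `2 ≤ dg (par y)` by `S_rt` (5), so one of the cases
occurs) gives `u` with `u y = body y (u restricted to {z : μ z < μ y}) = body y u` by the dependence properties.
The label of a child `y ∉ Sp` of a vertex `x ∉ Hs` of group `i` lies in `[off x, off x + N x)` or in
`[sb i, sb i + M0 B i)`; these intervals are disjoint and contained in
`[b i, b i + ∑_{x ∈ ML, grp x = i} N x + M0 B i) ⊆ [b i, b i + len i)`: if the group is not empty then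
`∑ N x + M0 B i ≤ (1+δ) ∑_{medium} (dg x - 1) + (1+δ) ∑_{small} (dg x - 1) + K ≤ len i` (`Prm.q`, `Prm.B`). -/
def S_lab2 : Prop :=
  ∀ (ε δ : ℝ) (C C1 J M0 K : ℕ) (Bf : ℕ → ℕ), Prm ε δ C C1 J M0 K Bf →
    ∀ (V : Type) [Fintype V] [DecidableEq V] (T : SimpleGraph V) (X : Finset V) (y0 : V) (par : V → V)
    (μ : V → ℕ), (∀ a b, T.Adj a b → (a ∈ X ↔ b ∉ X)) → Rt T X y0 par μ →
    ∀ (k : ℕ) (Hs Sp : Finset V) (gs : V → ℤ) (N : V → ℕ) (P : V → Finset V) (last : V → V)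
      (grp : V → Fin 3) (b : Fin 3 → ℤ) (len : Fin 3 → ℕ) (fH : V → (V → ℤ) → ℤ),
    0 < k → M0 ∣ k → Sp.card ≤ 100 * C ^ 2 →
    (∀ y ∉ X, y = y0 ∨ par y ∈ Hs → ∀ w w' : V → ℤ, (∀ z, μ z < μ y → w z = w' z) → fH y w = fH y w') →
    (∀ x ∈ X, x ∉ Hs → C1 ≤ dg T x → N x ∣ k ∧ (C - 1) * N x ≤ C * dg T x ∧ dg T x + (P x).card = N x ∧
      last x ∈ kids X y0 par x ∧ last x ∉ Sp ∧
      ∀ r ∈ P x, r ∈ X ∧ dg T r = 1 ∧ μ (par r) < μ (last x)) →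
    (∀ i : Fin 3, (∀ x ∈ X, x ∉ Hs → 2 ≤ dg T x → grp x ≠ i) ∨
      (1 + δ) * ∑ x ∈ X.filter (fun x => x ∉ Hs ∧ 2 ≤ dg T x ∧ grp x = i), ((dg T x : ℝ) - 1) + K ≤ len i) →
    ∃ u : V → ℤ,
      (∀ y ∉ X, y = y0 ∨ par y ∈ Hs → u y = fH y u) ∧
      (∀ y ∉ X, y ≠ y0 → par y ∉ Hs → y ∈ Sp → gs y ≤ u y ∧ u y < gs y + M0) ∧
      (∀ y ∉ X, y ≠ y0 → par y ∉ Hs → y ∉ Sp →
        b (grp (par y)) ≤ u y ∧ u y < b (grp (par y)) + len (grp (par y))) ∧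
      (∀ y ∉ X, y ≠ y0 → par y ∉ Hs → y ∉ Sp → ∀ y' ∉ X, y' ≠ y0 → par y' ∉ Hs → y' ∉ Sp →
        grp (par y) = grp (par y') → u y = u y' → y = y') ∧
      (∀ x ∈ X, x ∉ Hs → C1 ≤ dg T x → Loc T k u (insert x (P x))) ∧
      ∀ i : Fin 3, Cov T k u (X.filter (fun x => x ∉ Hs ∧ 2 ≤ dg T x ∧ dg T x < C1 ∧ grp x = i))

/-- [cX] Putting the parts together: `HP` contains `Hs` and leaves, and is covered by parts.
PROOF. `X` is the disjoint union of `HP`, the sets `insert x (P x)` for medium `x ∉ Hs` (disjoint from each other, as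
the elements of `P x` are leaves and the `P x` are disjoint, and from `HP`), the three sets of small vertices, and the
remaining vertices, which are leaves (`dg ≥ 1`; `TH.S_locF` (2)). `TH.S_cov` (2), (3), (4). -/
def S_cX : Prop :=
  ∀ (V : Type) [Fintype V] [DecidableEq V] (T : SimpleGraph V) (k C1 : ℕ) (u : V → ℤ)
    (X Hs HP : Finset V) (P : V → Finset V) (grp : V → Fin 3),
    (∀ x ∈ X, 1 ≤ dg T x) → 2 ≤ C1 → Hs ⊆ HP → HP ⊆ X → (∀ x ∈ HP, x ∉ Hs → dg T x = 1) → Cov T k u HP →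
    (∀ x ∈ X, x ∉ Hs → C1 ≤ dg T x → Loc T k u (insert x (P x)) ∧
      ∀ r ∈ P x, r ∈ X ∧ dg T r = 1 ∧ r ∉ HP) →
    (∀ x x' r, r ∈ P x → r ∈ P x' → x = x') →
    (∀ i : Fin 3, Cov T k u (X.filter (fun x => x ∉ Hs ∧ 2 ≤ dg T x ∧ dg T x < C1 ∧ grp x = i))) →
    Cov T k u X

/-- [seg] Dividing a set of weights into three groups of bounded weights.
PROOF. Lemma: if `L ≥ 0` there is `A' ⊆ A` with `∑_{A'} wt ≤ L` and (`A' = A` or `∑_{A'} wt > L - b`): a maximal subset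
with sum `≤ L` (`Finset.exists_maximal` on the filtered powerset, or induction). Let
`L' i = max (L i - b) 0`. Step 0: if `L 0 < 0` put `A0 = ∅`, otherwise `A0` from the lemma; in all cases
`∑_{A \ A0} wt ≤ L' 1 + L' 2` (if `A0 = A` it is `0`; if `∑_{A0} wt > L 0 - b` use `∑_A wt ≤ ∑ L'`, and
`L' 0 = L 0 - b` or `L' 0 = 0`). Step 1: the same with `A \ A0`, `L 1`. The rest `A2` has weight `≤ L' 2`; if it is not
empty then its weight is positive, so `L' 2 > 0`, `L' 2 = L 2 - b ≤ L 2`. -/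
def S_seg : Prop :=
  ∀ (V : Type) [DecidableEq V] (A : Finset V) (wt : V → ℝ) (b : ℝ) (L : Fin 3 → ℝ), 0 ≤ b →
    (∀ x ∈ A, 0 < wt x ∧ wt x ≤ b) → ∑ x ∈ A, wt x ≤ ∑ i : Fin 3, max (L i - b) 0 →
    ∃ grp : V → Fin 3, ∀ i, (∀ x ∈ A, grp x ≠ i) ∨ ∑ x ∈ A.filter (fun x => grp x = i), wt x ≤ L i

/-! ## 3. Construction (S): separate heavy vertices -/

/-- [seq] Sorted fillers. `v r` is the label of (the neighbour of) the leaf `r`, in a window of length `N - p - 2`;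
`W` is the set of the free coordinates, `|W| = p`, inside an interval of `p + 1` integers.
PROOF. If `p = 0` take `P = ∅`. Enumerate `S` as `x_0, x_1, …` with `v` nondecreasing (`TH.S_enum` with
`g r = (v r - e).toNat`) and `W` as `w_0 > w_1 > … > w_{p-1}`. `α i := v x_i - w_i` (`i < p ≤ |S|`) is strictly increasing
and `α (p-1) - α 0 ≤ (N - p - 3) + p < N`. If no `α i` is divisible by `N` take `P = {x_0, …, x_{p-1}}`,
`δ x_i = w_i`. Otherwise let `N ∣ α i0`. All `x_i` with `v x_i = v x_{i0}` are in the class of `w_{i0}`, so there are at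
most `β` of them; let `c ≤ β` be the number of the `i ≥ i0` with `v x_i = v x_{i0}`; these are `i0, …, i0 + c - 1`. Use
`x_i` at `w_i` for `i < i0` and `x_{i+c}` at `w_i` for `i0 ≤ i < p` (`i + c < p + β ≤ |S|`). The shifts
`α i` (`i < i0`), `α' i = v x_{i+c} - w_i` (`i ≥ i0`) are strictly increasing integers, `α i < α i0 < α' i'`
(`v x_{i+c} ≥ v x_{i0} + 1`, `w_i ≤ w_{i0}`), and all lie in a range of length `≤ (N - p - 3) + p < N`
(all labels in the window, all coordinates in the interval). So they are different mod `N` and none of them is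
divisible by `N` (the multiple `α i0` of `N` is at distance in `(0, N)` from each of them). -/
def S_seq : Prop :=
  ∀ (V : Type) [DecidableEq V] (N p β : ℕ) (S : Finset V) (v : V → ℤ) (e w0 : ℤ) (W : Finset ℤ),
    W.card = p → (∀ δ ∈ W, w0 ≤ δ ∧ δ ≤ w0 + p) → (∀ r ∈ S, e ≤ v r ∧ v r + p + 3 ≤ e + N) →
    p + β ≤ S.card → (∀ δ ∈ W, (S.filter (fun r => v r ≡ δ [ZMOD N])).card ≤ β) →
    ∃ (P : Finset V) (δ : V → ℤ), P ⊆ S ∧ P.card = p ∧ (∀ r ∈ P, δ r ∈ W) ∧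
      (∀ r ∈ P, ∀ r' ∈ P, δ r = δ r' → r = r') ∧
      (∀ r ∈ P, ∀ r' ∈ P, v r - δ r ≡ v r' - δ r' [ZMOD N] → r = r') ∧
      ∀ r ∈ P, ¬ v r - δ r ≡ 0 [ZMOD N]

/-- [arc] Averaging over the rotations.
PROOF. For each `r ∈ S` exactly `m` of the numbers `e ∈ [0, N)` satisfy `(v r - e) % N < m` (`m ≤ N`; the map
`e ↦ (v r - e) % N` is a bijection of `[0, N)`). Sum over `r` and take the `e` with the largest count. -/
def S_arc : Prop :=
  ∀ (V : Type) [DecidableEq V] (N m : ℕ) (S : Finset V) (v : V → ℤ), 0 < N → m ≤ N →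
    ∃ e : ℤ, S.card * m ≤ N * (S.filter (fun r => (v r - e) % N < m)).card

/-- [F1] The fillers of one heavy vertex, `N = dg x + p`. The coordinates not used by `x` lie in `[w0, w0 + p]` mod `N`;
at most `β` leaves of `S` have their label in a given free class.
PROOF. Let `p = N - dg x`, `d = dg x ≥ 2`. `x` uses `d` different residues mod `N`; `W := {w0 + j : 0 ≤ j ≤ p, w0 + j`
not congruent to a label of a neighbour of `x}` (`p + 1 ≤ N` different residues) represents each free residue exactly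
once, `|W| = p`. `S_arc` with `m = d - 2 ≤ N` and `v r = u (pr r)`: `S' = {r ∈ S : (v r - e) % N < d - 2}` has
`N |S'| ≥ |S| (d-2) ≥ N (p + β)`, so `|S'| ≥ p + β`. Let `v' r = e + (v r - e) % N ≡ v r`; `v' r + p + 3 ≤ e + N` for
`r ∈ S'`. `S_seq` gives `P ⊆ S'`, `δ`. `Loc T k u (insert x P)`: `∑ dg = d + p = N`; shifts `0` for `x` and
`u (pr r) - δ r` for `r ∈ P` (`u (pr r) ≡ v' r`); coordinates `u y` (`y` neighbour of `x`), `δ r ∈ W`. -/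
def S_F1 : Prop :=
  ∀ (V : Type) [Fintype V] [DecidableEq V] (T : SimpleGraph V) (k N β : ℕ) (u : V → ℤ) (x : V)
    (S : Finset V) (pr : V → V) (w0 : ℤ), 0 < N → N ∣ k → 2 ≤ dg T x → dg T x ≤ N → x ∉ S →
    (∀ r ∈ S, ∀ y, T.Adj r y ↔ y = pr r) →
    (∀ y y', T.Adj x y → T.Adj x y' → u y ≡ u y' [ZMOD N] → y = y') →
    (∀ δ : ℤ, (∀ y, T.Adj x y → ¬ u y ≡ δ [ZMOD N]) →
      (∃ j : ℕ, j ≤ N - dg T x ∧ δ ≡ w0 + j [ZMOD N]) ∧
      (S.filter (fun r => u (pr r) ≡ δ [ZMOD N])).card ≤ β) →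
    N * (N - dg T x + β) ≤ S.card * (dg T x - 2) →
    ∃ P ⊆ S, P.card = N - dg T x ∧ Loc T k u (insert x P)

/-- [Fall] The fillers of all heavy vertices, one after the other.
PROOF. Induction over the subsets `H' ⊆ H`: disjoint `P x ⊆ L`, `|P x| = N x - dg x`, `Loc T k u (insert x (P x))` for
`x ∈ H'`. Step for `x ∈ H \ H'`: `S = L \ ⋃_{H'} P`, `|S| ≥ ∑_H dg - 2|H| - ∑_{H'} (N z - dg z) ≥ dg x - 2 |H|`, because
`N z - dg z ≤ dg z` for `z ∈ H'` (and `x ∉ H'`). `S_F1`: with `d = dg x`, `p = N x - d ≤ d / 2`,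
`N x (p + β) ≤ (3 d / 2)(d / 2 + β) = 3 d² / 4 + 3 d β / 2`, and
`|S| (d - 2) ≥ (d - 2|H|)(d - 2) ≥ d² - (2 |H| + 2) d`; `d² / 4 ≥ (2|H| + 2) d + (3/2) β d` as
`d ≥ 8 (|H| + 1) + 6 β`. -/
def S_Fall : Prop :=
  ∀ (V : Type) [Fintype V] [DecidableEq V] (T : SimpleGraph V) (k β : ℕ) (u : V → ℤ)
    (H L : Finset V) (pr : V → V) (N : V → ℕ) (w0 : V → ℤ), Disjoint H L →
    (∀ r ∈ L, ∀ y, T.Adj r y ↔ y = pr r) →
    (∀ x ∈ H, 0 < N x ∧ N x ∣ k ∧ dg T x ≤ N x ∧ 2 * (N x - dg T x) ≤ dg T x ∧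
      8 * (H.card + 1) + 6 * β ≤ dg T x) →
    (∀ x ∈ H, ∀ y y', T.Adj x y → T.Adj x y' → u y ≡ u y' [ZMOD N x] → y = y') →
    (∀ x ∈ H, ∀ δ : ℤ, (∀ y, T.Adj x y → ¬ u y ≡ δ [ZMOD N x]) →
      (∃ j : ℕ, j ≤ N x - dg T x ∧ δ ≡ w0 x + j [ZMOD N x]) ∧
      (L.filter (fun r => u (pr r) ≡ δ [ZMOD N x])).card ≤ β) →
    ∑ x ∈ H, dg T x ≤ L.card + 2 * H.card →
    ∃ P : V → Finset V, (∀ x ∈ H, P x ⊆ L ∧ Loc T k u (insert x (P x))) ∧
      ∀ x ∈ H, ∀ x' ∈ H, ∀ r, r ∈ P x → r ∈ P x' → x = x'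

/-- [heavy] The labels of the children of a heavy vertex `x`: the interval `[A, A + d)`, `d = dg x ≤ N`, except for
the special children. They depend only on the label of `par x`.
PROOF. Let `w0 = w (par x)` (`μ (par x) < μ c` for the children `c`, `Rt.lt`). Special child `c`: `G w c = gs c` if
`gs c ≢ w0` mod `N`, otherwise `gs c + 1` (then `≢ w0`, since `gs c ≢ gs c + 1` by the second hypothesis on `Sp`).
Let `q` be the number of special children, `Av = {h ∈ [A, A+d) : h ≢ w0, h ≢ G w c` for the special children `c}`. The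
`q` residues `G w c` are different mod `N`, different from `w0`, and each is the residue of exactly one `h ∈ [A, A+d-1)`
(first hypothesis; `d ≤ N`). So `|Av| = d - q - 1` if `w0 ≡ h` for some `h ∈ [A, A+d)`, and then `Av' := Av`;
otherwise `|Av| = d - q`, `A + d - 1 ∈ Av` and `Av' := Av \ {A + d - 1}`. In both cases `|Av'| = d - 1 - q` is the number
of the children not in `Sp`; let `G w` be a bijection of these children onto `Av'` (chosen as a function of `w0`).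
Now let `u c = G u c` for all children. The labels of the neighbours (`par x` and the children) are different mod `N`,
and if `δ` is not congruent to any of them then `δ` is not congruent to any element of `[A, A + d - 1)`: each of those
is in `Av'`, or congruent to `w0` or a `G w c`. So `δ ≡ A + d - 1 + j` with `0 ≤ j ≤ N - d`. -/
def S_heavy : Prop :=
  ∀ (V : Type) [Fintype V] [DecidableEq V] (T : SimpleGraph V) (X : Finset V) (y0 : V) (par : V → V)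
    (μ : V → ℕ), (∀ a b, T.Adj a b → (a ∈ X ↔ b ∉ X)) → Rt T X y0 par μ →
    ∀ (N : ℕ) (A : ℤ) (x : V) (Sp : Finset V) (gs : V → ℤ), x ∈ X → 2 ≤ dg T x → dg T x ≤ N →
    (∀ c ∈ kids X y0 par x, c ∈ Sp → ∀ e : ℤ, 0 ≤ e → e ≤ 1 →
      ∃ h : ℤ, A ≤ h ∧ h + 1 < A + dg T x ∧ h ≡ gs c + e [ZMOD N]) →
    (∀ c ∈ kids X y0 par x, c ∈ Sp → ∀ c' ∈ kids X y0 par x, c' ∈ Sp → ∀ e e' : ℤ, 0 ≤ e → e ≤ 1 → 0 ≤ e' →
      e' ≤ 1 → gs c + e ≡ gs c' + e' [ZMOD N] → c = c' ∧ e = e') →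
    ∃ G : (V → ℤ) → V → ℤ,
      (∀ w w' : V → ℤ, w (par x) = w' (par x) → ∀ c ∈ kids X y0 par x, G w c = G w' c) ∧
      (∀ c ∈ kids X y0 par x, ∀ w, c ∈ Sp → gs c ≤ G w c ∧ G w c ≤ gs c + 1) ∧
      (∀ c ∈ kids X y0 par x, ∀ w, c ∉ Sp → A ≤ G w c ∧ G w c < A + dg T x) ∧
      (∀ w, ∀ c ∈ kids X y0 par x, ∀ c' ∈ kids X y0 par x, c ∉ Sp → c' ∉ Sp → G w c = G w c' → c = c') ∧
      ∀ u : V → ℤ, (∀ c ∈ kids X y0 par x, u c = G u c) →
        (∀ y y', T.Adj x y → T.Adj x y' → u y ≡ u y' [ZMOD N] → y = y') ∧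
        ∀ δ : ℤ, (∀ y, T.Adj x y → ¬ u y ≡ δ [ZMOD N]) →
          ∃ j : ℕ, j ≤ N - dg T x ∧ δ ≡ A + dg T x - 1 + j [ZMOD N]

/-- [place] The positions `[A x, A x + d x)` of the intervals of the heavy vertices, in the two runs `[g1, g2)`,
`[g3, g4)`. For each heavy `x` some multiple `t N` of `N = k / ⌊k / d x⌋` satisfies `[t N, t N + c] ⊆ [A x, A x + d x - 1]`
(the zone `[0, c)` is safe).
PROOF. If `H = ∅` take `g1 = g2 = g3 = g4 = k ≥ c`. Let `x1 ∈ H` have the largest `d`, `d1 = d x1`, `s1 = ⌊k / d1⌋`,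
`s x = ⌊k / d x⌋`, `N x = k / s x` (`2 ≤ s x < C`, `s x N x = k`, `d x ≤ N x`, and `k < (s x + 1) d x` gives
`s x (N x - d x) < d x`). `A x1 = (s1 - 1) N1`, `g3 = A x1`, `g4 = A x1 + d1 ≤ k`, `t x1 = s1 - 1` (`c + 1 ≤ d1`). The
others are placed one after the other from `g1 = g` on: `A x = g + o x`, with `0 ≤ o x`, `o x + d x ≤ D' := D - d1`;
`g2 = g + D'`. We need `c ≤ g`, `g + D' ≤ (s1 - 1) N1 = k - N1`; so `g` runs over `ℓ = k - N1 - D' - c + 1` values. `x` is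
bad for `g` if `r = (- A x) mod N x` satisfies `r ≥ d x - c` (otherwise `A x + r` is a multiple of `N x` as wanted:
`r + c + 1 ≤ d x`), that is for at most `(ℓ / N x + 1) (N x - d x + c)` values of `g`. With all numbers divided by `k`
(real numbers, `D ≤ 3/5`, `d1 > 1/(s1+1)`, `D' = D - d1`): `(ℓ/N x)(N x - d x) = ℓ (1 - s x d x) ≤ ℓ d x`,
`N x - d x ≤ d x / s x ≤ d x / s1` (`s x ≥ s1`), so the number of bad `g` is at most
`ℓ D' + D' / s1 + (error ≤ (C+1) C c / k)`. It suffices that `ℓ (1 - D') > D' / s1 + error'`, where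
`ℓ ≥ 1 - 1/s1 - D' - c/k`. Now `f(D') = (1 - 1/s1 - D')(1 - D') - D'/s1` is decreasing in `D' ≤ 3/5 - 1/(s1+1)`.
`s1 = 2`: `D' ≤ 4/15`, `f ≥ (7/30)(11/15) - 2/15 = 17/450 > 0.03`. `s1 ≥ 3`: with `t = 1/(s1+1) ≤ 1/4`:
`1 - 1/s1 - D' ≥ 2/5 - 1/(s1 (s1+1)) ≥ 2/5 - 1/12`, `1 - D' ≥ 2/5 + t`, `D'/s1 ≤ (3/5 - t) (t/(1-t))`; for
`s1 = 3`: `f ≥ (19/60)(13/20) - (7/20)/3 > 0.03`; for
`s1 ≥ 4`: `t ≤ 1/5`, `t/(1-t) ≤ 5t/4`, `1 - 1/s1 - D' ≥ 2/5 - 1/20 = 7/20`, so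
`f ≥ (7/20)(2/5 + t) - (3/5)(5t/4) = 7/50 - 2t/5 ≥ 3/50`. So for large `k` there is a `g` which is not bad for any `x`. -/
def S_place : Prop :=
  ∀ C c : ℕ, 2 ≤ C → ∃ k0 : ℕ, ∀ k : ℕ, k0 ≤ k → (∀ s, 1 ≤ s → s ≤ C → s ∣ k) →
    ∀ (V : Type) [DecidableEq V] (H : Finset V) (d : V → ℕ), (∀ x ∈ H, k < C * d x ∧ 2 * d x ≤ k) →
    5 * ∑ x ∈ H, d x ≤ 3 * k →
    ∃ (A t : V → ℕ) (g1 g2 g3 g4 : ℕ), c ≤ g1 ∧ g1 ≤ g2 ∧ g2 ≤ g3 ∧ g3 ≤ g4 ∧ g4 ≤ k ∧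
      (g2 - g1) + (g4 - g3) = ∑ x ∈ H, d x ∧
      (∀ x ∈ H, (g1 ≤ A x ∧ A x + d x ≤ g2) ∨ (g3 ≤ A x ∧ A x + d x ≤ g4)) ∧
      (∀ x ∈ H, ∀ x' ∈ H, x ≠ x' → A x + d x ≤ A x' ∨ A x' + d x' ≤ A x) ∧
      ∀ x ∈ H, A x ≤ t x * (k / (k / d x)) ∧ t x * (k / (k / d x)) + c + 1 ≤ A x + d x

/-- [S1] Construction (S), the labels.
PROOF. Let `n` be large; `k ≥ (1+ε) n`, `k ≤ 4 n`. `m = |H|`, `D = ∑_H dg`; `∑_H (dg - 1) ≤ n - 1` (`S_cnt` (4)) and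
`C dg x > k` give `m ≤ C`. `τ = k / (64 C²) + 1`, `LH = {y ∉ X : at least τ leaves r ∈ X are adjacent to y}`; a leaf has
one neighbour (`TH.S_dg` (5)), so `|LH| τ ≤ n ≤ k` and `|LH| ≤ 64 C²`. `β = C τ`; `8 (m+1) + 6 β ≤ dg x` for `x ∈ H`
because `6 β ≤ 6k/(64 C) + 6 C` and `dg x > k / C`.
`r0` = a leaf in `X` (`S_cnt` (5)), `y0` its neighbour, `Sp = insert y0 LH` (`|Sp| ≤ 64 C² + 1 ≤ 100 C²`), `idx` an
injection of `Sp` into `[0, |Sp|)`, `gs y = M0 * idx y`, `c = M0 (64 C² + 1)`. `S_place` (`d = dg T`) gives `A`, `t`,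
`g1, …, g4`. For `x ∈ X \ H` with `C1 ≤ dg x` choose `Nm x` by `Host.dN`; `q x = Nm x - dg x`, `(C-1) q x ≤ dg x`.
`S_plan2` with `Mst` = the set of these `x`, `Rv = ∅`, `Spf = fun _ => Sp`: `4 q x + |Sp| + 3 ≤ dg x`
(`C ≥ 100`, `dg x ≥ C1 ≥ 1000 C²`). It gives `par`, `μ`, `last`, `P`. `|P x| + 2 ≤ dg x`.
Groups: `A0 = {x ∈ X : x ∉ H, 2 ≤ dg x}`, `wt x = (1+δ)(dg x - 1)`, `b = 2 k / C`,
`L = (g1 - c - K, g3 - g2 - K, k - g4 - K)`. `∑ wt = (1+δ)(n - 1 - ∑_H (dg-1)) ≤ (1+δ) n - D + m`, and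
`∑ (L i - b) = k - c - D - 3K - 3b` (`S_place`); this is at least `∑ wt` as `k - n ≥ ε n`, `δ n ≤ ε n / 50`,
`3 b = 6k/C ≤ 24 n / C ≤ 0.24 ε n` and the rest is constant. `S_seg` gives `grp`.
`b 0 = c`, `b 1 = g2`, `b 2 = g4`, `len = (g1 - c, g3 - g2, k - g4)` (`wt ≤ L i` gives the hypothesis of `S_lab2`).
`fH y0 w = gs y0`, and `fH y w = G_x w y` for a child `y` of `x ∈ H`, `G_x` from `S_heavy` with `N x = k / (k / dg x)` and
`A x`: for a special child `c'` and `e ∈ {0,1}` the number `gs c' + e` is in `[0, c)` and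
`h = t x N x + gs c' + e ∈ [A x, A x + dg x - 1)`; different numbers `gs c' + e` (`M0 ≥ 2`) in `[0, c)` are different mod
`N x` (`c ≤ dg x ≤ N x`). (`dg x ≤ N x`: with `s = k / dg x`, `2 ≤ s ≤ C`, `s ∣ k`, `N x = k / s`.) `S_lab2` gives `u`.
Labels: `y ∈ Sp`: `u y ∈ [gs y, gs y + M0) ⊆ [0, c)`, disjoint for different `y`; children `∉ Sp` of `x ∈ H`: in
`[A x, A x + dg x)`, different; other `y`: in `[c, g1)`, `[g2, g3)`, `[g4, k)` according to the group, different in the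
same group. All these intervals are disjoint and in `[0, k)`. So `u` is injective on `Xᶜ`.
Heavy `x`: by `S_heavy` the labels of the neighbours are different mod `N x` and a free `δ` is `≡ w0 x + j`,
`w0 x = A x + dg x - 1`, `j ≤ N x - dg x`. If `u (par r) ≡ δ` for a leaf `r` then `y = par r ∉ Sp`: for `y ∈ Sp`,
`u y ≡ t x N x + u y ∈ [A x, A x + dg x - 1)`, not congruent to `w0 x + j` (the interval `[A x, A x + N x)` contains
each residue once). So `y` has fewer than `τ` leaves (if `r` is a leaf with `par r = y` then `r` is adjacent to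
`y`), and at most `k / N x = k / dg x ≤ C` vertices `y` have `u y ≡ δ` (different labels in `[0, k)`). Together
`≤ C τ = β` leaves. -/
def S_S1 : Prop :=
  ∀ (ε δ : ℝ) (C C1 J M0 K : ℕ) (Bf : ℕ → ℕ), Prm ε δ C C1 J M0 K Bf → ∃ n0 : ℕ, ∀ n : ℕ, n0 ≤ n →
    ∀ k : ℕ, Host ε C C1 M0 n k →
    ∀ (V : Type) [Fintype V] [DecidableEq V] (T : SimpleGraph V), T.IsTree →
    ∀ X : Finset V, (∀ a b, T.Adj a b → (a ∈ X ↔ b ∉ X)) → X.card = n → Xᶜ.card = n →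
    (∀ x ∈ X, 2 * dg T x ≤ k) → 5 * ∑ x ∈ X.filter (fun x => k < C * dg T x), dg T x ≤ 3 * k →
    ∀ H : Finset V, H = X.filter (fun x => k < C * dg T x) →
    ∃ (y0 : V) (par : V → V) (μ : V → ℕ) (P : V → Finset V) (grp : V → Fin 3) (u : V → ℤ) (w0 : V → ℤ)
      (β : ℕ), Rt T X y0 par μ ∧
      (∀ y ∉ X, 0 ≤ u y ∧ u y < k) ∧ (∀ y ∉ X, ∀ y' ∉ X, u y = u y' → y = y') ∧
      (∀ x ∈ X, x ∉ H → C1 ≤ dg T x → Loc T k u (insert x (P x)) ∧ (P x).card + 2 ≤ dg T x ∧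
        ∀ r ∈ P x, r ∈ X ∧ dg T r = 1) ∧
      (∀ x, ¬ (x ∈ X ∧ x ∉ H ∧ C1 ≤ dg T x) → P x = ∅) ∧
      (∀ x x' r, r ∈ P x → r ∈ P x' → x = x') ∧
      (∀ i : Fin 3, Cov T k u (X.filter (fun x => x ∉ H ∧ 2 ≤ dg T x ∧ dg T x < C1 ∧ grp x = i))) ∧
      (∀ x ∈ H, ∀ y y', T.Adj x y → T.Adj x y' → u y ≡ u y' [ZMOD ((k / (k / dg T x) : ℕ) : ℤ)] → y = y') ∧
      (∀ x ∈ H, ∀ δ' : ℤ, (∀ y, T.Adj x y → ¬ u y ≡ δ' [ZMOD ((k / (k / dg T x) : ℕ) : ℤ)]) →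
        (∃ j : ℕ, j ≤ k / (k / dg T x) - dg T x ∧ δ' ≡ w0 x + j [ZMOD ((k / (k / dg T x) : ℕ) : ℤ)]) ∧
        ((lf T X).filter (fun r => u (par r) ≡ δ' [ZMOD ((k / (k / dg T x) : ℕ) : ℤ)])).card ≤ β) ∧
      ∀ x ∈ H, 8 * (H.card + 1) + 6 * β ≤ dg T x

/-- [S] **Construction (S).**
PROOF. `S_S1`. Let `L = lf T X \ ⋃ P x` (union over the medium vertices). `S_cnt` (3) (`2 ≤ dg` on `H`, as
`C dg x > k` is large): `|lf| + 2|H| = 1 + D + ∑_O (dg - 2)`, `O` = nonleaves not in `H`, and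
`∑_{medium} |P x| ≤ ∑_O (dg - 2)`, so `D ≤ |L| + 2 |H|`. For `x ∈ H` let `s = k / dg x`, `N x = k / s`: `2 ≤ s` (from
`2 dg x ≤ k`), `s ≤ C` (from `k < C dg x`), so `s ∣ k`, `N x ∣ k`, `s N x = k`, `dg x ≤ N x` (`s dg x ≤ k`), and
`k < (s+1) dg x` gives `s (N x - dg x) < dg x`, so `2 (N x - dg x) ≤ dg x`. `S_Fall` (`pr = par`, `S_rt` (6) for the
leaves, a leaf is not in `H`; the filter over `L ⊆ lf` is smaller) gives `P' x`, `x ∈ H`. `HP = ⋃_{x ∈ H} insert x (P' x)`,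
`Cov T k u HP` (`TH.S_cov` (2), (4)). `S_cX` (`Hs = H`; the elements of `P x` are not in `HP` since they are not in `L`
and not in `H`) and `TH.S_crit` with `m = 2n - 1` (`|V| = 2n`; labels different integers in `[0, k)` are different
mod `k`). -/
def S_S : Prop :=
  ∀ (ε δ : ℝ) (C C1 J M0 K : ℕ) (Bf : ℕ → ℕ), Prm ε δ C C1 J M0 K Bf → ∃ n0 : ℕ, ∀ n : ℕ, n0 ≤ n →
    ∀ k : ℕ, Host ε C C1 M0 n k →
    ∀ (V : Type) [Fintype V] [DecidableEq V] (T : SimpleGraph V), T.IsTree →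
    ∀ X : Finset V, (∀ a b, T.Adj a b → (a ∈ X ↔ b ∉ X)) → X.card = n → Xᶜ.card = n →
    (∀ x ∈ X, 2 * dg T x ≤ k) → 5 * ∑ x ∈ X.filter (fun x => k < C * dg T x), dg T x ≤ 3 * k →
    Decomposes T (completeBipartiteGraph (Fin (2 * n - 1)) (Fin k))

/-! ## 4. Construction (J): one hub -/

/-- [Jflex] The leaves at a set `S` of vertices of `Y`.
PROOF. Root `T` at some `y' ∈ S` (`parent_exists`, Tree.lean). The edges between `S` and `X` are of two kinds: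
`par x = y ∈ S` (the vertices `x ∈ X` with `par x ∈ S`), or `x = par y`, `y ∈ S`, `y ≠ y'` (`|S| - 1` edges). So
`#{x ∈ X : par x ∈ S} = ∑_S dg - |S| + 1`. All these `x` are adjacent to `S`; each is a leaf (last term on the right) or
a nonleaf; the nonleaves adjacent to `S` number `#nonleaves - #(nonleaves not adjacent to S)`. (`dg y = T.degree y`,
`TH.S_dg` (1) or (4).) -/
def S_Jflex : Prop :=
  ∀ (V : Type) [Fintype V] [DecidableEq V] (T : SimpleGraph V) [DecidableRel T.Adj], T.IsTree →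
    ∀ X : Finset V, (∀ a b, T.Adj a b → (a ∈ X ↔ b ∉ X)) → ∀ S : Finset V, S.Nonempty → (∀ y ∈ S, y ∉ X) →
    (∑ y ∈ S, dg T y) + 1 + (X.filter (fun x => 2 ≤ dg T x ∧ ∀ y ∈ S, ¬ T.Adj x y)).card ≤
      S.card + (X.filter (fun x => 2 ≤ dg T x)).card + ((lf T X).filter (fun r => ∃ y ∈ S, T.Adj r y)).card

/-- [Jset] The hub `H` and the root `ys`.
PROOF. `HX`, `HY` the sets of heavy vertices. `|HX|, |HY| ≤ C` for large `n` (`S_cnt` (4) for both classes; `Xᶜᶜ = X`).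
A vertex with `2 dg > k` is heavy; so `k < 2 ∑_{HX} dg` and `k < 2 ∑_{HY} dg` in all cases. `S_Jflex` with `S = HY`: the
number `λ` of leaves `r ∈ X` adjacent to `HY` satisfies `λ ≥ ∑_{HY} dg + 1 - C - #nonleaves of X`, and by `S_cnt` (3)
`#nonleaves = n - |lf| ≤ n - 1 - ∑_{HX} dg + 2 C`; so `λ ≥ k - n - 3 C`. Some `ys ∈ HY` has `C λ(ys) ≥ λ`, where `λ(ys)` is
the number of its leaves, so `4 C λ(ys) ≥ 4 (k - n) - 12 C ≥ k - n` as `k - n ≥ ε n` is large. `λ(ys) > 0`: choose `r0`.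
`|HX| ≥ 2`: `H = HX`. If `5 ∑ dg > 3 k` then `2 ∑ dg > k + k/5`; otherwise some `x` has `2 dg x > k` and another
`x' ∈ HX` has `C dg x' > k`, so `2 ∑ dg ≥ k + 2k/C`. In both cases `2 ∑_H dg ≥ k + 2 C ≥ k + 2|H|`.
`HX = {x1}`: `k < 2 dg x1` (if `3k < 5 dg x1` too). If `x1` is adjacent to `ys` let `H = {x1}`: `k + 2 ≤ 2 dg x1 + 1`.
Otherwise root `T` at `x1` (`parent_exists`), `x0 = par ys ≠ x1`; `x0 ∈ X` has the neighbours `ys`, `par x0`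
(different: `dist` from `x1`), so `2 ≤ dg x0`. `H = {x1, x0}`: `2 (dg x1 + dg x0) + 1 ≥ k + 6`. `HX ≠ ∅` always. -/
def S_Jset : Prop :=
  ∀ (ε δ : ℝ) (C C1 J M0 K : ℕ) (Bf : ℕ → ℕ), Prm ε δ C C1 J M0 K Bf → ∃ n0 : ℕ, ∀ n : ℕ, n0 ≤ n →
    ∀ k : ℕ, Host ε C C1 M0 n k →
    ∀ (V : Type) [Fintype V] [DecidableEq V] (T : SimpleGraph V) [DecidableRel T.Adj], T.IsTree →
    ∀ X : Finset V, (∀ a b, T.Adj a b → (a ∈ X ↔ b ∉ X)) → X.card = n → Xᶜ.card = n →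
    ((∃ x ∈ X, k < 2 * dg T x) ∨ 3 * k < 5 * ∑ x ∈ X.filter (fun x => k < C * dg T x), dg T x) →
    ((∃ x ∈ Xᶜ, k < 2 * dg T x) ∨ 3 * k < 5 * ∑ x ∈ Xᶜ.filter (fun x => k < C * dg T x), dg T x) →
    ∃ (H : Finset V) (ys r0 : V), X.filter (fun x => k < C * dg T x) ⊆ H ∧ H ⊆ X ∧ (∀ x ∈ H, 2 ≤ dg T x) ∧
      H.card ≤ C + 1 ∧ (Xᶜ.filter (fun x => k < C * dg T x)).card ≤ C ∧
      k ≤ 2 * ∑ x ∈ Xᶜ.filter (fun x => k < C * dg T x), dg T x ∧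
      k + 2 * H.card ≤ 2 * ∑ x ∈ H, dg T x + 1 ∧ ys ∈ Xᶜ.filter (fun x => k < C * dg T x) ∧
      r0 ∈ X ∧ dg T r0 = 1 ∧ T.Adj r0 ys ∧ k ≤ n + 4 * C * ((lf T X).filter (fun r => T.Adj r ys)).card ∧
      (2 ≤ H.card ∨ (H.Nonempty ∧ ∀ x ∈ H, T.Adj ys x))

/-- [Jcount] The set `U` of the fillers of the hub (outside the zone). `Pd` are the fillers of the medium vertices,
`E` is a reserve of leaves at `ys`.
PROOF. `D = ∑_H dg`, `m = |H|`, `p = k - D - cL` (`≥ 0`: `D ≤ n + m`, `k - n ≥ ε n` is large), `s1 = ∑_O (dg - 2)`,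
`O` = nonleaves of `X` not in `H`. `|lf| = 1 + D - 2m + s1` (`S_cnt` (3)). `Av = lf \ (Pd ∪ E)`,
`|Av| ≥ |lf| - s1 - cL = 1 + D - 2m - cL ≥ k - D - cL = p` (`k + 2m ≤ 2D + 1`).
`Fz = {r ∈ Av : par r ∈ spJ}`. If `|Fz| ≥ p` choose `U ⊆ Fz`; then `ltJ = ∅`, `bJ = ∅`, `xbJ = ∅`, and `(k - n)/2 ≤ p`
since `p ≥ k - n - m - cL`. Otherwise choose `Fz ⊆ U ⊆ Av`, `|U| = p`. Every vertex of `ltJ` is `par r` for some
`r ∈ U` with `par r ∉ spJ` and `par (par r) ∈ H`; the `r ∈ bJ` are the others of `U \ Fz`: `|ltJ| + |bJ| ≤ p - |Fz|`.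
It remains to see `(1+δ) ∑_{xbJ} (dg - 1) + (k-n)/2 ≤ |Fz|`.
(a) `∑_{xbJ} (dg - 1) = ∑_{xbJ} (dg - 2) + |xbJ| ≤ s1 + |xbJ|` (`xbJ ⊆ O`: such an `x` is the parent of a vertex
`≠ ys`, `S_rt` (5)). `|xbJ| ≤ M_Y := #{y ∈ Xᶜ : 2 ≤ dg y, y not adjacent to HX}`: map `x ∈ xbJ` to some `y = par r`,
`r ∈ U`, `y ∉ spJ`, `par y = x`. (`y ≠ ys` because `ys ∈ HY ⊆ spJ`; `r` and `par y` are two neighbours of `y`; a
neighbour of `y` in `HX ⊆ H` would be `par y = x ∉ H` or a child `x'` of `y` with `x' ∈ H`, `y = par x' ∈ spJ`.)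
`M_Y ≤ M_X` by hypothesis. `s1 ≤ n`, `|xbJ| ≤ n`. So `(1+δ) ∑_{xbJ} (dg-1) ≤ s1 + M_X + 2 δ n`.
(b) `|Fz| ≥ #{r ∈ lf : r adjacent to HY} - |Pd| - cL` (`par r` is the neighbour of `r`, `HY ⊆ spJ`), and by `S_Jflex`
(`S = HY ∋ ys`) `#{…} ≥ ∑_{HY} dg + 1 + M_X - |HY| - (n - |lf|) ≥ k/2 + M_X - C - n + D - 2m + s1
≥ k - n + M_X + s1 - 4 C` (`2 D ≥ k`). So `|Fz| - (1+δ)∑_{xbJ} (dg-1) ≥ (k - n) - |Pd| - 2 δ n - (cL + 4C + 8)` and
`|Pd| ≤ 4n/C ≤ 0.04 ε n`, `2 δ n ≤ 0.04 ε n`, `k - n ≥ ε n`: at least `(k-n)/2` for large `n`. -/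
def S_Jcount : Prop :=
  ∀ (ε δ : ℝ) (C C1 J M0 K : ℕ) (Bf : ℕ → ℕ), Prm ε δ C C1 J M0 K Bf → ∃ n0 : ℕ, ∀ n : ℕ, n0 ≤ n →
    ∀ k : ℕ, Host ε C C1 M0 n k →
    ∀ (V : Type) [Fintype V] [DecidableEq V] (T : SimpleGraph V) [DecidableRel T.Adj], T.IsTree →
    ∀ X : Finset V, (∀ a b, T.Adj a b → (a ∈ X ↔ b ∉ X)) → X.card = n → Xᶜ.card = n →
    ∀ (ys : V) (par : V → V) (μ : V → ℕ), Rt T X ys par μ →
    ∀ HX HY H Pd E : Finset V, HY ⊆ Xᶜ → ys ∈ HY → HY.card ≤ C → HX ⊆ H → H ⊆ X → (∀ x ∈ H, 2 ≤ dg T x) →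
    H.card ≤ C + 1 → k + 2 * H.card ≤ 2 * ∑ x ∈ H, dg T x + 1 → k ≤ 2 * ∑ y ∈ HY, dg T y →
    (Xᶜ.filter (fun y => 2 ≤ dg T y ∧ ∀ x ∈ HX, ¬ T.Adj y x)).card ≤
      (X.filter (fun x => 2 ≤ dg T x ∧ ∀ y ∈ HY, ¬ T.Adj x y)).card →
    Pd ⊆ lf T X → E ⊆ lf T X → Disjoint Pd E → E.card = cL C M0 → (∀ r ∈ E, par r = ys) →
    Pd.card ≤ ∑ x ∈ X.filter (fun x => x ∉ H ∧ 2 ≤ dg T x), (dg T x - 2) → C * Pd.card ≤ 4 * n →
    ∃ U ⊆ lf T X, Disjoint U Pd ∧ Disjoint U E ∧ U.card + ∑ x ∈ H, dg T x + cL C M0 = k ∧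
      ((ltJ X ys par HY H U).card : ℝ) + (bJ par HY H U).card +
        (1 + δ) * ∑ x ∈ xbJ X par HY H U, ((dg T x : ℝ) - 1) + ((k : ℝ) - n) / 2 ≤ U.card

/-- [Jpick] The vertex `xt ∈ H` with many children in `ntJ`, the set `Top`, the covering children, the shifts `sh`.
PROOF. `D = ∑_H dg`, `m = |H|`. The children of `H` number `D - m` (`S_rt` (1); the sets `kids x` are disjoint), at most
`|spJ| ≤ 2C + 1` of them are special, so `|ntJ| ≥ D - m - (2C+1) - |ltJ|` and, with `|U| = k - D - cL` and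
`2 |ltJ| + k ≤ 2|U| + n`: `2 |ntJ| ≥ 2D - 2m - 4C - 2 - (2k - 2D - 2 cL + n - k) ≥ 4D - k - n - 8C - 4 ≥ (k - n) - 8 C - 4`
(`2D ≥ k`), large. Let `xt ∈ H` have the largest number of children in `ntJ`: at least `|ntJ| / (C+1) ≥ cσ + C + 1`.
Choose disjoint `Top` (`cσ` elements) and an injection `cov` of `H \ {xt}` into the rest. If `xt` is not adjacent to `ys`
then `2 ≤ |H|`: let `x2 ∈ H \ {xt}` and `c2` a child of `x2` (`dg x2 ≥ 2`, `S_rt` (1)). `sh`: a bijection of `H` onto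
`[0, m)` with `sh xt = m - 1` and (if `m ≥ 2`) `sh x2 = 0`. -/
def S_Jpick : Prop :=
  ∀ (ε δ : ℝ) (C C1 J M0 K : ℕ) (Bf : ℕ → ℕ), Prm ε δ C C1 J M0 K Bf → ∃ n0 : ℕ, ∀ n : ℕ, n0 ≤ n →
    ∀ k : ℕ, Host ε C C1 M0 n k →
    ∀ (V : Type) [Fintype V] [DecidableEq V] (T : SimpleGraph V) [DecidableRel T.Adj],
    ∀ X : Finset V, (∀ a b, T.Adj a b → (a ∈ X ↔ b ∉ X)) →
    ∀ (ys : V) (par : V → V) (μ : V → ℕ), Rt T X ys par μ →
    ∀ HY H U : Finset V, HY.card ≤ C → H ⊆ X → (∀ x ∈ H, 2 ≤ dg T x) → H.card ≤ C + 1 →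
    k ≤ 2 * ∑ x ∈ H, dg T x → (2 ≤ H.card ∨ (H.Nonempty ∧ ∀ x ∈ H, T.Adj ys x)) →
    U.card + ∑ x ∈ H, dg T x + cL C M0 = k → 2 * (ltJ X ys par HY H U).card + k ≤ 2 * U.card + n →
    ∃ (xt x2 c2 : V) (Top : Finset V) (cov : V → V) (sh : V → ℕ), xt ∈ H ∧ Top ⊆ ntJ X ys par HY H U ∧
      Top.card = cσ C M0 ∧ (∀ c ∈ Top, par c = xt) ∧
      (∀ x ∈ H, x ≠ xt → cov x ∈ ntJ X ys par HY H U ∧ cov x ∉ Top ∧ par (cov x) = xt) ∧
      (∀ x ∈ H, ∀ x' ∈ H, x ≠ xt → x' ≠ xt → cov x = cov x' → x = x') ∧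
      (∀ x ∈ H, sh x < H.card) ∧ (∀ x ∈ H, ∀ x' ∈ H, sh x = sh x' → x = x') ∧ sh xt + 1 = H.card ∧
      (¬ T.Adj ys xt → x2 ∈ H ∧ x2 ≠ xt ∧ sh x2 = 0 ∧ c2 ∈ kids X ys par x2) ∧
      cLm C M0 + cσ C M0 + 2 * C + 5 ≤ (ntJ X ys par HY H U).card

/-- [Jlay] The labels `f` of the children of `H` and of the root `ys`, and the slots `gs` of the special vertices which
are not children of `H`. The coordinates of the edges at `H` (`u y - sh x`) are in `[0, D')`, `D' = ∑_H dg + cL`, those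
not used are in the zone `[Z0, Z0 + Lz)`; `D' = Z0 + Lz + |O2| + cσ`.
PROOF. `m = |H|`, `Sp = spJ HY H par` (`|Sp| ≤ 2C+1`, `ys ∈ Sp`). `Cv = {cov x : x ∈ H, x ≠ xt, x` not adjacent to
`ys}`, `Cs = {c2}` if `xt` is not adjacent to `ys` and `Cs = ∅` otherwise. `ZL = Sp ∪ Cv ∪ Cs` (the vertices with labels in
the zone), `O1 = ntJ \ (Top ∪ Cv ∪ Cs)`, `O2 = ltJ \ Cs`. The children of `H` are the disjoint union of `O1`, `O2`, `Top`
and (children of `H`) ∩ `ZL`. (`ntJ`, `ltJ` are disjoint from `Sp`; `c2 ∉ Top ∪ Cv` since `par c2 = x2 ≠ xt`.) A vertex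
`y ∈ O1 ∪ O2 ∪ Top ∪ Cv` is adjacent to no vertex of `H` except `par y` (a child `x` of `y` in `H` would give
`y = par x ∈ Sp`). Let `e` be the number of the edges `x y` with `x ∈ H`, `y ∈ ZL`; `e ≤ m |ZL| ≤ (C+1)(3C+4)`. The
number of all edges at `H` is `D = ∑_H dg = e + |O1| + |O2| + cσ`. Put `Lz = cL + e ≤ cLm`, `Z0 = |O1|`; then
`D' = Z0 + Lz + |O2| + cσ`. `Z0 ≥ |ntJ| - cσ - C - 2 ≥ cLm + C + 3`.
`f` on `O1`: enumerate `O1` with `sh ∘ par` nondecreasing (`TH.S_enum`), `f y = (rank of y) + sh (par y)`: coordinate =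
rank `∈ [0, Z0)`, labels strictly increasing, in `[0, Z0 + m - 1)`. On `O2` the same, `f y = Z0 + Lz + rank + sh (par y)`,
ranks in `[0, |O2|)`; on `Top`: `f y = Z0 + Lz + |O2| + rank + (m - 1)`, ranks in `[0, cσ)`. Labels on `O2 ∪ Top` are
strictly increasing (`sh ≤ m - 1`), in `[Z0 + Lz, D' + m - 1)`.
Zone: `v = Z0 + 2C + 2 =: f ys`; `f (cov x) = v + (m-1) - sh x` for `cov x ∈ Cv`; `f c2 = v - (m-1)` if `Cs ≠ ∅`
(then `m ≥ 2`); for the other `y ∈ Sp \ ({ys} ∪ Cs)` let `gs y = Z0 + 4C + 5 + (M0 + C + 1) idx y`, `idx` an injection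
into `[0, 2C+1)`, and `f y = gs y` if `y` is a child of `H`. Let `u` be as in the statement. Coordinates `u y - sh x` of the
edges with `y ∈ ZL`: `y = ys`: `v - sh x` for the `x ∈ H` adjacent to `ys`; `y = cov x'`: only the edge to `xt`,
`v - sh x'`, where `x'` is not adjacent to `ys`, `x' ≠ xt`; `y = c2`: `v - (m-1) - sh x` for the `x ∈ H` adjacent to `c2`,
for `x = x2` this is `v - (m-1) = v - sh xt` (`xt` is not adjacent to `ys`), for the others it is `< v - (m-1)`; these are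
different and in `[v - 2(m-1), v] ⊆ [Z0, Z0 + 2C + 2]`. Other `y`: in `[gs y - (m-1), gs y + M0)`, disjoint intervals for
different `y`, contained in `[Z0 + 3C + 5, Z0 + cL)`. So all coordinates of `H`-edges are different; there are `D` of
them in `[0, D')`, those outside `[Z0, Z0 + Lz)` are all used (by `O1`, `O2`, `Top`). [D]: `v - sh x` is the coordinate of the
edge `x ys`, or `xt (cov x)`, or `x2 c2`. Labels: zone labels are in `[Z0 + C + 2, Z0 + cL)`, different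
(`v`, `v + 1..v + (m-1)`, `v - (m-1)`, slots), those of `O1` are `< Z0 + m - 1`. [G]: `par r ∈ Sp` has a zone label; if
`par (par r) ∈ H` and `par r ∉ Sp` then (`r ∈ U`) `par r ∈ ltJ`, so it is `c2` or in `O2`; labels of `O2` are
`< Z0 + Lz + |O2| + m ≤ D' - Lz` as `cσ ≥ Lz + m`. -/
def S_Jlay : Prop :=
  ∀ (V : Type) [Fintype V] [DecidableEq V] (T : SimpleGraph V) [DecidableRel T.Adj],
    ∀ X : Finset V, (∀ a b, T.Adj a b → (a ∈ X ↔ b ∉ X)) →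
    ∀ (ys : V) (par : V → V) (μ : V → ℕ), Rt T X ys par μ →
    ∀ (C M0 : ℕ) (HY H U Top : Finset V) (xt x2 c2 : V) (cov : V → V) (sh : V → ℕ), 1 ≤ M0 →
    HY ⊆ Xᶜ → ys ∈ HY → HY.card ≤ C → H ⊆ X → (∀ x ∈ H, 2 ≤ dg T x) → H.card ≤ C + 1 → U ⊆ lf T X →
    xt ∈ H → Top ⊆ ntJ X ys par HY H U → Top.card = cσ C M0 → (∀ c ∈ Top, par c = xt) →
    (∀ x ∈ H, x ≠ xt → cov x ∈ ntJ X ys par HY H U ∧ cov x ∉ Top ∧ par (cov x) = xt) →
    (∀ x ∈ H, ∀ x' ∈ H, x ≠ xt → x' ≠ xt → cov x = cov x' → x = x') →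
    (∀ x ∈ H, sh x < H.card) → (∀ x ∈ H, ∀ x' ∈ H, sh x = sh x' → x = x') → sh xt + 1 = H.card →
    (¬ T.Adj ys xt → x2 ∈ H ∧ x2 ≠ xt ∧ sh x2 = 0 ∧ c2 ∈ kids X ys par x2) →
    cLm C M0 + cσ C M0 + 2 * C + 5 ≤ (ntJ X ys par HY H U).card →
    ∃ (Z0 Lz : ℕ) (f gs : V → ℤ), Lz ≤ cLm C M0 ∧ Lz + C + 2 ≤ Z0 ∧ C + 2 ≤ Lz ∧
      Z0 + Lz + cσ C M0 ≤ ∑ x ∈ H, dg T x + cL C M0 ∧
      ∑ x ∈ H, dg T x + cL C M0 ≤ Z0 + Lz + cσ C M0 + (ltJ X ys par HY H U).card ∧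
      ∀ u : V → ℤ, (∀ y ∉ X, y = ys ∨ par y ∈ H → u y = f y) →
        (∀ y ∉ X, y ≠ ys → par y ∉ H → y ∈ spJ HY H par → gs y ≤ u y ∧ u y < gs y + M0) →
        -- [A], [B]: the coordinates of the edges at `H`
        (∀ x ∈ H, ∀ y, T.Adj x y → 0 ≤ u y - sh x ∧ u y - sh x < ((∑ x ∈ H, dg T x + cL C M0 : ℕ) : ℤ)) ∧
        (∀ x ∈ H, ∀ x' ∈ H, ∀ y y', T.Adj x y → T.Adj x' y' → u y - sh x = u y' - sh x' → x = x' ∧ y = y') ∧
        -- [C]: the free coordinates are in the zone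
        (∀ δ : ℤ, 0 ≤ δ → δ < ((∑ x ∈ H, dg T x + cL C M0 : ℕ) : ℤ) →
          (∀ x ∈ H, ∀ y, T.Adj x y → u y - sh x ≠ δ) → (Z0 : ℤ) ≤ δ ∧ δ < Z0 + Lz) ∧
        -- [D]: the coordinates `u ys - sh x` are used
        (∀ x ∈ H, ∃ x' ∈ H, ∃ y', T.Adj x' y' ∧ u y' - sh x' = u ys - sh x) ∧
        -- [E], [F]: the labels
        (∀ y ∉ X, y = ys ∨ par y ∈ H ∨ y ∈ spJ HY H par →
          0 ≤ u y ∧ u y < ((∑ x ∈ H, dg T x + cL C M0 + H.card : ℕ) : ℤ)) ∧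
        (∀ y ∉ X, ∀ y' ∉ X, y = ys ∨ par y ∈ H ∨ y ∈ spJ HY H par →
          y' = ys ∨ par y' ∈ H ∨ y' ∈ spJ HY H par → u y = u y' → y = y') ∧
        -- [G]: the labels of the parents of the leaves in `U`
        (∀ r ∈ U, par r ∈ spJ HY H par ∨ par (par r) ∈ H →
          (Z0 : ℤ) ≤ u (par r) ∧ u (par r) + Lz < ((∑ x ∈ H, dg T x + cL C M0 : ℕ) : ℤ)) ∧
        (Z0 : ℤ) ≤ u ys ∧ u ys < Z0 + Lz

/-- [Jgrp] The regions of the labels of the children of the vertices not in `H`: group `1` contains `XB`, its region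
begins at least `b + Lz` after `D'`; group `0` before it, group `2` after it.
PROOF. `D = ∑_H dg`, `D' = D + cL`, `m = |H|`, `wt x = (1+δ)(dg x - 1)`, `O` = nonleaves not in `H`, `bm = 2k/C ≥ wt x` for
`x ∈ O`, `W = ∑_{O} wt`, `W1 = ∑_{XB} wt`. `L1 = b + Lz + K + ⌈bm⌉ + m + 5`, `bs 0 = D' + m`, `len 0 = L1`, `bs 1 = bs 0 + L1`,
`len 1 = ⌈W1⌉ + K + 1`, `bs 2 = bs 1 + len 1`, `len 2 = k - bs 2`. By hypothesis `b + W1 ≤ p - z - (k-n)/2`, and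
`p = k - D'`, `2 p ≤ 2 (k - D) ≤ k`; so `bs 2 ≤ k` and the last claim hold: `bs 1 + len 1 - Z0 + p + Lz ≤
(Lz + cσ + z) + m + L1 + (W1 + K + 2) + p + Lz ≤ [z + b + W1] + p + 2k/C + const ≤ 2p - (k-n)/2 + 2k/C + const ≤ k`
since `2k/C ≤ 8n/C ≤ 0.08 ε n`, `(k-n)/2 ≥ 0.5 ε n`. Groups: `XB` is group 1. By the lemma in `S_seg` (greedy; or
`S_seg` itself with two of the three capacities) choose `A0 ⊆ O \ XB` with `wt(A0) ≤ L1 - K` and (`A0 = O \ XB` or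
`wt(A0) > L1 - K - bm`): group 0; the rest is group 2, and if it is not empty then
`wt(rest) + K ≤ W - W1 - (L1 - K - bm) + K ≤ len 2 = k - D' - m - L1 - ⌈W1⌉ - K - 1`, because
`W + 3K + bm + D' + m + 2 ≤ k`: `W = (1+δ)(n - 1 - ∑_H (dg-1)) ≤ (1+δ) n - D + m`, `k - n ≥ ε n`, `δ n ≤ ε n/50`,
`bm ≤ 0.08 ε n`. -/
def S_Jgrp : Prop :=
  ∀ (ε δ : ℝ) (C C1 J M0 K : ℕ) (Bf : ℕ → ℕ), Prm ε δ C C1 J M0 K Bf → ∃ n0 : ℕ, ∀ n : ℕ, n0 ≤ n →
    ∀ k : ℕ, Host ε C C1 M0 n k →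
    ∀ (V : Type) [Fintype V] [DecidableEq V] (T : SimpleGraph V) (X H XB : Finset V) (b z p Z0 Lz : ℕ),
    H.card ≤ C + 1 → (∀ x ∈ H, 1 ≤ dg T x) →
    (∑ x ∈ H, (dg T x - 1)) + ∑ x ∈ X.filter (fun x => x ∉ H ∧ 2 ≤ dg T x), (dg T x - 1) + 1 = n →
    XB ⊆ X.filter (fun x => x ∉ H ∧ 2 ≤ dg T x) → (∀ x ∈ X, x ∉ H → C * dg T x ≤ k) →
    k ≤ 2 * ∑ x ∈ H, dg T x → p + ∑ x ∈ H, dg T x + cL C M0 = k → Lz ≤ cLm C M0 →
    ∑ x ∈ H, dg T x + cL C M0 ≤ Z0 + Lz + cσ C M0 + z →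
    (z : ℝ) + b + (1 + δ) * ∑ x ∈ XB, ((dg T x : ℝ) - 1) + ((k : ℝ) - n) / 2 ≤ p →
    ∃ (grp : V → Fin 3) (bs : Fin 3 → ℤ) (len : Fin 3 → ℕ), (∀ x ∈ XB, grp x = 1) ∧
      (∀ i : Fin 3, (∀ x ∈ X, x ∉ H → 2 ≤ dg T x → grp x ≠ i) ∨
        (1 + δ) * ∑ x ∈ X.filter (fun x => x ∉ H ∧ 2 ≤ dg T x ∧ grp x = i), ((dg T x : ℝ) - 1) + K ≤ len i) ∧
      ((∑ x ∈ H, dg T x + cL C M0 + H.card : ℕ) : ℤ) ≤ bs 0 ∧ bs 0 + len 0 ≤ bs 1 ∧
      bs 1 + len 1 ≤ bs 2 ∧ bs 2 + len 2 ≤ k ∧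
      ((∑ x ∈ H, dg T x + cL C M0 + b + Lz : ℕ) : ℤ) < bs 1 ∧ bs 1 + len 1 - Z0 + p + Lz ≤ k

/-- [Jloc] The hub: the part `H ∪ E ∪ U` with `N = k`.
PROOF. The edges at `H` have the different coordinates `u y - sh x ∈ [0, D')`; the number of the free `δ ∈ [0, D')` is
`D' - ∑_H dg = |E|`; let `ε : E → ` free coordinates be a bijection, `a r = u ys - ε r` for `r ∈ E`. Enumerate `U` as
`r_0, r_1, …, r_{p-1}` with `u (pr r_j)` nonincreasing (`TH.S_enum` with `g r = (β' - u (pr r)).toNat`); `r_j` gets the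
coordinate `D' + j`, `a r_j = u (pr r_j) - (D' + j)`. All `k` coordinates are different integers in `[0, k)`.
Shifts: `U`: strictly decreasing, `a r_0 - a r_{p-1} ≤ (β' - 1 - Z0) + (p - 1) < k`, so different mod `k`. `U1` and `U2`:
labels of `U1` are `> D' + |U1| + Lz`, those of `U2` are `< D' - Lz`; so the elements of `U1` are `r_j`, `j < |U1|`,
and `Lz < a r_j ≤ β' - 1 - D' < k - Lz` for them (`β' ≤ k - Lz - p + Z0`, `Z0 ≤ D'`); for the others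
`-k + Lz < Z0 - k + 1 ≤ a r_j < -Lz`. So `a r_j` is not congruent mod `k` to a number in `[-Lz, Lz]`. The shifts
`sh x < |H| ≤ Lz` (`x ∈ H`) and `a r ∈ (-Lz, Lz)` (`r ∈ E`; `ε r` and `u ys` are in the zone) are in `[-Lz, Lz]`,
`2 Lz < k` (`Lz ≤ Z0`, `Z0 + Lz ≤ D'` by [C] or as `Z0 + Lz ≤ …`), so it suffices that they are different integers:
`sh` is injective, `ε` is injective, and `sh x = u ys - ε r` would mean that `ε r = u ys - sh x` is free, contradicting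
[D]. (If `k` is small: `2 Lz < k` follows from `Lz ≤ Z0` and `Z0 + Lz < D'+1 ≤ k + 1` when `E ≠ ∅`; the hypothesis
`2 * Lz < k` is included.) -/
def S_Jloc : Prop :=
  ∀ (V : Type) [Fintype V] [DecidableEq V] (T : SimpleGraph V) (k Z0 Lz D' : ℕ) (u : V → ℤ)
    (H E U1 U2 : Finset V) (ys : V) (pr : V → V) (sh : V → ℕ) (β' : ℤ),
    Disjoint H E → Disjoint H U1 → Disjoint H U2 → Disjoint E U1 → Disjoint E U2 → Disjoint U1 U2 →
    (∀ r ∈ E ∪ U1 ∪ U2, ∀ y, T.Adj r y ↔ y = pr r) → (∀ r ∈ E, pr r = ys) →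
    (∀ x ∈ H, sh x < H.card) → (∀ x ∈ H, ∀ x' ∈ H, sh x = sh x' → x = x') → H.card ≤ Lz →
    (∀ x ∈ H, ∀ y, T.Adj x y → 0 ≤ u y - sh x ∧ u y - sh x < D') →
    (∀ x ∈ H, ∀ x' ∈ H, ∀ y y', T.Adj x y → T.Adj x' y' → u y - sh x = u y' - sh x' → x = x' ∧ y = y') →
    (∀ δ : ℤ, 0 ≤ δ → δ < D' → (∀ x ∈ H, ∀ y, T.Adj x y → u y - sh x ≠ δ) → (Z0 : ℤ) ≤ δ ∧ δ < Z0 + Lz) →
    (∀ x ∈ H, ∃ x' ∈ H, ∃ y', T.Adj x' y' ∧ u y' - sh x' = u ys - sh x) →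
    (Z0 : ℤ) ≤ u ys → u ys < Z0 + Lz → Lz ≤ Z0 → Z0 ≤ D' → 2 * Lz < k →
    ∑ x ∈ H, dg T x + E.card = D' → D' + U1.card + U2.card = k →
    (∀ r ∈ U1, (D' : ℤ) + U1.card + Lz < u (pr r) ∧ u (pr r) < β') →
    (∀ r ∈ U2, (Z0 : ℤ) ≤ u (pr r) ∧ u (pr r) + Lz < D') →
    (D' : ℤ) ≤ β' → β' - Z0 + (U1.card + U2.card) + Lz ≤ k →
    Loc T k u (H ∪ E ∪ U1 ∪ U2)

/-- [J] **Construction (J).**
PROOF. `HX`, `HY`: heavy vertices of `X`, `Xᶜ`. `S_Jset`: `H`, `ys`, `r0`. For `x ∈ X \ H` with `C1 ≤ dg x` (the set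
`Mst`) `C dg x ≤ k` (`HX ⊆ H`), choose `Nm x` by `Host.dN`, `q x = Nm x - dg x`. `S_plan2` with root `ys`, leaf `r0`,
`Spf par = spJ HY H par` (`≤ 2C + 1` elements), `Rv` = the leaves in `X` adjacent to `ys`: `par, μ, last, P`.
`Pd = ⋃_{Mst} P x`: `|Pd| ≤ ∑_O (dg - 2)`, `C |Pd| ≤ 4 n` (`(C-1) q x ≤ dg x`, `∑ dg x ≤ 2 ∑ (dg x - 1) ≤ 2n`).
`|Rv \ Pd| ≥ 2|Rv|/3 ≥ cL` (`4 C |Rv| ≥ k - n` is large): choose `E ⊆ Rv \ Pd`, `|E| = cL`; `par r = ys` for `r ∈ E`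
(`S_rt` (6)). `S_Jcount`: `U`. `p = |U|`, `b = |bJ|`, `z = |ltJ|`, `XB = xbJ`. `S_Jpick`, `S_Jlay`: `Z0, Lz, f, gs`.
`S_Jgrp` (`S_cnt` (4)): `grp, bs, len`. `S_lab2` with `Hs = H`, `Sp = spJ HY H par`, `fH y w = f y`: `u`; and the
properties [A]-[G] of `S_Jlay`. Labels: the vertices `ys`, children of `H`, special vertices have different labels in
`[0, D' + m)`; the others have labels in the region of their group, `≥ bs 0 ≥ D' + m`, `< k`, different. `S_Jloc` with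
`U1 = bJ`, `U2 = U \ bJ`, `β' = bs 1 + len 1`: for `r ∈ bJ` the vertex `y = par r` is not `ys`, `par y ∈ xbJ` has group `1`, so
`u y ∈ [bs 1, β')` and `bs 1 > D' + b + Lz`; for `r ∈ U \ bJ` use [G]. `HP = H ∪ E ∪ U`; `S_cX` (`P x ∩ HP = ∅` for
`x ∈ Mst`: `U`, `E` are disjoint from `Pd`, `H` has no leaves), `TH.S_crit`. -/
def S_J : Prop :=
  ∀ (ε δ : ℝ) (C C1 J M0 K : ℕ) (Bf : ℕ → ℕ), Prm ε δ C C1 J M0 K Bf → ∃ n0 : ℕ, ∀ n : ℕ, n0 ≤ n →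
    ∀ k : ℕ, Host ε C C1 M0 n k →
    ∀ (V : Type) [Fintype V] [DecidableEq V] (T : SimpleGraph V) [DecidableRel T.Adj], T.IsTree →
    ∀ X : Finset V, (∀ a b, T.Adj a b → (a ∈ X ↔ b ∉ X)) → X.card = n → Xᶜ.card = n →
    ((∃ x ∈ X, k < 2 * dg T x) ∨ 3 * k < 5 * ∑ x ∈ X.filter (fun x => k < C * dg T x), dg T x) →
    ((∃ x ∈ Xᶜ, k < 2 * dg T x) ∨ 3 * k < 5 * ∑ x ∈ Xᶜ.filter (fun x => k < C * dg T x), dg T x) →
    (Xᶜ.filter (fun y => 2 ≤ dg T y ∧ ∀ x ∈ X.filter (fun x => k < C * dg T x), ¬ T.Adj y x)).card ≤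
      (X.filter (fun x => 2 ≤ dg T x ∧ ∀ y ∈ Xᶜ.filter (fun y => k < C * dg T y), ¬ T.Adj x y)).card →
    Decomposes T (completeBipartiteGraph (Fin (2 * n - 1)) (Fin k))

/-- [main] **The theorem.**
PROOF. `ε ≤ 1` without loss of generality. `ε' = ε / 3`; `S_prm` for `ε'` gives the parameters. `S_k3` (`2 ≤ C ≤ C1`) with
`lam = 1 + ε'`: `k` with `(1+ε') n ≤ k ≤ (1+ε')(1 + 1/C) n ≤ (1 + 3 ε') n` (`1/C ≤ ε'/100`), so `Host ε' C C1 M0 n k`.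
Let `T` be a balanced tree, `X = {c v = true}`, `|X| = |Xᶜ| = n`. If `2 dg ≤ k` on `X` and `5 ∑_{heavy} dg ≤ 3 k`: `S_S`.
The same for `Xᶜ` (`Xᶜᶜ = X`). Otherwise both classes satisfy the hypotheses of `S_J`; `S_J` for `X` or for `Xᶜ`
according to which of the two numbers in the last hypothesis is larger (they are exchanged when `X` is replaced by
`Xᶜ`). `k > 0`. -/
def S_main : Prop :=
  ∀ ε : ℝ, 0 < ε → ∃ n0 : ℕ, ∀ n : ℕ, n0 ≤ n → ∃ k ∈ S n, (k : ℝ) ≤ (1 + ε) * n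

end Pool.Agent.Lib.MP_7c15de_co.AS
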